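import Mathlib

set_option autoImplicit false

open MeasureTheory Metric Set Filter Topology

namespace Pool.Agent.MP8995

/-- `j`-th partial derivative of a real function on `Fin n → ℝ`. -/
noncomputable def pd {n : ℕ} (j : Fin n) (φ : (Fin n → ℝ) → ℝ) (x : Fin n → ℝ) : ℝ :=
  fderiv ℝ φ x (Pi.single j (1 : ℝ) : Fin n → ℝ)

/-- Jacobian matrix (row `i` is the gradient of the `i`-th component). -/
noncomputable def jac {n : ℕ} (g : (Fin n → ℝ) → (Fin n → ℝ)) (x : Fin n → ℝ) :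
    Matrix (Fin n) (Fin n) ℝ :=
  fun i j => pd j (fun y => g y i) x

/-- Divergence of a vector field. -/
noncomputable def dv {n : ℕ} (V : (Fin n → ℝ) → (Fin n → ℝ)) (x : Fin n → ℝ) : ℝ :=
  ∑ j, pd j (fun y => V y j) x

/-- Sum of the absolute values of the entries of a matrix. -/
noncomputable def msum {n : ℕ} (M : Matrix (Fin n) (Fin n) ℝ) : ℝ := ∑ i, ∑ j, |M i j|

/-- A measurable integrable map `f` on `Fin n → ℝ` whose weak derivative on the bounded open set
`U` is the integrable matrix field `Df`. -/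
structure Sob (n : ℕ) (U : Set (Fin n → ℝ)) (f : (Fin n → ℝ) → (Fin n → ℝ))
    (Df : (Fin n → ℝ) → Matrix (Fin n) (Fin n) ℝ) : Prop where
  isOpen : IsOpen U
  bdd : Bornology.IsBounded U
  meas_f : ∀ i, Measurable fun x => f x i
  meas_Df : ∀ i j, Measurable fun x => Df x i j
  int_f : ∀ i, Integrable fun x => f x i
  int_Df : ∀ i j, Integrable fun x => Df x i j
  weak : ∀ φ : (Fin n → ℝ) → ℝ, ContDiff ℝ (⊤ : ℕ∞) φ → HasCompactSupport φ → tsupport φ ⊆ U →
    ∀ i j, ∫ x, f x i * pd j φ x = - ∫ x, Df x i j * φ x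

/-- The integration by parts identity (`Det Df = det Df` in the sense of composed test fields). -/
def IBP (n : ℕ) (U : Set (Fin n → ℝ)) (f : (Fin n → ℝ) → (Fin n → ℝ))
    (Df : (Fin n → ℝ) → Matrix (Fin n) (Fin n) ℝ) : Prop :=
  ∀ ζ : (Fin n → ℝ) → ℝ, ContDiff ℝ (⊤ : ℕ∞) ζ → HasCompactSupport ζ → tsupport ζ ⊆ U →
  ∀ X : (Fin n → ℝ) → (Fin n → ℝ), ContDiff ℝ (⊤ : ℕ∞) X → HasCompactSupport X →
    ∫ x, ζ x * dv X (f x) * (Df x).det =
      - ∫ x, ∑ j, pd j ζ x * ((Df x).adjugate.mulVec (X (f x))) j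

/-- A mapping of finite distortion on the bounded open set `U` (extended by zero) with
exponentially integrable weight `w` (the weight is the power `1/(n-1)` of the inner distortion). -/
structure FD (n : ℕ) (U : Set (Fin n → ℝ)) (f : (Fin n → ℝ) → (Fin n → ℝ))
    (Df : (Fin n → ℝ) → Matrix (Fin n) (Fin n) ℝ) (w : (Fin n → ℝ) → ℝ) (l C₀ : ℝ) : Prop
    extends Sob n U f Df where
  meas_w : Measurable w
  w_nonneg : ∀ x, 0 ≤ w x
  l_pos : 0 < l
  exp_int : IntegrableOn (fun x => Real.exp (l * w x)) U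
  int_det : Integrable fun x => (Df x).det
  det_nonneg : ∀ x, 0 ≤ (Df x).det
  fin_dist : ∀ x, (Df x).det = 0 → Df x = 0
  zero_off : ∀ x, x ∉ U → Df x = 0
  adj_bound : ∀ x, msum (Df x).adjugate ^ n ≤ C₀ * (w x * (Df x).det) ^ (n - 1)

end Pool.Agent.MP8995
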