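import Mathlib
import Pool.Agent.Lib.MP_8995c5_an.Defs

/-!
# Mollifiers on `Fin n → ℝ`
-/

set_option autoImplicit false

open MeasureTheory Metric Set Filter Topology
open scoped ENNReal NNReal Convolution

namespace Pool.Agent.MP8995

variable {n : ℕ}

/-- The bump function number `k`, of outer radius `1/(k+1)`. -/
noncomputable def mbmp (n k : ℕ) : ContDiffBump (0 : Fin n → ℝ) where
  rIn := (2 * ((k : ℝ) + 1))⁻¹
  rOut := ((k : ℝ) + 1)⁻¹
  rIn_pos := by positivity
  rIn_lt_rOut := by
    have h : (0 : ℝ) < (k : ℝ) + 1 := by positivity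
    apply inv_strictAnti₀ h
    linarith

/-- The radius of the mollifier number `k`. -/
noncomputable def rad (k : ℕ) : ℝ := ((k : ℝ) + 1)⁻¹

theorem rad_pos (k : ℕ) : 0 < rad k := by unfold rad; positivity

theorem tendsto_rad : Tendsto rad atTop (𝓝 0) := by
  have := tendsto_one_div_add_atTop_nhds_zero_nat (𝕜 := ℝ)
  refine this.congr fun k => ?_
  simp [rad]

/-- The kernel. -/
noncomputable def ker (n k : ℕ) : (Fin n → ℝ) → ℝ := (mbmp n k).normed volume

theorem ker_nonneg (k : ℕ) (z : Fin n → ℝ) : 0 ≤ ker n k z := (mbmp n k).nonneg_normed z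

theorem contDiff_ker (k : ℕ) : ContDiff ℝ (⊤ : ℕ∞) (ker n k) := (mbmp n k).contDiff_normed

theorem continuous_ker (k : ℕ) : Continuous (ker n k) := (contDiff_ker k).continuous

theorem integrable_ker (k : ℕ) : Integrable (ker n k) := (mbmp n k).integrable_normed

theorem integral_ker (k : ℕ) : ∫ z, ker n k z = 1 := (mbmp n k).integral_normed

theorem ker_neg (k : ℕ) (z : Fin n → ℝ) : ker n k (-z) = ker n k z :=
  ContDiffBump.normed_neg (mbmp n k) z

theorem ker_sub_comm (k : ℕ) (x y : Fin n → ℝ) : ker n k (x - y) = ker n k (y - x) := by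
  rw [← ker_neg, neg_sub]

theorem tsupport_ker (k : ℕ) : tsupport (ker n k) = closedBall 0 (rad k) :=
  (mbmp n k).tsupport_normed_eq

theorem hasCompactSupport_ker (k : ℕ) : HasCompactSupport (ker n k) :=
  (mbmp n k).hasCompactSupport_normed

theorem ker_eq_zero {k : ℕ} {z : Fin n → ℝ} (h : rad k < ‖z‖) : ker n k z = 0 := by
  apply image_eq_zero_of_notMem_tsupport
  rw [tsupport_ker]
  simpa using h

theorem ker_le (k : ℕ) (z : Fin n → ℝ) : ker n k z ≤ (rad k)⁻¹ ^ n := by
  have h := (mbmp n k).normed_le_div_measure_closedBall_rIn (μ := volume) z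
  refine h.trans (le_of_eq ?_)
  have h1 : (volume : Measure (Fin n → ℝ)).real (closedBall (0 : Fin n → ℝ) (mbmp n k).rIn) =
      (rad k) ^ n := by
    rw [measureReal_def, Real.volume_pi_closedBall _ (mbmp n k).rIn_pos.le, ENNReal.toReal_ofReal]
    · simp only [Fintype.card_fin]
      congr 1
      simp only [mbmp, rad]
      field_simp
    · positivity [(mbmp n k).rIn_pos]
  rw [h1, one_div, inv_pow]

/-- Mollification. -/
noncomputable def moll (k : ℕ) (v : (Fin n → ℝ) → ℝ) (x : Fin n → ℝ) : ℝ :=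
  ∫ y, ker n k (x - y) * v y

theorem moll_eq_conv (k : ℕ) (v : (Fin n → ℝ) → ℝ) :
    moll k v = (ker n k) ⋆[ContinuousLinearMap.lsmul ℝ ℝ, volume] v := by
  funext x
  rw [convolution_lsmul_swap]
  rfl

theorem contDiff_moll (k : ℕ) {v : (Fin n → ℝ) → ℝ} (hv : LocallyIntegrable v) :
    ContDiff ℝ (⊤ : ℕ∞) (moll k v) := by
  rw [moll_eq_conv]
  exact (hasCompactSupport_ker k).contDiff_convolution_left _ (contDiff_ker k) hv

theorem integrable_ker_mul (k : ℕ) {v : (Fin n → ℝ) → ℝ} (hv : Integrable v) (x : Fin n → ℝ) :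
    Integrable fun y => ker n k (x - y) * v y := by
  refine hv.bdd_mul (c := (rad k)⁻¹ ^ n)
    ((continuous_ker k).comp (continuous_const.sub continuous_id)).aestronglyMeasurable ?_
  filter_upwards with y
  rw [Real.norm_eq_abs, abs_of_nonneg (ker_nonneg _ _)]
  exact ker_le _ _

theorem integrable_moll (k : ℕ) {v : (Fin n → ℝ) → ℝ} (hv : Integrable v) :
    Integrable (moll k v) := by
  rw [moll_eq_conv]
  exact (integrable_ker k).integrable_convolution _ hv

theorem integral_moll (k : ℕ) {v : (Fin n → ℝ) → ℝ} (hv : Integrable v) :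
    ∫ x, moll k v x = ∫ x, v x := by
  rw [moll_eq_conv, integral_convolution _ (integrable_ker k) hv, integral_ker]
  simp

theorem integral_ker_sub (k : ℕ) (x : Fin n → ℝ) : ∫ y, ker n k (x - y) = 1 := by
  rw [integral_sub_left_eq_self (fun y => ker n k y) volume x, integral_ker]

theorem integrable_ker_sub (k : ℕ) (x : Fin n → ℝ) : Integrable fun y => ker n k (x - y) :=
  (integrable_ker k).comp_sub_left x

theorem moll_const (k : ℕ) (c : ℝ) (x : Fin n → ℝ) : moll k (fun _ => c) x = c := by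
  simp [moll, integral_mul_const, integral_ker_sub]

theorem moll_mono (k : ℕ) {v w : (Fin n → ℝ) → ℝ} (hv : Integrable v) (hw : Integrable w)
    (h : ∀ᵐ y, v y ≤ w y) (x : Fin n → ℝ) : moll k v x ≤ moll k w x := by
  refine integral_mono_ae (integrable_ker_mul k hv x) (integrable_ker_mul k hw x) ?_
  filter_upwards [h] with y hy
  exact mul_le_mul_of_nonneg_left hy (ker_nonneg _ _)

theorem moll_nonneg (k : ℕ) {v : (Fin n → ℝ) → ℝ} (h : ∀ y, 0 ≤ v y) (x : Fin n → ℝ) :
    0 ≤ moll k v x :=
  integral_nonneg fun y => mul_nonneg (ker_nonneg _ _) (h y)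

theorem abs_moll_le (k : ℕ) (v : (Fin n → ℝ) → ℝ) (x : Fin n → ℝ) :
    |moll k v x| ≤ moll k (fun y => |v y|) x := by
  unfold moll
  refine (abs_integral_le_integral_abs).trans (le_of_eq ?_)
  congr 1
  funext y
  rw [abs_mul, abs_of_nonneg (ker_nonneg _ _)]

theorem ae_tendsto_moll {v : (Fin n → ℝ) → ℝ} (hv : LocallyIntegrable v) :
    ∀ᵐ x, Tendsto (fun k => moll k v x) atTop (𝓝 (v x)) := by
  have h := ContDiffBump.ae_convolution_tendsto_right_of_locallyIntegrable
    (φ := fun k : ℕ => mbmp n k) (l := atTop) (K := 2) (μ := volume) (g := v) tendsto_rad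
    (Eventually.of_forall fun k => by
      simp only [mbmp]
      have : (0 : ℝ) < (k : ℝ) + 1 := by positivity
      rw [mul_inv]
      field_simp
      norm_num) hv
  filter_upwards [h] with x hx
  refine hx.congr fun k => ?_
  rw [moll_eq_conv]
  rfl

/-- The tangent line inequality. -/
theorem tangent_pow (m : ℕ) {t c : ℝ} (ht : 0 ≤ t) (hc : 0 ≤ c) :
    c ^ (m + 1) + (m + 1 : ℝ) * c ^ m * (t - c) ≤ t ^ (m + 1) := by
  induction m with
  | zero => simp
  | succ m ih =>
    have h1 := mul_le_mul_of_nonneg_left ih ht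
    have h2 : (0 : ℝ) ≤ (m + 1 : ℝ) * c ^ m * (t - c) ^ 2 := by positivity
    push_cast
    have e1 : t ^ (m + 1 + 1) = t * t ^ (m + 1) := by ring
    rw [e1]
    have e2 : t * (c ^ (m + 1) + (m + 1 : ℝ) * c ^ m * (t - c)) -
        (c ^ (m + 1 + 1) + ((m : ℝ) + 1 + 1) * c ^ (m + 1) * (t - c)) =
        (m + 1 : ℝ) * c ^ m * (t - c) ^ 2 := by ring
    linarith

/-- Jensen's inequality for the mollifier. -/
theorem abs_moll_pow_le (k m : ℕ) {v : (Fin n → ℝ) → ℝ} (hv : Integrable v)
    (hv' : Integrable fun y => |v y| ^ (m + 1)) (x : Fin n → ℝ) :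
    |moll k v x| ^ (m + 1) ≤ moll k (fun y => |v y| ^ (m + 1)) x := by
  set c := moll k (fun y => |v y|) x with hc
  have hc0 : 0 ≤ c := moll_nonneg k (fun y => abs_nonneg _) x
  refine (pow_le_pow_left₀ (abs_nonneg _) (abs_moll_le k v x) _).trans ?_
  have hI1 : Integrable fun y => ker n k (x - y) * (c ^ (m + 1) - (m + 1 : ℝ) * c ^ m * c) :=
    (integrable_ker_sub k x).mul_const _
  have hI2 : Integrable fun y => (m + 1 : ℝ) * c ^ m * (ker n k (x - y) * |v y|) :=
    (integrable_ker_mul k hv.abs x).const_mul _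
  have h1 : ∫ y, (ker n k (x - y) * (c ^ (m + 1) - (m + 1 : ℝ) * c ^ m * c) +
      (m + 1 : ℝ) * c ^ m * (ker n k (x - y) * |v y|)) ≤ moll k (fun y => |v y| ^ (m + 1)) x := by
    refine integral_mono (hI1.add hI2) (integrable_ker_mul k hv' x) fun y => ?_
    have := mul_le_mul_of_nonneg_left (tangent_pow m (abs_nonneg (v y)) hc0)
      (ker_nonneg k (x - y))
    refine le_trans (le_of_eq ?_) this
    ring
  rw [integral_add hI1 hI2, integral_mul_const, integral_ker_sub, integral_const_mul] at h1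
  have h2 : ∫ y, ker n k (x - y) * |v y| = c := rfl
  rw [h2] at h1
  refine le_trans (le_of_eq ?_) h1
  ring

/-- Generalised dominated convergence. -/
theorem tendsto_integral_abs_sub {α : Type*} [MeasurableSpace α] {μ : Measure α}
    {F G : ℕ → α → ℝ} {F₀ G₀ : α → ℝ}
    (hFm : ∀ k, AEStronglyMeasurable (F k) μ)
    (hG : ∀ k, Integrable (G k) μ) (hG₀ : Integrable G₀ μ)
    (hFG : ∀ k, ∀ᵐ x ∂μ, |F k x| ≤ G k x)
    (hF : ∀ᵐ x ∂μ, Tendsto (fun k => F k x) atTop (𝓝 (F₀ x)))
    (hGt : ∀ᵐ x ∂μ, Tendsto (fun k => G k x) atTop (𝓝 (G₀ x)))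
    (hGi : Tendsto (fun k => ∫ x, G k x ∂μ) atTop (𝓝 (∫ x, G₀ x ∂μ))) :
    Tendsto (fun k => ∫ x, |F k x - F₀ x| ∂μ) atTop (𝓝 0) := by
  have hF₀m : AEStronglyMeasurable F₀ μ := aestronglyMeasurable_of_tendsto_ae atTop hFm hF
  have hF₀ : ∀ᵐ x ∂μ, |F₀ x| ≤ G₀ x := by
    filter_upwards [hF, hGt, ae_all_iff.2 hFG] with x h1 h2 h3
    exact le_of_tendsto_of_tendsto' h1.abs h2 h3
  have hG0 : ∀ᵐ x ∂μ, 0 ≤ G₀ x := by
    filter_upwards [hF₀] with x hx using (abs_nonneg _).trans hx
  -- first part
  have hA : Tendsto (fun k => ∫ x, min |F k x - F₀ x| (2 * G₀ x) ∂μ) atTop (𝓝 0) := by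
    have h := tendsto_integral_of_dominated_convergence (μ := μ)
      (F := fun k x => min |F k x - F₀ x| (2 * G₀ x)) (f := fun _ => (0 : ℝ))
      (fun x => 2 * G₀ x) (fun k => ?_) (hG₀.const_mul 2) (fun k => ?_) ?_
    · simpa using h
    · exact (((hFm k).sub hF₀m).norm).inf (hG₀.aestronglyMeasurable.const_mul 2)
    · filter_upwards [hG0] with x hx
      rw [Real.norm_eq_abs, abs_of_nonneg (le_min (abs_nonneg _) (by linarith))]
      exact min_le_right _ _
    · filter_upwards [hF, hG0] with x h1 h2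
      have h3 : Tendsto (fun k => |F k x - F₀ x|) atTop (𝓝 0) := by
        have := (h1.sub_const (F₀ x)).abs
        simpa using this
      refine squeeze_zero (fun k => le_min (abs_nonneg _) (by linarith))
        (fun k => min_le_left _ _) h3
  -- second part
  have hB : Tendsto (fun k => ∫ x, max (G₀ x - G k x) 0 ∂μ) atTop (𝓝 0) := by
    have h := tendsto_integral_of_dominated_convergence (μ := μ)
      (F := fun k x => max (G₀ x - G k x) 0) (f := fun _ => (0 : ℝ))
      G₀ (fun k => ?_) hG₀ (fun k => ?_) ?_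
    · simpa using h
    · exact (hG₀.aestronglyMeasurable.sub (hG k).aestronglyMeasurable).sup
        aestronglyMeasurable_const
    · filter_upwards [hG0, hFG k] with x hx h2
      rw [Real.norm_eq_abs, abs_of_nonneg (le_max_right _ _)]
      have := (abs_nonneg _).trans h2
      exact max_le (by linarith) hx
    · filter_upwards [hGt] with x h1
      have h3 : Tendsto (fun k => max (G₀ x - G k x) 0) atTop (𝓝 (max (G₀ x - G₀ x) 0)) :=
        (tendsto_const_nhds.sub h1).max tendsto_const_nhds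
      simpa using h3
  have hC : Tendsto (fun k => ∫ x, max (G k x - G₀ x) 0 ∂μ) atTop (𝓝 0) := by
    have h1 : ∀ k, ∫ x, max (G k x - G₀ x) 0 ∂μ =
        (∫ x, G k x ∂μ) - (∫ x, G₀ x ∂μ) + ∫ x, max (G₀ x - G k x) 0 ∂μ := by
      intro k
      have hI : Integrable (fun x => max (G₀ x - G k x) 0) μ :=
        (hG₀.sub (hG k)).pos_part
      have hI0 : Integrable (fun x => G k x - G₀ x) μ := (hG k).sub hG₀
      rw [← integral_sub (hG k) hG₀, ← integral_add hI0 hI]
      refine integral_congr_ae (Eventually.of_forall fun x => ?_)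
      simp only
      rcases le_total (G k x) (G₀ x) with h | h
      · rw [max_eq_right (by linarith), max_eq_left (by linarith)]; ring
      · rw [max_eq_left (by linarith), max_eq_right (by linarith)]; ring
    have h2 := (hGi.sub_const (∫ x, G₀ x ∂μ)).add hB
    simp only [sub_self, add_zero] at h2
    exact h2.congr fun k => (h1 k).symm
  have hsum := hA.add hC
  simp only [add_zero] at hsum
  refine squeeze_zero (fun k => integral_nonneg fun x => abs_nonneg _) (fun k => ?_) hsum
  have hI1 : Integrable (fun x => min |F k x - F₀ x| (2 * G₀ x)) μ := by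
    refine (hG₀.const_mul 2).mono' ((((hFm k).sub hF₀m).norm).inf
      (hG₀.aestronglyMeasurable.const_mul 2)) ?_
    filter_upwards [hG0] with x hx
    rw [Real.norm_eq_abs, abs_of_nonneg (le_min (abs_nonneg _) (by linarith))]
    exact min_le_right _ _
  have hI2 : Integrable (fun x => max (G k x - G₀ x) 0) μ := ((hG k).sub hG₀).pos_part
  rw [← integral_add hI1 hI2]
  have hI3 : Integrable (fun x => |F k x - F₀ x|) μ := by
    refine ((hG k).add hG₀).mono' (((hFm k).sub hF₀m).norm) ?_
    filter_upwards [hF₀, hFG k] with x h1 h2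
    rw [Real.norm_eq_abs, abs_abs]
    simp only [Pi.add_apply]
    exact (abs_sub _ _).trans (add_le_add h2 h1)
  refine integral_mono_ae hI3 (hI1.add hI2) ?_
  filter_upwards [hF₀, hFG k] with x h1 h2
  have h3 : |F k x - F₀ x| ≤ G k x + G₀ x := (abs_sub _ _).trans (add_le_add h2 h1)
  rcases le_total |F k x - F₀ x| (2 * G₀ x) with h | h
  · rw [min_eq_left h]
    have := le_max_right (G k x - G₀ x) 0
    linarith
  · rw [min_eq_right h]
    have := le_max_left (G k x - G₀ x) 0
    linarith

theorem tendsto_integral_moll_sub {v : (Fin n → ℝ) → ℝ} (hv : Integrable v) :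
    Tendsto (fun k => ∫ x, |moll k v x - v x|) atTop (𝓝 0) := by
  refine tendsto_integral_abs_sub (G := fun k => moll k (fun y => |v y|))
    (G₀ := fun y => |v y|) (fun k => (integrable_moll k hv).aestronglyMeasurable)
    (fun k => integrable_moll k hv.abs) hv.abs
    (fun k => Eventually.of_forall fun x => abs_moll_le k v x)
    (ae_tendsto_moll hv.locallyIntegrable) (ae_tendsto_moll hv.abs.locallyIntegrable) ?_
  simp only [integral_moll _ hv.abs]
  exact tendsto_const_nhds

theorem moll_eq_conv' (k : ℕ) (v : (Fin n → ℝ) → ℝ) :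
    moll k v = v ⋆[ContinuousLinearMap.mul ℝ ℝ, volume] (ker n k) := by
  funext x
  rw [convolution_def]
  unfold moll
  congr 1
  funext y
  simp [mul_comm]

theorem pd_moll_eq (k : ℕ) {v : (Fin n → ℝ) → ℝ} (hv : LocallyIntegrable v) (j : Fin n)
    (x : Fin n → ℝ) : pd j (moll k v) x = ∫ y, v y * pd j (ker n k) (x - y) := by
  have h := (hasCompactSupport_ker (n := n) k).hasFDerivAt_convolution_right
    (ContinuousLinearMap.mul ℝ ℝ) hv ((contDiff_ker k).of_le (by simp)) x
  rw [← moll_eq_conv'] at h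
  unfold pd
  rw [h.fderiv, convolution_precompR_apply _ hv ((hasCompactSupport_ker k).fderiv ℝ)
    ((contDiff_ker k).continuous_fderiv (by simp))]
  rfl

/-- the translated kernel -/
theorem pd_ker_sub (k : ℕ) (j : Fin n) (x y : Fin n → ℝ) :
    pd j (fun z => ker n k (x - z)) y = - pd j (ker n k) (x - y) := by
  unfold pd
  have h1 : HasFDerivAt (fun z : Fin n → ℝ => x - z)
      (-(ContinuousLinearMap.id ℝ (Fin n → ℝ))) y := (hasFDerivAt_id y).const_sub x
  have h2 : HasFDerivAt (ker n k) (fderiv ℝ (ker n k) (x - y)) (x - y) :=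
    ((contDiff_ker k).differentiable (by simp) _).hasFDerivAt
  have h3 := (h2.comp y h1).fderiv
  have h4 : (ker n k ∘ fun z : Fin n → ℝ => x - z) = fun z => ker n k (x - z) := rfl
  rw [h4] at h3
  rw [h3]
  simp

theorem tsupport_ker_sub (k : ℕ) (x : Fin n → ℝ) :
    tsupport (fun z => ker n k (x - z)) ⊆ closedBall x (rad k) := by
  refine closure_minimal ?_ isClosed_closedBall
  intro z hz
  by_contra h
  apply hz
  apply ker_eq_zero
  simp only [mem_closedBall, not_le] at h
  rwa [dist_comm, dist_eq_norm] at h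

/-- the derivative of the mollification of a function with weak derivative `w`. -/
theorem pd_moll {U : Set (Fin n → ℝ)} {v w : (Fin n → ℝ) → ℝ} (hv : Integrable v)
    {j : Fin n}
    (weak : ∀ φ : (Fin n → ℝ) → ℝ, ContDiff ℝ (⊤ : ℕ∞) φ → HasCompactSupport φ →
      tsupport φ ⊆ U → ∫ x, v x * pd j φ x = - ∫ x, w x * φ x)
    {k : ℕ} {x : Fin n → ℝ} (hx : closedBall x (rad k) ⊆ U) :
    pd j (moll k v) x = moll k w x := by
  rw [pd_moll_eq k hv.locallyIntegrable]
  have hs := tsupport_ker_sub (n := n) k x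
  have h := weak (fun z => ker n k (x - z))
    ((contDiff_ker k).comp (contDiff_const.sub contDiff_id))
    (HasCompactSupport.intro' (isCompact_closedBall x (rad k)) isClosed_closedBall
      (fun z hz => by
        by_contra h0
        exact hz (hs (subset_tsupport _ h0)))) (hs.trans hx)
  simp only [pd_ker_sub, mul_neg, integral_neg, neg_inj] at h
  rw [h]
  unfold moll
  congr 1
  funext y
  ring

end Pool.Agent.MP8995
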