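import Mathlib
import Pool.Agent.Lib.MP_8995c5_an.Moll

/-!
# Smooth approximation of Sobolev maps, including the cofactors
-/

set_option autoImplicit false

open MeasureTheory Metric Set Filter Topology
open scoped ENNReal NNReal

namespace Pool.Agent.MP8995

variable {n : ℕ}

theorem abs_adj_le (M : Matrix (Fin n) (Fin n) ℝ) (i j : Fin n) :
    |M.adjugate i j| ≤ (n.factorial : ℝ) * ∑ k, ∑ l, |M k l| ^ (n - 1) := by
  obtain ⟨p, -, hp⟩ := Finset.exists_max_image Finset.univ
    (fun p : Fin n × Fin n => |M p.1 p.2|) ⟨(i, j), Finset.mem_univ _⟩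
  have hb : ∀ k l, |M k l| ≤ |M p.1 p.2| := fun k l => hp (k, l) (Finset.mem_univ _)
  have h1 : |M p.1 p.2| ^ (n - 1) ≤ ∑ k, ∑ l, |M k l| ^ (n - 1) := by
    refine (Finset.single_le_sum (f := fun l => |M p.1 l| ^ (n - 1))
      (fun l _ => by positivity) (Finset.mem_univ p.2)).trans ?_
    exact Finset.single_le_sum (f := fun k => ∑ l, |M k l| ^ (n - 1))
      (fun l _ => by positivity) (Finset.mem_univ p.1)
  rw [Matrix.adjugate_apply, Matrix.det_apply]
  calc |∑ σ : Equiv.Perm (Fin n), Equiv.Perm.sign σ •
        ∏ i_1, M.updateRow j (Pi.single i 1) (σ i_1) i_1|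
      ≤ ∑ σ : Equiv.Perm (Fin n), |Equiv.Perm.sign σ •
        ∏ i_1, M.updateRow j (Pi.single i 1) (σ i_1) i_1| := Finset.abs_sum_le_sum_abs _ _
    _ ≤ ∑ _σ : Equiv.Perm (Fin n), |M p.1 p.2| ^ (n - 1) := by
        refine Finset.sum_le_sum fun σ _ => ?_
        have e1 : |Equiv.Perm.sign σ • ∏ i_1, M.updateRow j (Pi.single i 1) (σ i_1) i_1| =
            ∏ i_1, |M.updateRow j (Pi.single i 1) (σ i_1) i_1| := by
          rw [← Finset.abs_prod]
          rcases Int.units_eq_one_or (Equiv.Perm.sign σ) with h | h <;> simp [h]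
        rw [e1, ← Finset.mul_prod_erase Finset.univ _ (Finset.mem_univ (σ.symm j))]
        have h2 : |M.updateRow j (Pi.single i 1) (σ (σ.symm j)) (σ.symm j)| ≤ 1 := by
          rw [Equiv.apply_symm_apply, Matrix.updateRow_self]
          by_cases h : σ.symm j = i
          · rw [h]; simp
          · simp [h]
        have h3 : ∏ x ∈ Finset.univ.erase (σ.symm j),
            |M.updateRow j (Pi.single i 1) (σ x) x| ≤ |M p.1 p.2| ^ (n - 1) := by
          have h4 : ∏ x ∈ Finset.univ.erase (σ.symm j),
              |M.updateRow j (Pi.single i 1) (σ x) x| ≤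
              ∏ _x ∈ Finset.univ.erase (σ.symm j), |M p.1 p.2| := by
            refine Finset.prod_le_prod (fun x _ => abs_nonneg _) fun x hx => ?_
            have hx' : σ x ≠ j := by
              intro h
              apply Finset.ne_of_mem_erase hx
              rw [← h, Equiv.symm_apply_apply]
            rw [Matrix.updateRow_ne hx']
            exact hb _ _
          refine h4.trans (le_of_eq ?_)
          rw [Finset.prod_const, Finset.card_erase_of_mem (Finset.mem_univ _)]
          simp
        have h5 := mul_le_mul h2 h3 (Finset.prod_nonneg fun x _ => abs_nonneg _) zero_le_one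
        simpa using h5
    _ = (n.factorial : ℝ) * |M p.1 p.2| ^ (n - 1) := by
        simp [Fintype.card_perm]
    _ ≤ (n.factorial : ℝ) * ∑ k, ∑ l, |M k l| ^ (n - 1) :=
        mul_le_mul_of_nonneg_left h1 (by positivity)

theorem msum_nonneg_aux (M : Matrix (Fin n) (Fin n) ℝ) : 0 ≤ msum M := by
  unfold msum; positivity

theorem measurable_adj_apply {Df : (Fin n → ℝ) → Matrix (Fin n) (Fin n) ℝ}
    (hm : ∀ i j, Measurable fun x => Df x i j) (i j : Fin n) :
    Measurable fun x => (Df x).adjugate i j := by
  have h1 : Measurable fun x => (fun i j => Df x i j : Fin n → Fin n → ℝ) :=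
    measurable_pi_lambda _ fun i => measurable_pi_lambda _ fun j => hm i j
  have h2 : Continuous fun M : Fin n → Fin n → ℝ => (Matrix.of M).adjugate i j := by
    have : Continuous fun M : Matrix (Fin n) (Fin n) ℝ => M.adjugate :=
      continuous_id.matrix_adjugate
    exact (this.matrix_elem i j)
  exact h2.measurable.comp h1

theorem measurable_det_aux {Df : (Fin n → ℝ) → Matrix (Fin n) (Fin n) ℝ}
    (hm : ∀ i j, Measurable fun x => Df x i j) :
    Measurable fun x => (Df x).det := by
  have h1 : Measurable fun x => (fun i j => Df x i j : Fin n → Fin n → ℝ) :=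
    measurable_pi_lambda _ fun i => measurable_pi_lambda _ fun j => hm i j
  have h2 : Continuous fun M : Fin n → Fin n → ℝ => (Matrix.of M).det :=
    (continuous_id : Continuous fun M : Matrix (Fin n) (Fin n) ℝ => M).matrix_det
  exact h2.measurable.comp h1

/-- T2.1a the cofactors are integrable. -/
theorem integrable_adj {f : (Fin n → ℝ) → (Fin n → ℝ)}
    {Df : (Fin n → ℝ) → Matrix (Fin n) (Fin n) ℝ}
    (hm : ∀ i j, Measurable fun x => Df x i j)
    (hp : ∀ i j, Integrable fun x => |Df x i j| ^ (n - 1)) :
    Integrable fun x => msum (Df x).adjugate := by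
  unfold msum
  refine integrable_finsetSum _ fun i _ => integrable_finsetSum _ fun j _ => ?_
  have hI : Integrable fun x => (n.factorial : ℝ) * ∑ k, ∑ l, |Df x k l| ^ (n - 1) :=
    (integrable_finsetSum _ fun k _ => integrable_finsetSum _ fun l _ => hp k l).const_mul _
  refine hI.mono' ((measurable_adj_apply hm i j).abs).aestronglyMeasurable
    (Eventually.of_forall fun x => ?_)
  rw [Real.norm_eq_abs, abs_abs]
  exact abs_adj_le _ _ _

/-- entrywise mollification of a matrix field -/
noncomputable def molM (k : ℕ) (Df : (Fin n → ℝ) → Matrix (Fin n) (Fin n) ℝ)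
    (x : Fin n → ℝ) : Matrix (Fin n) (Fin n) ℝ :=
  fun i j => moll k (fun y => Df y i j) x

theorem tendsto_adj (hn : 2 ≤ n) {Df : (Fin n → ℝ) → Matrix (Fin n) (Fin n) ℝ}
    (hi : ∀ i j, Integrable fun x => Df x i j)
    (hp : ∀ i j, Integrable fun x => |Df x i j| ^ (n - 1)) (i j : Fin n) :
    Tendsto (fun k => ∫ x, |(molM k Df x).adjugate i j - (Df x).adjugate i j|)
      atTop (𝓝 0) := by
  obtain ⟨m, rfl⟩ : ∃ m, n = m + 1 + 1 := ⟨n - 2, by omega⟩
  have hp' : ∀ i j, Integrable fun x => |Df x i j| ^ (m + 1) := hp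
  have hcont : ∀ k, Continuous fun x => molM k Df x := fun k =>
    continuous_matrix fun a b => (contDiff_moll k (hi a b).locallyIntegrable).continuous
  refine tendsto_integral_abs_sub
    (G := fun k x => (((m + 1 + 1).factorial : ℕ) : ℝ) * ∑ a, ∑ b,
      moll k (fun y => |Df y a b| ^ (m + 1)) x)
    (G₀ := fun x => (((m + 1 + 1).factorial : ℕ) : ℝ) * ∑ a, ∑ b, |Df x a b| ^ (m + 1))
    (fun k => ((hcont k).matrix_adjugate.matrix_elem i j).aestronglyMeasurable)
    (fun k => ?_) ?_ (fun k => Eventually.of_forall fun x => ?_) ?_ ?_ ?_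
  · exact (integrable_finsetSum _ fun a _ => integrable_finsetSum _ fun b _ =>
      integrable_moll k (hp' a b)).const_mul _
  · exact (integrable_finsetSum _ fun a _ => integrable_finsetSum _ fun b _ =>
      (hp' a b)).const_mul _
  · refine (abs_adj_le _ _ _).trans ?_
    refine mul_le_mul_of_nonneg_left ?_ (by positivity)
    refine Finset.sum_le_sum fun a _ => Finset.sum_le_sum fun b _ => ?_
    exact abs_moll_pow_le k m (hi a b) (hp' a b) x
  · have h : ∀ᵐ x, ∀ a b, Tendsto (fun k => moll k (fun y => Df y a b) x) atTop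
        (𝓝 (Df x a b)) := by
      rw [ae_all_iff]; intro a; rw [ae_all_iff]; intro b
      exact ae_tendsto_moll (hi a b).locallyIntegrable
    filter_upwards [h] with x hx
    have h1 : Tendsto (fun k => molM k Df x) atTop (𝓝 (Df x)) :=
      tendsto_pi_nhds.2 fun a => tendsto_pi_nhds.2 fun b => hx a b
    have h2 : Continuous fun M : Matrix (Fin (m + 1 + 1)) (Fin (m + 1 + 1)) ℝ =>
        M.adjugate i j := (continuous_id.matrix_adjugate).matrix_elem i j
    exact (h2.tendsto _).comp h1
  · have h : ∀ᵐ x, ∀ a b, Tendsto (fun k => moll k (fun y => |Df y a b| ^ (m + 1)) x) atTop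
        (𝓝 (|Df x a b| ^ (m + 1))) := by
      rw [ae_all_iff]; intro a; rw [ae_all_iff]; intro b
      exact ae_tendsto_moll (hp' a b).locallyIntegrable
    filter_upwards [h] with x hx
    exact (tendsto_finsetSum _ fun a _ => tendsto_finsetSum _ fun b _ => hx a b).const_mul _
  · refine tendsto_const_nhds.congr fun k => ?_
    rw [integral_const_mul, integral_const_mul, integral_finsetSum, integral_finsetSum]
    · congr 1
      refine Finset.sum_congr rfl fun a _ => ?_
      rw [integral_finsetSum, integral_finsetSum]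
      · exact Finset.sum_congr rfl fun b _ => (integral_moll k (hp' a b)).symm
      · exact fun b _ => integrable_moll k (hp' a b)
      · exact fun b _ => hp' a b
    · exact fun a _ => integrable_finsetSum _ fun b _ => integrable_moll k (hp' a b)
    · exact fun a _ => integrable_finsetSum _ fun b _ => hp' a b

/-- mollification of a map -/
noncomputable def molV (k : ℕ) (f : (Fin n → ℝ) → (Fin n → ℝ)) (x : Fin n → ℝ) : Fin n → ℝ :=
  fun i => moll k (fun y => f y i) x

theorem contDiff_molV (k : ℕ) {f : (Fin n → ℝ) → (Fin n → ℝ)}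
    (hf : ∀ i, Integrable fun x => f x i) : ContDiff ℝ (⊤ : ℕ∞) (molV k f) :=
  contDiff_pi.2 fun i => contDiff_moll k (hf i).locallyIntegrable

theorem jac_molV {U : Set (Fin n → ℝ)} {f : (Fin n → ℝ) → (Fin n → ℝ)}
    {Df : (Fin n → ℝ) → Matrix (Fin n) (Fin n) ℝ} (h : Sob n U f Df) {k : ℕ} {x : Fin n → ℝ}
    (hx : closedBall x (rad k) ⊆ U) : jac (molV k f) x = molM k Df x := by
  funext i j
  exact pd_moll (h.int_f i) (fun φ h1 h2 h3 => h.weak φ h1 h2 h3 i j) hx

/-- T2.1 smooth approximation. -/
theorem exists_smooth_approx (hn : 2 ≤ n) {U : Set (Fin n → ℝ)}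
    {f : (Fin n → ℝ) → (Fin n → ℝ)} {Df : (Fin n → ℝ) → Matrix (Fin n) (Fin n) ℝ}
    (h : Sob n U f Df) (hp : ∀ i j, Integrable fun x => |Df x i j| ^ (n - 1))
    {K : Set (Fin n → ℝ)} (hK : IsCompact K) (hKU : K ⊆ U) {ε : ℝ} (hε : 0 < ε) :
    ∃ g : (Fin n → ℝ) → (Fin n → ℝ), ContDiff ℝ (⊤ : ℕ∞) g ∧ (∫ x in K, ‖g x - f x‖) ≤ ε ∧
      (∫ x in K, msum (jac g x - Df x)) ≤ ε ∧
      (∫ x in K, msum ((jac g x).adjugate - (Df x).adjugate)) ≤ ε := by
  obtain ⟨δ, hδ, hKδ⟩ := hK.exists_cthickening_subset_open h.isOpen hKU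
  have hrad : ∀ᶠ k in atTop, rad k ≤ δ :=
    (tendsto_rad.eventually (gt_mem_nhds hδ)).mono fun k hk => hk.le
  have hjac : ∀ᶠ k in atTop, ∀ x ∈ K, jac (molV k f) x = molM k Df x := by
    filter_upwards [hrad] with k hk x hx
    exact jac_molV h ((closedBall_subset_closedBall hk).trans
      ((closedBall_subset_cthickening hx δ).trans hKδ))
  -- the three limits
  have t1 : Tendsto (fun k => ∑ i, ∫ x, |moll k (fun y => f y i) x - f x i|) atTop (𝓝 0) := by
    have := tendsto_finsetSum Finset.univ fun i _ => tendsto_integral_moll_sub (h.int_f i)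
    simpa using this
  have t2 : Tendsto (fun k => ∑ i, ∑ j, ∫ x, |moll k (fun y => Df y i j) x - Df x i j|)
      atTop (𝓝 0) := by
    have := tendsto_finsetSum Finset.univ fun i _ => tendsto_finsetSum Finset.univ fun j _ =>
      tendsto_integral_moll_sub (h.int_Df i j)
    simpa using this
  have t3 : Tendsto (fun k => ∑ i, ∑ j, ∫ x, |(molM k Df x).adjugate i j -
      (Df x).adjugate i j|) atTop (𝓝 0) := by
    have := tendsto_finsetSum Finset.univ fun i _ => tendsto_finsetSum Finset.univ fun j _ =>
      tendsto_adj hn h.int_Df hp i j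
    simpa using this
  have hI1 : ∀ k i, Integrable fun x => |moll k (fun y => f y i) x - f x i| := fun k i =>
    ((integrable_moll k (h.int_f i)).sub (h.int_f i)).abs
  have hI2 : ∀ k i j, Integrable fun x => |moll k (fun y => Df y i j) x - Df x i j| :=
    fun k i j => ((integrable_moll k (h.int_Df i j)).sub (h.int_Df i j)).abs
  have hA0 : Integrable fun x => msum (Df x).adjugate := integrable_adj (f := f) h.meas_Df hp
  have hA1 : ∀ i j, Integrable fun x => (Df x).adjugate i j := by
    intro i j
    refine hA0.mono' (measurable_adj_apply h.meas_Df i j).aestronglyMeasurable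
      (Eventually.of_forall fun x => ?_)
    rw [Real.norm_eq_abs]
    unfold msum
    refine (Finset.single_le_sum (f := fun l => |(Df x).adjugate i l|)
      (fun l _ => abs_nonneg _) (Finset.mem_univ j)).trans ?_
    exact Finset.single_le_sum (f := fun k => ∑ l, |(Df x).adjugate k l|)
      (fun l _ => by positivity) (Finset.mem_univ i)
  have hA2 : ∀ k i j, Integrable fun x => (molM k Df x).adjugate i j := by
    intro k i j
    obtain ⟨m, rfl⟩ : ∃ m, n = m + 1 + 1 := ⟨n - 2, by omega⟩
    have hcont : Continuous fun x => molM k Df x :=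
      continuous_matrix fun a b => (contDiff_moll k (h.int_Df a b).locallyIntegrable).continuous
    have hI : Integrable fun x => (((m + 1 + 1).factorial : ℕ) : ℝ) * ∑ a, ∑ b,
        moll k (fun y => |Df y a b| ^ (m + 1)) x :=
      (integrable_finsetSum _ fun a _ => integrable_finsetSum _ fun b _ =>
        integrable_moll k (hp a b)).const_mul _
    refine hI.mono' (hcont.matrix_adjugate.matrix_elem i j).aestronglyMeasurable
      (Eventually.of_forall fun x => ?_)
    rw [Real.norm_eq_abs]
    refine (abs_adj_le _ _ _).trans ?_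
    refine mul_le_mul_of_nonneg_left ?_ (by positivity)
    refine Finset.sum_le_sum fun a _ => Finset.sum_le_sum fun b _ => ?_
    exact abs_moll_pow_le k m (h.int_Df a b) (hp a b) x
  have hI3 : ∀ k i j, Integrable fun x => |(molM k Df x).adjugate i j -
      (Df x).adjugate i j| := fun k i j => ((hA2 k i j).sub (hA1 i j)).abs
  obtain ⟨k, hk, h1, h2, h3⟩ := (hjac.and ((t1.eventually (gt_mem_nhds hε)).and
    ((t2.eventually (gt_mem_nhds hε)).and (t3.eventually (gt_mem_nhds hε))))).exists
  refine ⟨molV k f, contDiff_molV k h.int_f, ?_, ?_, ?_⟩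
  · refine le_trans ?_ h1.le
    rw [← integral_finsetSum _ fun i _ => hI1 k i]
    refine (setIntegral_mono_on ?_ ?_ hK.measurableSet fun x _ => ?_).trans
      (setIntegral_le_integral (s := K) (integrable_finsetSum _ fun i _ => hI1 k i)
        (Eventually.of_forall fun x => Finset.sum_nonneg fun i _ => abs_nonneg _))
    · refine Integrable.integrableOn ?_
      have hI : Integrable (fun x => ∑ i, |moll k (fun y => f y i) x - f x i|) :=
        integrable_finsetSum _ fun i _ => hI1 k i
      refine hI.mono' ?_ (Eventually.of_forall fun x => ?_)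
      · refine AEStronglyMeasurable.norm ?_
        refine ((contDiff_molV k h.int_f).continuous.aestronglyMeasurable).sub ?_
        exact (measurable_pi_lambda _ h.meas_f).aestronglyMeasurable
      · rw [norm_norm, pi_norm_le_iff_of_nonneg (Finset.sum_nonneg fun i _ => abs_nonneg _)]
        intro i
        exact Finset.single_le_sum (f := fun i => |moll k (fun y => f y i) x - f x i|)
          (fun l _ => abs_nonneg _) (Finset.mem_univ i)
    · exact (integrable_finsetSum _ fun i _ => hI1 k i).integrableOn
    · rw [pi_norm_le_iff_of_nonneg (Finset.sum_nonneg fun i _ => abs_nonneg _)]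
      intro i
      exact Finset.single_le_sum (f := fun i => |moll k (fun y => f y i) x - f x i|)
        (fun l _ => abs_nonneg _) (Finset.mem_univ i)
  · refine le_trans ?_ h2.le
    have e : ∫ x in K, msum (jac (molV k f) x - Df x) =
        ∫ x in K, ∑ i, ∑ j, |moll k (fun y => Df y i j) x - Df x i j| := by
      refine setIntegral_congr_fun hK.measurableSet fun x hx => ?_
      rw [hk x hx]
      rfl
    rw [e]
    have e2 : ∑ i, ∑ j, ∫ x, |moll k (fun y => Df y i j) x - Df x i j| =
        ∫ x, ∑ i, ∑ j, |moll k (fun y => Df y i j) x - Df x i j| := by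
      rw [integral_finsetSum _ fun i _ => integrable_finsetSum _ fun j _ => hI2 k i j]
      refine Finset.sum_congr rfl fun i _ => ?_
      rw [integral_finsetSum _ fun j _ => hI2 k i j]
    rw [e2]
    exact setIntegral_le_integral
      (integrable_finsetSum _ fun i _ => integrable_finsetSum _ fun j _ => hI2 k i j)
      (Eventually.of_forall fun x => Finset.sum_nonneg fun i _ =>
        Finset.sum_nonneg fun j _ => abs_nonneg _)
  · refine le_trans ?_ h3.le
    have e : ∫ x in K, msum ((jac (molV k f) x).adjugate - (Df x).adjugate) =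
        ∫ x in K, ∑ i, ∑ j, |(molM k Df x).adjugate i j - (Df x).adjugate i j| := by
      refine setIntegral_congr_fun hK.measurableSet fun x hx => ?_
      rw [hk x hx]
      rfl
    rw [e]
    have e2 : ∑ i, ∑ j, ∫ x, |(molM k Df x).adjugate i j - (Df x).adjugate i j| =
        ∫ x, ∑ i, ∑ j, |(molM k Df x).adjugate i j - (Df x).adjugate i j| := by
      rw [integral_finsetSum _ fun i _ => integrable_finsetSum _ fun j _ => hI3 k i j]
      refine Finset.sum_congr rfl fun i _ => ?_
      rw [integral_finsetSum _ fun j _ => hI3 k i j]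
    rw [e2]
    exact setIntegral_le_integral
      (integrable_finsetSum _ fun i _ => integrable_finsetSum _ fun j _ => hI3 k i j)
      (Eventually.of_forall fun x => Finset.sum_nonneg fun i _ =>
        Finset.sum_nonneg fun j _ => abs_nonneg _)

end Pool.Agent.MP8995
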