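import Mathlib
import Pool.Agent.Lib.MP_8995c5_an.Defs

set_option autoImplicit false

/-!
Piola identity: the divergence of `adj (Dg) X(g)` is `(div X)(g) det Dg`.
-/

open MeasureTheory Metric Set Filter Topology Function

namespace Pool.Agent.MP8995

variable {n : ℕ}

/-- determinant as a continuous multilinear function of the rows -/
noncomputable def detC (n : ℕ) : ContinuousMultilinearMap ℝ (fun _ : Fin n => (Fin n → ℝ)) ℝ where
  toMultilinearMap := (Matrix.detRowAlternating (n := Fin n) (R := ℝ)).toMultilinearMap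
  cont := by
    change Continuous fun M : Fin n → Fin n → ℝ => Matrix.det M
    exact Continuous.matrix_det continuous_id

theorem detC_apply (M : Matrix (Fin n) (Fin n) ℝ) : detC n M = M.det := rfl

theorem contDiff_pd {φ : (Fin n → ℝ) → ℝ} (h : ContDiff ℝ (⊤ : ℕ∞) φ) (j : Fin n) :
    ContDiff ℝ (⊤ : ℕ∞) (pd j φ) := by
  unfold pd
  exact (h.fderiv_right (m := (⊤ : ℕ∞)) (by simp)).clm_apply contDiff_const

theorem pd_pd {φ : (Fin n → ℝ) → ℝ} (h : ContDiff ℝ (⊤ : ℕ∞) φ) (j l : Fin n) (x : Fin n → ℝ) :
    pd j (pd l φ) x = pd l (pd j φ) x := by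
  have hs : IsSymmSndFDerivAt ℝ φ x :=
    h.contDiffAt.isSymmSndFDerivAt (by
      rw [minSmoothness_of_isRCLikeNormedField]
      exact WithTop.coe_le_coe.2 (le_top : (2 : ℕ∞) ≤ ⊤))
  have hd : DifferentiableAt ℝ (fderiv ℝ φ) x :=
    ((h.fderiv_right (m := (⊤ : ℕ∞)) (by simp)).differentiable (by simp)).differentiableAt
  have key : ∀ v w : Fin n → ℝ,
      fderiv ℝ (fun y => fderiv ℝ φ y v) x w = fderiv ℝ (fderiv ℝ φ) x w v := by
    intro v w
    have := (hd.hasFDerivAt.clm_apply (hasFDerivAt_const v x)).fderiv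
    rw [this]
    simp
  unfold pd
  rw [key, key]
  exact hs.eq _ _

theorem swap_update (M : Fin n → Fin n → ℝ) {i k : Fin n} (hik : k ≠ i) (v w : Fin n → ℝ) :
    detC n (update (update M i v) k w) = - detC n (update (update M i w) k v) := by
  have h := (Matrix.detRowAlternating (n := Fin n) (R := ℝ)).map_swap
    (v := update (update M i w) k v) hik.symm
  have h2 : (update (update M i w) k v) ∘ Equiv.swap i k = update (update M i v) k w := by
    funext a
    by_cases hai : a = i
    · subst hai
      simp [hik.symm]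
    · by_cases hak : a = k
      · subst hak
        rw [comp_apply, Equiv.swap_apply_right, update_of_ne hik.symm, update_self, update_self]
      · simp [Equiv.swap_apply_of_ne_of_ne hai hak, hai, hak]
  rw [h2] at h
  exact h

/-- derivative of a determinant with rows depending on a point -/
theorem hasFDerivAt_detC {r : Fin n → (Fin n → ℝ) → (Fin n → ℝ)}
    (hr : ∀ k, ContDiff ℝ (⊤ : ℕ∞) (r k)) (x : Fin n → ℝ) :
    HasFDerivAt (fun x => detC n (fun k => r k x))
      (∑ k, ((detC n).toContinuousLinearMap (fun j => r j x) k) ∘L (fderiv ℝ (r k) x)) x :=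
  HasFDerivAt.multilinear_comp (detC n)
    fun k => ((hr k).differentiable (by simp) x).hasFDerivAt

theorem pd_detC {r : Fin n → (Fin n → ℝ) → (Fin n → ℝ)}
    (hr : ∀ k, ContDiff ℝ (⊤ : ℕ∞) (r k)) (j : Fin n) (x : Fin n → ℝ) :
    pd j (fun x => detC n (fun k => r k x)) x =
      ∑ k, detC n (update (fun k => r k x) k (fun l => pd j (fun y => r k y l) x)) := by
  unfold pd
  rw [(hasFDerivAt_detC hr x).fderiv]
  rw [_root_.sum_apply]
  refine Finset.sum_congr rfl fun k _ => ?_
  rw [ContinuousLinearMap.comp_apply, ContinuousMultilinearMap.toContinuousLinearMap_apply]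
  congr 2
  funext l
  have hd : DifferentiableAt ℝ (r k) x := (hr k).differentiable (by simp) x
  have := (hasFDerivAt_pi'.1 hd.hasFDerivAt l).fderiv
  rw [this]
  rfl

theorem contDiff_jac {g : (Fin n → ℝ) → (Fin n → ℝ)} (hg : ContDiff ℝ (⊤ : ℕ∞) g) (k : Fin n) :
    ContDiff ℝ (⊤ : ℕ∞) (fun x => jac g x k) := by
  rw [contDiff_pi]
  intro l
  exact contDiff_pd ((contDiff_pi.1 hg) k) l

/-- rows of the matrix whose determinant is the cofactor -/
noncomputable def cofRow (g : (Fin n → ℝ) → (Fin n → ℝ)) (i j : Fin n) (k : Fin n)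
    (x : Fin n → ℝ) : Fin n → ℝ :=
  if k = i then Pi.single j (1 : ℝ) else fun l => pd l (fun y => g y k) x

theorem contDiff_cofRow {g : (Fin n → ℝ) → (Fin n → ℝ)} (hg : ContDiff ℝ (⊤ : ℕ∞) g)
    (i j k : Fin n) : ContDiff ℝ (⊤ : ℕ∞) (cofRow g i j k) := by
  unfold cofRow
  by_cases h : k = i
  · simp only [if_pos h]
    exact contDiff_const
  · simp only [if_neg h]
    exact contDiff_jac hg k

theorem adjugate_eq (g : (Fin n → ℝ) → (Fin n → ℝ)) (i j : Fin n) (x : Fin n → ℝ) :
    (jac g x).adjugate j i = detC n (fun k => cofRow g i j k x) := by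
  rw [Matrix.adjugate_apply, ← detC_apply]
  congr 1
  funext k
  unfold cofRow
  by_cases h : k = i
  · subst h
    rw [if_pos rfl, Matrix.updateRow_self]
  · rw [if_neg h, Matrix.updateRow_ne h]
    rfl

theorem contDiff_detC {r : Fin n → (Fin n → ℝ) → (Fin n → ℝ)}
    (hr : ∀ k, ContDiff ℝ (⊤ : ℕ∞) (r k)) :
    ContDiff ℝ (⊤ : ℕ∞) (fun x => detC n (fun k => r k x)) :=
  (detC n).contDiff.comp (contDiff_pi.2 hr)

theorem contDiff_adj {g : (Fin n → ℝ) → (Fin n → ℝ)} (hg : ContDiff ℝ (⊤ : ℕ∞) g)
    (j i : Fin n) : ContDiff ℝ (⊤ : ℕ∞) (fun x => (jac g x).adjugate j i) := by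
  simp only [adjugate_eq]
  exact contDiff_detC (contDiff_cofRow hg i j)

theorem sum_pd_adj {g : (Fin n → ℝ) → (Fin n → ℝ)} (hg : ContDiff ℝ (⊤ : ℕ∞) g)
    (i : Fin n) (x : Fin n → ℝ) :
    ∑ j, pd j (fun x => (jac g x).adjugate j i) x = 0 := by
  simp only [adjugate_eq]
  simp only [pd_detC (contDiff_cofRow hg i _)]
  rw [Finset.sum_comm]
  refine Finset.sum_eq_zero fun k _ => ?_
  by_cases hk : k = i
  · subst hk
    refine Finset.sum_eq_zero fun j _ => ?_
    have : (fun l => pd j (fun y => cofRow g k j k y l) x) = 0 := by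
      funext l
      simp only [cofRow, if_true, pd]
      simp
    rw [this]
    exact (detC n).map_coord_zero k (by simp)
  · -- antisymmetry
    set M : Fin n → Fin n → ℝ := fun k l => pd l (fun y => g y k) x with hM
    set H : Fin n → Fin n → ℝ := fun j l => pd j (pd l (fun y => g y k)) x with hH
    have hsymm : ∀ j l, H j l = H l j := fun j l =>
      pd_pd ((contDiff_pi.1 hg) k) j l x
    have hrow : ∀ j, detC n (update (fun k => cofRow g i j k x) k
        (fun l => pd j (fun y => cofRow g i j k y l) x)) =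
        ∑ l, H j l * detC n (update (update M i (Pi.single j 1)) k (Pi.single l 1)) := by
      intro j
      have e1 : (fun l => pd j (fun y => cofRow g i j k y l) x)
          = ∑ l, H j l • (Pi.single l (1 : ℝ) : Fin n → ℝ) := by
        funext l
        simp only [cofRow, if_neg hk, Finset.sum_apply, Pi.smul_apply, Pi.single_apply,
          smul_eq_mul, mul_ite, mul_one, mul_zero, Finset.sum_ite_eq, Finset.mem_univ, if_true]
        rfl
      have e2 : (fun k => cofRow g i j k x) = update M i (Pi.single j 1) := by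
        funext a
        unfold cofRow
        by_cases h : a = i
        · subst h
          rw [if_pos rfl, update_self]
        · rw [if_neg h, update_of_ne h]
      rw [e1, e2]
      have e3 := (detC n).toMultilinearMap.map_update_sum Finset.univ k
        (fun l => H j l • (Pi.single l (1 : ℝ) : Fin n → ℝ)) (update M i (Pi.single j 1))
      refine e3.trans (Finset.sum_congr rfl fun l _ => ?_)
      exact (detC n).toMultilinearMap.map_update_smul _ k (H j l) _
    simp only [hrow]
    set S := ∑ j, ∑ l, H j l * detC n (update (update M i (Pi.single j 1)) k (Pi.single l 1))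
      with hS
    have hneg : S = -S := by
      conv_lhs => rw [hS, Finset.sum_comm]
      rw [hS, ← Finset.sum_neg_distrib]
      refine Finset.sum_congr rfl fun l _ => ?_
      rw [← Finset.sum_neg_distrib]
      refine Finset.sum_congr rfl fun j _ => ?_
      rw [swap_update M hk, hsymm j l]
      ring
    linarith

/-- T1.1 Piola identity. -/
theorem piola {g X : (Fin n → ℝ) → (Fin n → ℝ)} (hg : ContDiff ℝ (⊤ : ℕ∞) g)
    (hX : ContDiff ℝ (⊤ : ℕ∞) X) :
    ContDiff ℝ (⊤ : ℕ∞) (fun x => (jac g x).adjugate.mulVec (X (g x))) ∧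
    ∀ x, dv (fun x => (jac g x).adjugate.mulVec (X (g x))) x = dv X (g x) * (jac g x).det := by
  have hXg : ∀ i, ContDiff ℝ (⊤ : ℕ∞) (fun x => X (g x) i) := fun i =>
    ((contDiff_pi.1 hX) i).comp hg
  have hterm : ∀ i j, ContDiff ℝ (⊤ : ℕ∞) (fun x => (jac g x).adjugate j i * X (g x) i) :=
    fun i j => (contDiff_adj hg j i).mul (hXg i)
  have hV : ∀ j, (fun x => (jac g x).adjugate.mulVec (X (g x)) j) =
      fun x => ∑ i, (jac g x).adjugate j i * X (g x) i := by
    intro j; funext x; rfl
  refine ⟨?_, fun x => ?_⟩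
  · rw [contDiff_pi]
    intro j
    rw [hV j]
    exact ContDiff.sum fun i _ => hterm i j
  · unfold dv
    simp only [hV]
    have hdiff : ∀ {φ : (Fin n → ℝ) → ℝ}, ContDiff ℝ (⊤ : ℕ∞) φ → DifferentiableAt ℝ φ x :=
      fun h => h.differentiable (by simp) x
    have h1 : ∀ j, pd j (fun x => ∑ i, (jac g x).adjugate j i * X (g x) i) x =
        ∑ i, (pd j (fun x => (jac g x).adjugate j i) x * X (g x) i +
          (jac g x).adjugate j i * pd j (fun x => X (g x) i) x) := by
      intro j
      unfold pd
      rw [fderiv_fun_sum fun i _ => hdiff (hterm i j), _root_.sum_apply]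
      refine Finset.sum_congr rfl fun i _ => ?_
      rw [fderiv_fun_mul (hdiff (contDiff_adj hg j i)) (hdiff (hXg i))]
      simp only [add_apply, smul_apply, smul_eq_mul]
      ring
    have h2 : ∀ i j, pd j (fun x => X (g x) i) x =
        ∑ l, pd l (fun y => X y i) (g x) * (jac g x) l j := by
      intro i j
      have hXi : DifferentiableAt ℝ (fun y => X y i) (g x) :=
        ((contDiff_pi.1 hX) i).differentiable (by simp) (g x)
      have hgd : DifferentiableAt ℝ g x := hg.differentiable (by simp) x
      have hc : fderiv ℝ (fun x => X (g x) i) x = (fderiv ℝ (fun y => X y i) (g x)) ∘L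
          (fderiv ℝ g x) := fderiv_comp (𝕜 := ℝ) x (g := fun y => X y i) hXi hgd
      have hgj : fderiv ℝ g x (Pi.single j 1) = ∑ l, (jac g x) l j • (Pi.single l (1 : ℝ) : Fin n → ℝ) := by
        funext a
        have := (hasFDerivAt_pi'.1 hgd.hasFDerivAt a).fderiv
        simp only [Finset.sum_apply, Pi.smul_apply, Pi.single_apply,
          smul_eq_mul, mul_ite, mul_one, mul_zero, Finset.sum_ite_eq, Finset.mem_univ, if_true]
        unfold jac pd
        rw [this]
        rfl
      unfold pd
      rw [hc, ContinuousLinearMap.comp_apply, hgj, map_sum]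
      refine Finset.sum_congr rfl fun l _ => ?_
      rw [map_smul, smul_eq_mul, mul_comm]
    simp only [h1]
    rw [Finset.sum_comm]
    simp only [Finset.sum_add_distrib, ← Finset.sum_mul, sum_pd_adj hg, zero_mul,
      zero_add]
    simp only [h2, Finset.mul_sum]
    have h3 : ∀ i l, ∑ j, (jac g x).adjugate j i * (pd l (fun y => X y i) (g x) * jac g x l j) =
        pd l (fun y => X y i) (g x) * ((jac g x).det * (1 : Matrix (Fin n) (Fin n) ℝ) l i) := by
      intro i l
      have := congrFun (congrFun (Matrix.mul_adjugate (jac g x)) l) i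
      rw [Matrix.mul_apply, Matrix.smul_apply, smul_eq_mul] at this
      rw [← this, Finset.mul_sum]
      refine Finset.sum_congr rfl fun j _ => by ring
    have h4 : ∀ i, ∑ j, ∑ l, (jac g x).adjugate j i *
        (pd l (fun y => X y i) (g x) * jac g x l j) =
        pd i (fun y => X y i) (g x) * (jac g x).det := by
      intro i
      rw [Finset.sum_comm]
      simp only [h3, Matrix.one_apply, mul_ite, mul_one, mul_zero, Finset.sum_ite_eq',
        Finset.mem_univ, if_true]
    simp only [h4]
    rw [Finset.sum_mul]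

end Pool.Agent.MP8995
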