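import Mathlib
import Pool.Agent.Lib.MP_8995c5_an.Defs
import Pool.Agent.Lib.MP_8995c5_an.Piola

set_option autoImplicit false

/-!
Mollification with a normed bump and the Sobolev inequality for compactly supported functions of
bounded variation.
-/

open MeasureTheory Metric Set Filter Topology
open scoped ENNReal NNReal Convolution

namespace Pool.Agent.MP8995

variable {n : ℕ}

/-- mollification -/
noncomputable def mol (φ : ContDiffBump (0 : Fin n → ℝ)) (u : (Fin n → ℝ) → ℝ) :
    (Fin n → ℝ) → ℝ :=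
  (φ.normed volume ⋆[ContinuousLinearMap.lsmul ℝ ℝ, volume] u)

theorem mol_eq (φ : ContDiffBump (0 : Fin n → ℝ)) (u : (Fin n → ℝ) → ℝ) (x : Fin n → ℝ) :
    mol φ u x = ∫ t, φ.normed volume (x - t) * u t := by
  unfold mol
  rw [convolution_lsmul_swap]
  rfl

theorem contDiff_mol (φ : ContDiffBump (0 : Fin n → ℝ)) {u : (Fin n → ℝ) → ℝ}
    (hu : LocallyIntegrable u) : ContDiff ℝ (⊤ : ℕ∞) (mol φ u) :=
  φ.hasCompactSupport_normed.contDiff_convolution_left _ φ.contDiff_normed hu

theorem hasCompactSupport_mol (φ : ContDiffBump (0 : Fin n → ℝ)) {u : (Fin n → ℝ) → ℝ}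
    (hu : HasCompactSupport u) : HasCompactSupport (mol φ u) :=
  HasCompactSupport.convolution _ φ.hasCompactSupport_normed hu

theorem normed_bounded (φ : ContDiffBump (0 : Fin n → ℝ)) :
    ∃ C : ℝ, ∀ x, ‖φ.normed volume x‖ ≤ C :=
  φ.continuous_normed.bounded_above_of_compact_support φ.hasCompactSupport_normed

theorem mol_adj (φ : ContDiffBump (0 : Fin n → ℝ)) {u ψ : (Fin n → ℝ) → ℝ}
    (hu : Integrable u) (hψ : Integrable ψ) :
    ∫ y, mol φ u y * ψ y = ∫ t, u t * mol φ ψ t := by
  obtain ⟨C, hC⟩ := normed_bounded φ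
  have hprod : Integrable (fun p : (Fin n → ℝ) × (Fin n → ℝ) =>
      φ.normed volume (p.1 - p.2) * (ψ p.1 * u p.2)) (volume.prod volume) := by
    refine (hψ.mul_prod hu).bdd_mul (c := C) ?_ ?_
    · exact (φ.continuous_normed.comp (continuous_fst.sub continuous_snd)).aestronglyMeasurable
    · exact Eventually.of_forall fun p => hC _
  calc ∫ y, mol φ u y * ψ y
      = ∫ y, ∫ t, φ.normed volume (y - t) * (ψ y * u t) := by
        congr 1
        funext y
        rw [mol_eq, ← integral_mul_const]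
        congr 1
        funext t
        ring
    _ = ∫ t, ∫ y, φ.normed volume (y - t) * (ψ y * u t) := integral_integral_swap hprod
    _ = ∫ t, u t * mol φ ψ t := by
        congr 1
        funext t
        rw [mol_eq, ← integral_const_mul]
        congr 1
        funext y
        have : φ.normed volume (y - t) = φ.normed volume (t - y) := by
          rw [← φ.normed_neg, neg_sub]
        rw [this]
        ring

theorem pd_mol (φ : ContDiffBump (0 : Fin n → ℝ)) {ψ : (Fin n → ℝ) → ℝ}
    (hψ : ContDiff ℝ (⊤ : ℕ∞) ψ) (hc : HasCompactSupport ψ) (j : Fin n) (x : Fin n → ℝ) :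
    pd j (mol φ ψ) x = mol φ (pd j ψ) x := by
  have h1 : ContDiff ℝ 1 ψ := hψ.of_le (by exact_mod_cast le_top)
  have h := (hc.hasFDerivAt_convolution_right (ContinuousLinearMap.lsmul ℝ ℝ)
    φ.integrable_normed.locallyIntegrable h1 x (μ := (volume : Measure (Fin n → ℝ)))).fderiv
  unfold pd mol
  rw [h, convolution_precompR_apply _ φ.integrable_normed.locallyIntegrable (hc.fderiv ℝ)
    (h1.continuous_fderiv one_ne_zero)]

theorem abs_mol_le (φ : ContDiffBump (0 : Fin n → ℝ)) {ψ : (Fin n → ℝ) → ℝ}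
    {C : ℝ} (hb : ∀ x, |ψ x| ≤ C) (x : Fin n → ℝ) : |mol φ ψ x| ≤ C := by
  have hC : 0 ≤ C := (abs_nonneg _).trans (hb x)
  unfold mol
  rw [convolution_def]
  calc |∫ t, (ContinuousLinearMap.lsmul ℝ ℝ) (φ.normed volume t) (ψ (x - t))|
      ≤ ∫ t, φ.normed volume t * C := by
        rw [← Real.norm_eq_abs]
        refine norm_integral_le_of_norm_le (φ.integrable_normed.mul_const C)
          (Eventually.of_forall fun t => ?_)
        simp only [ContinuousLinearMap.lsmul_apply, smul_eq_mul, norm_mul, Real.norm_eq_abs,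
          abs_of_nonneg (φ.nonneg_normed t)]
        exact mul_le_mul_of_nonneg_left (hb _) (φ.nonneg_normed t)
    _ = C := by rw [integral_mul_const, φ.integral_normed, one_mul]

theorem norm_clm_le (L : (Fin n → ℝ) →L[ℝ] ℝ) : ‖L‖ ≤ ∑ j, |L (Pi.single j 1)| := by
  refine L.opNorm_le_bound (Finset.sum_nonneg fun j _ => abs_nonneg _) fun x => ?_
  have hx : x = ∑ j, x j • (Pi.single j (1 : ℝ) : Fin n → ℝ) := by
    funext a
    simp [Finset.sum_apply, Pi.single_apply]
  calc ‖L x‖ = ‖∑ j, x j * L (Pi.single j 1)‖ := by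
        conv_lhs => rw [hx]
        rw [map_sum]
        simp only [map_smul, smul_eq_mul]
    _ ≤ ∑ j, ‖x j * L (Pi.single j 1)‖ := norm_sum_le _ _
    _ ≤ ∑ j, |L (Pi.single j 1)| * ‖x‖ := by
        refine Finset.sum_le_sum fun j _ => ?_
        rw [norm_mul, mul_comm, Real.norm_eq_abs (L _)]
        exact mul_le_mul_of_nonneg_left (norm_le_pi_norm x j) (abs_nonneg _)
    _ = (∑ j, |L (Pi.single j 1)|) * ‖x‖ := by rw [Finset.sum_mul]

/-- regularised sign -/
theorem sgn_reg (w ε : ℝ) (hε : 0 < ε) :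
    |w / √(w ^ 2 + ε ^ 2)| ≤ 1 ∧ |w| ≤ w * (w / √(w ^ 2 + ε ^ 2)) + ε := by
  have hpos : 0 < w ^ 2 + ε ^ 2 := by positivity
  have hs : 0 < √(w ^ 2 + ε ^ 2) := Real.sqrt_pos.2 hpos
  have h1 : |w| ≤ √(w ^ 2 + ε ^ 2) := by
    apply Real.abs_le_sqrt
    nlinarith [sq_nonneg ε]
  have h2 : √(w ^ 2 + ε ^ 2) ≤ |w| + ε := by
    apply Real.sqrt_le_iff.2
    refine ⟨by positivity, ?_⟩
    nlinarith [abs_nonneg w, sq_abs w, mul_nonneg (abs_nonneg w) hε.le]
  refine ⟨?_, ?_⟩
  · rw [abs_div, abs_of_pos hs, div_le_one hs]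
    exact h1
  · have : w * (w / √(w ^ 2 + ε ^ 2)) = |w| ^ 2 / √(w ^ 2 + ε ^ 2) := by
      rw [sq_abs]; ring
    rw [this]
    have h3 : |w| - ε ≤ |w| ^ 2 / √(w ^ 2 + ε ^ 2) := by
      rw [le_div_iff₀ hs]
      by_cases h : |w| ≤ ε
      · nlinarith [abs_nonneg w, sq_nonneg |w|]
      · push Not at h
        nlinarith [abs_nonneg w]
    linarith

/-- the `L¹` norm of a partial derivative of the mollification -/
theorem integral_abs_pd_mol_le {u : (Fin n → ℝ) → ℝ} {M : ℝ} (hu : Integrable u)
    (hc : HasCompactSupport u)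
    (hM : ∀ X : (Fin n → ℝ) → (Fin n → ℝ), ContDiff ℝ (⊤ : ℕ∞) X → HasCompactSupport X →
      (∀ y i, |X y i| ≤ 1) → |∫ y, u y * dv X y| ≤ M)
    (φ : ContDiffBump (0 : Fin n → ℝ)) (j : Fin n) :
    ∫ y, |pd j (mol φ u) y| ≤ M := by
  set w : (Fin n → ℝ) → ℝ := pd j (mol φ u) with hw
  have hwc : ContDiff ℝ (⊤ : ℕ∞) w := contDiff_pd (contDiff_mol φ hu.locallyIntegrable) j
  have hws : HasCompactSupport w := by
    have h := (hasCompactSupport_mol φ hc).fderiv ℝ
    exact h.comp_left (g := fun L : (Fin n → ℝ) →L[ℝ] ℝ => L (Pi.single j 1)) (by simp)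
  have hwi : Integrable w := hwc.continuous.integrable_of_hasCompactSupport hws
  set K := tsupport w with hK
  have hKc : IsCompact K := hws
  have key : ∀ ε : ℝ, 0 < ε → ∫ y, |w y| ≤ M + ε * volume.real K := by
    intro ε hε
    set ψ : (Fin n → ℝ) → ℝ := fun y => w y / √(w y ^ 2 + ε ^ 2) with hψ
    have hpos : ∀ y, 0 < w y ^ 2 + ε ^ 2 := fun y => by positivity
    have hψc : ContDiff ℝ (⊤ : ℕ∞) ψ := by
      refine hwc.div ?_ fun y => (Real.sqrt_pos.2 (hpos y)).ne'
      exact ((hwc.pow 2).add contDiff_const).sqrt fun y => (hpos y).ne'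
    have hψs : HasCompactSupport ψ := by
      refine hws.mono' ?_
      refine Set.Subset.trans ?_ subset_closure
      intro y hy
      rw [Function.mem_support] at hy ⊢
      intro h0
      exact hy (by simp [hψ, h0])
    have hψb : ∀ y, |ψ y| ≤ 1 := fun y => (sgn_reg (w y) ε hε).1
    have hψi : Integrable ψ := hψc.continuous.integrable_of_hasCompactSupport hψs
    -- pointwise bound
    have hpt : ∀ y, |w y| ≤ w y * ψ y + K.indicator (fun _ => ε) y := by
      intro y
      by_cases hy : y ∈ K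
      · rw [indicator_of_mem hy]
        exact (sgn_reg (w y) ε hε).2
      · rw [indicator_of_notMem hy]
        have : w y = 0 := image_eq_zero_of_notMem_tsupport hy
        simp [this]
    have hwψ : Integrable (fun y => w y * ψ y) :=
      (hwc.continuous.mul hψc.continuous).integrable_of_hasCompactSupport hws.mul_right
    have hind : Integrable (K.indicator (fun _ => ε)) :=
      (integrable_indicator_iff hKc.measurableSet).2
        (integrableOn_const (hs := hKc.measure_lt_top.ne))
    have h1 : ∫ y, |w y| ≤ (∫ y, w y * ψ y) + ε * volume.real K := by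
      calc ∫ y, |w y| ≤ ∫ y, (w y * ψ y + K.indicator (fun _ => ε) y) :=
            integral_mono hwi.abs (hwψ.add hind) hpt
        _ = (∫ y, w y * ψ y) + ∫ y, K.indicator (fun _ => ε) y := integral_add hwψ hind
        _ = _ := by
            rw [integral_indicator hKc.measurableSet, setIntegral_const, smul_eq_mul]
            ring
    -- integration by parts
    have hmolc : ContDiff ℝ (⊤ : ℕ∞) (mol φ u) := contDiff_mol φ hu.locallyIntegrable
    have hmols : HasCompactSupport (mol φ u) := hasCompactSupport_mol φ hc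
    have h2 : ∫ y, w y * ψ y = - ∫ y, mol φ u y * pd j ψ y := by
      have hib := integral_mul_fderiv_eq_neg_fderiv_mul_of_integrable
        (μ := (volume : Measure (Fin n → ℝ))) (𝕜 := ℝ)
        (f := mol φ u) (g := ψ) (v := (Pi.single j (1 : ℝ) : Fin n → ℝ))
        hwψ
        ((hmolc.continuous.mul (contDiff_pd hψc j).continuous).integrable_of_hasCompactSupport
          hmols.mul_right)
        ((hmolc.continuous.mul hψc.continuous).integrable_of_hasCompactSupport
          hmols.mul_right)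
        (fun y _ => hmolc.differentiable (by simp) y)
        (fun y _ => hψc.differentiable (by simp) y)
      have e : ∫ y, w y * ψ y = ∫ y, fderiv ℝ (mol φ u) y (Pi.single j 1) * ψ y := rfl
      rw [e, eq_neg_iff_add_eq_zero, add_comm, ← eq_neg_iff_add_eq_zero]
      exact hib
    have hpdψi : Integrable (pd j ψ) := by
      refine (contDiff_pd hψc j).continuous.integrable_of_hasCompactSupport ?_
      have h := hψs.fderiv ℝ
      exact h.comp_left (g := fun L : (Fin n → ℝ) →L[ℝ] ℝ => L (Pi.single j 1)) (by simp)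
    set X : (Fin n → ℝ) → (Fin n → ℝ) := fun y => Pi.single j (mol φ ψ y) with hX
    have hmψ : ContDiff ℝ (⊤ : ℕ∞) (mol φ ψ) := contDiff_mol φ hψi.locallyIntegrable
    have hXc : ContDiff ℝ (⊤ : ℕ∞) X := by
      rw [contDiff_pi]
      intro i
      by_cases h : i = j
      · subst h
        simpa [hX] using hmψ
      · simp only [hX, Pi.single_eq_of_ne h]
        exact contDiff_const
    have hXs : HasCompactSupport X := by
      refine (hasCompactSupport_mol φ hψs).mono' (Set.Subset.trans ?_ subset_closure)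
      intro y hy
      rw [Function.mem_support] at hy ⊢
      intro h0
      exact hy (by simp [hX, h0])
    have hXb : ∀ y i, |X y i| ≤ 1 := by
      intro y i
      by_cases h : i = j
      · subst h
        simpa [hX] using abs_mol_le φ hψb y
      · simp [hX, Pi.single_eq_of_ne h]
    have hdv : ∀ y, dv X y = mol φ (pd j ψ) y := by
      intro y
      unfold dv
      rw [Finset.sum_eq_single j]
      · rw [← pd_mol φ hψc hψs]
        simp [hX]
      · intro i _ h
        simp [hX, Pi.single_eq_of_ne h, pd]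
      · simp
    have h3 := hM X hXc hXs hXb
    have h4 : ∫ y, mol φ u y * pd j ψ y = ∫ y, u y * dv X y := by
      rw [mol_adj φ hu hpdψi]
      simp only [hdv]
    have h5 : ∫ y, w y * ψ y ≤ M := by
      rw [h2, h4]
      exact (neg_le_abs _).trans h3
    linarith
  have hlim : Tendsto (fun ε : ℝ => M + ε * volume.real K) (𝓝[>] 0) (𝓝 (M + 0 * volume.real K)) := by
    apply Tendsto.mono_left _ nhdsWithin_le_nhds
    exact tendsto_const_nhds.add (tendsto_id.mul_const _)
  have := ge_of_tendsto hlim (eventually_nhdsWithin_of_forall fun ε hε => key ε hε)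
  simpa using this

/-- a sequence of bumps shrinking to a point -/
noncomputable def bmp (n : ℕ) (k : ℕ) : ContDiffBump (0 : Fin n → ℝ) where
  rIn := 1 / (2 * ((k : ℝ) + 1))
  rOut := 1 / ((k : ℝ) + 1)
  rIn_pos := by positivity
  rIn_lt_rOut := by
    rw [one_div_lt_one_div (by positivity) (by positivity)]
    linarith [(Nat.cast_nonneg k : (0 : ℝ) ≤ k)]

theorem bmp_tendsto (n : ℕ) {u : (Fin n → ℝ) → ℝ} (hu : LocallyIntegrable u) :
    ∀ᵐ x, Tendsto (fun k => mol (bmp n k) u x) atTop (𝓝 (u x)) := by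
  refine ContDiffBump.ae_convolution_tendsto_right_of_locallyIntegrable (K := 2) ?_ ?_ hu
  · simp only [bmp]
    exact tendsto_one_div_add_atTop_nhds_zero_nat
  · refine Eventually.of_forall fun k => ?_
    simp only [bmp]
    have : (0 : ℝ) < (k : ℝ) + 1 := by positivity
    field_simp
    norm_num

/-- T1.3 Sobolev inequality for compactly supported functions of bounded variation. -/
theorem bv_sobolev (n : ℕ) (hn : 2 ≤ n) : ∃ C : ℝ, 0 < C ∧
    ∀ (u : (Fin n → ℝ) → ℝ) (M : ℝ), Integrable u → (∃ R : ℝ, ∀ y, R < ‖y‖ → u y = 0) → 0 ≤ M →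
    (∀ X : (Fin n → ℝ) → (Fin n → ℝ), ContDiff ℝ (⊤ : ℕ∞) X → HasCompactSupport X →
      (∀ y i, |X y i| ≤ 1) → |∫ y, u y * dv X y| ≤ M) →
    Integrable (fun y => |u y| ^ ((n : ℝ) / (n - 1))) ∧
    ∫ y, |u y| ^ ((n : ℝ) / (n - 1)) ≤ C * M ^ ((n : ℝ) / (n - 1)) := by
  have hn' : (2 : ℝ) ≤ n := by exact_mod_cast hn
  set p : ℝ := (n : ℝ) / (n - 1) with hp
  have hp0 : 0 < p := by rw [hp]; apply div_pos <;> linarith
  have hpc : Real.HolderConjugate (Fintype.card (Fin n)) p := by
    rw [Fintype.card_fin, hp]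
    exact Real.HolderConjugate.conjExponent (by linarith)
  refine ⟨(n : ℝ) ^ p, by positivity, ?_⟩
  intro u M hu hR hM0 hM
  obtain ⟨R, hR⟩ := hR
  have hc : HasCompactSupport u :=
    HasCompactSupport.intro (isCompact_closedBall (0 : Fin n → ℝ) R) fun y hy => by
      apply hR
      simpa using hy
  have hgrad : ∀ k, ∫⁻ x, ‖fderiv ℝ (mol (bmp n k) u) x‖ₑ ≤ ENNReal.ofReal (n * M) := by
    intro k
    have hmolc : ContDiff ℝ (⊤ : ℕ∞) (mol (bmp n k) u) := contDiff_mol _ hu.locallyIntegrable
    have hmols : HasCompactSupport (mol (bmp n k) u) := hasCompactSupport_mol _ hc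
    have hint : ∀ j : Fin n, Integrable (fun x => |pd j (mol (bmp n k) u) x|) := by
      intro j
      refine Integrable.abs ?_
      refine (contDiff_pd hmolc j).continuous.integrable_of_hasCompactSupport ?_
      have h := hmols.fderiv ℝ
      exact h.comp_left (g := fun L : (Fin n → ℝ) →L[ℝ] ℝ => L (Pi.single j 1)) (by simp)
    calc ∫⁻ x, ‖fderiv ℝ (mol (bmp n k) u) x‖ₑ
        ≤ ∫⁻ x, ENNReal.ofReal (∑ j, |pd j (mol (bmp n k) u) x|) := by
          refine lintegral_mono fun x => ?_
          rw [← ofReal_norm]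
          exact ENNReal.ofReal_le_ofReal (norm_clm_le _)
      _ = ENNReal.ofReal (∫ x, ∑ j, |pd j (mol (bmp n k) u) x|) := by
          rw [ofReal_integral_eq_lintegral_ofReal (integrable_finsetSum _ fun j _ => hint j)
            (Eventually.of_forall fun x => Finset.sum_nonneg fun j _ => abs_nonneg _)]
      _ ≤ ENNReal.ofReal (n * M) := by
          apply ENNReal.ofReal_le_ofReal
          rw [integral_finsetSum _ fun j _ => hint j]
          calc ∑ j : Fin n, ∫ x, |pd j (mol (bmp n k) u) x| ≤ ∑ _j : Fin n, M :=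
                Finset.sum_le_sum fun j _ => integral_abs_pd_mol_le hu hc hM _ j
            _ = n * M := by simp
  have hsob : ∀ k, ∫⁻ x, ‖mol (bmp n k) u x‖ₑ ^ p ≤ ENNReal.ofReal (n * M) ^ p := by
    intro k
    have hmolc : ContDiff ℝ (⊤ : ℕ∞) (mol (bmp n k) u) := contDiff_mol _ hu.locallyIntegrable
    have hmols : HasCompactSupport (mol (bmp n k) u) := hasCompactSupport_mol _ hc
    refine (lintegral_pow_le_pow_lintegral_fderiv_aux hpc
      (hmolc.of_le (by exact_mod_cast le_top)) hmols).trans ?_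
    exact ENNReal.rpow_le_rpow (hgrad k) hp0.le
  have hlim : ∫⁻ x, ‖u x‖ₑ ^ p ≤ ENNReal.ofReal (n * M) ^ p := by
    have hae := bmp_tendsto n hu.locallyIntegrable
    calc ∫⁻ x, ‖u x‖ₑ ^ p = ∫⁻ x, liminf (fun k => ‖mol (bmp n k) u x‖ₑ ^ p) atTop := by
          refine lintegral_congr_ae ?_
          filter_upwards [hae] with x hx
          have : Tendsto (fun k => ‖mol (bmp n k) u x‖ₑ ^ p) atTop (𝓝 (‖u x‖ₑ ^ p)) :=
            (ENNReal.continuous_rpow_const.tendsto _).comp
              ((continuous_enorm.tendsto _).comp hx)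
          exact this.liminf_eq.symm
      _ ≤ liminf (fun k => ∫⁻ x, ‖mol (bmp n k) u x‖ₑ ^ p) atTop := by
          refine lintegral_liminf_le fun k => ?_
          have hmolc : ContDiff ℝ (⊤ : ℕ∞) (mol (bmp n k) u) :=
            contDiff_mol _ hu.locallyIntegrable
          exact (hmolc.continuous.measurable.enorm).pow_const p
      _ ≤ ENNReal.ofReal (n * M) ^ p := by
          refine liminf_le_of_frequently_le' ?_
          exact (Eventually.of_forall fun k => hsob k).frequently
  have heq : ∀ x, ‖u x‖ₑ ^ p = ENNReal.ofReal (|u x| ^ p) := by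
    intro x
    rw [← ofReal_norm, ENNReal.ofReal_rpow_of_nonneg (norm_nonneg _) hp0.le,
      Real.norm_eq_abs]
  simp only [heq] at hlim
  have hmeas : AEStronglyMeasurable (fun y => |u y| ^ p) volume :=
    (hu.aestronglyMeasurable.norm.aemeasurable.pow_const p).aestronglyMeasurable
  have hnn : ∀ y, 0 ≤ |u y| ^ p := fun y => Real.rpow_nonneg (abs_nonneg _) _
  have hint : Integrable (fun y => |u y| ^ p) := by
    refine ⟨hmeas, ?_⟩
    rw [hasFiniteIntegral_iff_ofReal (Eventually.of_forall hnn)]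
    refine hlim.trans_lt ?_
    exact ENNReal.rpow_lt_top_of_nonneg hp0.le ENNReal.ofReal_ne_top
  refine ⟨hint, ?_⟩
  have h1 := ofReal_integral_eq_lintegral_ofReal hint (Eventually.of_forall hnn)
  rw [← h1] at hlim
  rw [ENNReal.ofReal_rpow_of_nonneg (by positivity) hp0.le] at hlim
  have h2 := (ENNReal.ofReal_le_ofReal_iff (by positivity)).1 hlim
  rw [Real.mul_rpow (by positivity) hM0] at h2
  exact h2

end Pool.Agent.MP8995
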