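import Mathlib
import Pool.Agent.Lib.MP_8995c5_an.Approx

/-!
# `L¹` differentiability of Sobolev maps
-/

set_option autoImplicit false

open MeasureTheory Metric Set Filter Topology
open scoped ENNReal NNReal Pointwise

namespace Pool.Agent.MP8995

variable {n : ℕ}

theorem clm_apply_eq_sum (L : (Fin n → ℝ) →L[ℝ] ℝ) (y : Fin n → ℝ) :
    L y = ∑ j, y j * L (Pi.single j (1 : ℝ)) := by
  have h : y = ∑ j, y j • (Pi.single j (1 : ℝ) : Fin n → ℝ) := by
    funext i
    simp [Finset.sum_apply, Pi.single_apply]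
  conv_lhs => rw [h]
  rw [map_sum]
  simp

theorem continuous_pd {v : (Fin n → ℝ) → ℝ} (hv : ContDiff ℝ 1 v) (j : Fin n) :
    Continuous (pd j v) :=
  (hv.continuous_fderiv one_ne_zero).clm_apply continuous_const

theorem abs_sub_affine_le {v : (Fin n → ℝ) → ℝ} (hv : ContDiff ℝ 1 v) (p : Fin n → ℝ) {s : ℝ}
    {y : Fin n → ℝ} (hy : ‖y‖ ≤ s) :
    |v y - v 0 - ∑ j, p j * y j| ≤
      ∫ θ in Ioc (0 : ℝ) 1, s * ∑ j, |pd j v (θ • y) - p j| := by
  have hs : 0 ≤ s := (norm_nonneg _).trans hy
  have hd : ∀ θ : ℝ, HasDerivAt (fun θ : ℝ => v (θ • y) - θ * ∑ j, p j * y j)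
      (∑ j, (pd j v (θ • y) - p j) * y j) θ := by
    intro θ
    have h1 : HasFDerivAt v (fderiv ℝ v (θ • y)) (θ • y) :=
      (hv.differentiable one_ne_zero _).hasFDerivAt
    have h2 : HasDerivAt (fun θ : ℝ => θ • y) y θ := by
      simpa using (hasDerivAt_id θ).smul_const y
    have h3 := h1.comp_hasDerivAt θ h2
    have h4 : HasDerivAt (fun θ : ℝ => θ * ∑ j, p j * y j) (∑ j, p j * y j) θ := by
      simpa using (hasDerivAt_id θ).mul_const (∑ j, p j * y j)
    have h5 := h3.sub h4
    refine h5.congr_deriv ?_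
    rw [clm_apply_eq_sum, ← Finset.sum_sub_distrib]
    refine Finset.sum_congr rfl fun j _ => ?_
    unfold pd
    ring
  have hc : Continuous fun θ : ℝ => ∑ j, (pd j v (θ • y) - p j) * y j :=
    continuous_finsetSum _ fun j _ =>
      (((continuous_pd hv j).comp (continuous_id.smul continuous_const)).sub
        continuous_const).mul continuous_const
  have hc2 : Continuous fun θ : ℝ => s * ∑ j, |pd j v (θ • y) - p j| :=
    continuous_const.mul (continuous_finsetSum _ fun j _ =>
      (((continuous_pd hv j).comp (continuous_id.smul continuous_const)).sub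
        continuous_const).abs)
  have h6 := intervalIntegral.integral_eq_sub_of_hasDerivAt (a := 0) (b := 1)
    (fun θ _ => hd θ) (hc.intervalIntegrable _ _)
  have h7 : v y - v 0 - ∑ j, p j * y j =
      ∫ θ in (0 : ℝ)..1, ∑ j, (pd j v (θ • y) - p j) * y j := by
    rw [h6]
    simp
    ring
  rw [h7]
  refine (intervalIntegral.abs_integral_le_integral_abs zero_le_one).trans ?_
  rw [intervalIntegral.integral_of_le zero_le_one]
  refine setIntegral_mono_on ?_ ?_ measurableSet_Ioc fun θ _ => ?_
  · exact (hc.abs.intervalIntegrable 0 1).1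
  · exact (hc2.intervalIntegrable 0 1).1
  · refine (Finset.abs_sum_le_sum_abs _ _).trans ?_
    rw [Finset.mul_sum]
    refine Finset.sum_le_sum fun j _ => ?_
    rw [abs_mul, mul_comm]
    refine mul_le_mul_of_nonneg_right ?_ (abs_nonneg _)
    exact (norm_le_pi_norm y j).trans hy

/-- Key estimate for smooth functions. -/
theorem integral_sub_affine_le {v : (Fin n → ℝ) → ℝ} (hv : ContDiff ℝ 1 v) (p : Fin n → ℝ)
    {s A : ℝ} (hs : 0 < s)
    (hA : ∀ r, 0 < r → r ≤ s →
      ∫ z in closedBall (0 : Fin n → ℝ) r, ∑ j, |pd j v z - p j| ≤ A * r ^ n) :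
    ∫ y in closedBall (0 : Fin n → ℝ) s, |v y - v 0 - ∑ j, p j * y j| ≤ A * s ^ (n + 1) := by
  have hG : Continuous fun z => ∑ j, |pd j v z - p j| :=
    continuous_finsetSum _ fun j _ => ((continuous_pd hv j).sub continuous_const).abs
  have hcomp : IsCompact (closedBall (0 : Fin n → ℝ) s) := isCompact_closedBall _ _
  have hF : Continuous fun q : (Fin n → ℝ) × ℝ => s * ∑ j, |pd j v (q.2 • q.1) - p j| :=
    continuous_const.mul (hG.comp (continuous_snd.smul continuous_fst))
  have hFI : Integrable (Function.uncurry fun (y : Fin n → ℝ) (θ : ℝ) =>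
      s * ∑ j, |pd j v (θ • y) - p j|)
      ((volume.restrict (closedBall (0 : Fin n → ℝ) s)).prod
        (volume.restrict (Ioc (0 : ℝ) 1))) := by
    rw [Measure.prod_restrict]
    have : IntegrableOn (Function.uncurry fun (y : Fin n → ℝ) (θ : ℝ) =>
        s * ∑ j, |pd j v (θ • y) - p j|) (closedBall (0 : Fin n → ℝ) s ×ˢ Icc (0 : ℝ) 1)
        (volume.prod volume) :=
      ContinuousOn.integrableOn_compact (hcomp.prod isCompact_Icc) hF.continuousOn
    exact this.mono_set (prod_mono le_rfl Ioc_subset_Icc_self)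
  calc ∫ y in closedBall (0 : Fin n → ℝ) s, |v y - v 0 - ∑ j, p j * y j|
      ≤ ∫ y in closedBall (0 : Fin n → ℝ) s, ∫ θ in Ioc (0 : ℝ) 1,
          s * ∑ j, |pd j v (θ • y) - p j| := by
        refine setIntegral_mono_on ?_ hFI.integral_prod_left measurableSet_closedBall
          fun y hy => ?_
        · refine ContinuousOn.integrableOn_compact hcomp (Continuous.continuousOn ?_)
          exact ((hv.continuous.sub continuous_const).sub (continuous_finsetSum _ fun j _ =>
            continuous_const.mul (continuous_apply j))).abs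
        · exact abs_sub_affine_le hv p (by simpa using hy)
    _ = ∫ θ in Ioc (0 : ℝ) 1, ∫ y in closedBall (0 : Fin n → ℝ) s,
          s * ∑ j, |pd j v (θ • y) - p j| := integral_integral_swap hFI
    _ ≤ ∫ _θ in Ioc (0 : ℝ) 1, A * s ^ (n + 1) := by
        refine setIntegral_mono_on hFI.integral_prod_right
          (integrableOn_const (by simp)) measurableSet_Ioc
          fun θ hθ => ?_
        rw [integral_const_mul]
        have h1 := Measure.setIntegral_comp_smul_of_pos (volume : Measure (Fin n → ℝ))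
          (fun z => ∑ j, |pd j v z - p j|) (closedBall (0 : Fin n → ℝ) s) hθ.1
        rw [h1, _root_.smul_closedBall θ (0 : Fin n → ℝ) hs.le, smul_zero, Real.norm_eq_abs,
          abs_of_pos hθ.1, Module.finrank_fin_fun, smul_eq_mul]
        have h2 := hA (θ * s) (mul_pos hθ.1 hs) (by nlinarith [hθ.2, hs])
        have hθn : 0 < θ ^ n := pow_pos hθ.1 n
        have h3 : (θ ^ n)⁻¹ * ∫ z in closedBall (0 : Fin n → ℝ) (θ * s),
            ∑ j, |pd j v z - p j| ≤ A * s ^ n := by
          rw [inv_mul_le_iff₀ hθn]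
          refine h2.trans (le_of_eq ?_)
          rw [mul_pow]; ring
        calc s * ((θ ^ n)⁻¹ * ∫ z in closedBall (0 : Fin n → ℝ) (θ * s),
            ∑ j, |pd j v z - p j|) ≤ s * (A * s ^ n) := mul_le_mul_of_nonneg_left h3 hs.le
          _ = A * s ^ (n + 1) := by ring
    _ = A * s ^ (n + 1) := by simp

theorem integral_sub_affine_le' {v : (Fin n → ℝ) → ℝ} (hv : ContDiff ℝ 1 v) (p x : Fin n → ℝ)
    {s A : ℝ} (hs : 0 < s)
    (hA : ∀ r, 0 < r → r ≤ s →
      ∫ z in closedBall x r, ∑ j, |pd j v z - p j| ≤ A * r ^ n) :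
    ∫ y in closedBall x s, |v y - v x - ∑ j, p j * (y j - x j)| ≤ A * s ^ (n + 1) := by
  have hsub : ∀ (r : ℝ) (F : (Fin n → ℝ) → ℝ),
      ∫ z in closedBall x r, F z = ∫ z in closedBall (0 : Fin n → ℝ) r, F (z + x) := by
    intro r F
    have h1 := (measurePreserving_add_right (volume : Measure (Fin n → ℝ)) x
      ).setIntegral_preimage_emb (measurableEmbedding_addRight x) F (closedBall x r)
    rw [← h1]
    congr 2
    ext z
    simp [dist_eq_norm]
  have hv' : ContDiff ℝ 1 fun z => v (z + x) := hv.comp (contDiff_id.add contDiff_const)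
  have hpd : ∀ j z, pd j (fun z => v (z + x)) z = pd j v (z + x) := by
    intro j z
    unfold pd
    rw [fderiv_comp_add_right]
  have h := integral_sub_affine_le hv' p (A := A) hs (fun r hr hrs => by
    simp only [hpd]
    rw [← hsub r (fun z => ∑ j, |pd j v z - p j|)]
    exact hA r hr hrs)
  rw [hsub]
  simpa using h

theorem abs_moll_sub_le (k : ℕ) {w : (Fin n → ℝ) → ℝ} (hw : Integrable w) (p : ℝ)
    {x z : Fin n → ℝ} {r R : ℝ} (hz : z ∈ closedBall x r) (hrR : r ≤ R) (hkR : rad k ≤ R) :
    |moll k w z - p| ≤ moll k (indicator (closedBall x (2 * R)) fun y => |w y - p|) z := by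
  have h1 : moll k w z - p = ∫ y, ker n k (z - y) * (w y - p) := by
    have : (fun y => ker n k (z - y) * (w y - p)) =
        fun y => ker n k (z - y) * w y - ker n k (z - y) * p := by funext y; ring
    rw [this, integral_sub (integrable_ker_mul k hw z) ((integrable_ker_sub k z).mul_const p),
      integral_mul_const, integral_ker_sub, one_mul]
    rfl
  rw [h1]
  refine abs_integral_le_integral_abs.trans (le_of_eq ?_)
  unfold moll
  refine integral_congr_ae (Eventually.of_forall fun y => ?_)
  simp only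
  rw [abs_mul, abs_of_nonneg (ker_nonneg _ _)]
  by_cases hy : y ∈ closedBall x (2 * R)
  · rw [indicator_of_mem hy]
  · rw [indicator_of_notMem hy, mul_zero]
    have : ker n k (z - y) = 0 := by
      apply ker_eq_zero
      rw [mem_closedBall, dist_eq_norm] at hz
      rw [mem_closedBall, not_le, dist_eq_norm] at hy
      have h2 : ‖y - x‖ ≤ ‖z - y‖ + ‖z - x‖ := by
        have : y - x = -(z - y) + (z - x) := by abel
        rw [this]
        refine (norm_add_le _ _).trans ?_
        rw [norm_neg]
      linarith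
    rw [this, zero_mul]

theorem moll_le_sup (k : ℕ) {q : (Fin n → ℝ) → ℝ} (hq : Integrable q) (hq0 : ∀ y, 0 ≤ q y)
    (z : Fin n → ℝ) : moll k q z ≤ (rad k)⁻¹ ^ n * ∫ y, q y := by
  rw [← integral_const_mul]
  refine integral_mono (integrable_ker_mul k hq z) (hq.const_mul _) fun y => ?_
  exact mul_le_mul_of_nonneg_right (ker_le _ _) (hq0 y)

theorem volume_real_closedBall (x : Fin n → ℝ) {r : ℝ} (hr : 0 ≤ r) :
    (volume : Measure (Fin n → ℝ)).real (closedBall x r) = (2 * r) ^ n := by
  rw [measureReal_def, Real.volume_pi_closedBall _ hr, ENNReal.toReal_ofReal (by positivity)]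
  simp

theorem integral_moll_sub_le (k : ℕ) {w : Fin n → (Fin n → ℝ) → ℝ} (hw : ∀ j, Integrable (w j))
    (p : Fin n → ℝ) {x : Fin n → ℝ} {s Θ : ℝ} (hΘ0 : 0 ≤ Θ)
    (hΘ : ∀ r, 0 < r → r ≤ 2 * s → ∫ z in closedBall x r, ∑ j, |w j z - p j| ≤ Θ * r ^ n)
    (hk : rad k ≤ s) {r : ℝ} (hr : 0 < r) (hrs : r ≤ s) :
    ∫ z in closedBall x r, ∑ j, |moll k (w j) z - p j| ≤ 4 ^ n * Θ * r ^ n := by
  have hq : ∀ (R : ℝ) j, Integrable (indicator (closedBall x (2 * R)) fun y => |w j y - p j|) := by
    intro R j
    rw [integrable_indicator_iff measurableSet_closedBall]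
    exact ((hw j).integrableOn.sub (integrableOn_const (by
      exact (measure_closedBall_lt_top).ne))).abs
  have hq0 : ∀ (R : ℝ) j y, 0 ≤ (indicator (closedBall x (2 * R)) fun y => |w j y - p j|) y :=
    fun R j y => indicator_nonneg (fun _ _ => abs_nonneg _) _
  have hsum : ∀ R : ℝ, 0 < R → R ≤ s → ∑ j, ∫ y, (indicator (closedBall x (2 * R))
      fun y => |w j y - p j|) y ≤ Θ * (2 * R) ^ n := by
    intro R hR hRs
    refine le_trans (le_of_eq ?_) (hΘ (2 * R) (by positivity) (by linarith))
    rw [integral_finsetSum]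
    · exact Finset.sum_congr rfl fun j _ => integral_indicator measurableSet_closedBall
    · intro j _
      exact (integrable_indicator_iff measurableSet_closedBall).1 (hq R j)
  have hIm : ∀ j, IntegrableOn (fun z => |moll k (w j) z - p j|) (closedBall x r) := fun j =>
    ((integrable_moll k (hw j)).integrableOn.sub (integrableOn_const
      (measure_closedBall_lt_top).ne)).abs
  rcases le_total (rad k) r with h | h
  · calc ∫ z in closedBall x r, ∑ j, |moll k (w j) z - p j|
        ≤ ∫ z in closedBall x r, ∑ j, moll k (indicator (closedBall x (2 * r))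
            fun y => |w j y - p j|) z := by
          refine setIntegral_mono_on (integrable_finsetSum _ fun j _ => hIm j)
            (integrable_finsetSum _ fun j _ => (integrable_moll k (hq r j)).integrableOn)
            measurableSet_closedBall fun z hz => ?_
          exact Finset.sum_le_sum fun j _ => abs_moll_sub_le k (hw j) (p j) hz le_rfl h
      _ ≤ ∫ z, ∑ j, moll k (indicator (closedBall x (2 * r)) fun y => |w j y - p j|) z :=
          setIntegral_le_integral (integrable_finsetSum _ fun j _ => integrable_moll k (hq r j))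
            (Eventually.of_forall fun z => Finset.sum_nonneg fun j _ => moll_nonneg k (hq0 r j) z)
      _ = ∑ j, ∫ y, (indicator (closedBall x (2 * r)) fun y => |w j y - p j|) y := by
          rw [integral_finsetSum _ fun j _ => integrable_moll k (hq r j)]
          exact Finset.sum_congr rfl fun j _ => integral_moll k (hq r j)
      _ ≤ Θ * (2 * r) ^ n := hsum r hr hrs
      _ ≤ 4 ^ n * Θ * r ^ n := by
          rw [mul_pow]
          have : (2 : ℝ) ^ n ≤ 4 ^ n := pow_le_pow_left₀ (by norm_num) (by norm_num) n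
          have h2 : 0 ≤ Θ * r ^ n := by positivity
          nlinarith
  · have hrk : 0 < rad k := rad_pos k
    calc ∫ z in closedBall x r, ∑ j, |moll k (w j) z - p j|
        ≤ ∫ _z in closedBall x r, 2 ^ n * Θ := by
          refine setIntegral_mono_on (integrable_finsetSum _ fun j _ => hIm j)
            (integrableOn_const (measure_closedBall_lt_top).ne)
            measurableSet_closedBall fun z hz => ?_
          calc ∑ j, |moll k (w j) z - p j|
              ≤ ∑ j, moll k (indicator (closedBall x (2 * rad k)) fun y => |w j y - p j|) z :=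
                Finset.sum_le_sum fun j _ => abs_moll_sub_le k (hw j) (p j) hz h le_rfl
            _ ≤ ∑ j, (rad k)⁻¹ ^ n * ∫ y, (indicator (closedBall x (2 * rad k))
                  fun y => |w j y - p j|) y :=
                Finset.sum_le_sum fun j _ => moll_le_sup k (hq _ j) (hq0 _ j) z
            _ = (rad k)⁻¹ ^ n * ∑ j, ∫ y, (indicator (closedBall x (2 * rad k))
                  fun y => |w j y - p j|) y := by rw [Finset.mul_sum]
            _ ≤ (rad k)⁻¹ ^ n * (Θ * (2 * rad k) ^ n) :=
                mul_le_mul_of_nonneg_left (hsum (rad k) hrk hk) (by positivity)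
            _ = 2 ^ n * Θ := by
                rw [mul_pow, inv_pow]
                field_simp
      _ = (2 * r) ^ n * (2 ^ n * Θ) := by
          rw [setIntegral_const, volume_real_closedBall x hr.le, smul_eq_mul]
      _ = 4 ^ n * Θ * r ^ n := by
          rw [mul_pow, show (4 : ℝ) = 2 * 2 by norm_num, mul_pow]; ring

theorem scalar_diff_bound {U : Set (Fin n → ℝ)} {u : (Fin n → ℝ) → ℝ}
    {w : Fin n → (Fin n → ℝ) → ℝ} (hu : Integrable u) (hw : ∀ j, Integrable (w j))
    (weak : ∀ j, ∀ φ : (Fin n → ℝ) → ℝ, ContDiff ℝ (⊤ : ℕ∞) φ → HasCompactSupport φ →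
      tsupport φ ⊆ U → ∫ x, u x * pd j φ x = - ∫ x, w j x * φ x)
    {x : Fin n → ℝ} {s Θ : ℝ} (hs : 0 < s) (hU : closedBall x (2 * s) ⊆ U)
    (hlim : Tendsto (fun k => moll k u x) atTop (𝓝 (u x))) (hΘ0 : 0 ≤ Θ)
    (hΘ : ∀ r, 0 < r → r ≤ 2 * s → ∫ z in closedBall x r, ∑ j, |w j z - w j x| ≤ Θ * r ^ n) :
    ∫ y in closedBall x s, |u y - u x - ∑ j, w j x * (y j - x j)| ≤
      4 ^ n * Θ * s ^ (n + 1) := by
  have hfin : volume (closedBall x s) ≠ ∞ := (measure_closedBall_lt_top).ne
  have hcomp : IsCompact (closedBall x s) := isCompact_closedBall _ _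
  have hlin : IntegrableOn (fun y : Fin n → ℝ => ∑ j, w j x * (y j - x j)) (closedBall x s) :=
    ContinuousOn.integrableOn_compact hcomp (Continuous.continuousOn
      (continuous_finsetSum _ fun j _ => continuous_const.mul
        ((continuous_apply j).sub continuous_const)))
  have hev : ∀ᶠ k in atTop, rad k ≤ s :=
    (tendsto_rad.eventually (gt_mem_nhds hs)).mono fun k hk => hk.le
  have hT : Tendsto (fun k => 4 ^ n * Θ * s ^ (n + 1) + (∫ y, |moll k u y - u y|) +
      (2 * s) ^ n * |moll k u x - u x|) atTop (𝓝 (4 ^ n * Θ * s ^ (n + 1) + 0 + (2 * s) ^ n * 0)) := by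
    refine (tendsto_const_nhds.add (tendsto_integral_moll_sub hu)).add
      (Tendsto.const_mul _ ?_)
    have := (hlim.sub_const (u x)).abs
    simpa using this
  rw [mul_zero, add_zero, add_zero] at hT
  refine ge_of_tendsto hT ?_
  filter_upwards [hev] with k hk
  have hsm : ContDiff ℝ 1 (moll k u) := (contDiff_moll k hu.locallyIntegrable).of_le (by simp)
  have h1 : ∫ y in closedBall x s, |moll k u y - moll k u x - ∑ j, w j x * (y j - x j)| ≤
      4 ^ n * Θ * s ^ (n + 1) := by
    refine integral_sub_affine_le' hsm (fun j => w j x) x hs fun r hr hrs => ?_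
    refine le_trans (le_of_eq ?_) (integral_moll_sub_le k hw (fun j => w j x) hΘ0 hΘ hk hr hrs)
    refine setIntegral_congr_fun measurableSet_closedBall fun z hz => ?_
    refine Finset.sum_congr rfl fun j _ => ?_
    rw [pd_moll hu (weak j)]
    refine subset_trans ?_ hU
    intro y hy
    rw [mem_closedBall] at hy hz ⊢
    have := dist_triangle y z x
    linarith
  have hIm : IntegrableOn (fun y => |moll k u y - moll k u x - ∑ j, w j x * (y j - x j)|)
      (closedBall x s) :=
    (((integrable_moll k hu).integrableOn.sub (integrableOn_const hfin)).sub hlin).abs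
  have hI2 : IntegrableOn (fun y => |moll k u y - u y|) (closedBall x s) :=
    ((integrable_moll k hu).sub hu).abs.integrableOn
  have hI3 : IntegrableOn (fun _ : Fin n → ℝ => |moll k u x - u x|) (closedBall x s) :=
    integrableOn_const hfin
  calc ∫ y in closedBall x s, |u y - u x - ∑ j, w j x * (y j - x j)|
      ≤ ∫ y in closedBall x s, (|moll k u y - moll k u x - ∑ j, w j x * (y j - x j)| +
          |moll k u y - u y| + |moll k u x - u x|) := by
        refine setIntegral_mono_on ?_ ((hIm.add hI2).add hI3) measurableSet_closedBall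
          fun y _ => ?_
        · exact ((hu.integrableOn.sub (integrableOn_const hfin)).sub hlin).abs
        · have e : u y - u x - ∑ j, w j x * (y j - x j) =
              (moll k u y - moll k u x - ∑ j, w j x * (y j - x j)) +
              (-(moll k u y - u y)) + (moll k u x - u x) := by ring
          rw [e]
          refine (abs_add_le _ _).trans (add_le_add ((abs_add_le _ _).trans ?_) le_rfl)
          rw [abs_neg]
    _ = (∫ y in closedBall x s, |moll k u y - moll k u x - ∑ j, w j x * (y j - x j)|) +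
          (∫ y in closedBall x s, |moll k u y - u y|) +
          ∫ _y in closedBall x s, |moll k u x - u x| := by
        have hI12 : IntegrableOn (fun y => |moll k u y - moll k u x - ∑ j, w j x * (y j - x j)| +
            |moll k u y - u y|) (closedBall x s) := hIm.add hI2
        rw [integral_add hI12 hI3, integral_add hIm hI2]
    _ ≤ 4 ^ n * Θ * s ^ (n + 1) + (∫ y, |moll k u y - u y|) +
          (2 * s) ^ n * |moll k u x - u x| := by
        refine add_le_add (add_le_add h1 ?_) (le_of_eq ?_)
        · exact setIntegral_le_integral ((integrable_moll k hu).sub hu).abs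
            (Eventually.of_forall fun y => abs_nonneg _)
        · rw [setIntegral_const, volume_real_closedBall x hs.le, smul_eq_mul]

theorem scalar_l1_diff {U : Set (Fin n → ℝ)} (hU : IsOpen U) {u : (Fin n → ℝ) → ℝ}
    {w : Fin n → (Fin n → ℝ) → ℝ} (hu : Integrable u) (hw : ∀ j, Integrable (w j))
    (weak : ∀ j, ∀ φ : (Fin n → ℝ) → ℝ, ContDiff ℝ (⊤ : ℕ∞) φ → HasCompactSupport φ →
      tsupport φ ⊆ U → ∫ x, u x * pd j φ x = - ∫ x, w j x * φ x) :
    ∀ᵐ x ∂(volume.restrict U), Tendsto (fun s : ℝ => (s ^ (n + 1))⁻¹ *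
      ∫ y in closedBall x s, |u y - u x - ∑ j, w j x * (y j - x j)|) (𝓝[>] 0) (𝓝 0) := by
  rw [ae_restrict_iff' hU.measurableSet]
  have hL : ∀ᵐ x, ∀ j, Tendsto (fun s : ℝ => ⨍ y in closedBall x s, ‖w j y - w j x‖)
      (𝓝[>] 0) (𝓝 0) := by
    rw [ae_all_iff]
    intro j
    filter_upwards [(Besicovitch.vitaliFamily volume).ae_tendsto_average_norm_sub
      (hw j).locallyIntegrable] with x hx
    exact hx.comp (Besicovitch.tendsto_filterAt volume x)
  filter_upwards [hL, ae_tendsto_moll hu.locallyIntegrable] with x hx1 hx2 hxU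
  rw [Metric.tendsto_nhdsWithin_nhds]
  intro ε hε
  -- choose the small parameter
  set ε' : ℝ := ε / (2 * (4 ^ n * (n * 2 ^ n + 1))) with hε'
  have hε'0 : 0 < ε' := by positivity
  have h1 : ∀ᶠ s in 𝓝[>] (0 : ℝ), ∀ j, ⨍ y in closedBall x s, ‖w j y - w j x‖ < ε' := by
    rw [eventually_all]
    intro j
    exact (hx1 j).eventually (gt_mem_nhds hε'0)
  rw [eventually_nhdsWithin_iff, Metric.eventually_nhds_iff] at h1
  obtain ⟨δ, hδ, h1⟩ := h1
  obtain ⟨ρ, hρ, hρU⟩ := Metric.isOpen_iff.1 hU x hxU
  refine ⟨min (δ / 2) (ρ / 2), by positivity, fun {s} hs hsd => ?_⟩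
  rw [mem_Ioi] at hs
  rw [Real.dist_eq, sub_zero, abs_of_pos hs] at hsd
  have hs1 : 2 * s < δ := by have := lt_of_lt_of_le hsd (min_le_left _ _); linarith
  have hs2 : 2 * s < ρ := by have := lt_of_lt_of_le hsd (min_le_right _ _); linarith
  have hb := scalar_diff_bound hu hw weak (x := x) (s := s) (Θ := n * 2 ^ n * ε') hs
    ((closedBall_subset_ball hs2).trans hρU) hx2 (by positivity) (fun r hr hr2 => by
      have hrI : ∀ j, IntegrableOn (fun z => |w j z - w j x|) (closedBall x r) := fun j =>
        ((hw j).integrableOn.sub (integrableOn_const (measure_closedBall_lt_top).ne)).abs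
      rw [integral_finsetSum _ fun j _ => hrI j]
      have h2 : ∀ j ∈ Finset.univ, ∫ z in closedBall x r, |w j z - w j x| ≤
          ε' * (2 * r) ^ n := by
        intro j _
        have h3 := h1 (y := r) (by rw [Real.dist_eq, sub_zero, abs_of_pos hr]; linarith) hr j
        rw [setAverage_eq, volume_real_closedBall x hr.le, smul_eq_mul] at h3
        have hpos : (0 : ℝ) < (2 * r) ^ n := by positivity
        rw [inv_mul_lt_iff₀ hpos] at h3
        simp only [Real.norm_eq_abs] at h3
        linarith
      refine (Finset.sum_le_sum h2).trans (le_of_eq ?_)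
      rw [Finset.sum_const, Finset.card_univ, Fintype.card_fin, nsmul_eq_mul, mul_pow]
      ring)
  rw [Real.dist_eq, sub_zero]
  have hspos : 0 < s ^ (n + 1) := pow_pos hs _
  have hnn : 0 ≤ ∫ y in closedBall x s, |u y - u x - ∑ j, w j x * (y j - x j)| :=
    integral_nonneg fun y => abs_nonneg _
  rw [abs_of_nonneg (by positivity), inv_mul_lt_iff₀ hspos]
  refine lt_of_le_of_lt hb ?_
  have h5 : 4 ^ n * (n * 2 ^ n * ε') < ε := by
    have h6 : ε' * (2 * (4 ^ n * (n * 2 ^ n + 1))) = ε := by
      rw [hε']; field_simp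
    have h7 : (0 : ℝ) < 4 ^ n := by positivity
    have h8 : (0 : ℝ) ≤ n * 2 ^ n := by positivity
    nlinarith [mul_pos hε'0 h7, mul_nonneg (mul_nonneg hε'0.le h7.le) h8]
  calc 4 ^ n * (n * 2 ^ n * ε') * s ^ (n + 1) < ε * s ^ (n + 1) :=
        mul_lt_mul_of_pos_right h5 hspos
    _ = s ^ (n + 1) * ε := mul_comm _ _

/-- T2.2 differentiability in the `L¹` sense almost everywhere. -/
theorem ae_l1_diff {U : Set (Fin n → ℝ)}
    {f : (Fin n → ℝ) → (Fin n → ℝ)} {Df : (Fin n → ℝ) → Matrix (Fin n) (Fin n) ℝ}
    (h : Sob n U f Df) :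
    ∀ᵐ x ∂(volume.restrict U), Tendsto (fun s : ℝ => (s ^ (n + 1))⁻¹ *
      ∫ y in closedBall x s, ‖f y - f x - (Df x).mulVec (y - x)‖) (𝓝[>] 0) (𝓝 0) := by
  have h1 : ∀ᵐ x ∂(volume.restrict U), ∀ i, Tendsto (fun s : ℝ => (s ^ (n + 1))⁻¹ *
      ∫ y in closedBall x s, |f y i - f x i - ∑ j, Df x i j * (y j - x j)|)
      (𝓝[>] 0) (𝓝 0) := by
    rw [ae_all_iff]
    intro i
    exact scalar_l1_diff h.isOpen (h.int_f i) (w := fun j x => Df x i j) (h.int_Df i)
      fun j φ h1 h2 h3 => h.weak φ h1 h2 h3 i j
  filter_upwards [h1] with x hx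
  have h2 := tendsto_finsetSum Finset.univ fun i _ => hx i
  simp only [Finset.sum_const_zero] at h2
  have hI : ∀ (s : ℝ) i, IntegrableOn (fun y : Fin n → ℝ =>
      |f y i - f x i - ∑ j, Df x i j * (y j - x j)|) (closedBall x s) := by
    intro s i
    have hlin : IntegrableOn (fun y : Fin n → ℝ => ∑ j, Df x i j * (y j - x j))
        (closedBall x s) :=
      ContinuousOn.integrableOn_compact (isCompact_closedBall _ _) (Continuous.continuousOn
        (continuous_finsetSum _ fun j _ => continuous_const.mul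
          ((continuous_apply j).sub continuous_const)))
    exact (((h.int_f i).integrableOn.sub (integrableOn_const
      (measure_closedBall_lt_top).ne)).sub hlin).abs
  refine squeeze_zero' ?_ ?_ h2
  · filter_upwards [self_mem_nhdsWithin] with s hs
    rw [mem_Ioi] at hs
    exact mul_nonneg (by positivity) (integral_nonneg fun y => norm_nonneg _)
  · filter_upwards [self_mem_nhdsWithin] with s hs
    rw [mem_Ioi] at hs
    rw [← Finset.mul_sum]
    refine mul_le_mul_of_nonneg_left ?_ (by positivity)
    rw [← integral_finsetSum _ fun i _ => hI s i]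
    have hpt : ∀ y, ‖f y - f x - (Df x).mulVec (y - x)‖ ≤
        ∑ i, |f y i - f x i - ∑ j, Df x i j * (y j - x j)| := by
      intro y
      rw [pi_norm_le_iff_of_nonneg (Finset.sum_nonneg fun i _ => abs_nonneg _)]
      intro i
      have e : ‖(f y - f x - (Df x).mulVec (y - x)) i‖ =
          |f y i - f x i - ∑ j, Df x i j * (y j - x j)| := by
        simp [Matrix.mulVec, dotProduct]
      rw [e]
      exact Finset.single_le_sum (f := fun i => |f y i - f x i - ∑ j, Df x i j * (y j - x j)|)
        (fun l _ => abs_nonneg _) (Finset.mem_univ i)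
    have hI2 : IntegrableOn (fun y => ∑ i, |f y i - f x i - ∑ j, Df x i j * (y j - x j)|)
      (closedBall x s) := integrable_finsetSum _ fun i _ => hI s i
    refine integral_mono_of_nonneg (Eventually.of_forall fun y => norm_nonneg _) hI2
      (Eventually.of_forall hpt)

end Pool.Agent.MP8995
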