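import Mathlib
import Pool.Agent.Lib.MP_8995c5_an.Diff

/-!
# A component whose gradient vanishes over a set of values
-/

set_option autoImplicit false

open MeasureTheory Metric Set Filter Topology
open scoped ENNReal NNReal

namespace Pool.Agent.MP8995

variable {n : ℕ}

/-- Functions with zero weak gradient on a ball are almost everywhere constant there. -/
theorem const_of_weak_zero {V : (Fin n → ℝ) → ℝ} {x₀ : Fin n → ℝ} {r : ℝ}
    (hV : IntegrableOn V (ball x₀ r))
    (weak : ∀ j, ∀ φ : (Fin n → ℝ) → ℝ, ContDiff ℝ (⊤ : ℕ∞) φ → HasCompactSupport φ →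
      tsupport φ ⊆ ball x₀ r → ∫ x, V x * pd j φ x = 0) :
    ∃ T : Set (Fin n → ℝ), volume Tᶜ = 0 ∧ ∀ x ∈ T ∩ ball x₀ r, ∀ y ∈ T ∩ ball x₀ r,
      V x = V y := by
  set V₀ : (Fin n → ℝ) → ℝ := indicator (ball x₀ r) V with hV₀
  have hI : Integrable V₀ := (integrable_indicator_iff measurableSet_ball).2 hV
  have hweak : ∀ j, ∀ φ : (Fin n → ℝ) → ℝ, ContDiff ℝ (⊤ : ℕ∞) φ → HasCompactSupport φ →
      tsupport φ ⊆ ball x₀ r → ∫ x, V₀ x * pd j φ x = - ∫ x, (0 : ℝ) * φ x := by
    intro j φ h1 h2 h3
    simp only [zero_mul, integral_zero, neg_zero]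
    rw [← weak j φ h1 h2 h3]
    refine integral_congr_ae (Eventually.of_forall fun x => ?_)
    simp only
    by_cases hx : x ∈ ball x₀ r
    · rw [hV₀, indicator_of_mem hx]
    · have : pd j φ x = 0 := by
        have hx2 : x ∉ tsupport φ := fun h => hx (h3 h)
        unfold pd
        rw [fderiv_of_notMem_tsupport (𝕜 := ℝ) hx2]
        rfl
      rw [this, mul_zero, mul_zero]
  refine ⟨{x | Tendsto (fun k => moll k V₀ x) atTop (𝓝 (V₀ x))}, ae_tendsto_moll
    hI.locallyIntegrable, ?_⟩
  rintro x ⟨hxT, hxb⟩ y ⟨hyT, hyb⟩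
  have hx0 : V₀ x = V x := indicator_of_mem hxb _
  have hy0 : V₀ y = V y := indicator_of_mem hyb _
  rw [← hx0, ← hy0]
  have hxT : Tendsto (fun k => moll k V₀ x) atTop (𝓝 (V₀ x)) := hxT
  have hyT : Tendsto (fun k => moll k V₀ y) atTop (𝓝 (V₀ y)) := hyT
  refine tendsto_nhds_unique hxT (hyT.congr' ?_)
  rw [mem_ball] at hxb hyb
  have hev : ∀ᶠ k in atTop, rad k < min (r - dist x x₀) (r - dist y x₀) :=
    tendsto_rad.eventually (gt_mem_nhds (by
      rw [lt_min_iff]; exact ⟨by linarith, by linarith⟩))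
  filter_upwards [hev] with k hk
  rw [lt_min_iff] at hk
  have hsm : ContDiff ℝ (⊤ : ℕ∞) (moll k V₀) := contDiff_moll k hI.locallyIntegrable
  refine (isOpen_ball : IsOpen (ball x₀ (r - rad k))).is_const_of_fderiv_eq_zero (𝕜 := ℝ)
    (convex_ball x₀ _).isPreconnected (hsm.differentiable (by simp)).differentiableOn ?_ ?_ ?_
  · intro z hz
    rw [mem_ball] at hz
    have hpd : ∀ j, pd j (moll k V₀) z = 0 := by
      intro j
      rw [pd_moll hI (hweak j)]
      · simp [moll]
      · intro a ha
        rw [mem_closedBall] at ha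
        rw [mem_ball]
        have := dist_triangle a z x₀
        linarith
    ext a
    rw [clm_apply_eq_sum]
    have : ∀ j, fderiv ℝ (moll k V₀) z (Pi.single j 1) = 0 := hpd
    simp [this]
  · rw [mem_ball]; linarith
  · rw [mem_ball]; linarith

/-- The chain rule for `C¹` functions with compactly supported derivative. -/
theorem weak_chain {U : Set (Fin n → ℝ)} {u w : (Fin n → ℝ) → ℝ}
    (hu : Integrable u) (hw : Integrable w) (hum : Measurable u) {j : Fin n}
    (weak : ∀ φ : (Fin n → ℝ) → ℝ, ContDiff ℝ (⊤ : ℕ∞) φ → HasCompactSupport φ →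
      tsupport φ ⊆ U → ∫ x, u x * pd j φ x = - ∫ x, w x * φ x)
    (hU : IsOpen U) {ψ : ℝ → ℝ} (hψ : Continuous ψ) (hψc : HasCompactSupport ψ) (p : ℝ)
    {φ : (Fin n → ℝ) → ℝ} (hφ : ContDiff ℝ (⊤ : ℕ∞) φ) (hφc : HasCompactSupport φ)
    (hφU : tsupport φ ⊆ U) :
    ∫ x, (∫ t in p..u x, ψ t) * pd j φ x = - ∫ x, ψ (u x) * w x * φ x := by
  set Ψ : ℝ → ℝ := fun s => ∫ t in p..s, ψ t with hΨ
  have hΨd : ∀ s, HasDerivAt Ψ (ψ s) s := fun s =>
    (hψ.integral_hasStrictDerivAt p s).hasDerivAt
  have hΨc : Continuous Ψ := continuous_iff_continuousAt.2 fun s => (hΨd s).continuousAt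
  have hψI : Integrable ψ := hψ.integrable_of_hasCompactSupport hψc
  have hΨb : ∀ s, |Ψ s| ≤ ∫ t, |ψ t| := by
    intro s
    rw [hΨ]
    simp only
    have h1 := intervalIntegral.norm_integral_le_integral_norm_uIoc (f := ψ) (a := p) (b := s)
      (μ := volume)
    rw [Real.norm_eq_abs] at h1
    refine h1.trans ?_
    simp only [Real.norm_eq_abs]
    exact setIntegral_le_integral hψI.abs (Eventually.of_forall fun t => abs_nonneg _)
  obtain ⟨M, hM⟩ := hψc.exists_bound_of_continuous hψ
  obtain ⟨B, hB⟩ := hφc.exists_bound_of_continuous hφ.continuous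
  have hM0 : 0 ≤ M := (norm_nonneg _).trans (hM 0)
  have hB0 : 0 ≤ B := (norm_nonneg _).trans (hB 0)
  have hpc : Continuous (pd j φ) := continuous_pd (hφ.of_le (by simp)) j
  have hpI : Integrable (pd j φ) := by
    refine hpc.integrable_of_hasCompactSupport ?_
    exact (hφc.fderiv ℝ).comp_left (g := fun L : (Fin n → ℝ) →L[ℝ] ℝ => L (Pi.single j 1)) (by simp)
  -- identity for the mollified functions
  obtain ⟨δ, hδ, hKδ⟩ := hφc.isCompact.exists_cthickening_subset_open hU hφU
  have hev : ∀ᶠ k in atTop, rad k ≤ δ :=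
    (tendsto_rad.eventually (gt_mem_nhds hδ)).mono fun k hk => hk.le
  have hid : ∀ᶠ k in atTop, ∫ x, Ψ (moll k u x) * pd j φ x =
      - ∫ x, ψ (moll k u x) * moll k w x * φ x := by
    filter_upwards [hev] with k hk
    have hsm : ContDiff ℝ (⊤ : ℕ∞) (moll k u) := contDiff_moll k hu.locallyIntegrable
    have hfd : ∀ x, HasFDerivAt (fun x => Ψ (moll k u x)) (ψ (moll k u x) • fderiv ℝ (moll k u) x) x :=
      fun x => (hΨd (moll k u x)).comp_hasFDerivAt x
        ((hsm.differentiable (by simp) x).hasFDerivAt)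
    have hfd' : ∀ x, fderiv ℝ (fun x => Ψ (moll k u x)) x (Pi.single j 1) =
        ψ (moll k u x) * pd j (moll k u) x := by
      intro x
      rw [(hfd x).fderiv]
      rfl
    have hcu : Continuous (pd j (moll k u)) := continuous_pd (hsm.of_le (by simp)) j
    have h := integral_mul_fderiv_eq_neg_fderiv_mul_of_integrable (μ := volume)
      (f := fun x => Ψ (moll k u x)) (g := φ) (v := (Pi.single j 1 : Fin n → ℝ)) ?_ ?_ ?_
      (fun x _ => (hfd x).differentiableAt)
      (fun x _ => hφ.differentiable (by simp) x)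
    · refine h.trans ?_
      congr 1
      refine integral_congr_ae (Eventually.of_forall fun x => ?_)
      simp only [hfd']
      by_cases hx : x ∈ tsupport φ
      · rw [pd_moll hu weak]
        exact (closedBall_subset_closedBall hk).trans
          ((closedBall_subset_cthickening hx δ).trans hKδ)
      · rw [image_eq_zero_of_notMem_tsupport hx, mul_zero, mul_zero]
    · refine Continuous.integrable_of_hasCompactSupport ?_ (hφc.mul_left)
      simp only [hfd']
      exact ((hψ.comp hsm.continuous).mul hcu).mul hφ.continuous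
    · refine Continuous.integrable_of_hasCompactSupport
        ((hΨc.comp hsm.continuous).mul hpc) ?_
      exact HasCompactSupport.mul_left
        ((hφc.fderiv ℝ).comp_left (g := fun L : (Fin n → ℝ) →L[ℝ] ℝ => L (Pi.single j 1))
          (by simp))
    · exact Continuous.integrable_of_hasCompactSupport
        ((hΨc.comp hsm.continuous).mul hφ.continuous) (hφc.mul_left)
  -- limit of the left-hand side
  have hL : Tendsto (fun k => ∫ x, Ψ (moll k u x) * pd j φ x) atTop
      (𝓝 (∫ x, Ψ (u x) * pd j φ x)) := by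
    refine tendsto_integral_of_dominated_convergence
      (fun x => (∫ t, |ψ t|) * |pd j φ x|) (fun k => ?_) (hpI.abs.const_mul _)
      (fun k => Eventually.of_forall fun x => ?_) ?_
    · exact ((hΨc.comp (contDiff_moll k hu.locallyIntegrable).continuous).mul
        hpc).aestronglyMeasurable
    · rw [Real.norm_eq_abs, abs_mul]
      exact mul_le_mul_of_nonneg_right (hΨb _) (abs_nonneg _)
    · filter_upwards [ae_tendsto_moll hu.locallyIntegrable] with x hx
      exact ((hΨc.tendsto _).comp hx).mul_const _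
  -- limit of the right-hand side
  have hR : Tendsto (fun k => ∫ x, ψ (moll k u x) * moll k w x * φ x) atTop
      (𝓝 (∫ x, ψ (u x) * w x * φ x)) := by
    have hFm : ∀ k, Continuous fun x => ψ (moll k u x) * moll k w x * φ x := fun k =>
      ((hψ.comp (contDiff_moll k hu.locallyIntegrable).continuous).mul
        (contDiff_moll k hw.locallyIntegrable).continuous).mul hφ.continuous
    have hbd : ∀ a b c : ℝ, |a| ≤ M → |c| ≤ B → |a * b * c| ≤ M * B * |b| := by
      intro a b c ha hc
      rw [abs_mul, abs_mul]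
      calc |a| * |b| * |c| ≤ M * |b| * B := by gcongr
        _ = M * B * |b| := by ring
    have h := tendsto_integral_abs_sub (μ := volume)
      (F := fun k x => ψ (moll k u x) * moll k w x * φ x)
      (G := fun k x => M * B * moll k (fun y => |w y|) x)
      (F₀ := fun x => ψ (u x) * w x * φ x) (G₀ := fun x => M * B * |w x|)
      (fun k => (hFm k).aestronglyMeasurable)
      (fun k => (integrable_moll k hw.abs).const_mul _) (hw.abs.const_mul _)
      (fun k => Eventually.of_forall fun x => ?_) ?_ ?_ ?_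
    · have hIk : ∀ k, Integrable fun x => ψ (moll k u x) * moll k w x * φ x := by
        intro k
        refine ((integrable_moll k hw.abs).const_mul (M * B)).mono'
          (hFm k).aestronglyMeasurable (Eventually.of_forall fun x => ?_)
        rw [Real.norm_eq_abs]
        refine (hbd _ _ _ (hM _) (hB _)).trans ?_
        exact mul_le_mul_of_nonneg_left (abs_moll_le k w x) (mul_nonneg hM0 hB0)
      have hI0 : Integrable fun x => ψ (u x) * w x * φ x := by
        refine (hw.abs.const_mul (M * B)).mono' ?_ (Eventually.of_forall fun x => ?_)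
        · exact (((hψ.measurable.comp hum).aestronglyMeasurable).mul
            hw.aestronglyMeasurable).mul hφ.continuous.aestronglyMeasurable
        · rw [Real.norm_eq_abs]
          exact hbd _ _ _ (hM _) (hB _)
      rw [tendsto_iff_norm_sub_tendsto_zero]
      refine squeeze_zero (fun k => norm_nonneg _) (fun k => ?_) h
      rw [← integral_sub (hIk k) hI0]
      exact abs_integral_le_integral_abs
    · refine (hbd _ _ _ (hM _) (hB _)).trans ?_
      exact mul_le_mul_of_nonneg_left (abs_moll_le k w x) (mul_nonneg hM0 hB0)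
    · filter_upwards [ae_tendsto_moll hu.locallyIntegrable, ae_tendsto_moll hw.locallyIntegrable]
        with x h1 h2
      exact (((hψ.tendsto _).comp h1).mul h2).mul_const _
    · filter_upwards [ae_tendsto_moll hw.abs.locallyIntegrable] with x h1
      exact h1.const_mul _
    · refine tendsto_const_nhds.congr fun k => ?_
      rw [integral_const_mul, integral_const_mul, integral_moll k hw.abs]
  exact tendsto_nhds_unique hL ((hR.neg).congr' (hid.mono fun k hk => hk.symm))

/-- The weak gradient of `Φ(u)` vanishes if the gradient of `u` vanishes on `{u ∈ Z}`, where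
`Φ' = 1_Z`. -/
theorem weak_zero_of_grad_zero {U : Set (Fin n → ℝ)} {u w : (Fin n → ℝ) → ℝ}
    (hu : Integrable u) (hw : Integrable w) (hum : Measurable u) (hwm : Measurable w) {j : Fin n}
    (weak : ∀ φ : (Fin n → ℝ) → ℝ, ContDiff ℝ (⊤ : ℕ∞) φ → HasCompactSupport φ →
      tsupport φ ⊆ U → ∫ x, u x * pd j φ x = - ∫ x, w x * φ x)
    (hU : IsOpen U) {Z : Set ℝ} (hZ : MeasurableSet Z) (hZfin : volume Z ≠ ∞) {O : Set (Fin n → ℝ)}
    (hO : MeasurableSet O)
    (hz : ∀ᵐ x ∂(volume.restrict O), u x ∈ Z → w x = 0) (p : ℝ)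
    {φ : (Fin n → ℝ) → ℝ} (hφ : ContDiff ℝ (⊤ : ℕ∞) φ) (hφc : HasCompactSupport φ)
    (hφU : tsupport φ ⊆ U) (hφO : tsupport φ ⊆ O) :
    ∫ x, (∫ t in p..u x, indicator Z (fun _ => (1 : ℝ)) t) * pd j φ x = 0 := by
  set χ : ℝ → ℝ := indicator Z (fun _ => (1 : ℝ)) with hχ
  have hχm : Measurable χ := measurable_const.indicator hZ
  have hχI : Integrable χ := by
    rw [hχ, integrable_indicator_iff hZ]
    exact integrableOn_const hZfin
  obtain ⟨B, hB⟩ := hφc.exists_bound_of_continuous hφ.continuous
  have hpc : Continuous (pd j φ) := continuous_pd (hφ.of_le (by simp)) j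
  have hpI : Integrable (pd j φ) := by
    refine hpc.integrable_of_hasCompactSupport ?_
    exact (hφc.fderiv ℝ).comp_left (g := fun L : (Fin n → ℝ) →L[ℝ] ℝ => L (Pi.single j 1)) (by simp)
  have hwφ : Integrable fun x => w x * φ x := by
    refine hw.mul_bdd (c := B) hφ.continuous.aestronglyMeasurable
      (Eventually.of_forall fun x => hB x)
  have hwφm : Measurable fun x => |w x * φ x| := (hwm.mul hφ.continuous.measurable).abs
  -- the auxiliary measure
  set ν₂ : Measure ℝ := (volume.withDensity fun x => ENNReal.ofReal |w x * φ x|).map u with hν₂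
  have hfin0 : IsFiniteMeasure
      ((volume : Measure (Fin n → ℝ)).withDensity fun x => ENNReal.ofReal |w x * φ x|) :=
    isFiniteMeasure_withDensity_ofReal hwφ.abs.2
  have hfin : IsFiniteMeasure ν₂ := by rw [hν₂]; infer_instance
  set ν : Measure ℝ := volume + ν₂ with hν
  have : IsLocallyFiniteMeasure ν := ⟨fun x => ⟨ball x 1, ball_mem_nhds x one_pos, by
    rw [hν, Measure.add_apply]
    exact ENNReal.add_lt_top.2 ⟨measure_ball_lt_top, measure_lt_top _ _⟩⟩⟩
  have : ν.Regular := inferInstance
  have hχIν : Integrable χ ν := by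
    rw [hν, integrable_add_measure]
    refine ⟨hχI, ?_⟩
    rw [hχ, integrable_indicator_iff hZ]
    exact integrableOn_const (measure_ne_top _ _)
  set S : ℝ := ∫ x, |pd j φ x| with hS
  have hS0 : 0 ≤ S := integral_nonneg fun x => abs_nonneg _
  -- it suffices to bound by arbitrarily small numbers
  have key : ∀ ε > 0, |∫ x, (∫ t in p..u x, χ t) * pd j φ x| ≤ ε * (S + 1) := by
    intro ε hε
    obtain ⟨ψ, hψc, hψε, hψ, hψν⟩ := hχIν.exists_hasCompactSupport_integral_sub_le hε
    have hψI : Integrable ψ := hψ.integrable_of_hasCompactSupport hψc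
    have hdI : Integrable (fun t => ‖χ t - ψ t‖) ν := (hχIν.sub hψν).norm
    rw [hν, integral_add_measure (by rw [hν, integrable_add_measure] at hdI; exact hdI.1)
      (by rw [hν, integrable_add_measure] at hdI; exact hdI.2)] at hψε
    have hn1 : 0 ≤ ∫ t, ‖χ t - ψ t‖ := integral_nonneg fun t => norm_nonneg _
    have hn2 : 0 ≤ ∫ t, ‖χ t - ψ t‖ ∂ν₂ := integral_nonneg fun t => norm_nonneg _
    have h1 : ∫ t, ‖χ t - ψ t‖ ≤ ε := by linarith
    have h2 : ∫ t, ‖χ t - ψ t‖ ∂ν₂ ≤ ε := by linarith
    have h2' : ∫ x, |χ (u x) - ψ (u x)| * |w x * φ x| ≤ ε := by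
      refine le_trans (le_of_eq ?_) h2
      have hm2 : Measurable fun t => ‖χ t - ψ t‖ := (hχm.sub hψ.measurable).norm
      rw [hν₂, integral_map hum.aemeasurable hm2.aestronglyMeasurable,
        integral_withDensity_eq_integral_toReal_smul hwφm.ennreal_ofReal
        (Eventually.of_forall fun x => ENNReal.ofReal_lt_top)]
      refine integral_congr_ae (Eventually.of_forall fun x => ?_)
      simp only [smul_eq_mul]
      rw [ENNReal.toReal_ofReal (abs_nonneg _), Real.norm_eq_abs, mul_comm]
    have hdiff : ∀ s, |(∫ t in p..s, χ t) - ∫ t in p..s, ψ t| ≤ ε := by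
      intro s
      rw [← intervalIntegral.integral_sub hχI.intervalIntegrable hψI.intervalIntegrable]
      have h3 := intervalIntegral.norm_integral_le_integral_norm_uIoc
        (f := fun t => χ t - ψ t) (a := p) (b := s) (μ := volume)
      rw [Real.norm_eq_abs] at h3
      refine h3.trans (le_trans ?_ h1)
      exact setIntegral_le_integral (hχI.sub hψI).norm
        (Eventually.of_forall fun t => norm_nonneg _)
    have hΦc : Continuous fun s => ∫ t in p..s, χ t :=
      intervalIntegral.continuous_primitive (fun a b => hχI.intervalIntegrable) p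
    have hΨc : Continuous fun s => ∫ t in p..s, ψ t :=
      intervalIntegral.continuous_primitive (fun a b => hψI.intervalIntegrable) p
    have hbd : ∀ (g : ℝ → ℝ), Integrable g → ∀ s, |∫ t in p..s, g t| ≤ ∫ t, |g t| := by
      intro g hg s
      have h3 := intervalIntegral.norm_integral_le_integral_norm_uIoc
        (f := g) (a := p) (b := s) (μ := volume)
      rw [Real.norm_eq_abs] at h3
      refine h3.trans ?_
      simp only [Real.norm_eq_abs]
      exact setIntegral_le_integral hg.abs (Eventually.of_forall fun t => abs_nonneg _)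
    have hI1 : Integrable fun x => (∫ t in p..u x, χ t) * pd j φ x :=
      hpI.bdd_mul (c := ∫ t, |χ t|) ((hΦc.measurable.comp hum).aestronglyMeasurable)
        (Eventually.of_forall fun x => hbd χ hχI _)
    have hI2 : Integrable fun x => (∫ t in p..u x, ψ t) * pd j φ x :=
      hpI.bdd_mul (c := ∫ t, |ψ t|) ((hΨc.measurable.comp hum).aestronglyMeasurable)
        (Eventually.of_forall fun x => hbd ψ hψI _)
    have hchain := weak_chain hu hw hum weak hU hψ hψc p hφ hφc hφU
    have hb1 : |(∫ x, (∫ t in p..u x, χ t) * pd j φ x) -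
        ∫ x, (∫ t in p..u x, ψ t) * pd j φ x| ≤ ε * S := by
      rw [← integral_sub hI1 hI2]
      refine abs_integral_le_integral_abs.trans ?_
      rw [hS, ← integral_const_mul]
      refine integral_mono ((hI1.sub hI2).abs) (hpI.abs.const_mul _) fun x => ?_
      simp only
      rw [← sub_mul, abs_mul]
      exact mul_le_mul_of_nonneg_right (hdiff _) (abs_nonneg _)
    have hb2 : |∫ x, ψ (u x) * w x * φ x| ≤ ε := by
      refine abs_integral_le_integral_abs.trans (le_trans (le_of_eq ?_) h2')
      refine integral_congr_ae ?_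
      rw [ae_restrict_iff' hO] at hz
      filter_upwards [hz] with x hx
      by_cases hxO : x ∈ O
      · by_cases hxZ : u x ∈ Z
        · rw [hx hxO hxZ]; simp
        · rw [hχ, indicator_of_notMem hxZ, zero_sub, abs_neg, mul_assoc, abs_mul]
      · have : φ x = 0 := image_eq_zero_of_notMem_tsupport fun h => hxO (hφO h)
        rw [this]; simp
    rw [hchain] at hb1
    have := abs_le.1 hb1
    have := abs_le.1 hb2
    rw [abs_le]
    constructor <;> nlinarith
  have hge : |∫ x, (∫ t in p..u x, χ t) * pd j φ x| ≤ 0 := by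
    by_contra hcon
    push Not at hcon
    have := key (|∫ x, (∫ t in p..u x, χ t) * pd j φ x| / (2 * (S + 1))) (by positivity)
    have h3 : |∫ x, (∫ t in p..u x, χ t) * pd j φ x| / (2 * (S + 1)) * (S + 1) =
        |∫ x, (∫ t in p..u x, χ t) * pd j φ x| / 2 := by
      field_simp
    rw [h3] at this
    linarith
  exact abs_eq_zero.1 (le_antisymm hge (abs_nonneg _))

/-- T2.4 a component whose gradient vanishes on the preimage of `Z` cannot cross a part of `Z` of
positive measure. -/
theorem null_of_grad_zero {U : Set (Fin n → ℝ)}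
    {f : (Fin n → ℝ) → (Fin n → ℝ)} {Df : (Fin n → ℝ) → Matrix (Fin n) (Fin n) ℝ}
    (h : Sob n U f Df) (i : Fin n) {x₀ : Fin n → ℝ} {r : ℝ} (hr : 0 < r) (hball : ball x₀ r ⊆ U)
    {Z : Set ℝ} (hZ : MeasurableSet Z)
    (hz : ∀ᵐ x ∂(volume.restrict (ball x₀ r)), f x i ∈ Z → ∀ j, Df x i j = 0)
    {p q : ℝ} (hp : volume (ball x₀ r ∩ {x | f x i < p}) ≠ 0)
    (hq : volume (ball x₀ r ∩ {x | q < f x i}) ≠ 0) :
    volume (Z ∩ Icc p q) = 0 := by
  rcases lt_or_ge q p with hpq | hpq
  · rw [Icc_eq_empty (not_le.2 hpq), inter_empty, measure_empty]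
  set Z' : Set ℝ := Z ∩ Icc p q with hZ'
  have hZ'm : MeasurableSet Z' := hZ.inter measurableSet_Icc
  have hZ'fin : volume Z' ≠ ∞ := by
    refine ((measure_mono inter_subset_right).trans_lt ?_).ne
    rw [Real.volume_Icc]
    exact ENNReal.ofReal_lt_top
  set χ : ℝ → ℝ := indicator Z' (fun _ => (1 : ℝ)) with hχ
  have hχI : Integrable χ := by
    rw [hχ, integrable_indicator_iff hZ'm]
    exact integrableOn_const hZ'fin
  have hΦc : Continuous fun s => ∫ t in p..s, χ t :=
    intervalIntegral.continuous_primitive (fun a b => hχI.intervalIntegrable) p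
  have hΦb : ∀ s, |∫ t in p..s, χ t| ≤ ∫ t, |χ t| := by
    intro s
    have h3 := intervalIntegral.norm_integral_le_integral_norm_uIoc
      (f := χ) (a := p) (b := s) (μ := volume)
    rw [Real.norm_eq_abs] at h3
    refine h3.trans ?_
    simp only [Real.norm_eq_abs]
    exact setIntegral_le_integral hχI.abs (Eventually.of_forall fun t => abs_nonneg _)
  have hVI : IntegrableOn (fun x => ∫ t in p..f x i, χ t) (ball x₀ r) := by
    refine Measure.integrableOn_of_bounded (M := ∫ t, |χ t|) (measure_ball_lt_top).ne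
      ((hΦc.measurable.comp (h.meas_f i)).aestronglyMeasurable) ?_
    exact Eventually.of_forall fun x => hΦb _
  obtain ⟨T, hT0, hT⟩ := const_of_weak_zero hVI (fun j φ h1 h2 h3 =>
    weak_zero_of_grad_zero (h.int_f i) (h.int_Df i j) (h.meas_f i) (h.meas_Df i j)
      (fun φ h1 h2 h3 => h.weak φ h1 h2 h3 i j) h.isOpen hZ'm hZ'fin
      (O := ball x₀ r) measurableSet_ball (by
        filter_upwards [hz] with x hx hxZ
        exact hx hxZ.1 j) p h1 h2 (h3.trans hball) h3)
  have hex : ∀ A : Set (Fin n → ℝ), volume (ball x₀ r ∩ A) ≠ 0 → ∃ x ∈ T ∩ ball x₀ r, x ∈ A := by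
    intro A hA
    by_contra hcon
    push Not at hcon
    apply hA
    refine measure_mono_null ?_ hT0
    rintro x ⟨hx1, hx2⟩ hxT
    exact hcon x ⟨hxT, hx1⟩ hx2
  obtain ⟨x, hx, hxp⟩ := hex _ hp
  obtain ⟨y, hy, hyq⟩ := hex _ hq
  have hxy := hT x hx y hy
  have e1 : ∫ t in p..f x i, χ t = 0 := by
    have hle : f x i ≤ p := le_of_lt hxp
    rw [intervalIntegral.integral_of_ge hle, neg_eq_zero]
    have : ∫ t in Ioc (f x i) p, χ t = ∫ t in Ioc (f x i) p, (0 : ℝ) := by
      rw [integral_Ioc_eq_integral_Ioo, integral_Ioc_eq_integral_Ioo]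
      refine setIntegral_congr_fun measurableSet_Ioo fun t ht => ?_
      rw [hχ, indicator_of_notMem]
      rintro ⟨_, h2⟩
      exact absurd ht.2 (not_lt.2 h2.1)
    rw [this]
    simp
  have e2 : ∫ t in p..f y i, χ t = (volume Z').toReal := by
    have hle : p ≤ f y i := hpq.trans (le_of_lt hyq)
    rw [intervalIntegral.integral_of_le hle]
    have h3 : ∫ t in Ioc p (f y i), χ t = ∫ t in Icc p (f y i), χ t :=
      (integral_Icc_eq_integral_Ioc).symm
    rw [h3, hχ, setIntegral_indicator hZ'm]
    have h4 : Icc p (f y i) ∩ Z' = Z' := by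
      refine inter_eq_right.2 fun t ht => ⟨ht.2.1, ht.2.2.trans (le_of_lt hyq)⟩
    rw [h4]
    simp [measureReal_def]
  rw [e1, e2] at hxy
  rcases (ENNReal.toReal_eq_zero_iff _).1 hxy.symm with h0 | h0
  · exact h0
  · exact absurd h0 hZ'fin

end Pool.Agent.MP8995
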