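import Mathlib
import Pool.Agent.Lib.MP_8995c5_an.Defs

set_option autoImplicit false

open MeasureTheory Metric Set Filter Topology
open scoped ENNReal NNReal

namespace Pool.Agent.MP8995

variable {n : ℕ}

/-! Continuous representatives from small oscillation. -/

theorem neBot_nhds_inf_ae (x₀ : Fin n → ℝ) :
    (𝓝 x₀ ⊓ ae (volume : Measure (Fin n → ℝ))).NeBot := by
  rw [inf_neBot_iff]
  intro s hs t ht
  by_contra hcon
  rw [not_nonempty_iff_eq_empty] at hcon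
  have h1 : volume s = 0 := by
    refine measure_mono_null ?_ (mem_ae_iff.1 ht)
    intro x hx hxt
    have : x ∈ s ∩ t := ⟨hx, hxt⟩
    rw [hcon] at this
    exact this
  exact (Measure.measure_pos_of_mem_nhds volume hs).ne' h1

theorem ball_ae_mem {x x₀ : Fin n → ℝ} {r : ℝ} (hx : x ∈ ball x₀ r) {P : (Fin n → ℝ) → Prop}
    (h : ∀ᵐ y ∂(volume.restrict (ball x₀ r)), P y) :
    ∀ᶠ y in 𝓝 x ⊓ ae (volume : Measure (Fin n → ℝ)), P y := by
  rw [ae_restrict_iff' measurableSet_ball] at h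
  have h1 : ball x₀ r ∈ 𝓝 x := isOpen_ball.mem_nhds hx
  filter_upwards [mem_inf_of_left h1, mem_inf_of_right h] with y hy1 hy2
  exact hy2 hy1

theorem exists_cont_rep_scalar {Ω : Set (Fin n → ℝ)} {u : (Fin n → ℝ) → ℝ}
    (h : ∀ x₀ ∈ Ω, ∀ c > 0, ∃ r > 0, ∃ v : ℝ,
      ∀ᵐ x ∂(volume.restrict (ball x₀ r)), |u x - v| ≤ c) :
    ∃ g : (Fin n → ℝ) → ℝ, ContinuousOn g Ω ∧ volume {x | x ∈ Ω ∧ u x ≠ g x} = 0 := by
  have hlim : ∀ x₀ ∈ Ω, ∃ a, Tendsto u (𝓝 x₀ ⊓ ae volume) (𝓝 a) := by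
    intro x₀ hx₀
    have := neBot_nhds_inf_ae x₀
    rw [← cauchy_map_iff_exists_tendsto, Metric.cauchy_iff]
    refine ⟨inferInstance, fun ε hε => ?_⟩
    obtain ⟨r, hr, v, hv⟩ := h x₀ hx₀ (ε / 3) (by positivity)
    refine ⟨{y | |y - v| ≤ ε / 3}, ball_ae_mem (mem_ball_self hr) hv, ?_⟩
    intro x hx y hy
    have hx' : |x - v| ≤ ε / 3 := hx
    have hy' : |y - v| ≤ ε / 3 := hy
    rw [Real.dist_eq]
    calc |x - y| = |(x - v) - (y - v)| := by ring_nf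
      _ ≤ |x - v| + |y - v| := abs_sub _ _
      _ < ε := by linarith
  classical
  choose! g hg using hlim
  -- Claim B
  have hB : ∀ (x₀ : Fin n → ℝ) (r a c : ℝ),
      (∀ᵐ x ∂(volume.restrict (ball x₀ r)), |u x - a| ≤ c) →
      ∀ x ∈ ball x₀ r, x ∈ Ω → |g x - a| ≤ c := by
    intro x₀ r a c hh x hx hxΩ
    have := neBot_nhds_inf_ae x
    have h1 : Tendsto (fun y => |u y - a|) (𝓝 x ⊓ ae volume) (𝓝 |g x - a|) :=
      ((hg x hxΩ).sub_const a).abs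
    exact le_of_tendsto h1 (ball_ae_mem hx hh)
  -- Claim A
  have hA : ∀ x₀ ∈ Ω, ∀ c > 0, ∃ r > 0,
      ∀ᵐ x ∂(volume.restrict (ball x₀ r)), |u x - g x₀| ≤ c := by
    intro x₀ hx₀ c hc
    obtain ⟨r, hr, v, hv⟩ := h x₀ hx₀ (c / 2) (by positivity)
    refine ⟨r, hr, ?_⟩
    have h1 := hB x₀ r v (c / 2) hv x₀ (mem_ball_self hr) hx₀
    filter_upwards [hv] with x hx
    calc |u x - g x₀| = |(u x - v) - (g x₀ - v)| := by ring_nf
      _ ≤ |u x - v| + |g x₀ - v| := abs_sub _ _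
      _ ≤ c := by linarith
  refine ⟨g, ?_, ?_⟩
  · intro x₀ hx₀
    rw [ContinuousWithinAt, Metric.tendsto_nhds]
    intro ε hε
    obtain ⟨r, hr, hr'⟩ := hA x₀ hx₀ (ε / 2) (by positivity)
    filter_upwards [mem_nhdsWithin_of_mem_nhds (ball_mem_nhds x₀ hr), self_mem_nhdsWithin]
      with x hx hxΩ
    rw [Real.dist_eq]
    have := hB x₀ r (g x₀) (ε / 2) hr' x hx hxΩ
    linarith
  · have hN : ∀ k : ℕ, volume {x | x ∈ Ω ∧ 1 / ((k : ℝ) + 1) < |u x - g x|} = 0 := by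
      intro k
      apply measure_null_of_locally_null
      intro x₀ hx₀
      obtain ⟨r, hr, hr'⟩ := hA x₀ hx₀.1 (1 / ((k : ℝ) + 1) / 2) (by positivity)
      refine ⟨ball x₀ r ∩ {x | x ∈ Ω ∧ 1 / ((k : ℝ) + 1) < |u x - g x|},
        inter_mem (mem_nhdsWithin_of_mem_nhds (ball_mem_nhds x₀ hr)) self_mem_nhdsWithin, ?_⟩
      rw [ae_restrict_iff' measurableSet_ball, ae_iff] at hr'
      refine measure_mono_null ?_ hr'
      intro x hx hcon
      have h1 := hcon hx.1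
      have h2 := hB x₀ r (g x₀) _ ((ae_restrict_iff' measurableSet_ball).2 (ae_iff.2 hr')) x hx.1
        hx.2.1
      have h3 := hx.2.2
      have h4 : |u x - g x| ≤ |u x - g x₀| + |g x - g x₀| := by
        calc |u x - g x| = |(u x - g x₀) - (g x - g x₀)| := by ring_nf
          _ ≤ _ := abs_sub _ _
      linarith
    refine measure_mono_null ?_ (measure_iUnion_null hN)
    intro x hx
    rw [mem_iUnion]
    have h1 : 0 < |u x - g x| := abs_pos.2 (sub_ne_zero.2 hx.2)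
    obtain ⟨k, hk⟩ := exists_nat_one_div_lt h1
    exact ⟨k, hx.1, hk⟩

theorem exists_cont_rep {Ω : Set (Fin n → ℝ)} (hΩ : MeasurableSet Ω)
    {f : (Fin n → ℝ) → (Fin n → ℝ)}
    (h : ∀ x₀ ∈ Ω, ∀ i, ∀ c > 0, ∃ r > 0, ∃ v : ℝ,
      ∀ᵐ x ∂(volume.restrict (ball x₀ r)), |f x i - v| ≤ c) :
    ∃ g : (Fin n → ℝ) → (Fin n → ℝ), ContinuousOn g Ω ∧ f =ᵐ[volume.restrict Ω] g := by
  have h1 : ∀ i, ∃ g : (Fin n → ℝ) → ℝ, ContinuousOn g Ω ∧
      volume {x | x ∈ Ω ∧ f x i ≠ g x} = 0 :=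
    fun i => exists_cont_rep_scalar fun x₀ hx₀ c hc => h x₀ hx₀ i c hc
  choose g hgc hgn using h1
  refine ⟨fun x i => g i x, continuousOn_pi.2 fun i => hgc i, ?_⟩
  have h2 : ∀ i, ∀ᵐ x ∂(volume.restrict Ω), f x i = g i x := by
    intro i
    rw [ae_restrict_iff' hΩ, ae_iff]
    refine measure_mono_null ?_ (hgn i)
    intro x hx
    simpa using hx
  filter_upwards [ae_all_iff.2 h2] with x hx
  exact funext hx

end Pool.Agent.MP8995
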