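import Mathlib
import Pool.Agent.Lib.MP_8995c5_an.Defs

set_option autoImplicit false

open MeasureTheory Metric Set Filter Topology

namespace Pool.Agent.MP8995

variable {n : ℕ}

theorem vol_real_cb (x : Fin n → ℝ) {r : ℝ} (hr : 0 ≤ r) :
    volume.real (closedBall x r) = (2 * r) ^ n := by
  rw [Measure.real, Real.volume_pi_closedBall x hr, ENNReal.toReal_ofReal (by positivity)]
  simp

/-- The set of cubes on which the average of `a` is large. -/
def bigCubes (a : (Fin n → ℝ) → ℝ) (t : ℝ) : Set ((Fin n → ℝ) × ℝ) :=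
  {p | 0 < p.2 ∧ t * p.2 ^ n ≤ ∫ x in closedBall p.1 p.2, a x}

/-- The stopping scale. -/
noncomputable def scale (a : (Fin n → ℝ) → ℝ) (t σ : ℝ) (x : Fin n → ℝ) : ℝ :=
  sSup (insert σ ((fun p : (Fin n → ℝ) × ℝ => p.2 - dist x p.1) '' bigCubes a t))

section
variable {a : (Fin n → ℝ) → ℝ} {t σ : ℝ}

theorem bigCubes_le (hn : n ≠ 0) (ha : ∀ x, 0 ≤ a x) (hi : Integrable a) (ht : 0 < t)
    {p : (Fin n → ℝ) × ℝ} (hp : p ∈ bigCubes a t) : p.2 ≤ max 1 ((∫ x, a x) / t) := by
  obtain ⟨h1, h2⟩ := hp
  have h3 : ∫ x in closedBall p.1 p.2, a x ≤ ∫ x, a x :=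
    setIntegral_le_integral hi (Eventually.of_forall ha)
  rcases le_total p.2 1 with h | h
  · exact h.trans (le_max_left _ _)
  · apply le_trans _ (le_max_right _ _)
    rw [le_div_iff₀ ht]
    calc p.2 * t ≤ p.2 ^ n * t := by
          apply mul_le_mul_of_nonneg_right _ ht.le
          exact le_self_pow₀ h hn
      _ ≤ _ := by linarith

theorem scale_bdd (hn : n ≠ 0) (ha : ∀ x, 0 ≤ a x) (hi : Integrable a) (ht : 0 < t)
    (x : Fin n → ℝ) :
    BddAbove (insert σ ((fun p : (Fin n → ℝ) × ℝ => p.2 - dist x p.1) '' bigCubes a t)) := by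
  refine ⟨max σ (max 1 ((∫ x, a x) / t)), ?_⟩
  rintro y (rfl | ⟨p, hp, rfl⟩)
  · exact le_max_left _ _
  · apply le_trans _ (le_max_right _ _)
    have := bigCubes_le hn ha hi ht hp
    simp only
    linarith [dist_nonneg (x := x) (y := p.1)]

theorem scale_le (ha : ∀ x, 0 ≤ a x) (hn : n ≠ 0) (hi : Integrable a) (ht : 0 < t)
    (x : Fin n → ℝ) : scale a t σ x ≤ max σ (max 1 ((∫ x, a x) / t)) := by
  apply csSup_le (insert_nonempty _ _)
  rintro y (rfl | ⟨p, hp, rfl⟩)
  · exact le_max_left _ _
  · apply le_trans _ (le_max_right _ _)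
    have := bigCubes_le hn ha hi ht hp
    simp only
    linarith [dist_nonneg (x := x) (y := p.1)]

theorem le_scale (hn : n ≠ 0) (ha : ∀ x, 0 ≤ a x) (hi : Integrable a) (ht : 0 < t)
    (x : Fin n → ℝ) : σ ≤ scale a t σ x :=
  le_csSup (scale_bdd hn ha hi ht x) (mem_insert _ _)

theorem le_scale_of_mem (hn : n ≠ 0) (ha : ∀ x, 0 ≤ a x) (hi : Integrable a) (ht : 0 < t)
    (x : Fin n → ℝ) {p : (Fin n → ℝ) × ℝ} (hp : p ∈ bigCubes a t) :
    p.2 - dist x p.1 ≤ scale a t σ x :=
  le_csSup (scale_bdd hn ha hi ht x) (mem_insert_of_mem _ ⟨p, hp, rfl⟩)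

theorem scale_lip (hn : n ≠ 0) (ha : ∀ x, 0 ≤ a x) (hi : Integrable a) (ht : 0 < t)
    (x y : Fin n → ℝ) : scale a t σ x ≤ scale a t σ y + dist x y := by
  apply csSup_le (insert_nonempty _ _)
  rintro z (rfl | ⟨p, hp, rfl⟩)
  · linarith [le_scale (σ := z) hn ha hi ht y, dist_nonneg (x := x) (y := y)]
  · have := le_scale_of_mem (σ := σ) hn ha hi ht y hp
    simp only
    linarith [dist_triangle y x p.1, dist_comm x y]

theorem scale_alt (hn : n ≠ 0) (ha : ∀ x, 0 ≤ a x) (hi : Integrable a) (ht : 0 < t)
    (hσ : 0 < σ) (x : Fin n → ℝ) :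
    scale a t σ x = σ ∨ ∃ p ∈ bigCubes a t, scale a t σ x < 2 * (p.2 - dist x p.1) := by
  rcases (le_scale (σ := σ) hn ha hi ht x).eq_or_lt with h | h
  · exact Or.inl h.symm
  · right
    have h1 : max σ (scale a t σ x / 2) < scale a t σ x := by
      apply max_lt h
      linarith
    obtain ⟨z, hz, hlt⟩ := exists_lt_of_lt_csSup (insert_nonempty _ _) h1
    rcases hz with rfl | ⟨p, hp, rfl⟩
    · exact absurd (lt_of_le_of_lt (le_max_left _ _) hlt) (lt_irrefl _)
    · refine ⟨p, hp, ?_⟩
      have := lt_of_le_of_lt (le_max_right _ _) hlt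
      simp only at this
      linarith

theorem integral_le_of_scale_lt (hn : n ≠ 0) (ha : ∀ x, 0 ≤ a x) (hi : Integrable a)
    (ht : 0 < t) (x : Fin n → ℝ) {r : ℝ} (hr : 0 < r) (h : scale a t σ x < r) :
    ∫ y in closedBall x r, a y ≤ t * r ^ n := by
  by_contra hcon
  push Not at hcon
  have := le_scale_of_mem (σ := σ) (p := (x, r)) hn ha hi ht x ⟨hr, hcon.le⟩
  simp only [dist_self] at this
  linarith

end

/-- Covering by cubes adapted to the stopping scale. -/
theorem exists_cover (hn : n ≠ 0) {a : (Fin n → ℝ) → ℝ} (ha : ∀ x, 0 ≤ a x) (hm : Measurable a)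
    (hi : Integrable a) {S : Set (Fin n → ℝ)} (hS : Bornology.IsBounded S) {t σ : ℝ}
    (ht : 0 < t) (hσ : 0 < σ) :
    ∃ (m : ℕ) (c : Fin m → Fin n → ℝ) (r : Fin m → ℝ),
      (∀ i, c i ∈ S) ∧ (∀ i, σ / 100 ≤ r i) ∧
      (∀ i, r i = σ / 100 ∨ t * (50 * r i) ^ n ≤ ∫ x, a x) ∧
      (Pairwise fun i j => Disjoint (closedBall (c i) (r i)) (closedBall (c j) (r j))) ∧
      (S ⊆ ⋃ i, closedBall (c i) (5 * r i)) ∧
      (∀ i j, (closedBall (c i) (10 * r i) ∩ closedBall (c j) (10 * r j)).Nonempty →
        r j ≤ 2 * r i) ∧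
      (∀ i, ∫ x in closedBall (c i) (10 * r i), a x ≤ t * (200 * r i) ^ n) ∧
      (∑ i with r i ≠ σ / 100, r i ^ n ≤
        2 * 5 ^ n / t * ∫ x in {x | t / 2 ^ (n + 1) < a x}, a x) := by
  set R : (Fin n → ℝ) → ℝ := scale a t σ with hR
  have hRσ : ∀ x, σ ≤ R x := fun x => le_scale hn ha hi ht x
  have hRpos : ∀ x, 0 < R x := fun x => hσ.trans_le (hRσ x)
  obtain ⟨u, huS, hudisj, hucov⟩ := Vitali.exists_disjoint_subfamily_covering_enlargement
    (fun x : Fin n → ℝ => closedBall x (R x / 100)) S (fun x => R x / 100) 2 one_lt_two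
    (fun x _ => by have := hRpos x; positivity)
    (max σ (max 1 ((∫ x, a x) / t)) / 100)
    (fun x _ => by have := scale_le (σ := σ) ha hn hi ht x; simp only [hR]; linarith)
    (fun x _ => ⟨x, mem_closedBall_self (by have := hRpos x; positivity)⟩)
  -- finiteness
  have hufin : u.Finite := by
    have hb : Bornology.IsBounded (⋃ x : u, closedBall (x : Fin n → ℝ) (σ / 100)) := by
      apply (hS.cthickening (δ := σ / 100)).subset
      apply iUnion_subset
      intro x
      exact closedBall_subset_cthickening (huS x.2) _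
    have h1 := Measure.finite_const_le_meas_of_disjoint_iUnion (volume : Measure (Fin n → ℝ))
      (ε := ENNReal.ofReal ((2 * (σ / 100)) ^ n)) (by simpa using by positivity)
      (As := fun x : u => closedBall (x : Fin n → ℝ) (σ / 100))
      (fun x => measurableSet_closedBall)
      (by
        intro x y hxy
        have := hudisj x.2 y.2 fun h => hxy (Subtype.ext h)
        apply this.mono
        · exact closedBall_subset_closedBall (by linarith [hRσ x])
        · exact closedBall_subset_closedBall (by linarith [hRσ y]))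
      hb.measure_lt_top.ne
    have h2 : {x : u | ENNReal.ofReal ((2 * (σ / 100)) ^ n) ≤
        volume (closedBall (x : Fin n → ℝ) (σ / 100))} = univ := by
      ext x
      simp only [mem_setOf_eq, mem_univ, iff_true]
      rw [Real.volume_pi_closedBall _ (by positivity)]
      simp
    rw [h2] at h1
    have := Set.finite_univ_iff.1 h1
    exact u.toFinite
  have : Finite u := hufin
  obtain ⟨m, ⟨e⟩⟩ := Finite.exists_equiv_fin u
  set c : Fin m → Fin n → ℝ := fun i => (e.symm i : Fin n → ℝ) with hc
  set r : Fin m → ℝ := fun i => R (c i) / 100 with hr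
  have hcu : ∀ i, c i ∈ u := fun i => (e.symm i).2
  have hrpos : ∀ i, 0 < r i := fun i => by have := hRpos (c i); simp only [hr]; positivity
  have hdisj : Pairwise fun i j => Disjoint (closedBall (c i) (r i)) (closedBall (c j) (r j)) := by
    intro i j hij
    apply hudisj (hcu i) (hcu j)
    intro h
    exact hij (e.symm.injective (Subtype.ext h))
  refine ⟨m, c, r, fun i => huS (hcu i), fun i => ?_, fun i => ?_, hdisj, ?_, ?_, ?_, ?_⟩
  · have := hRσ (c i); simp only [hr]; linarith
  · rcases scale_alt hn ha hi ht hσ (c i) with h | ⟨p, hp, hlt⟩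
    · left; simp only [hr, hR, h]
    · right
      obtain ⟨hp1, hp2⟩ := hp
      have h1 : 50 * r i ≤ p.2 := by
        have := dist_nonneg (x := c i) (y := p.1)
        simp only [hr, hR]; linarith
      calc t * (50 * r i) ^ n ≤ t * p.2 ^ n := by
            have := hrpos i
            gcongr
        _ ≤ _ := hp2
        _ ≤ _ := setIntegral_le_integral hi (Eventually.of_forall ha)
  · intro x hx
    obtain ⟨b, hb, ⟨z, hz1, hz2⟩, hxb⟩ := hucov x hx
    rw [mem_iUnion]
    refine ⟨e ⟨b, hb⟩, ?_⟩
    have hcb : c (e ⟨b, hb⟩) = b := by simp [hc]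
    rw [mem_closedBall]
    simp only [hr, hcb]
    rw [mem_closedBall] at hz1 hz2
    have h3 := dist_triangle x z b
    rw [dist_comm x z] at h3
    have := hRpos b
    linarith
  · intro i j hij
    have h1 := dist_le_add_of_nonempty_closedBall_inter_closedBall hij
    have h2 := scale_lip (σ := σ) hn ha hi ht (c j) (c i)
    have h3 : R (c j) = 100 * r j := by simp only [hr]; ring
    have h4 : R (c i) = 100 * r i := by simp only [hr]; ring
    rw [← hR, h3, h4, dist_comm] at h2
    have := hrpos i
    linarith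
  · intro i
    have h1 : ∫ y in closedBall (c i) (200 * r i), a y ≤ t * (200 * r i) ^ n := by
      apply integral_le_of_scale_lt (σ := σ) hn ha hi ht
      · have := hrpos i; positivity
      · have := hRpos (c i)
        simp only [hr]; rw [← hR]; linarith
    refine le_trans ?_ h1
    apply setIntegral_mono_set hi.integrableOn (Eventually.of_forall ha)
    apply HasSubset.Subset.eventuallyLE
    apply closedBall_subset_closedBall
    have := hrpos i; linarith
  · -- the bad cubes
    set bad : Finset (Fin m) := Finset.univ.filter fun i => r i ≠ σ / 100 with hbad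
    have hex : ∀ i : Fin m, ∃ p : (Fin n → ℝ) × ℝ, r i ≠ σ / 100 →
        p ∈ bigCubes a t ∧ R (c i) < 2 * (p.2 - dist (c i) p.1) := by
      intro i
      rcases scale_alt hn ha hi ht hσ (c i) with h | ⟨p, hp, hlt⟩
      · exact ⟨0, fun h' => absurd (by simp only [hr, hR, h]) h'⟩
      · exact ⟨p, fun _ => ⟨hp, hlt⟩⟩
    choose p hp using hex
    have hpb : ∀ i ∈ (bad : Set (Fin m)), p i ∈ bigCubes a t ∧
        R (c i) < 2 * ((p i).2 - dist (c i) (p i).1) := fun i hi' => hp i (by simpa [hbad] using hi')
    obtain ⟨v, hvb, hvdisj, hvcov⟩ := Vitali.exists_disjoint_subfamily_covering_enlargement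
      (fun i : Fin m => closedBall (p i).1 (p i).2) (bad : Set (Fin m)) (fun i => (p i).2) 2
      one_lt_two (fun i hi' => (hpb i hi').1.1.le) (max 1 ((∫ x, a x) / t))
      (fun i hi' => bigCubes_le hn ha hi ht (hpb i hi').1)
      (fun i hi' => ⟨(p i).1, mem_closedBall_self (hpb i hi').1.1.le⟩)
    have hvf : v.Finite := v.toFinite
    set v' : Finset (Fin m) := hvf.toFinset with hv'
    have hv'mem : ∀ g, g ∈ v' ↔ g ∈ v := fun g => by simp [hv']
    -- volumes
    have hvol : ∑ i ∈ bad, (2 * r i) ^ n ≤ ∑ g ∈ v', (2 * (5 * (p g).2)) ^ n := by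
      have e1 : ∑ i ∈ bad, (2 * r i) ^ n = volume.real (⋃ i ∈ bad, closedBall (c i) (r i)) := by
        rw [measureReal_biUnion_finset (h := fun i _ => measure_closedBall_lt_top.ne)]
        · apply Finset.sum_congr rfl
          intro i _
          rw [vol_real_cb _ (hrpos i).le]
        · intro i _ j _ hij
          exact hdisj hij
        · intro i _
          exact measurableSet_closedBall
      rw [e1]
      calc volume.real (⋃ i ∈ bad, closedBall (c i) (r i))
          ≤ volume.real (⋃ g ∈ v', closedBall (p g).1 (5 * (p g).2)) := by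
            apply measureReal_mono
            · intro z hz
              simp only [mem_iUnion, exists_prop] at hz ⊢
              obtain ⟨i, hib, hzi⟩ := hz
              obtain ⟨g, hg, hne, hle⟩ := hvcov i (by simpa using hib)
              refine ⟨g, (hv'mem g).2 hg, ?_⟩
              have h1 := (hpb i (by simpa using hib)).2
              have h2 := dist_le_add_of_nonempty_closedBall_inter_closedBall hne
              rw [mem_closedBall] at hzi ⊢
              have h3 : dist z (p g).1 ≤ dist z (c i) + dist (c i) (p i).1 +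
                  dist (p i).1 (p g).1 := dist_triangle4 _ _ _ _
              have h4 : R (c i) = 100 * r i := by simp only [hr]; ring
              have := hrpos i
              linarith
            · apply ne_of_lt
              apply lt_of_le_of_lt (measure_biUnion_finset_le _ _)
              exact ENNReal.sum_lt_top.2 fun g _ => measure_closedBall_lt_top
        _ ≤ ∑ g ∈ v', volume.real (closedBall (p g).1 (5 * (p g).2)) :=
            measureReal_biUnion_finset_le _ _
        _ = _ := by
            apply Finset.sum_congr rfl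
            intro g hg
            rw [vol_real_cb]
            have := (hpb g (hvb ((hv'mem g).1 hg))).1.1
            positivity
    set κ : ℝ := t / 2 ^ (n + 1) with hκ
    have hlevel : MeasurableSet {x | κ < a x} := measurableSet_lt measurable_const hm
    have hg : ∀ g ∈ v', (p g).2 ^ n ≤
        2 / t * ∫ x in closedBall (p g).1 (p g).2 ∩ {x | κ < a x}, a x := by
      intro g hg
      obtain ⟨⟨h1, h2⟩, _⟩ := hpb g (hvb ((hv'mem g).1 hg))
      have h3 : ∫ x in closedBall (p g).1 (p g).2, a x ≤
          (∫ x in closedBall (p g).1 (p g).2 ∩ {x | κ < a x}, a x) + κ * (2 * (p g).2) ^ n := by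
        rw [← integral_inter_add_diff hlevel hi.integrableOn]
        gcongr
        calc ∫ x in closedBall (p g).1 (p g).2 \ {x | κ < a x}, a x
            ≤ ∫ x in closedBall (p g).1 (p g).2 \ {x | κ < a x}, κ := by
              apply setIntegral_mono_on hi.integrableOn
              · apply IntegrableOn.mono_set (t := closedBall (p g).1 (p g).2)
                · exact continuousOn_const.integrableOn_compact (isCompact_closedBall _ _)
                · exact diff_subset
              · exact measurableSet_closedBall.diff hlevel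
              · intro x hx
                simpa using hx.2
          _ ≤ ∫ x in closedBall (p g).1 (p g).2, κ := by
              apply setIntegral_mono_set
              · exact continuousOn_const.integrableOn_compact (isCompact_closedBall _ _)
              · exact Eventually.of_forall fun _ => by rw [hκ]; positivity
              · exact HasSubset.Subset.eventuallyLE diff_subset
          _ = κ * (2 * (p g).2) ^ n := by
              rw [setIntegral_const, vol_real_cb _ h1.le, smul_eq_mul, mul_comm]
      have h4 : κ * (2 * (p g).2) ^ n = t * (p g).2 ^ n / 2 := by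
        rw [hκ, mul_pow]; field_simp; ring
      rw [h4] at h3
      rw [div_mul_eq_mul_div, le_div_iff₀ ht]
      linarith
    have hsum : ∑ g ∈ v', ∫ x in closedBall (p g).1 (p g).2 ∩ {x | κ < a x}, a x ≤
        ∫ x in {x | κ < a x}, a x := by
      rw [← integral_biUnion_finset]
      · apply setIntegral_mono_set hi.integrableOn (Eventually.of_forall ha)
        apply HasSubset.Subset.eventuallyLE
        exact iUnion₂_subset fun g _ => inter_subset_right
      · intro g _
        exact measurableSet_closedBall.inter hlevel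
      · intro g hg g' hg' hne
        have := hvdisj ((hv'mem g).1 hg) ((hv'mem g').1 hg') hne
        exact this.mono inter_subset_left inter_subset_left
      · intro g _
        exact hi.integrableOn
    have h2n : (0 : ℝ) < 2 ^ n := by positivity
    have hfin : 2 ^ n * ∑ i ∈ bad, r i ^ n ≤
        2 ^ n * (2 * 5 ^ n / t * ∫ x in {x | κ < a x}, a x) := by
      calc 2 ^ n * ∑ i ∈ bad, r i ^ n = ∑ i ∈ bad, (2 * r i) ^ n := by
            rw [Finset.mul_sum]; simp_rw [mul_pow]
        _ ≤ ∑ g ∈ v', (2 * (5 * (p g).2)) ^ n := hvol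
        _ = 2 ^ n * 5 ^ n * ∑ g ∈ v', (p g).2 ^ n := by
            rw [Finset.mul_sum]
            apply Finset.sum_congr rfl
            intro g _
            rw [mul_pow, mul_pow]; ring
        _ ≤ 2 ^ n * 5 ^ n * ∑ g ∈ v', 2 / t *
              ∫ x in closedBall (p g).1 (p g).2 ∩ {x | κ < a x}, a x := by
            gcongr with g hg'
            exact hg g hg'
        _ = 2 ^ n * (2 * 5 ^ n / t) * ∑ g ∈ v',
              ∫ x in closedBall (p g).1 (p g).2 ∩ {x | κ < a x}, a x := by
            rw [← Finset.mul_sum]; ring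
        _ ≤ 2 ^ n * (2 * 5 ^ n / t) * ∫ x in {x | κ < a x}, a x := by gcongr
        _ = _ := by ring
    exact le_of_mul_le_mul_left hfin h2n

end Pool.Agent.MP8995
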