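import Mathlib
import Pool.Agent.Lib.MP_8995c5_an.Defs

set_option autoImplicit false

open MeasureTheory Metric Set Filter Topology
open scoped ENNReal NNReal

namespace Pool.Agent.MP8995

variable {n : ℕ}

/-- the fixed bump function -/
noncomputable def chi (n : ℕ) : ContDiffBump (0 : Fin n → ℝ) where
  rIn := 1 / 2
  rOut := 1
  rIn_pos := by norm_num
  rIn_lt_rOut := by norm_num

theorem chi_contDiff (n : ℕ) : ContDiff ℝ (⊤ : ℕ∞) (chi n) := (chi n).contDiff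

theorem chi_diff (n : ℕ) : Differentiable ℝ (chi n) :=
  (chi_contDiff n).differentiable (by simp)

theorem chi_fderiv_eq_zero {y : Fin n → ℝ} (hy : ‖y‖ ≤ 1 / 2 ∨ 1 ≤ ‖y‖) :
    fderiv ℝ (chi n) y = 0 := by
  rcases hy with hy | hy
  · apply IsLocalMax.fderiv_eq_zero
    have h1 : chi n y = 1 := (chi n).one_of_mem_closedBall (by simpa [chi] using hy)
    refine Eventually.of_forall fun z => ?_
    rw [h1]
    exact (chi n).le_one
  · apply IsLocalMin.fderiv_eq_zero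
    have h1 : chi n y = 0 := (chi n).zero_of_le_dist (by simpa [chi] using hy)
    refine Eventually.of_forall fun z => ?_
    rw [h1]
    exact (chi n).nonneg

theorem exists_chi_bound (n : ℕ) : ∃ Λ : ℝ, 0 < Λ ∧ ∀ y, ∑ i, |pd i (chi n) y| ≤ Λ := by
  have hc : Continuous fun y : Fin n → ℝ => ∑ i, |pd i (chi n) y| := by
    refine continuous_finsetSum _ fun i _ => Continuous.abs ?_
    unfold pd
    exact ((chi_contDiff n).continuous_fderiv (by simp)).clm_apply continuous_const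
  have hs : HasCompactSupport fun y : Fin n → ℝ => ∑ i, |pd i (chi n) y| := by
    apply HasCompactSupport.of_support_subset_isCompact (isCompact_closedBall (0 : Fin n → ℝ) 1)
    intro y hy
    by_contra hcon
    apply hy
    have : 1 ≤ ‖y‖ := by
      rw [mem_closedBall_zero_iff] at hcon
      linarith
    simp [pd, chi_fderiv_eq_zero (Or.inr this)]
  obtain ⟨C, hC⟩ := hc.bounded_above_of_compact_support hs
  refine ⟨max C 1, by positivity, fun y => ?_⟩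
  have := hC y
  rw [Real.norm_of_nonneg (Finset.sum_nonneg fun _ _ => abs_nonneg _)] at this
  exact this.trans (le_max_left _ _)

/-- scaled bump -/
noncomputable def sb (x₀ : Fin n → ℝ) (j : ℕ) (x : Fin n → ℝ) : ℝ :=
  chi n ((2 : ℝ) ^ j • (x - x₀))

theorem sb_hasFDerivAt (x₀ : Fin n → ℝ) (j : ℕ) (x : Fin n → ℝ) :
    HasFDerivAt (sb x₀ j) ((2 : ℝ) ^ j • fderiv ℝ (chi n) ((2 : ℝ) ^ j • (x - x₀))) x := by
  have h1 : HasFDerivAt (fun x : Fin n → ℝ => (2 : ℝ) ^ j • (x - x₀))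
      ((2 : ℝ) ^ j • ContinuousLinearMap.id ℝ (Fin n → ℝ)) x := by
    have h := ((hasFDerivAt_id (𝕜 := ℝ) x).sub_const x₀).const_smul ((2 : ℝ) ^ j)
    exact h
  have h2 := ((chi_diff n) ((2 : ℝ) ^ j • (x - x₀))).hasFDerivAt.comp x h1
  have h3 : (fderiv ℝ (chi n) ((2 : ℝ) ^ j • (x - x₀))).comp
      ((2 : ℝ) ^ j • ContinuousLinearMap.id ℝ (Fin n → ℝ)) =
      (2 : ℝ) ^ j • fderiv ℝ (chi n) ((2 : ℝ) ^ j • (x - x₀)) := by
    ext v; simp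
  rw [h3] at h2
  exact h2

theorem sb_contDiff (x₀ : Fin n → ℝ) (j : ℕ) : ContDiff ℝ (⊤ : ℕ∞) (sb x₀ j) := by
  unfold sb
  exact (chi_contDiff n).comp ((contDiff_id.sub contDiff_const).const_smul _)

/-- open dyadic shell -/
def shell (x₀ : Fin n → ℝ) (j : ℕ) : Set (Fin n → ℝ) :=
  {x | 1 / 2 < (2 : ℝ) ^ j * ‖x - x₀‖ ∧ (2 : ℝ) ^ j * ‖x - x₀‖ < 1}

theorem measurableSet_shell (x₀ : Fin n → ℝ) (j : ℕ) : MeasurableSet (shell x₀ j) := by
  have hc : Continuous fun x : Fin n → ℝ => (2 : ℝ) ^ j * ‖x - x₀‖ := by fun_prop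
  apply IsOpen.measurableSet
  apply IsOpen.inter
  · exact isOpen_lt continuous_const hc
  · exact isOpen_lt hc continuous_const

theorem shell_subset (x₀ : Fin n → ℝ) (j : ℕ) :
    shell x₀ j ⊆ closedBall x₀ ((2 : ℝ) ^ j)⁻¹ := by
  intro x hx
  rw [mem_closedBall, dist_eq_norm]
  have h := hx.2
  have h2 : (0 : ℝ) < 2 ^ j := by positivity
  rw [← one_div, le_div_iff₀ h2]
  linarith [mul_comm ((2 : ℝ) ^ j) ‖x - x₀‖]

theorem shell_disjoint (x₀ : Fin n → ℝ) {i j : ℕ} (hij : i ≠ j) {x : Fin n → ℝ}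
    (hi : x ∈ shell x₀ i) : x ∉ shell x₀ j := by
  have key : ∀ a b : ℕ, a < b → x ∈ shell x₀ a → x ∈ shell x₀ b → False := by
    intro a b hab ha hb
    have h1 : (2 : ℝ) ^ (a + 1) ≤ 2 ^ b := pow_le_pow_right₀ (by norm_num) hab
    have h2 : (2 : ℝ) ^ (a + 1) * ‖x - x₀‖ ≤ 2 ^ b * ‖x - x₀‖ :=
      mul_le_mul_of_nonneg_right h1 (norm_nonneg _)
    have h3 := ha.1
    have h4 := hb.2
    rw [pow_succ] at h2
    linarith
  intro hj
  rcases lt_or_gt_of_ne hij with h | h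
  · exact key i j h hi hj
  · exact key j i h hj hi

theorem volume_shell_le (x₀ : Fin n → ℝ) (j : ℕ) :
    (volume (shell x₀ j)).toReal ≤ 2 ^ n * ((2 : ℝ) ^ (j * n))⁻¹ := by
  have h1 : volume (shell x₀ j) ≤ volume (closedBall x₀ ((2 : ℝ) ^ j)⁻¹) :=
    measure_mono (shell_subset x₀ j)
  rw [Real.volume_pi_closedBall _ (by positivity)] at h1
  have h2 := ENNReal.toReal_mono ENNReal.ofReal_ne_top h1
  rw [ENNReal.toReal_ofReal (by positivity)] at h2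
  refine h2.trans (le_of_eq ?_)
  rw [Fintype.card_fin, mul_pow, inv_pow, ← pow_mul]

private theorem co_pow_le_exp {w l : ℝ} (hw : 0 ≤ w) (hl : 0 < l) (N : ℕ) :
    w ^ N ≤ ((N.factorial : ℝ) / l ^ N) * Real.exp (l * w) := by
  have h := Real.pow_div_factorial_le_exp (l * w) (mul_nonneg hl.le hw) N
  rw [div_le_iff₀ (Nat.cast_pos.2 N.factorial_pos), mul_pow, mul_comm] at h
  rw [div_mul_eq_mul_div, le_div_iff₀ (pow_pos hl N), mul_comm (N.factorial : ℝ)]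
  exact h

private theorem co_harm (J₀ : ℕ) (R : ℝ) :
    ∃ N, J₀ ≤ N ∧ R ≤ ∑ j ∈ Finset.Ico J₀ N, 1 / (j : ℝ) := by
  have h := (not_summable_iff_tendsto_nat_atTop_of_nonneg
    (f := fun j : ℕ => 1 / (j : ℝ)) (fun j => one_div_nonneg.2 (Nat.cast_nonneg j))).1
      Real.not_summable_one_div_natCast
  obtain ⟨N, hN⟩ := ((h.eventually_ge_atTop
    (R + ∑ j ∈ Finset.range J₀, 1 / (j : ℝ))).and (eventually_ge_atTop J₀)).exists
  refine ⟨N, hN.2, ?_⟩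
  rw [Finset.sum_Ico_eq_sub _ hN.2]
  exact le_sub_iff_add_le.2 hN.1

theorem shell_weight {w l : ℝ} (hw : 0 ≤ w) (hl : 0 < l) (n j : ℕ) :
    w ^ (n - 1) * (2 : ℝ) ^ (j * n) ≤
      (2 * n * Real.log 2 / l) ^ (n - 1) * ((j : ℝ) ^ (n - 1) * (2 : ℝ) ^ (j * n)) +
        (((n - 1).factorial : ℝ) / (l / 2) ^ (n - 1)) * Real.exp (l * w) := by
  have hlog : 0 < Real.log 2 := Real.log_pos (by norm_num)
  by_cases hcase : w ≤ 2 * n * Real.log 2 / l * j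
  · have h1 : w ^ (n - 1) ≤ (2 * n * Real.log 2 / l * j) ^ (n - 1) := pow_le_pow_left₀ hw hcase _
    rw [mul_pow] at h1
    have h2 := mul_le_mul_of_nonneg_right h1 (show (0 : ℝ) ≤ 2 ^ (j * n) by positivity)
    have h3 : 0 ≤ (((n - 1).factorial : ℝ) / (l / 2) ^ (n - 1)) * Real.exp (l * w) := by positivity
    linarith
  · push Not at hcase
    have h1 : (2 : ℝ) ^ (j * n) ≤ Real.exp (l / 2 * w) := by
      rw [← Real.exp_log (show (0 : ℝ) < 2 ^ (j * n) by positivity), Real.log_pow]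
      apply Real.exp_le_exp.2
      rw [div_mul_eq_mul_div, div_lt_iff₀ hl] at hcase
      push_cast
      linarith
    have h2 := co_pow_le_exp hw (half_pos hl) (n - 1)
    have h3 : w ^ (n - 1) * (2 : ℝ) ^ (j * n) ≤
        ((((n - 1).factorial : ℝ) / (l / 2) ^ (n - 1)) * Real.exp (l / 2 * w)) *
          Real.exp (l / 2 * w) := mul_le_mul h2 h1 (by positivity) (by positivity)
    have h4 : Real.exp (l / 2 * w) * Real.exp (l / 2 * w) = Real.exp (l * w) := by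
      rw [← Real.exp_add]; congr 1; ring
    rw [mul_assoc, h4] at h3
    have h5 : 0 ≤ (2 * n * Real.log 2 / l) ^ (n - 1) * ((j : ℝ) ^ (n - 1) * (2 : ℝ) ^ (j * n)) := by
      positivity
    linarith

private theorem co_p2 (j : ℕ) : (0 : ℝ) < 2 ^ j := pow_pos two_pos j

private theorem co_od (j : ℕ) : (0 : ℝ) ≤ 1 / (j : ℝ) := one_div_nonneg.2 (Nat.cast_nonneg j)

private theorem co_inv {a b : ℕ} (h : a ≤ b) : ((2 : ℝ) ^ b)⁻¹ ≤ ((2 : ℝ) ^ a)⁻¹ :=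
  inv_anti₀ (co_p2 a) (pow_le_pow_right₀ one_le_two h)

private theorem co_scale {U : Set (Fin n → ℝ)} (hU : IsOpen U) {x₀ : Fin n → ℝ} (hx : x₀ ∈ U)
    {ε : ℝ} (hε : 0 < ε) : ∃ J₁ : ℕ, 1 ≤ J₁ ∧ closedBall x₀ ((2 : ℝ) ^ J₁)⁻¹ ⊆ U ∧
      closedBall x₀ ((2 : ℝ) ^ J₁)⁻¹ ⊆ ball x₀ ε := by
  obtain ⟨ρ, hρ, hρU⟩ := Metric.isOpen_iff.1 hU x₀ hx
  obtain ⟨N, hN⟩ := exists_pow_lt_of_lt_one (lt_min hρ hε) (one_half_lt_one : (1 / 2 : ℝ) < 1)
  have h1 : ((2 : ℝ) ^ (N + 1))⁻¹ ≤ (1 / 2 : ℝ) ^ N := by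
    rw [one_div, inv_pow]
    exact co_inv (Nat.le_succ N)
  have h2 := h1.trans_lt hN
  exact ⟨N + 1, Nat.le_add_left 1 N,
    (closedBall_subset_ball (h2.trans_le (min_le_left _ _))).trans hρU,
    closedBall_subset_ball (h2.trans_le (min_le_right _ _))⟩

private noncomputable def etaC (x₀ : Fin n → ℝ) (S : Finset ℕ) (L : ℝ) (x : Fin n → ℝ) : ℝ :=
  L⁻¹ * ∑ j ∈ S, (1 / (j : ℝ)) * sb x₀ j x

private theorem etaC_smooth (x₀ : Fin n → ℝ) (S : Finset ℕ) (L : ℝ) :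
    ContDiff ℝ (⊤ : ℕ∞) (etaC x₀ S L) :=
  contDiff_const.mul (ContDiff.sum fun j _ => contDiff_const.mul (sb_contDiff x₀ j))

private theorem etaC_01 (x₀ : Fin n → ℝ) (S : Finset ℕ) {L : ℝ} (hL : L = ∑ j ∈ S, 1 / (j : ℝ))
    (hL0 : 0 < L) (x : Fin n → ℝ) : 0 ≤ etaC x₀ S L x ∧ etaC x₀ S L x ≤ 1 := by
  constructor
  · exact mul_nonneg (inv_nonneg.2 hL0.le)
      (Finset.sum_nonneg fun j _ => mul_nonneg (co_od j) (chi n).nonneg)
  · rw [etaC, inv_mul_le_iff₀ hL0, mul_one, hL]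
    exact Finset.sum_le_sum fun j _ => mul_le_of_le_one_right (co_od j) (chi n).le_one

private theorem etaC_supp (x₀ : Fin n → ℝ) (S : Finset ℕ) (L : ℝ) {J₁ : ℕ}
    (hS : ∀ j ∈ S, J₁ ≤ j) :
    Function.support (etaC x₀ S L) ⊆ closedBall x₀ ((2 : ℝ) ^ J₁)⁻¹ := by
  intro x hxs
  by_contra hcon
  apply hxs
  rw [etaC, Finset.sum_eq_zero, mul_zero]
  intro j hj
  have h0 : sb x₀ j x = 0 := by
    apply (chi n).zero_of_le_dist
    rw [dist_zero_right, norm_smul, Real.norm_of_nonneg (co_p2 j).le]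
    rw [mem_closedBall, dist_eq_norm, not_le, ← one_div, div_lt_iff₀' (co_p2 J₁)] at hcon
    exact hcon.le.trans (mul_le_mul_of_nonneg_right
      (pow_le_pow_right₀ one_le_two (hS j hj)) (norm_nonneg _))
  rw [h0, mul_zero]

private theorem etaC_one (x₀ : Fin n → ℝ) (S : Finset ℕ) {L : ℝ} (hL : L = ∑ j ∈ S, 1 / (j : ℝ))
    (hL0 : 0 < L) {N : ℕ} (hS : ∀ j ∈ S, j + 1 ≤ N) {x : Fin n → ℝ}
    (hx : x ∈ ball x₀ ((2 : ℝ) ^ N)⁻¹) : etaC x₀ S L x = 1 := by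
  have h1 : ∀ j ∈ S, (1 / (j : ℝ)) * sb x₀ j x = 1 / (j : ℝ) := by
    intro j hj
    have : sb x₀ j x = 1 := by
      apply (chi n).one_of_mem_closedBall
      rw [mem_closedBall_zero_iff, norm_smul, Real.norm_of_nonneg (co_p2 j).le]
      show _ ≤ (1 / 2 : ℝ)
      rw [mem_ball, dist_eq_norm, ← one_div, lt_div_iff₀' (co_p2 N)] at hx
      have h4 := (mul_le_mul_of_nonneg_right (pow_le_pow_right₀ (one_le_two (α := ℝ)) (hS j hj))
        (norm_nonneg (x - x₀))).trans hx.le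
      rw [pow_succ] at h4
      linarith only [h4]
    rw [this, mul_one]
  rw [etaC, Finset.sum_congr rfl h1, ← hL, inv_mul_cancel₀ hL0.ne']

private theorem etaC_pd (x₀ : Fin n → ℝ) (S : Finset ℕ) (L : ℝ) (x : Fin n → ℝ) (i : Fin n) :
    pd i (etaC x₀ S L) x = L⁻¹ * ∑ j ∈ S, (1 / (j : ℝ)) *
      ((2 : ℝ) ^ j * pd i (chi n) ((2 : ℝ) ^ j • (x - x₀))) := by
  have h2 : HasFDerivAt (fun y => ∑ j ∈ S, (1 / (j : ℝ)) * sb x₀ j y) (∑ j ∈ S, (1 / (j : ℝ)) •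
      ((2 : ℝ) ^ j • fderiv ℝ (chi n) ((2 : ℝ) ^ j • (x - x₀)))) x :=
    HasFDerivAt.fun_sum fun j _ => (sb_hasFDerivAt x₀ j x).const_mul _
  have h1 : HasFDerivAt (etaC x₀ S L) (L⁻¹ • ∑ j ∈ S, (1 / (j : ℝ)) •
      ((2 : ℝ) ^ j • fderiv ℝ (chi n) ((2 : ℝ) ^ j • (x - x₀)))) x := h2.const_mul _
  unfold pd
  rw [h1.fderiv, ContinuousLinearMap.smul_apply, ContinuousLinearMap.sum_apply]
  rfl

private theorem etaC_sum {Λ : ℝ} (hΛ : ∀ y, ∑ i, |pd i (chi n) y| ≤ Λ) (x₀ : Fin n → ℝ)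
    (S : Finset ℕ) {L : ℝ} (hL : 0 ≤ L⁻¹) (x : Fin n → ℝ) :
    (∑ i, |pd i (etaC x₀ S L) x|) ≤
      L⁻¹ * ∑ j ∈ S, (shell x₀ j).indicator (fun _ => (1 / (j : ℝ)) * ((2 : ℝ) ^ j * Λ)) x := by
  calc (∑ i, |pd i (etaC x₀ S L) x|) ≤ ∑ i, L⁻¹ * ∑ j ∈ S,
        (1 / (j : ℝ)) * ((2 : ℝ) ^ j * |pd i (chi n) ((2 : ℝ) ^ j • (x - x₀))|) := by
        refine Finset.sum_le_sum fun i _ => ?_
        rw [etaC_pd, abs_mul, abs_of_nonneg hL]
        refine mul_le_mul_of_nonneg_left ((Finset.abs_sum_le_sum_abs _ _).trans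
          (Finset.sum_le_sum fun j _ => ?_)) hL
        rw [abs_mul, abs_mul, abs_of_nonneg (co_od j), abs_of_nonneg (co_p2 j).le]
    _ = L⁻¹ * ∑ j ∈ S, (1 / (j : ℝ)) * ((2 : ℝ) ^ j *
          ∑ i, |pd i (chi n) ((2 : ℝ) ^ j • (x - x₀))|) := by
        rw [← Finset.mul_sum, Finset.sum_comm]
        refine congrArg (fun t => L⁻¹ * t) (Finset.sum_congr rfl fun j _ => ?_)
        rw [Finset.mul_sum, Finset.mul_sum]
    _ ≤ _ := by
        refine mul_le_mul_of_nonneg_left (Finset.sum_le_sum fun j _ => ?_) hL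
        by_cases hxj : x ∈ shell x₀ j
        · rw [Set.indicator_of_mem hxj]
          exact mul_le_mul_of_nonneg_left
            (mul_le_mul_of_nonneg_left (hΛ _) (co_p2 j).le) (co_od j)
        · rw [Set.indicator_of_notMem hxj]
          have h0 : fderiv ℝ (chi n) ((2 : ℝ) ^ j • (x - x₀)) = 0 := by
            apply chi_fderiv_eq_zero
            rw [norm_smul, Real.norm_of_nonneg (co_p2 j).le]
            by_contra hcon
            rw [not_or, not_le, not_le] at hcon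
            exact hxj hcon
          have h1 : ∀ i ∈ Finset.univ, |pd i (chi n) ((2 : ℝ) ^ j • (x - x₀))| = 0 := by
            intro i _
            unfold pd
            rw [h0, ContinuousLinearMap.zero_apply, abs_zero]
          rw [Finset.sum_eq_zero h1, mul_zero, mul_zero]

private theorem co_real {w A Bc Li Λ E : ℝ} {n j : ℕ} (hn : 1 ≤ n) (hj : 1 ≤ j)
    (hc : 0 ≤ Li * Λ) (hB : 0 ≤ Bc) (hE : 0 ≤ E)
    (hsw : w ^ (n - 1) * (2 : ℝ) ^ (j * n) ≤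
      A * ((j : ℝ) ^ (n - 1) * (2 : ℝ) ^ (j * n)) + Bc * E) :
    w ^ (n - 1) * (Li * ((1 / (j : ℝ)) * ((2 : ℝ) ^ j * Λ))) ^ n ≤
      (Li * Λ) ^ n * (A * ((1 / (j : ℝ)) * (2 : ℝ) ^ (j * n)) + Bc * E) := by
  obtain ⟨m, rfl⟩ : ∃ m, n = m + 1 := ⟨n - 1, (Nat.sub_add_cancel hn).symm⟩
  rw [Nat.add_sub_cancel] at hsw ⊢
  have hj1 : (1 : ℝ) ≤ j := Nat.one_le_cast.2 hj
  have hj0 : (0 : ℝ) < j := lt_of_lt_of_le one_pos hj1
  rw [pow_mul] at hsw ⊢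
  generalize (2 : ℝ) ^ j = p at hsw ⊢
  have ha : (1 / (j : ℝ)) * j = 1 := one_div_mul_cancel hj0.ne'
  have ha0 : (0 : ℝ) ≤ 1 / (j : ℝ) := one_div_nonneg.2 hj0.le
  have ha1 : 1 / (j : ℝ) ≤ 1 := (div_le_one hj0).2 hj1
  generalize (1 / (j : ℝ)) = a at ha ha0 ha1 ⊢
  have e0 : w ^ m * (Li * (a * (p * Λ))) ^ (m + 1) =
      (Li * Λ) ^ (m + 1) * (a ^ (m + 1) * (w ^ m * p ^ (m + 1))) := by ring
  rw [e0]
  refine mul_le_mul_of_nonneg_left ?_ (pow_nonneg hc _)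
  have e1 : a ^ (m + 1) * (j : ℝ) ^ m = a := by
    rw [pow_succ, mul_right_comm, ← mul_pow, ha, one_pow, one_mul]
  refine (mul_le_mul_of_nonneg_left hsw (pow_nonneg ha0 (m + 1))).trans ?_
  have h2 : a ^ (m + 1) * (Bc * E) ≤ Bc * E :=
    mul_le_of_le_one_left (mul_nonneg hB hE) (pow_le_one₀ ha0 ha1)
  have h3 : a ^ (m + 1) * (A * ((j : ℝ) ^ m * p ^ (m + 1))) = A * (a * p ^ (m + 1)) := by
    calc a ^ (m + 1) * (A * ((j : ℝ) ^ m * p ^ (m + 1)))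
        = A * ((a ^ (m + 1) * (j : ℝ) ^ m) * p ^ (m + 1)) := by ring
      _ = _ := by rw [e1]
  rw [mul_add, h3]
  exact add_le_add_right h2 _

private theorem co_int {L Λ a b : ℝ} {n : ℕ} (hn : 2 ≤ n) (hL1 : 1 ≤ L) (hΛ : 0 ≤ Λ)
    (ha : 0 ≤ a) (hb : 0 ≤ b) :
    (L⁻¹ * Λ) ^ n * (a * L + b) ≤ (Λ ^ n * (a + b)) / L := by
  obtain ⟨m, rfl⟩ : ∃ m, n = m + 2 := ⟨n - 2, (Nat.sub_add_cancel hn).symm⟩
  have hL0 : 0 < L := lt_of_lt_of_le one_pos hL1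
  have hi0 : 0 ≤ L⁻¹ := inv_nonneg.2 hL0.le
  have hc : 0 ≤ (L⁻¹ * Λ) ^ (m + 2) := pow_nonneg (mul_nonneg hi0 hΛ) _
  have h5 : a * L + b ≤ (a + b) * L := by
    rw [add_mul]
    exact add_le_add_right (le_mul_of_one_le_right hb hL1) _
  refine (mul_le_mul_of_nonneg_left h5 hc).trans ?_
  have h6 : (L⁻¹ * Λ) ^ (m + 2) * ((a + b) * L) =
      (Λ ^ (m + 2) * (a + b)) * (L⁻¹ ^ m * L⁻¹) * (L⁻¹ * L) := by ring
  rw [h6, inv_mul_cancel₀ hL0.ne', mul_one, div_eq_mul_inv]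
  refine mul_le_mul_of_nonneg_left ?_ (mul_nonneg (pow_nonneg hΛ _) (add_nonneg ha hb))
  exact mul_le_of_le_one_left hi0 (pow_le_one₀ hi0 (inv_le_one_of_one_le₀ hL1))

private theorem co_vol (x₀ : Fin n → ℝ) (j : ℕ) {A : ℝ} (hA : 0 ≤ A) :
    ∫ x, (shell x₀ j).indicator
      (fun _ : Fin n → ℝ => A * ((1 / (j : ℝ)) * (2 : ℝ) ^ (j * n))) x ≤
      A * 2 ^ n * (1 / (j : ℝ)) := by
  rw [integral_indicator (measurableSet_shell x₀ j), setIntegral_const, smul_eq_mul]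
  refine (mul_le_mul_of_nonneg_right (volume_shell_le x₀ j)
    (mul_nonneg hA (mul_nonneg (co_od j) (co_p2 (j * n)).le))).trans (le_of_eq ?_)
  calc 2 ^ n * ((2 : ℝ) ^ (j * n))⁻¹ * (A * (1 / (j : ℝ) * 2 ^ (j * n)))
      = A * 2 ^ n * (1 / (j : ℝ)) * (((2 : ℝ) ^ (j * n))⁻¹ * 2 ^ (j * n)) := by ring
    _ = _ := by rw [inv_mul_cancel₀ (co_p2 _).ne', mul_one]

private noncomputable def RC (x₀ : Fin n → ℝ) (S : Finset ℕ) (c A Bc : ℝ)
    (e : (Fin n → ℝ) → ℝ) (x : Fin n → ℝ) : ℝ :=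
  c ^ n * ((∑ j ∈ S, (shell x₀ j).indicator
    (fun _ => A * ((1 / (j : ℝ)) * (2 : ℝ) ^ (j * n))) x) + Bc * e x)

private theorem RC_int1 (x₀ : Fin n → ℝ) (j : ℕ) (A : ℝ) : Integrable
    ((shell x₀ j).indicator (fun _ : Fin n → ℝ => A * ((1 / (j : ℝ)) * (2 : ℝ) ^ (j * n)))) := by
  refine (integrable_indicator_iff (measurableSet_shell x₀ j)).2 (integrableOn_const ?_)
  exact ((measure_mono (shell_subset x₀ j)).trans_lt
    (isCompact_closedBall _ _).measure_lt_top).ne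

private theorem RC_int (x₀ : Fin n → ℝ) (S : Finset ℕ) (c A Bc : ℝ)
    {e : (Fin n → ℝ) → ℝ} (he : Integrable e) : Integrable (RC x₀ S c A Bc e) :=
  ((integrable_finsetSum _ fun j _ => RC_int1 x₀ j A).add (he.const_mul _)).const_mul _

private theorem RC_val (hn : 2 ≤ n) (x₀ : Fin n → ℝ) (S : Finset ℕ) {L Λ A Bc : ℝ}
    (hL : L = ∑ j ∈ S, 1 / (j : ℝ)) (hL1 : 1 ≤ L) (hΛ : 0 ≤ Λ) (hA : 0 ≤ A) (hB : 0 ≤ Bc)
    {e : (Fin n → ℝ) → ℝ} (he : Integrable e) (hI : 0 ≤ ∫ x, e x) :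
    ∫ x, RC x₀ S (L⁻¹ * Λ) A Bc e x ≤ (Λ ^ n * (A * 2 ^ n + Bc * ∫ x, e x)) / L := by
  unfold RC
  rw [integral_const_mul, integral_add (integrable_finsetSum _ fun j _ => RC_int1 x₀ j A)
    (he.const_mul _), integral_finsetSum _ fun j _ => RC_int1 x₀ j A, integral_const_mul]
  have h1 : ∑ j ∈ S, ∫ x, (shell x₀ j).indicator
      (fun _ : Fin n → ℝ => A * ((1 / (j : ℝ)) * (2 : ℝ) ^ (j * n))) x ≤ A * 2 ^ n * L := by
    rw [hL, Finset.mul_sum]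
    exact Finset.sum_le_sum fun j _ => co_vol x₀ j hA
  have hL0 : 0 < L := lt_of_lt_of_le one_pos hL1
  refine (mul_le_mul_of_nonneg_left (add_le_add_left h1 _)
    (pow_nonneg (mul_nonneg (inv_nonneg.2 hL0.le) hΛ) _)).trans ?_
  exact co_int hn hL1 hΛ (mul_nonneg hA (co_p2 n).le) (mul_nonneg hB hI)

private theorem RC_pt (hn : 1 ≤ n) {U : Set (Fin n → ℝ)} {w : (Fin n → ℝ) → ℝ} {l : ℝ}
    (hl : 0 < l) (hw : ∀ x, 0 ≤ w x) (x₀ : Fin n → ℝ) {S : Finset ℕ} {J₁ : ℕ} (hJ1 : 1 ≤ J₁)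
    (hJU : closedBall x₀ ((2 : ℝ) ^ J₁)⁻¹ ⊆ U) (hS : ∀ j ∈ S, J₁ ≤ j)
    {Λ L : ℝ} (hL0 : 0 ≤ L⁻¹) (hΛ0 : 0 ≤ Λ) (hΛ : ∀ y, ∑ i, |pd i (chi n) y| ≤ Λ)
    (x : Fin n → ℝ) :
    w x ^ (n - 1) * (∑ i, |pd i (etaC x₀ S L) x|) ^ n ≤
      RC x₀ S (L⁻¹ * Λ) ((2 * n * Real.log 2 / l) ^ (n - 1))
        (((n - 1).factorial : ℝ) / (l / 2) ^ (n - 1))
        (U.indicator fun x => Real.exp (l * w x)) x := by
  have hlog : 0 < Real.log 2 := Real.log_pos one_lt_two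
  have hA0 : 0 ≤ (2 * n * Real.log 2 / l) ^ (n - 1) := by positivity
  have hB0 : 0 ≤ ((n - 1).factorial : ℝ) / (l / 2) ^ (n - 1) := by positivity
  have hc : 0 ≤ L⁻¹ * Λ := mul_nonneg hL0 hΛ0
  have hsw0 := fun j => shell_weight (hw x) hl n j
  generalize (2 * n * Real.log 2 / l) ^ (n - 1) = A at hA0 hsw0 ⊢
  generalize ((n - 1).factorial : ℝ) / (l / 2) ^ (n - 1) = Bc at hB0 hsw0 ⊢
  have hs0 : 0 ≤ ∑ i, |pd i (etaC x₀ S L) x| := Finset.sum_nonneg fun _ _ => abs_nonneg _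
  refine (mul_le_mul_of_nonneg_left (pow_le_pow_left₀ hs0 (etaC_sum hΛ x₀ S hL0 x) n)
    (pow_nonneg (hw x) _)).trans ?_
  rw [RC]
  by_cases hex : ∃ j ∈ S, x ∈ shell x₀ j
  · obtain ⟨j, hj, hxj⟩ := hex
    have h3 : ∀ g : ℕ → ℝ, ∑ i ∈ S, (shell x₀ i).indicator
        (fun _ : Fin n → ℝ => g i) x = g j := by
      intro g
      rw [Finset.sum_eq_single_of_mem j hj, Set.indicator_of_mem hxj]
      intro i _ hij
      exact Set.indicator_of_notMem (shell_disjoint x₀ (Ne.symm hij) hxj) _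
    have hxU : x ∈ U :=
      hJU (closedBall_subset_closedBall (co_inv (hS j hj)) (shell_subset x₀ j hxj))
    rw [h3 fun i => (1 / (i : ℝ)) * ((2 : ℝ) ^ i * Λ),
      h3 fun i => A * ((1 / (i : ℝ)) * (2 : ℝ) ^ (i * n)), Set.indicator_of_mem hxU]
    exact co_real hn (hJ1.trans (hS j hj)) hc hB0 (Real.exp_pos _).le (hsw0 j)
  · have h3 : ∑ i ∈ S, (shell x₀ i).indicator
        (fun _ : Fin n → ℝ => (1 / (i : ℝ)) * ((2 : ℝ) ^ i * Λ)) x = 0 :=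
      Finset.sum_eq_zero fun i hi => Set.indicator_of_notMem (fun h => hex ⟨i, hi, h⟩) _
    rw [h3, mul_zero, zero_pow (Nat.one_le_iff_ne_zero.1 hn), mul_zero]
    refine mul_nonneg (pow_nonneg hc _) (add_nonneg (Finset.sum_nonneg fun j _ =>
      Set.indicator_nonneg (fun _ _ => ?_) x) (mul_nonneg hB0
        (Set.indicator_nonneg (fun _ _ => (Real.exp_pos _).le) x)))
    exact mul_nonneg hA0 (mul_nonneg (co_od j) (co_p2 _).le)

private theorem co_meas {w : (Fin n → ℝ) → ℝ} (hw : Measurable w) {η : (Fin n → ℝ) → ℝ}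
    (hη : ContDiff ℝ (⊤ : ℕ∞) η) :
    Measurable fun x => w x ^ (n - 1) * (∑ j, |pd j η x|) ^ n := by
  refine (hw.pow_const _).mul (Measurable.pow_const ?_ _)
  refine Finset.measurable_sum _ fun i _ => Measurable.abs ?_
  unfold pd
  exact ((hη.continuous_fderiv (by simp)).clm_apply continuous_const).measurable

/-- T3.3 cutoff functions of small weighted energy. -/
theorem FD.exists_cutoff (hn : 2 ≤ n) {U : Set (Fin n → ℝ)}
    {f : (Fin n → ℝ) → (Fin n → ℝ)} {Df : (Fin n → ℝ) → Matrix (Fin n) (Fin n) ℝ}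
    {w : (Fin n → ℝ) → ℝ} {l C₀ : ℝ} (h : FD n U f Df w l C₀)
    {x₀ : Fin n → ℝ} (hx : x₀ ∈ U) {ε : ℝ} (hε : 0 < ε) :
    ∃ (η : (Fin n → ℝ) → ℝ) (r : ℝ), ContDiff ℝ (⊤ : ℕ∞) η ∧ (∀ x, 0 ≤ η x ∧ η x ≤ 1) ∧
      HasCompactSupport η ∧ tsupport η ⊆ U ∧ tsupport η ⊆ ball x₀ ε ∧ 0 < r ∧ ball x₀ r ⊆ U ∧
      (∀ x ∈ ball x₀ r, η x = 1) ∧
      Integrable (fun x => w x ^ (n - 1) * (∑ j, |pd j η x|) ^ n) ∧
      ∫ x, w x ^ (n - 1) * (∑ j, |pd j η x|) ^ n ≤ ε := by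
  obtain ⟨Λ, hΛ0, hΛ⟩ := exists_chi_bound n
  have hl := h.l_pos
  have hlog : 0 < Real.log 2 := Real.log_pos one_lt_two
  have hA0 : 0 ≤ (2 * n * Real.log 2 / l) ^ (n - 1) := by positivity
  have hB0 : 0 ≤ ((n - 1).factorial : ℝ) / (l / 2) ^ (n - 1) := by positivity
  have hexp : Integrable (U.indicator fun x => Real.exp (l * w x)) :=
    (integrable_indicator_iff h.isOpen.measurableSet).2 h.exp_int
  have heI : 0 ≤ ∫ x, U.indicator (fun x => Real.exp (l * w x)) x :=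
    integral_nonneg fun x => Set.indicator_nonneg (fun _ _ => (Real.exp_pos _).le) x
  obtain ⟨J₁, hJ1, hJU, hJε⟩ := co_scale h.isOpen hx hε
  have hptL : ∀ (S : Finset ℕ), (∀ j ∈ S, J₁ ≤ j) → ∀ (L : ℝ), 0 ≤ L⁻¹ → ∀ x, _ :=
    fun S hS L hL x => RC_pt (one_le_two.trans hn) hl h.w_nonneg x₀ hJ1 hJU hS hL hΛ0.le hΛ x
  have hvalL := fun (S : Finset ℕ) (L : ℝ) (hL : L = ∑ j ∈ S, 1 / (j : ℝ)) (hL1 : 1 ≤ L) =>
    RC_val hn x₀ S hL hL1 hΛ0.le hA0 hB0 hexp heI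
  have hintL := fun (S : Finset ℕ) (L : ℝ) => RC_int x₀ S (L⁻¹ * Λ)
    ((2 * n * Real.log 2 / l) ^ (n - 1)) (((n - 1).factorial : ℝ) / (l / 2) ^ (n - 1)) hexp
  generalize (2 * n * Real.log 2 / l) ^ (n - 1) = A at hA0 hptL hvalL hintL
  generalize ((n - 1).factorial : ℝ) / (l / 2) ^ (n - 1) = Bc at hB0 hptL hvalL hintL
  generalize (U.indicator fun x => Real.exp (l * w x)) = e at hexp heI hptL hvalL hintL
  have hQ0 : 0 ≤ Λ ^ n * (A * 2 ^ n + Bc * ∫ x, e x) :=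
    mul_nonneg (pow_nonneg hΛ0.le _)
      (add_nonneg (mul_nonneg hA0 (co_p2 n).le) (mul_nonneg hB0 heI))
  generalize Λ ^ n * (A * 2 ^ n + Bc * ∫ x, e x) = Q at hQ0 hvalL
  obtain ⟨N, hN1, hN2⟩ := co_harm J₁ (Q / ε + 1)
  have hSm : ∀ j ∈ Finset.Ico J₁ N, J₁ ≤ j := fun j hj => (Finset.mem_Ico.1 hj).1
  have hSN : ∀ j ∈ Finset.Ico J₁ N, j + 1 ≤ N + 1 := fun j hj =>
    Nat.succ_le_succ (Finset.mem_Ico.1 hj).2.le
  generalize Finset.Ico J₁ N = S at hN2 hSm hSN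
  obtain ⟨L, hL⟩ : ∃ L : ℝ, L = ∑ j ∈ S, 1 / (j : ℝ) := ⟨_, rfl⟩
  rw [← hL] at hN2
  have hQε : 0 ≤ Q / ε := div_nonneg hQ0 hε.le
  have hL1 : 1 ≤ L := (le_add_of_nonneg_left hQε).trans hN2
  have hL0 : 0 < L := lt_of_lt_of_le one_pos hL1
  have hLQ : Q / L ≤ ε := by
    rw [div_le_iff₀ hL0, mul_comm, ← div_le_iff₀ hε]
    exact (le_add_of_nonneg_right zero_le_one).trans hN2
  have hηsupp := etaC_supp x₀ S L hSm
  have htsupp : tsupport (etaC x₀ S L) ⊆ closedBall x₀ ((2 : ℝ) ^ J₁)⁻¹ :=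
    closure_minimal hηsupp isClosed_closedBall
  have hpt := hptL S hSm L (inv_nonneg.2 hL0.le)
  have hRint := hintL S L
  have hInt : Integrable fun x => w x ^ (n - 1) * (∑ j, |pd j (etaC x₀ S L) x|) ^ n :=
    Integrable.mono' hRint (co_meas h.meas_w (etaC_smooth x₀ S L)).aestronglyMeasurable
      (Eventually.of_forall fun x => by
        rw [Real.norm_of_nonneg (mul_nonneg (pow_nonneg (h.w_nonneg x) _)
          (pow_nonneg (Finset.sum_nonneg fun _ _ => abs_nonneg _) _))]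
        exact hpt x)
  refine ⟨etaC x₀ S L, ((2 : ℝ) ^ (N + 1))⁻¹, etaC_smooth x₀ S L, etaC_01 x₀ S hL hL0, ?_,
    htsupp.trans hJU, htsupp.trans hJε, inv_pos.2 (co_p2 _), ?_,
    fun x hx => etaC_one x₀ S hL hL0 hSN hx, hInt, ?_⟩
  · exact HasCompactSupport.of_support_subset_isCompact (isCompact_closedBall _ _) hηsupp
  · exact ball_subset_closedBall.trans
      ((closedBall_subset_closedBall (co_inv (hN1.trans (Nat.le_succ N)))).trans hJU)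
  · exact (integral_mono hInt hRint hpt).trans ((hvalL S L hL hL1).trans hLQ)

end Pool.Agent.MP8995
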