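import Mathlib
import Pool.Agent.Lib.MP_8995c5_an.Defs
import Pool.Agent.Lib.MP_8995c5_an.Piola

set_option autoImplicit false

/-!
Area formula with multiplicity, and the integer valued degree function of a smooth map on a bounded
measurable set.
-/

open MeasureTheory Metric Set Filter Topology Function
open scoped ENNReal NNReal

namespace Pool.Agent.MP8995

section General

variable {E : Type*} [NormedAddCommGroup E] [NormedSpace ℝ E] [FiniteDimensional ℝ E]
  [MeasurableSpace E] [BorelSpace E]

/-- A measurable set on which `f` has an invertible derivative splits into countably many disjoint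
measurable sets on which `f` is injective. -/
theorem exists_inj_partition {f : E → E} {s : Set E} {f' : E → E →L[ℝ] E} (hs : MeasurableSet s)
    (hf' : ∀ x ∈ s, HasFDerivWithinAt f (f' x) s x) (hdet : ∀ x ∈ s, (f' x).det ≠ 0) :
    ∃ t : ℕ → Set E, Pairwise (Disjoint on t) ∧ (∀ k, MeasurableSet (t k)) ∧ s = ⋃ k, t k ∧
      ∀ k, InjOn f (t k) := by
  classical
  let r : (E →L[ℝ] E) → ℝ≥0 := fun A =>
    if h : A.det ≠ 0 then
      (if ‖((A.toContinuousLinearEquivOfDetNeZero h).symm : E →L[ℝ] E)‖₊ = 0 then 1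
        else ‖((A.toContinuousLinearEquivOfDetNeZero h).symm : E →L[ℝ] E)‖₊⁻¹ / 2)
    else 1
  have rpos : ∀ A, r A ≠ 0 := by
    intro A
    simp only [r]
    split_ifs with h1 h2
    · exact one_ne_zero
    · positivity
    · exact one_ne_zero
  obtain ⟨t, A, hdisj, hmeas, hcover, happrox, hA⟩ :=
    exists_partition_approximatesLinearOn_of_hasFDerivWithinAt f s f' hf' r rpos
  refine ⟨fun k => s ∩ t k, ?_, fun k => hs.inter (hmeas k), ?_, ?_⟩
  · intro i j hij
    exact (hdisj hij).mono inter_subset_right inter_subset_right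
  · rw [← inter_iUnion]
    exact (inter_eq_left.2 hcover).symm
  · intro k
    rcases s.eq_empty_or_nonempty with he | hne
    · simp [he]
    obtain ⟨y, hy, hAy⟩ := hA hne k
    have hdetA : (A k).det ≠ 0 := by rw [hAy]; exact hdet y hy
    have h := happrox k
    have hr : r (A k) = (if ‖(((A k).toContinuousLinearEquivOfDetNeZero hdetA).symm :
        E →L[ℝ] E)‖₊ = 0 then 1
        else ‖(((A k).toContinuousLinearEquivOfDetNeZero hdetA).symm : E →L[ℝ] E)‖₊⁻¹ / 2) := by
      simp only [r]
      rw [dif_pos hdetA]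
    set B := (A k).toContinuousLinearEquivOfDetNeZero hdetA with hB
    have hBA : (B : E →L[ℝ] E) = A k := by
      rw [hB]; exact ContinuousLinearMap.coe_toContinuousLinearEquivOfDetNeZero _ _
    rw [← hBA] at h
    refine h.injOn ?_
    rw [hBA, hr]
    by_cases h0 : ‖(B.symm : E →L[ℝ] E)‖₊ = 0
    · left
      rw [nnnorm_eq_zero] at h0
      refine ⟨fun a b => ?_⟩
      have hz : ∀ c : E, c = 0 := by
        intro c
        have : B.symm (B c) = 0 := by
          have := congrArg (fun L : E →L[ℝ] E => L (B c)) h0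
          simpa using this
        simpa using this
      rw [hz a, hz b]
    · right
      rw [if_neg h0]
      exact NNReal.half_lt_self (inv_ne_zero h0)

/-- Area formula with multiplicity. -/
theorem exists_multiplicity (μ : Measure E) [μ.IsAddHaarMeasure] {f : E → E} {s : Set E}
    {f' : E → E →L[ℝ] E} (hs : MeasurableSet s)
    (hf' : ∀ x ∈ s, HasFDerivWithinAt f (f' x) s x) (hdet : ∀ x ∈ s, (f' x).det ≠ 0) :
    MeasurableSet (f '' s) ∧ ∃ N : E → ℝ≥0∞, Measurable N ∧ (∀ y, N y = ⊤ ∨ ∃ m : ℕ, N y = m) ∧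
      (∀ y, y ∉ f '' s → N y = 0) ∧ (∀ y ∈ f '' s, 1 ≤ N y) ∧
      ∀ F : E → ℝ≥0∞, Measurable F →
        ∫⁻ x in s, ENNReal.ofReal |(f' x).det| * F (f x) ∂μ = ∫⁻ y, F y * N y ∂μ := by
  classical
  obtain ⟨t, hdisj, hmeas, hcover, hinj⟩ := exists_inj_partition hs hf' hdet
  have hsub : ∀ k, t k ⊆ s := fun k => by rw [hcover]; exact subset_iUnion t k
  have hf't : ∀ k, ∀ x ∈ t k, HasFDerivWithinAt f (f' x) (t k) x := fun k x hx =>
    (hf' x (hsub k hx)).mono (hsub k)
  have himg : ∀ k, MeasurableSet (f '' t k) := fun k =>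
    measurable_image_of_fderivWithin (hmeas k) (hf't k) (hinj k)
  have himgs : f '' s = ⋃ k, f '' t k := by rw [hcover, image_iUnion]
  refine ⟨by rw [himgs]; exact MeasurableSet.iUnion himg,
    fun y => ∑' k, (f '' t k).indicator (1 : E → ℝ≥0∞) y, ?_, ?_, ?_, ?_, ?_⟩
  · exact Measurable.tsum fun k => measurable_one.indicator (himg k)
  · intro y
    have h1 : ∑' k, (f '' t k).indicator (1 : E → ℝ≥0∞) y =
        ({k | y ∈ f '' t k}.encard : ℝ≥0∞) := by
      rw [← ENNReal.tsum_set_one, tsum_subtype {k | y ∈ f '' t k} (fun _ => (1 : ℝ≥0∞))]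
      congr 1
    change ∑' k, (f '' t k).indicator (1 : E → ℝ≥0∞) y = ⊤ ∨
      ∃ m : ℕ, ∑' k, (f '' t k).indicator (1 : E → ℝ≥0∞) y = m
    rw [h1]
    rcases eq_or_ne ({k | y ∈ f '' t k}.encard) ⊤ with h | h
    · left; rw [h]; rfl
    · right
      obtain ⟨m, hm⟩ := ENat.ne_top_iff_exists.1 h
      exact ⟨m, by rw [← hm]; rfl⟩
  · intro y hy
    simp only [ENNReal.tsum_eq_zero]
    intro k
    refine indicator_of_notMem (fun h => hy ?_) _
    rw [himgs]
    exact mem_iUnion.2 ⟨k, h⟩
  · intro y hy
    rw [himgs] at hy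
    obtain ⟨k, hk⟩ := mem_iUnion.1 hy
    calc (1 : ℝ≥0∞) = (f '' t k).indicator (1 : E → ℝ≥0∞) y := by
          rw [indicator_of_mem hk]; rfl
      _ ≤ _ := ENNReal.le_tsum k
  · intro F hF
    calc ∫⁻ x in s, ENNReal.ofReal |(f' x).det| * F (f x) ∂μ
        = ∑' k, ∫⁻ x in t k, ENNReal.ofReal |(f' x).det| * F (f x) ∂μ := by
          rw [hcover, lintegral_iUnion hmeas hdisj]
      _ = ∑' k, ∫⁻ y in f '' t k, F y ∂μ := by
          congr 1
          funext k
          exact (lintegral_image_eq_lintegral_abs_det_fderiv_mul μ (hmeas k) (hf't k)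
            (hinj k) F).symm
      _ = ∑' k, ∫⁻ y, F y * (f '' t k).indicator (1 : E → ℝ≥0∞) y ∂μ := by
          congr 1
          funext k
          rw [← lintegral_indicator (himg k)]
          congr 1
          funext y
          by_cases hy : y ∈ f '' t k
          · rw [indicator_of_mem hy, indicator_of_mem hy]; simp
          · rw [indicator_of_notMem hy, indicator_of_notMem hy]; simp
      _ = ∫⁻ y, ∑' k, F y * (f '' t k).indicator (1 : E → ℝ≥0∞) y ∂μ := by
          rw [lintegral_tsum]
          intro k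
          exact (hF.mul (measurable_one.indicator (himg k))).aemeasurable
      _ = _ := by
          congr 1
          funext y
          rw [ENNReal.tsum_mul_left]

omit [FiniteDimensional ℝ E] [BorelSpace E] in
/-- Area formula with multiplicity, for the Bochner integral. -/
theorem integral_multiplicity (μ : Measure E) {f : E → E} {s : Set E}
    {f' : E → E →L[ℝ] E}
    (hfm : Measurable f) (hdm : Measurable fun x => (f' x).det)
    {N : E → ℝ≥0∞} (hN : Measurable N) (hfin : ∫⁻ y, N y ∂μ ≠ ⊤)
    (harea : ∀ F : E → ℝ≥0∞, Measurable F →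
        ∫⁻ x in s, ENNReal.ofReal |(f' x).det| * F (f x) ∂μ = ∫⁻ y, F y * N y ∂μ)
    {h : E → ℝ} (hh : Measurable h) :
    ∫ x in s, |(f' x).det| * h (f x) ∂μ = ∫ y, (N y).toReal * h y ∂μ := by
  have hNlt : ∀ᵐ y ∂μ, N y < ⊤ := ae_lt_top hN hfin
  have hDm : Measurable fun x => ENNReal.ofReal |(f' x).det| :=
    ENNReal.measurable_ofReal.comp (hdm.norm)
  have hmeas : Measure.map f ((μ.restrict s).withDensity fun x => ENNReal.ofReal |(f' x).det|) =
      μ.withDensity N := by
    ext B hB
    rw [Measure.map_apply hfm hB, withDensity_apply _ (hfm hB), withDensity_apply _ hB,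
      ← lintegral_indicator (hfm hB), ← lintegral_indicator hB]
    have h1 := harea (B.indicator 1) (measurable_one.indicator hB)
    calc ∫⁻ x in s, (f ⁻¹' B).indicator (fun x => ENNReal.ofReal |(f' x).det|) x ∂μ
        = ∫⁻ x in s, ENNReal.ofReal |(f' x).det| * (B.indicator (1 : E → ℝ≥0∞)) (f x) ∂μ := by
          congr 1
          funext x
          by_cases hx : f x ∈ B
          · rw [indicator_of_mem (by exact hx), indicator_of_mem hx]; simp
          · rw [indicator_of_notMem (by exact hx), indicator_of_notMem hx]; simp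
      _ = ∫⁻ y, (B.indicator (1 : E → ℝ≥0∞)) y * N y ∂μ := h1
      _ = ∫⁻ y, B.indicator (fun y => N y) y ∂μ := by
          congr 1
          funext y
          by_cases hy : y ∈ B
          · rw [indicator_of_mem hy, indicator_of_mem hy]; simp
          · rw [indicator_of_notMem hy, indicator_of_notMem hy]; simp
  calc ∫ x in s, |(f' x).det| * h (f x) ∂μ
      = ∫ x, h (f x) ∂((μ.restrict s).withDensity fun x => ENNReal.ofReal |(f' x).det|) := by
        rw [integral_withDensity_eq_integral_toReal_smul hDm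
          (Eventually.of_forall fun x => ENNReal.ofReal_lt_top)]
        congr 1
        funext x
        rw [ENNReal.toReal_ofReal (abs_nonneg _), smul_eq_mul]
    _ = ∫ y, h y ∂(Measure.map f ((μ.restrict s).withDensity
          fun x => ENNReal.ofReal |(f' x).det|)) := by
        rw [integral_map hfm.aemeasurable hh.aestronglyMeasurable]
    _ = ∫ y, h y ∂(μ.withDensity N) := by rw [hmeas]
    _ = ∫ y, (N y).toReal * h y ∂μ := by
        rw [integral_withDensity_eq_integral_toReal_smul hN hNlt]
        simp only [smul_eq_mul]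

end General

variable {n : ℕ}

theorem det_jac {g : (Fin n → ℝ) → (Fin n → ℝ)} {x : Fin n → ℝ} (hg : DifferentiableAt ℝ g x) :
    (fderiv ℝ g x).det = (jac g x).det := by
  have h : LinearMap.toMatrix' (fderiv ℝ g x : (Fin n → ℝ) →ₗ[ℝ] (Fin n → ℝ)) = jac g x := by
    ext i j
    rw [LinearMap.toMatrix'_apply]
    unfold jac pd
    rw [(hasFDerivAt_pi'.1 hg.hasFDerivAt i).fderiv]
    simp only [ContinuousLinearMap.coe_coe]
    rfl
  rw [← h, LinearMap.det_toMatrix']

/-- T1.2 integer valued degree function of a smooth map on a bounded measurable set. -/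
theorem exists_degree {g : (Fin n → ℝ) → (Fin n → ℝ)} (hg : ContDiff ℝ (⊤ : ℕ∞) g)
    {S : Set (Fin n → ℝ)} (hS : MeasurableSet S) (hb : Bornology.IsBounded S) :
    ∃ D : (Fin n → ℝ) → ℝ, Integrable D ∧ (∀ᵐ y, ∃ m : ℤ, D y = m) ∧
      (∃ R : ℝ, ∀ y, R < ‖y‖ → D y = 0) ∧
      ∀ h : (Fin n → ℝ) → ℝ, Continuous h →
        ∫ x in S, h (g x) * (jac g x).det = ∫ y, h y * D y := by
  have hgd : Differentiable ℝ g := hg.differentiable (by simp)
  have hgc : Continuous g := hg.continuous
  have hdc : Continuous fun x => (fderiv ℝ g x).det := by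
    have h1 : Continuous (fderiv ℝ g) := hg.continuous_fderiv (by simp)
    exact ContinuousLinearMap.continuous_det.comp h1
  obtain ⟨r, hr⟩ := hb.subset_closedBall (0 : Fin n → ℝ)
  have hK : IsCompact (closedBall (0 : Fin n → ℝ) r) := isCompact_closedBall _ _
  -- positive and negative part
  set Sp : Set (Fin n → ℝ) := S ∩ {x | 0 < (fderiv ℝ g x).det} with hSp
  set Sn : Set (Fin n → ℝ) := S ∩ {x | (fderiv ℝ g x).det < 0} with hSn
  have hSpm : MeasurableSet Sp := hS.inter (measurableSet_lt measurable_const hdc.measurable)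
  have hSnm : MeasurableSet Sn := hS.inter (measurableSet_lt hdc.measurable measurable_const)
  have hder : ∀ (s : Set (Fin n → ℝ)), ∀ x ∈ s, HasFDerivWithinAt g (fderiv ℝ g x) s x :=
    fun s x _ => (hgd x).hasFDerivAt.hasFDerivWithinAt
  obtain ⟨-, Np, hNpm, hNpi, hNp0, -, hNpa⟩ := exists_multiplicity
    (volume : Measure (Fin n → ℝ)) hSpm (hder Sp) (fun x hx => (ne_of_gt hx.2))
  obtain ⟨-, Nn, hNnm, hNni, hNn0, -, hNna⟩ := exists_multiplicity
    (volume : Measure (Fin n → ℝ)) hSnm (hder Sn) (fun x hx => (ne_of_lt hx.2))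
  -- integrability on bounded sets
  have hintOn : ∀ {φ : (Fin n → ℝ) → ℝ}, Continuous φ → IntegrableOn φ S := fun hφ =>
    (hφ.continuousOn.integrableOn_compact hK).mono_set hr
  have hfin : ∀ {s : Set (Fin n → ℝ)} {N : (Fin n → ℝ) → ℝ≥0∞}, s ⊆ S →
      (∀ F : (Fin n → ℝ) → ℝ≥0∞, Measurable F →
        ∫⁻ x in s, ENNReal.ofReal |(fderiv ℝ g x).det| * F (g x) = ∫⁻ y, F y * N y) →
      ∫⁻ y, N y ≠ ⊤ := by
    intro s N hsS h
    have h1 := h 1 measurable_one
    simp only [Pi.one_apply, mul_one, one_mul] at h1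
    rw [← h1]
    have h2 : IntegrableOn (fun x => |(fderiv ℝ g x).det|) s :=
      (hintOn hdc.abs).mono_set hsS
    exact ((hasFiniteIntegral_iff_ofReal (Eventually.of_forall fun x => abs_nonneg _)).1
      h2.hasFiniteIntegral).ne
  have hNpf := hfin inter_subset_left hNpa
  have hNnf := hfin inter_subset_left hNna
  have hNpint : Integrable fun y => (Np y).toReal := integrable_toReal_of_lintegral_ne_top
    hNpm.aemeasurable hNpf
  have hNnint : Integrable fun y => (Nn y).toReal := integrable_toReal_of_lintegral_ne_top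
    hNnm.aemeasurable hNnf
  -- bounded image
  obtain ⟨R, hR⟩ : ∃ R : ℝ, ∀ x ∈ S, ‖g x‖ ≤ R := by
    obtain ⟨R, hR⟩ := (hK.image hgc).isBounded.exists_norm_le
    exact ⟨R, fun x hx => hR _ (mem_image_of_mem g (hr hx))⟩
  refine ⟨fun y => (Np y).toReal - (Nn y).toReal, hNpint.sub hNnint, ?_, ⟨R, ?_⟩, ?_⟩
  · refine Eventually.of_forall fun y => ?_
    have hp : ∃ m : ℤ, (Np y).toReal = m := by
      rcases hNpi y with h | ⟨m, h⟩
      · exact ⟨0, by rw [h]; simp⟩
      · exact ⟨m, by rw [h]; simp⟩
    have hq : ∃ m : ℤ, (Nn y).toReal = m := by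
      rcases hNni y with h | ⟨m, h⟩
      · exact ⟨0, by rw [h]; simp⟩
      · exact ⟨m, by rw [h]; simp⟩
    obtain ⟨a, ha⟩ := hp
    obtain ⟨b, hb⟩ := hq
    refine ⟨a - b, ?_⟩
    change (Np y).toReal - (Nn y).toReal = _
    rw [ha, hb]; push_cast; ring
  · intro y hy
    have h1 : y ∉ g '' Sp := by
      rintro ⟨x, hx, rfl⟩
      exact absurd (hR x hx.1) (not_le.2 hy)
    have h2 : y ∉ g '' Sn := by
      rintro ⟨x, hx, rfl⟩
      exact absurd (hR x hx.1) (not_le.2 hy)
    simp [hNp0 y h1, hNn0 y h2]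
  · intro h hh
    have hp := integral_multiplicity (volume : Measure (Fin n → ℝ)) (s := Sp) hgc.measurable
      hdc.measurable hNpm hNpf hNpa hh.measurable
    have hq := integral_multiplicity (volume : Measure (Fin n → ℝ)) (s := Sn) hgc.measurable
      hdc.measurable hNnm hNnf hNna hh.measurable
    -- integrability of the products
    have hprod : ∀ {s : Set (Fin n → ℝ)} {N : (Fin n → ℝ) → ℝ≥0∞}, s ⊆ S → Measurable N →
        (∀ y, y ∉ g '' s → N y = 0) → Integrable (fun y => (N y).toReal) →
        Integrable (fun y => h y * (N y).toReal) := by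
      intro s N hsS hNm hN0 hNint
      obtain ⟨C, hC⟩ := (isCompact_closedBall (0 : Fin n → ℝ) R).exists_bound_of_continuousOn
        hh.continuousOn
      have hC' : ∀ y, ‖h y * (N y).toReal‖ ≤ ‖C * (N y).toReal‖ := by
        intro y
        by_cases hy : y ∈ closedBall (0 : Fin n → ℝ) R
        · rw [norm_mul, norm_mul]
          gcongr
          exact (hC y hy).trans (le_abs_self C)
        · have : y ∉ g '' s := by
            rintro ⟨x, hx, rfl⟩
            exact hy (by simpa using hR x (hsS hx))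
          simp [hN0 y this]
      exact (hNint.const_mul C).mono
        (hh.measurable.mul hNm.ennreal_toReal).aestronglyMeasurable
        (Eventually.of_forall hC')
    have hpi := hprod inter_subset_left hNpm hNp0 hNpint
    have hqi := hprod inter_subset_left hNnm hNn0 hNnint
    have hrhs : ∫ y, h y * ((Np y).toReal - (Nn y).toReal) =
        (∫ y, (Np y).toReal * h y) - ∫ y, (Nn y).toReal * h y := by
      have e1 : (fun y => h y * ((Np y).toReal - (Nn y).toReal)) =
          fun y => h y * (Np y).toReal - h y * (Nn y).toReal := by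
        funext y; ring
      rw [e1, integral_sub hpi hqi]
      congr 1
      · congr 1; funext y; ring
      · congr 1; funext y; ring
    rw [hrhs, ← hp, ← hq]
    -- split the left-hand side
    have hφ : Continuous fun x => h (g x) * (fderiv ℝ g x).det := (hh.comp hgc).mul hdc
    have e0 : ∫ x in S, h (g x) * (jac g x).det = ∫ x in S, h (g x) * (fderiv ℝ g x).det := by
      congr 1
      funext x
      rw [det_jac (hgd x)]
    have hz : ∫ x in S, h (g x) * (fderiv ℝ g x).det =
        ∫ x in Sp ∪ Sn, h (g x) * (fderiv ℝ g x).det := by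
      have hsub : Sp ∪ Sn ⊆ S := union_subset inter_subset_left inter_subset_left
      refine setIntegral_eq_of_subset_of_forall_sdiff_eq_zero hS hsub ?_
      intro x hx
      have : (fderiv ℝ g x).det = 0 := by
        by_contra hne
        rcases lt_or_gt_of_ne hne with h1 | h1
        · exact hx.2 (Or.inr ⟨hx.1, h1⟩)
        · exact hx.2 (Or.inl ⟨hx.1, h1⟩)
      rw [this, mul_zero]
    have hdisj : Disjoint Sp Sn := by
      rw [Set.disjoint_left]
      rintro x ⟨_, h1⟩ ⟨_, h2⟩
      have h1' : 0 < (fderiv ℝ g x).det := h1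
      have h2' : (fderiv ℝ g x).det < 0 := h2
      linarith
    rw [e0, hz, setIntegral_union hdisj hSnm ((hintOn hφ).mono_set inter_subset_left)
      ((hintOn hφ).mono_set inter_subset_left), sub_eq_add_neg, ← integral_neg]
    congr 1
    · refine setIntegral_congr_fun hSpm fun x hx => ?_
      change h (g x) * (fderiv ℝ g x).det = |(fderiv ℝ g x).det| * h (g x)
      rw [abs_of_pos hx.2]; ring
    · refine setIntegral_congr_fun hSnm fun x hx => ?_
      change h (g x) * (fderiv ℝ g x).det = -(|(fderiv ℝ g x).det| * h (g x))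
      rw [abs_of_neg hx.2]; ring

end Pool.Agent.MP8995
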