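import Mathlib
import Pool.Agent.Lib.MP_8995c5_an.Defs

set_option autoImplicit false

open MeasureTheory Metric Set Filter Topology
open scoped ENNReal NNReal

namespace Pool.Agent.MP8995

variable {n : ℕ}

theorem msum_nn (M : Matrix (Fin n) (Fin n) ℝ) : 0 ≤ msum M :=
  Finset.sum_nonneg fun _ _ => Finset.sum_nonneg fun _ _ => abs_nonneg _

theorem abs_entry_le_msum (M : Matrix (Fin n) (Fin n) ℝ) (i j : Fin n) : |M i j| ≤ msum M := by
  have h1 : |M i j| ≤ ∑ l, |M i l| :=
    Finset.single_le_sum (f := fun l => |M i l|) (fun _ _ => abs_nonneg _) (Finset.mem_univ j)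
  have h2 : ∑ l, |M i l| ≤ ∑ k, ∑ l, |M k l| :=
    Finset.single_le_sum (f := fun k => ∑ l, |M k l|)
      (fun _ _ => Finset.sum_nonneg fun _ _ => abs_nonneg _) (Finset.mem_univ i)
  exact h1.trans h2

theorem abs_adj_entry_le (B : Matrix (Fin n) (Fin n) ℝ) (i j : Fin n) :
    |B.adjugate i j| ≤ (n.factorial : ℝ) * msum B ^ (n - 1) := by
  rw [Matrix.adjugate_apply, Matrix.det_apply']
  have hmain : ∀ σ : Equiv.Perm (Fin n),
      |((Equiv.Perm.sign σ : ℤ) : ℝ) * ∏ k, (B.updateRow j (Pi.single i 1)) (σ k) k| ≤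
        msum B ^ (n - 1) := by
    intro σ
    have hs : |((Equiv.Perm.sign σ : ℤ) : ℝ)| = 1 := by
      rcases Int.units_eq_one_or (Equiv.Perm.sign σ) with h | h <;> simp [h]
    rw [abs_mul, hs, one_mul, Finset.abs_prod]
    rw [← Finset.mul_prod_erase Finset.univ _ (Finset.mem_univ (σ⁻¹ j))]
    have h1 : |(B.updateRow j (Pi.single i 1)) (σ (σ⁻¹ j)) (σ⁻¹ j)| ≤ 1 := by
      have : σ (σ⁻¹ j) = j := by simp
      rw [this, Matrix.updateRow_self]
      rw [Pi.single_apply]
      split_ifs <;> simp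
    have h2 : ∏ k ∈ Finset.univ.erase (σ⁻¹ j), |(B.updateRow j (Pi.single i 1)) (σ k) k| ≤
        msum B ^ (n - 1) := by
      have hc : (Finset.univ.erase (σ⁻¹ j)).card = n - 1 := by
        rw [Finset.card_erase_of_mem (Finset.mem_univ _)]; simp
      rw [← hc, ← Finset.prod_const]
      apply Finset.prod_le_prod (fun _ _ => abs_nonneg _)
      intro k hk
      have hne : σ k ≠ j := by
        intro h
        apply Finset.ne_of_mem_erase hk
        rw [← h]; simp
      rw [Matrix.updateRow_ne hne]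
      exact abs_entry_le_msum B _ _
    calc _ ≤ 1 * msum B ^ (n - 1) := mul_le_mul h1 h2
            (Finset.prod_nonneg fun _ _ => abs_nonneg _) zero_le_one
      _ = _ := one_mul _
  calc |∑ σ : Equiv.Perm (Fin n), ((Equiv.Perm.sign σ : ℤ) : ℝ) *
          ∏ k, (B.updateRow j (Pi.single i 1)) (σ k) k|
      ≤ ∑ σ : Equiv.Perm (Fin n), |((Equiv.Perm.sign σ : ℤ) : ℝ) *
          ∏ k, (B.updateRow j (Pi.single i 1)) (σ k) k| := Finset.abs_sum_le_sum_abs _ _
    _ ≤ ∑ _σ : Equiv.Perm (Fin n), msum B ^ (n - 1) := Finset.sum_le_sum fun σ _ => hmain σ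
    _ = _ := by
        rw [Finset.sum_const, Finset.card_univ, Fintype.card_perm, Fintype.card_fin, nsmul_eq_mul]

/-- pointwise linear algebra: `|M i j| ^ n * (det M)^(n(n-2)) ≤ (n!)^n (adj)^{n(n-1)}` -/
theorem entry_det_le (hn : 2 ≤ n) (M : Matrix (Fin n) (Fin n) ℝ) (hd : 0 ≤ M.det) (i j : Fin n) :
    M.det ^ (n - 2) * |M i j| ≤ (n.factorial : ℝ) * msum M.adjugate ^ (n - 1) := by
  have h1 := abs_adj_entry_le M.adjugate i j
  have h2 : M.adjugate.adjugate = M.det ^ (n - 2) • M := by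
    have := Matrix.adjugate_adjugate M (by simp; omega)
    simpa using this
  rw [h2, Matrix.smul_apply, smul_eq_mul, abs_mul, abs_pow, abs_of_nonneg hd] at h1
  exact h1

/-- pointwise bound of the derivative for maps of finite distortion. -/
theorem entry_pow_le (hn : 2 ≤ n) (M : Matrix (Fin n) (Fin n) ℝ) (hd : 0 < M.det) (i j : Fin n)
    {w C₀ : ℝ} (_hC : 0 ≤ C₀)
    (hw : msum M.adjugate ^ n ≤ C₀ * (w * M.det) ^ (n - 1)) :
    |M i j| ^ n ≤ ((n.factorial : ℝ) ^ n * C₀ ^ (n - 1)) * w ^ ((n - 1) * (n - 1)) * M.det := by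
  have h1 := entry_det_le hn M hd.le i j
  have ha := msum_nn M.adjugate
  have h2 : (M.det ^ (n - 2) * |M i j|) ^ n ≤
      ((n.factorial : ℝ) * msum M.adjugate ^ (n - 1)) ^ n :=
    pow_le_pow_left₀ (by positivity) h1 n
  have h3 : (msum M.adjugate ^ n) ^ (n - 1) ≤ (C₀ * (w * M.det) ^ (n - 1)) ^ (n - 1) :=
    pow_le_pow_left₀ (by positivity) hw _
  have h4 : (M.det ^ (n - 2)) ^ n * |M i j| ^ n ≤
      (n.factorial : ℝ) ^ n * (C₀ ^ (n - 1) * (w ^ ((n - 1) * (n - 1)) *
        M.det ^ ((n - 1) * (n - 1)))) := by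
    calc (M.det ^ (n - 2)) ^ n * |M i j| ^ n = (M.det ^ (n - 2) * |M i j|) ^ n := by
            rw [mul_pow]
      _ ≤ ((n.factorial : ℝ) * msum M.adjugate ^ (n - 1)) ^ n := h2
      _ = (n.factorial : ℝ) ^ n * (msum M.adjugate ^ n) ^ (n - 1) := by
            rw [mul_pow, ← pow_mul, ← pow_mul, mul_comm (n - 1) n]
      _ ≤ (n.factorial : ℝ) ^ n * (C₀ * (w * M.det) ^ (n - 1)) ^ (n - 1) := by
            apply mul_le_mul_of_nonneg_left h3 (by positivity)
      _ = _ := by
            rw [mul_pow C₀, ← pow_mul, mul_pow w]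
  have h5 : (M.det) ^ ((n - 1) * (n - 1)) = (M.det ^ (n - 2)) ^ n * M.det := by
    rw [← pow_mul, ← pow_succ]
    congr 1
    obtain ⟨k, rfl⟩ := Nat.exists_eq_add_of_le hn
    have e1 : 2 + k - 1 = k + 1 := by omega
    have e2 : 2 + k - 2 = k := by omega
    rw [e1, e2]; ring
  rw [h5] at h4
  have h6 : (M.det ^ (n - 2)) ^ n * |M i j| ^ n ≤ (M.det ^ (n - 2)) ^ n *
      (((n.factorial : ℝ) ^ n * C₀ ^ (n - 1)) * w ^ ((n - 1) * (n - 1)) * M.det) := by
    calc _ ≤ _ := h4
      _ = _ := by ring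
  exact le_of_mul_le_mul_left h6 (by positivity)

/-- `w ^ N ≤ N! / l^N * exp (l w)`. -/
theorem pow_le_exp {w l : ℝ} (hw : 0 ≤ w) (hl : 0 < l) (N : ℕ) :
    w ^ N ≤ ((N.factorial : ℝ) / l ^ N) * Real.exp (l * w) := by
  have h := Real.pow_div_factorial_le_exp (l * w) (by positivity) N
  rw [div_le_iff₀ (by positivity)] at h
  rw [mul_pow] at h
  rw [div_mul_eq_mul_div, le_div_iff₀ (by positivity)]
  linarith [h, mul_comm (Real.exp (l*w)) (N.factorial : ℝ), mul_comm (l^N) (w^N)]

theorem FD.adj_bound' {U : Set (Fin n → ℝ)}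
    {f : (Fin n → ℝ) → (Fin n → ℝ)} {Df : (Fin n → ℝ) → Matrix (Fin n) (Fin n) ℝ}
    {w : (Fin n → ℝ) → ℝ} {l C₀ : ℝ} (h : FD n U f Df w l C₀) (x : Fin n → ℝ) :
    msum (Df x).adjugate ^ n ≤ |C₀| * (w x * (Df x).det) ^ (n - 1) := by
  refine (h.adj_bound x).trans ?_
  apply mul_le_mul_of_nonneg_right (le_abs_self _)
  have := h.w_nonneg x; have := h.det_nonneg x
  positivity

/-- T3.1 -/
theorem FD.integrable_pow (hn : 2 ≤ n) {U : Set (Fin n → ℝ)}
    {f : (Fin n → ℝ) → (Fin n → ℝ)} {Df : (Fin n → ℝ) → Matrix (Fin n) (Fin n) ℝ}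
    {w : (Fin n → ℝ) → ℝ} {l C₀ : ℝ} (h : FD n U f Df w l C₀) :
    ∀ i j, Integrable fun x => |Df x i j| ^ (n - 1) := by
  intro i j
  set C : ℝ := (n.factorial : ℝ) ^ n * |C₀| ^ (n - 1) with hC
  have hC0 : 0 ≤ C := by positivity
  set m : ℕ := (n - 1) * (n - 1) with hm
  set N : ℕ := m * (n - 1) with hN
  set C' : ℝ := C ^ (n - 1) * ((N.factorial : ℝ) / l ^ N) with hC'
  have hl := h.l_pos
  have hexp : Integrable (U.indicator fun x => Real.exp (l * w x)) :=
    (integrable_indicator_iff h.isOpen.measurableSet).2 h.exp_int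
  have hbound : ∀ x, ‖|Df x i j| ^ (n - 1)‖ ≤
      (Df x).det + C' * U.indicator (fun x => Real.exp (l * w x)) x := by
    intro x
    rw [Real.norm_of_nonneg (by positivity)]
    have hw0 := h.w_nonneg x
    have hJ := h.det_nonneg x
    have hC'0 : 0 ≤ C' := by positivity
    have hind : 0 ≤ U.indicator (fun x => Real.exp (l * w x)) x :=
      Set.indicator_nonneg (fun _ _ => (Real.exp_pos _).le) x
    rcases hJ.eq_or_lt with h0 | hpos
    · have hz := h.fin_dist x h0.symm
      have : |Df x i j| ^ (n - 1) = 0 := by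
        rw [hz]; simp; omega
      rw [this]; positivity
    · have hxU : x ∈ U := by
        by_contra hx
        have : Nonempty (Fin n) := ⟨⟨0, by omega⟩⟩
        have hz := h.zero_off x hx
        rw [hz, Matrix.det_zero] at hpos
        exact lt_irrefl _ hpos
      rw [Set.indicator_of_mem hxU]
      have he := entry_pow_le hn (Df x) hpos i j (abs_nonneg C₀) (h.adj_bound' x)
      set t := |Df x i j| with ht
      have ht0 : 0 ≤ t := abs_nonneg _
      by_cases hle : t ^ (n - 1) ≤ (Df x).det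
      · have : 0 ≤ C' * Real.exp (l * w x) := by positivity
        linarith
      · push Not at hle
        have htpos : 0 < t := by
          by_contra hneg
          have : t = 0 := le_antisymm (not_lt.1 hneg) ht0
          rw [this, zero_pow (by omega)] at hle
          linarith
        have h1 : t ^ n ≤ C * w x ^ m * t ^ (n - 1) := by
          refine he.trans ?_
          apply mul_le_mul_of_nonneg_left hle.le
          positivity
        have h2 : t ≤ C * w x ^ m := by
          have hn1 : t ^ n = t * t ^ (n - 1) := by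
            rw [← pow_succ']; congr 1; omega
          rw [hn1] at h1
          exact le_of_mul_le_mul_right h1 (by positivity)
        have h3 : t ^ (n - 1) ≤ (C * w x ^ m) ^ (n - 1) := pow_le_pow_left₀ ht0 h2 _
        have h4 : (C * w x ^ m) ^ (n - 1) = C ^ (n - 1) * w x ^ N := by
          rw [mul_pow, ← pow_mul]
        have h5 := pow_le_exp hw0 hl N
        have h6 : C ^ (n - 1) * w x ^ N ≤ C' * Real.exp (l * w x) := by
          rw [hC', mul_assoc]
          exact mul_le_mul_of_nonneg_left h5 (by positivity)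
        linarith
  refine Integrable.mono' (h.int_det.add (hexp.const_mul C')) ?_ ?_
  · exact (((h.meas_Df i j).abs).pow_const _).aestronglyMeasurable
  · exact Eventually.of_forall hbound

theorem meas_adj_entry {Df : (Fin n → ℝ) → Matrix (Fin n) (Fin n) ℝ}
    (hm : ∀ i j, Measurable fun x => Df x i j) (i j : Fin n) :
    Measurable fun x => (Df x).adjugate i j := by
  simp only [Matrix.adjugate_apply, Matrix.det_apply']
  refine Finset.measurable_sum _ fun σ _ => ?_
  refine Measurable.const_mul ?_ _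
  refine Finset.measurable_prod _ fun k _ => ?_
  by_cases h : σ k = j
  · simp only [h, Matrix.updateRow_self]
    exact measurable_const
  · simp only [Matrix.updateRow_ne h]
    exact hm _ _

theorem measurable_msum_adj {Df : (Fin n → ℝ) → Matrix (Fin n) (Fin n) ℝ}
    (hm : ∀ i j, Measurable fun x => Df x i j) : Measurable fun x => msum (Df x).adjugate := by
  unfold msum
  refine Finset.measurable_sum _ fun i _ => Finset.measurable_sum _ fun j _ => ?_
  exact (meas_adj_entry hm i j).abs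

/-- the geometric sum used in T3.2 -/
theorem geom_bound {c : ℝ} (hc : 0 < c) (u : ℝ) (S : Finset ℕ) (hS : ∀ j ∈ S, 1 ≤ j) :
    ∑ j ∈ S.filter (fun j : ℕ => (j : ℝ) < u), (1 / (j : ℝ)) * (u * Real.exp (-(c * (u - j)))) ≤
      (1 + 2 / c) * (1 - Real.exp (-(c / 2)))⁻¹ := by
  set q : ℝ := Real.exp (-(c / 2)) with hq
  have hq0 : 0 < q := Real.exp_pos _
  have hq1 : q < 1 := by
    rw [hq, Real.exp_lt_one_iff]; linarith
  set k₀ := ⌊u⌋₊ with hk
  have hterm : ∀ j ∈ S.filter (fun j : ℕ => (j : ℝ) < u),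
      (1 / (j : ℝ)) * (u * Real.exp (-(c * (u - j)))) ≤ (1 + 2 / c) * q ^ (k₀ - j) := by
    intro j hj
    rw [Finset.mem_filter] at hj
    obtain ⟨hjS, hju⟩ := hj
    have hj1 : (1 : ℝ) ≤ j := by exact_mod_cast hS j hjS
    have hu0 : 0 < u := by linarith
    have hjk : j ≤ k₀ := Nat.le_floor hju.le
    have hku : (k₀ : ℝ) ≤ u := Nat.floor_le hu0.le
    have h1 : (1 / (j : ℝ)) * u ≤ 1 + (u - j) := by
      rw [one_div, inv_mul_le_iff₀ (by linarith)]
      nlinarith
    have hv : 0 ≤ u - j := by linarith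
    have h2 : 1 + (u - j) ≤ (1 + 2 / c) * Real.exp (c / 2 * (u - j)) := by
      have h3 := Real.add_one_le_exp (c / 2 * (u - j))
      have h4 : 1 + (u - j) ≤ (1 + 2 / c) * (c / 2 * (u - j) + 1) := by
        have : (1 + 2 / c) * (c / 2 * (u - j) + 1) =
            1 + (u - j) + (2 / c + c / 2 * (u - j)) := by field_simp; ring
        rw [this]
        have : 0 ≤ 2 / c + c / 2 * (u - j) := by positivity
        linarith
      exact h4.trans (mul_le_mul_of_nonneg_left h3 (by positivity))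
    have h5 : Real.exp (-(c / 2 * (u - j))) ≤ q ^ (k₀ - j) := by
      rw [hq, ← Real.exp_nat_mul, Nat.cast_sub hjk]
      apply Real.exp_le_exp.2
      nlinarith
    calc (1 / (j : ℝ)) * (u * Real.exp (-(c * (u - j))))
        = ((1 / (j : ℝ)) * u) * Real.exp (-(c * (u - j))) := by ring
      _ ≤ ((1 + 2 / c) * Real.exp (c / 2 * (u - j))) * Real.exp (-(c * (u - j))) :=
          mul_le_mul_of_nonneg_right (h1.trans h2) (Real.exp_pos _).le
      _ = (1 + 2 / c) * Real.exp (-(c / 2 * (u - j))) := by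
          rw [mul_assoc, ← Real.exp_add]; congr 2; ring
      _ ≤ (1 + 2 / c) * q ^ (k₀ - j) := mul_le_mul_of_nonneg_left h5 (by positivity)
  have hsub : S.filter (fun j : ℕ => (j : ℝ) < u) ⊆ Finset.range (k₀ + 1) := by
    intro j hj
    rw [Finset.mem_filter] at hj
    rw [Finset.mem_range]
    exact Nat.lt_succ_of_le (Nat.le_floor hj.2.le)
  calc _ ≤ ∑ j ∈ S.filter (fun j : ℕ => (j : ℝ) < u), (1 + 2 / c) * q ^ (k₀ - j) :=
        Finset.sum_le_sum hterm
    _ ≤ ∑ j ∈ Finset.range (k₀ + 1), (1 + 2 / c) * q ^ (k₀ - j) :=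
        Finset.sum_le_sum_of_subset_of_nonneg hsub fun _ _ _ => by positivity
    _ = (1 + 2 / c) * ∑ j ∈ Finset.range (k₀ + 1), q ^ j := by
        rw [← Finset.mul_sum]
        congr 1
        have := Finset.sum_range_reflect (fun j => q ^ j) (k₀ + 1)
        simpa using this
    _ ≤ (1 + 2 / c) * (1 - q)⁻¹ := by
        apply mul_le_mul_of_nonneg_left _ (by positivity)
        have hs := hasSum_geometric_of_lt_one hq0.le hq1
        exact sum_le_hasSum _ (fun _ _ => by positivity) hs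

theorem harm (J₀ : ℕ) (R : ℝ) : ∃ N, J₀ ≤ N ∧ R ≤ ∑ j ∈ Finset.Ico J₀ N, 1 / (j : ℝ) := by
  have h := (not_summable_iff_tendsto_nat_atTop_of_nonneg
    (f := fun j : ℕ => 1 / (j : ℝ)) (fun _ => by positivity)).1 Real.not_summable_one_div_natCast
  obtain ⟨N, hN⟩ := ((h.eventually_ge_atTop
    (R + ∑ j ∈ Finset.range J₀, 1 / (j : ℝ))).and (eventually_ge_atTop J₀)).exists
  refine ⟨N, hN.2, ?_⟩
  rw [Finset.sum_Ico_eq_sub _ hN.2]
  linarith [hN.1]

theorem FD.adj_rpow_le (hn : 2 ≤ n) {U : Set (Fin n → ℝ)}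
    {f : (Fin n → ℝ) → (Fin n → ℝ)} {Df : (Fin n → ℝ) → Matrix (Fin n) (Fin n) ℝ}
    {w : (Fin n → ℝ) → ℝ} {l C₀ : ℝ} (h : FD n U f Df w l C₀) (x : Fin n → ℝ) :
    msum (Df x).adjugate ^ (1 + 1 / ((n : ℝ) - 1)) ≤
      |C₀| ^ (1 / ((n : ℝ) - 1)) * (w x * (Df x).det) := by
  have ha := msum_nn (Df x).adjugate
  have hw0 := h.w_nonneg x
  have hJ := h.det_nonneg x
  have hX : 0 ≤ w x * (Df x).det := by positivity
  have hcast : (n : ℝ) - 1 = ((n - 1 : ℕ) : ℝ) := by
    rw [Nat.cast_sub (by omega)]; simp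
  have hne : n - 1 ≠ 0 := by omega
  have hpos : (0 : ℝ) < ((n - 1 : ℕ) : ℝ) := by
    exact_mod_cast Nat.pos_of_ne_zero hne
  rw [hcast]
  set c : ℝ := 1 / ((n - 1 : ℕ) : ℝ) with hc
  have hc0 : 0 ≤ c := by positivity
  have h1 := Real.rpow_le_rpow (by positivity) (h.adj_bound' x) hc0
  have h2 : (msum (Df x).adjugate ^ n) ^ c = msum (Df x).adjugate ^ (1 + c) := by
    rw [← Real.rpow_natCast, ← Real.rpow_mul ha]
    congr 1
    rw [hc]
    have : (n : ℝ) = ((n - 1 : ℕ) : ℝ) + 1 := by rw [← hcast]; ring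
    rw [this]
    field_simp
  have h3 : (|C₀| * (w x * (Df x).det) ^ (n - 1)) ^ c = |C₀| ^ c * (w x * (Df x).det) := by
    rw [Real.mul_rpow (abs_nonneg _) (by positivity), hc, one_div,
      Real.pow_rpow_inv_natCast hX hne]
  rw [h2, h3] at h1
  exact h1

theorem FD.mem_of_adj_pos (hn : 2 ≤ n) {U : Set (Fin n → ℝ)}
    {f : (Fin n → ℝ) → (Fin n → ℝ)} {Df : (Fin n → ℝ) → Matrix (Fin n) (Fin n) ℝ}
    {w : (Fin n → ℝ) → ℝ} {l C₀ : ℝ} (h : FD n U f Df w l C₀) {x : Fin n → ℝ}
    (hx : 0 < msum (Df x).adjugate) : x ∈ U := by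
  by_contra hxU
  have hz := h.zero_off x hxU
  have : Nontrivial (Fin n) := Fin.nontrivial_iff_two_le.2 hn
  rw [hz, Matrix.adjugate_zero] at hx
  simp [msum] at hx

/-- pointwise inequality for T3.2 -/
theorem FD.level_le (hn : 2 ≤ n) {U : Set (Fin n → ℝ)}
    {f : (Fin n → ℝ) → (Fin n → ℝ)} {Df : (Fin n → ℝ) → Matrix (Fin n) (Fin n) ℝ}
    {w : (Fin n → ℝ) → ℝ} {l C₀ : ℝ} (h : FD n U f Df w l C₀) (x : Fin n → ℝ) (j : ℕ)
    (ht : Real.exp j < msum (Df x).adjugate) :
    Real.exp j ^ ((1 : ℝ) / (n - 1)) * msum (Df x).adjugate ≤ Real.exp (l * w x) +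
      (|C₀| ^ (1 / ((n : ℝ) - 1)) * ((1 + 1 / ((n : ℝ) - 1)) / l)) * (Df x).det *
        (Real.log (msum (Df x).adjugate) *
          Real.exp (-(1 / ((n : ℝ) - 1) * (Real.log (msum (Df x).adjugate) - j)))) := by
  have hA := h.adj_rpow_le hn x
  have hw0 := h.w_nonneg x
  have hJ := h.det_nonneg x
  have hl := h.l_pos
  set a := msum (Df x).adjugate with ha
  have hn1 : (0 : ℝ) < (n : ℝ) - 1 := by
    have : (2 : ℝ) ≤ n := by exact_mod_cast hn
    linarith
  set c : ℝ := 1 / ((n : ℝ) - 1) with hc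
  have hc0 : 0 < c := by positivity
  have ha0 : 0 < a := (Real.exp_pos _).trans ht
  set u := Real.log a with hu
  have hau : a = Real.exp u := (Real.exp_log ha0).symm
  have hju : (j : ℝ) < u := by
    rw [hu, Real.lt_log_iff_exp_lt ha0]; exact ht
  have hu0 : 0 < u := lt_of_le_of_lt (Nat.cast_nonneg j) hju
  have e1 : Real.exp j ^ c = Real.exp (c * j) := by
    rw [← Real.exp_mul]; congr 1; ring
  have e2 : a ^ (1 + c) = Real.exp ((1 + c) * u) := by
    rw [hau, ← Real.exp_mul]; congr 1; ring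
  rw [e2] at hA
  rw [e1]
  have e3 : Real.exp (c * j) * a = Real.exp (-(c * (u - j))) * Real.exp ((1 + c) * u) := by
    rw [hau, ← Real.exp_add, ← Real.exp_add]; congr 1; ring
  rw [e3]
  have hC : 0 ≤ |C₀| ^ c := by positivity
  by_cases hcase : w x ≤ (1 + c) / l * u
  · have h1 : Real.exp (-(c * (u - j))) * Real.exp ((1 + c) * u) ≤
        Real.exp (-(c * (u - j))) * (|C₀| ^ c * ((1 + c) / l * u * (Df x).det)) := by
      apply mul_le_mul_of_nonneg_left _ (Real.exp_pos _).le
      refine hA.trans ?_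
      apply mul_le_mul_of_nonneg_left _ hC
      exact mul_le_mul_of_nonneg_right hcase hJ
    have h2 := Real.exp_pos (l * w x)
    calc _ ≤ _ := h1
      _ = |C₀| ^ c * ((1 + c) / l) * (Df x).det * (u * Real.exp (-(c * (u - j)))) := by ring
      _ ≤ _ := by linarith
  · push Not at hcase
    have h1 : (1 + c) * u ≤ l * w x := by
      rw [div_mul_eq_mul_div, div_lt_iff₀ hl] at hcase
      linarith
    have h2 : Real.exp (-(c * (u - j))) ≤ 1 := by
      rw [Real.exp_le_one_iff]
      have : 0 ≤ c * (u - j) := by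
        apply mul_nonneg hc0.le; linarith
      linarith
    have h3 : Real.exp (-(c * (u - j))) * Real.exp ((1 + c) * u) ≤ 1 * Real.exp (l * w x) :=
      mul_le_mul h2 (Real.exp_le_exp.2 h1) (Real.exp_pos _).le zero_le_one
    have h4 : 0 ≤ (|C₀| ^ c * ((1 + c) / l)) * (Df x).det *
        (u * Real.exp (-(c * (u - j)))) := by positivity
    linarith

/-- T3.2 the sparse sequence of levels. -/
theorem FD.log_condition (hn : 2 ≤ n) {U : Set (Fin n → ℝ)}
    {f : (Fin n → ℝ) → (Fin n → ℝ)} {Df : (Fin n → ℝ) → Matrix (Fin n) (Fin n) ℝ}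
    {w : (Fin n → ℝ) → ℝ} {l C₀ : ℝ} (h : FD n U f Df w l C₀) :
    ∀ δ > 0, ∀ t₀ : ℝ, ∃ t : ℝ, t₀ ≤ t ∧ 1 ≤ t ∧
      t ^ ((1 : ℝ) / (n - 1)) *
        ∫ x in {x | t < msum (Df x).adjugate}, msum (Df x).adjugate ≤ δ := by
  intro δ hδ t₀
  by_contra hcon
  push Not at hcon
  set a : (Fin n → ℝ) → ℝ := fun x => msum (Df x).adjugate with ha
  have hma : Measurable a := measurable_msum_adj h.meas_Df
  have ha0 : ∀ x, 0 ≤ a x := fun x => msum_nn _
  have hn1 : (0 : ℝ) < (n : ℝ) - 1 := by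
    have : (2 : ℝ) ≤ n := by exact_mod_cast hn
    linarith
  set c : ℝ := 1 / ((n : ℝ) - 1) with hc
  have hc0 : 0 < c := by positivity
  have hl := h.l_pos
  set C₁ : ℝ := |C₀| ^ c * ((1 + c) / l) with hC₁
  have hC₁0 : 0 ≤ C₁ := by positivity
  set K : ℝ := (1 + 2 / c) * (1 - Real.exp (-(c / 2)))⁻¹ with hK
  have hK0 : 0 ≤ K := by
    have : Real.exp (-(c / 2)) < 1 := by rw [Real.exp_lt_one_iff]; linarith
    have : 0 < 1 - Real.exp (-(c / 2)) := by linarith
    positivity
  set e : (Fin n → ℝ) → ℝ := U.indicator fun x => Real.exp (l * w x) with he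
  have hexp : Integrable e := (integrable_indicator_iff h.isOpen.measurableSet).2 h.exp_int
  have he0 : ∀ x, 0 ≤ e x := fun x => Set.indicator_nonneg (fun _ _ => (Real.exp_pos _).le) x
  set s : ℕ → Set (Fin n → ℝ) := fun j => {x | Real.exp j < a x} with hs
  have hms : ∀ j, MeasurableSet (s j) := fun j => measurableSet_lt measurable_const hma
  have hanti : Antitone s := by
    intro i j hij x hx
    exact lt_of_le_of_lt (Real.exp_le_exp.2 (by exact_mod_cast hij)) hx
  have hlim : Tendsto (fun j => ∫ x in s j, e x) atTop (𝓝 0) := by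
    have h1 := tendsto_setIntegral_of_antitone (f := e) (μ := volume) hms hanti
      ⟨0, hexp.integrableOn⟩
    have h2 : (⋂ j, s j) = ∅ := by
      rw [Set.eq_empty_iff_forall_notMem]
      intro x hx
      rw [Set.mem_iInter] at hx
      obtain ⟨N, hN⟩ := exists_nat_gt (a x)
      have h3 : Real.exp N < a x := hx N
      have h4 := Real.add_one_le_exp (N : ℝ)
      linarith
    rw [h2] at h1
    simpa using h1
  obtain ⟨J₀, hJ1, hJ2, hJ3⟩ : ∃ J₀ : ℕ, 1 ≤ J₀ ∧ t₀ ≤ Real.exp J₀ ∧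
      ∀ j ≥ J₀, ∫ x in s j, e x ≤ δ / 2 := by
    have h1 := (hlim.eventually (gt_mem_nhds (half_pos hδ)))
    rw [eventually_atTop] at h1
    obtain ⟨J, hJ⟩ := h1
    obtain ⟨N, hN⟩ := exists_nat_gt t₀
    refine ⟨max (max J N) 1, le_max_right _ _, ?_, ?_⟩
    · have h4 := Real.add_one_le_exp ((max (max J N) 1 : ℕ) : ℝ)
      have h5 : (N : ℝ) ≤ ((max (max J N) 1 : ℕ) : ℝ) := by
        exact_mod_cast (le_max_right J N).trans (le_max_left _ _)
      linarith
    · intro j hj
      exact (hJ j ((le_max_left J N).trans ((le_max_left _ _).trans hj))).le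
  obtain ⟨N, hN1, hN2⟩ := harm J₀ (2 / δ * (C₁ * K * (∫ x, (Df x).det) + 1))
  set S := Finset.Ico J₀ N with hS
  have hSmem : ∀ j ∈ S, J₀ ≤ j := fun j hj => (Finset.mem_Ico.1 hj).1
  -- the summands
  set F : ℕ → (Fin n → ℝ) → ℝ := fun j x =>
    (1 / (j : ℝ)) * (Real.exp j ^ c * (s j).indicator a x) with hF
  have hF0 : ∀ j x, 0 ≤ F j x := by
    intro j x
    have : 0 ≤ (s j).indicator a x := Set.indicator_nonneg (fun _ _ => ha0 _) x
    have : 0 < Real.exp (j : ℝ) := Real.exp_pos _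
    positivity
  set R : (Fin n → ℝ) → ℝ := fun x =>
    (∑ j ∈ S, (1 / (j : ℝ)) * (s j).indicator e x) + C₁ * K * (Df x).det with hR
  have hRint : Integrable R := by
    refine Integrable.add (integrable_finsetSum _ fun j _ => ?_) (h.int_det.const_mul _)
    exact (hexp.indicator (hms j)).const_mul _
  have hsum : ∀ x, ∑ j ∈ S, F j x ≤ R x := by
    intro x
    have hJx := h.det_nonneg x
    have hterm : ∀ j ∈ S, F j x ≤ (1 / (j : ℝ)) * (s j).indicator e x +
        C₁ * (Df x).det * (if (j : ℝ) < Real.log (a x) then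
          (1 / (j : ℝ)) * (Real.log (a x) * Real.exp (-(c * (Real.log (a x) - j)))) else 0) := by
      intro j hj
      have hj1 : (1 : ℝ) ≤ j := by exact_mod_cast hJ1.trans (hSmem j hj)
      by_cases hx : x ∈ s j
      · have hlev := h.level_le hn x j hx
        have hpos : 0 < a x := (Real.exp_pos _).trans hx
        have hxU : x ∈ U := h.mem_of_adj_pos hn hpos
        have hju : (j : ℝ) < Real.log (a x) := (Real.lt_log_iff_exp_lt hpos).2 hx
        simp only [hF]
        rw [Set.indicator_of_mem hx, Set.indicator_of_mem hx, he, Set.indicator_of_mem hxU,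
          if_pos hju]
        calc (1 / (j : ℝ)) * (Real.exp j ^ c * a x)
            ≤ (1 / (j : ℝ)) * (Real.exp (l * w x) + C₁ * (Df x).det *
              (Real.log (a x) * Real.exp (-(c * (Real.log (a x) - j))))) :=
              mul_le_mul_of_nonneg_left hlev (by positivity)
          _ = _ := by ring
      · have hju : ¬ ((j : ℝ) < Real.log (a x) ∧ 0 < a x) := by
          rintro ⟨h1, h2⟩
          exact hx ((Real.lt_log_iff_exp_lt h2).1 h1)
        have hju' : ¬ ((j : ℝ) < Real.log (a x)) := by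
          intro h1
          rcases (ha0 x).eq_or_lt with h2 | h2
          · rw [← h2, Real.log_zero] at h1; linarith
          · exact hju ⟨h1, h2⟩
        simp only [hF]
        rw [Set.indicator_of_notMem hx, Set.indicator_of_notMem hx, if_neg hju']
        simp
    have hgeo := geom_bound hc0 (Real.log (a x)) S (fun j hj => hJ1.trans (hSmem j hj))
    rw [Finset.sum_filter] at hgeo
    calc ∑ j ∈ S, F j x ≤ ∑ j ∈ S, ((1 / (j : ℝ)) * (s j).indicator e x +
        C₁ * (Df x).det * (if (j : ℝ) < Real.log (a x) then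
          (1 / (j : ℝ)) * (Real.log (a x) * Real.exp (-(c * (Real.log (a x) - j)))) else 0)) :=
          Finset.sum_le_sum hterm
      _ = (∑ j ∈ S, (1 / (j : ℝ)) * (s j).indicator e x) + C₁ * (Df x).det *
          ∑ j ∈ S, (if (j : ℝ) < Real.log (a x) then
          (1 / (j : ℝ)) * (Real.log (a x) * Real.exp (-(c * (Real.log (a x) - j)))) else 0) := by
          rw [Finset.sum_add_distrib, Finset.mul_sum]
      _ ≤ (∑ j ∈ S, (1 / (j : ℝ)) * (s j).indicator e x) + C₁ * (Df x).det * K := by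
          have := mul_le_mul_of_nonneg_left hgeo (mul_nonneg hC₁0 hJx)
          linarith
      _ = R x := by simp only [hR]; ring
  have hFint : ∀ j ∈ S, Integrable (F j) := by
    intro j hj
    refine Integrable.mono' hRint ?_ (Eventually.of_forall fun x => ?_)
    · exact (((hma.indicator (hms j)).const_mul _).const_mul _).aestronglyMeasurable
    · rw [Real.norm_of_nonneg (hF0 j x)]
      exact (Finset.single_le_sum (fun i _ => hF0 i x) hj).trans (hsum x)
  have hint : ∑ j ∈ S, ∫ x, F j x ≤ ∫ x, R x := by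
    rw [← integral_finsetSum _ hFint]
    exact integral_mono (integrable_finsetSum _ hFint) hRint hsum
  have hRval : ∫ x, R x ≤ (∑ j ∈ S, (1 / (j : ℝ)) * (δ / 2)) + C₁ * K * ∫ x, (Df x).det := by
    simp only [hR]
    rw [integral_add (integrable_finsetSum _ fun j _ => (hexp.indicator (hms j)).const_mul _)
      (h.int_det.const_mul _), integral_finsetSum _
      (fun j _ => (hexp.indicator (hms j)).const_mul _), integral_const_mul]
    gcongr with j hj
    rw [integral_const_mul, integral_indicator (hms j)]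
    exact mul_le_mul_of_nonneg_left (hJ3 j (hSmem j hj)) (by positivity)
  have hFval : ∀ j ∈ S, (1 / (j : ℝ)) * δ ≤ ∫ x, F j x := by
    intro j hj
    simp only [hF]
    rw [integral_const_mul, integral_const_mul, integral_indicator (hms j)]
    apply mul_le_mul_of_nonneg_left _ (by positivity)
    have h1 : t₀ ≤ Real.exp j :=
      hJ2.trans (Real.exp_le_exp.2 (by exact_mod_cast hSmem j hj))
    have h2 : 1 ≤ Real.exp (j : ℝ) := Real.one_le_exp (Nat.cast_nonneg j)
    exact (hcon _ h1 h2).le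
  have hfin : δ / 2 * ∑ j ∈ S, 1 / (j : ℝ) ≤ C₁ * K * ∫ x, (Df x).det := by
    have h1 : ∑ j ∈ S, (1 / (j : ℝ)) * δ ≤
        (∑ j ∈ S, (1 / (j : ℝ)) * (δ / 2)) + C₁ * K * ∫ x, (Df x).det :=
      (Finset.sum_le_sum hFval).trans (hint.trans hRval)
    rw [← Finset.sum_mul, ← Finset.sum_mul] at h1
    linarith
  have hfin2 : C₁ * K * (∫ x, (Df x).det) + 1 ≤ δ / 2 * ∑ j ∈ S, 1 / (j : ℝ) := by
    have := mul_le_mul_of_nonneg_left hN2 (half_pos hδ).le
    have h3 : δ / 2 * (2 / δ * (C₁ * K * (∫ x, (Df x).det) + 1)) =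
        C₁ * K * (∫ x, (Df x).det) + 1 := by field_simp
    linarith
  linarith

end Pool.Agent.MP8995
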