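import Mathlib
import Pool.Agent.Lib.MP_8995c5_an.Defs

set_option autoImplicit false

open MeasureTheory Metric Set Filter Topology
open scoped ENNReal NNReal Convolution

namespace Pool.Agent.MP8995

variable {n : ℕ}

/-! Hölder's inequality in power form and mollified push-forwards. -/

/-- Hölder's inequality in power form; no measurability of `F` is needed. -/
theorem abs_integral_pow_le {α : Type*} [MeasurableSpace α] {μ : Measure α} (m : ℕ)
    {F A B : α → ℝ} {K : ℝ} (hK : 0 ≤ K) (hA : Integrable A μ) (hB : Integrable B μ)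
    (hA0 : ∀ x, 0 ≤ A x) (hB0 : ∀ x, 0 ≤ B x)
    (h : ∀ x, |F x| ^ (m + 1) ≤ K * A x ^ m * B x) :
    |∫ x, F x ∂μ| ^ (m + 1) ≤ K * (∫ x, A x ∂μ) ^ m * ∫ x, B x ∂μ := by
  set N : ℝ := (m : ℝ) + 1 with hN
  have hN0 : 0 < N := by positivity
  set p : ℝ := m / N with hp
  set q : ℝ := 1 / N with hq
  have hp0 : 0 ≤ p := by positivity
  have hq0 : 0 ≤ q := by positivity
  have hpq : p + q = 1 := by rw [hp, hq, ← add_div, ← hN, div_self hN0.ne']
  have hq1 : q * N = 1 := by rw [hq, one_div, inv_mul_cancel₀ hN0.ne']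
  have hp1 : p * N = m := by rw [hp, div_mul_cancel₀ _ hN0.ne']
  have hNn : N = ((m + 1 : ℕ) : ℝ) := by rw [hN]; push_cast; ring
  -- pointwise
  have hpt : ∀ x, ‖F x‖ₑ ≤ ENNReal.ofReal K ^ q *
      (ENNReal.ofReal (A x) ^ p * ENNReal.ofReal (B x) ^ q) := by
    intro x
    have h1 : ‖F x‖ₑ ^ N ≤ (ENNReal.ofReal K ^ q *
      (ENNReal.ofReal (A x) ^ p * ENNReal.ofReal (B x) ^ q)) ^ N := by
      rw [ENNReal.mul_rpow_of_nonneg _ _ hN0.le, ENNReal.mul_rpow_of_nonneg _ _ hN0.le,
        ← ENNReal.rpow_mul, ← ENNReal.rpow_mul, ← ENNReal.rpow_mul, hq1, hp1, ENNReal.rpow_one,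
        ENNReal.rpow_one, hNn, ENNReal.rpow_natCast, ENNReal.rpow_natCast,
        Real.enorm_eq_ofReal_abs, ← ENNReal.ofReal_pow (abs_nonneg _),
        ← ENNReal.ofReal_pow (hA0 x), ← ENNReal.ofReal_mul (pow_nonneg (hA0 x) _),
        ← ENNReal.ofReal_mul hK]
      apply ENNReal.ofReal_le_ofReal
      calc |F x| ^ (m + 1) ≤ K * A x ^ m * B x := h x
        _ = K * (A x ^ m * B x) := by ring
    exact (ENNReal.rpow_le_rpow_iff hN0).1 h1
  have h2 : ‖∫ x, F x ∂μ‖ₑ ≤ ENNReal.ofReal K ^ q *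
      ((∫⁻ x, ENNReal.ofReal (A x) ∂μ) ^ p * (∫⁻ x, ENNReal.ofReal (B x) ∂μ) ^ q) := by
    calc ‖∫ x, F x ∂μ‖ₑ ≤ ∫⁻ x, ‖F x‖ₑ ∂μ := enorm_integral_le_lintegral_enorm _
      _ ≤ ∫⁻ x, ENNReal.ofReal K ^ q *
          (ENNReal.ofReal (A x) ^ p * ENNReal.ofReal (B x) ^ q) ∂μ := lintegral_mono hpt
      _ = ENNReal.ofReal K ^ q *
          ∫⁻ x, (ENNReal.ofReal (A x) ^ p * ENNReal.ofReal (B x) ^ q) ∂μ := by
          rw [lintegral_const_mul']
          exact ENNReal.rpow_ne_top_of_nonneg hq0 ENNReal.ofReal_ne_top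
      _ ≤ _ := by
          gcongr
          exact ENNReal.lintegral_mul_norm_pow_le hA.aemeasurable.ennreal_ofReal
            hB.aemeasurable.ennreal_ofReal hp0 hq0 hpq
  have h3 : ‖∫ x, F x ∂μ‖ₑ ^ N ≤ (ENNReal.ofReal K ^ q *
      ((∫⁻ x, ENNReal.ofReal (A x) ∂μ) ^ p * (∫⁻ x, ENNReal.ofReal (B x) ∂μ) ^ q)) ^ N :=
    ENNReal.rpow_le_rpow h2 hN0.le
  have hIA : 0 ≤ ∫ x, A x ∂μ := integral_nonneg hA0
  have hIB : 0 ≤ ∫ x, B x ∂μ := integral_nonneg hB0
  rw [← ofReal_integral_eq_lintegral_ofReal hA (Eventually.of_forall hA0),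
    ← ofReal_integral_eq_lintegral_ofReal hB (Eventually.of_forall hB0),
    ENNReal.mul_rpow_of_nonneg _ _ hN0.le, ENNReal.mul_rpow_of_nonneg _ _ hN0.le,
    ← ENNReal.rpow_mul, ← ENNReal.rpow_mul, ← ENNReal.rpow_mul, hq1, hp1, ENNReal.rpow_one,
    ENNReal.rpow_one, hNn, ENNReal.rpow_natCast, ENNReal.rpow_natCast,
    Real.enorm_eq_ofReal_abs, ← ENNReal.ofReal_pow (abs_nonneg _),
    ← ENNReal.ofReal_pow hIA, ← ENNReal.ofReal_mul (pow_nonneg hIA _),
    ← ENNReal.ofReal_mul hK, ENNReal.ofReal_le_ofReal_iff (by positivity)] at h3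
  linarith

/-- mollified push-forward of the density `g` under `f` -/
noncomputable def pm (ρ : (Fin n → ℝ) → ℝ) (f : (Fin n → ℝ) → (Fin n → ℝ))
    (g : (Fin n → ℝ) → ℝ) (y : Fin n → ℝ) : ℝ := ∫ x, ρ (y - f x) * g x

section pm

variable {ρ : (Fin n → ℝ) → ℝ} {f : (Fin n → ℝ) → (Fin n → ℝ)} {g : (Fin n → ℝ) → ℝ}

theorem pm_integrand (hρ : Continuous ρ) (hρs : HasCompactSupport ρ) (hf : Measurable f)
    (hg : Integrable g) (y : Fin n → ℝ) : Integrable fun x => ρ (y - f x) * g x := by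
  obtain ⟨C, hC⟩ := hρs.exists_bound_of_continuous hρ
  apply hg.bdd_mul (c := C)
  · exact (hρ.measurable.comp (measurable_const.sub hf)).aestronglyMeasurable
  · exact Eventually.of_forall fun x => hC _

theorem pm_continuous (hρ : Continuous ρ) (hρs : HasCompactSupport ρ) (hf : Measurable f)
    (hg : Integrable g) : Continuous (pm ρ f g) := by
  obtain ⟨C, hC⟩ := hρs.exists_bound_of_continuous hρ
  unfold pm
  apply continuous_of_dominated (bound := fun x => C * |g x|)
  · intro y
    exact (pm_integrand hρ hρs hf hg y).aestronglyMeasurable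
  · intro y
    refine Eventually.of_forall fun x => ?_
    rw [norm_mul]
    exact mul_le_mul_of_nonneg_right (hC _) (norm_nonneg _)
  · exact hg.abs.const_mul C
  · refine Eventually.of_forall fun x => ?_
    exact (hρ.comp (continuous_id.sub continuous_const)).mul continuous_const

theorem pm_nonneg (hρ0 : ∀ y, 0 ≤ ρ y) (hg0 : ∀ x, 0 ≤ g x) (y : Fin n → ℝ) :
    0 ≤ pm ρ f g y := integral_nonneg fun x => mul_nonneg (hρ0 _) (hg0 x)

theorem pm_hasFDerivAt (hρ : ContDiff ℝ (⊤ : ℕ∞) ρ) (hρs : HasCompactSupport ρ)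
    (hf : Measurable f) (hg : Integrable g) (y : Fin n → ℝ) :
    HasFDerivAt (pm ρ f g) (∫ x, g x • fderiv ℝ ρ (y - f x)) y := by
  have hc : Continuous (fderiv ℝ ρ) := hρ.continuous_fderiv (by simp)
  obtain ⟨C, hC⟩ := (hρs.fderiv ℝ).exists_bound_of_continuous hc
  unfold pm
  apply hasFDerivAt_integral_of_dominated_of_fderiv_le (bound := fun x => |g x| * C)
    (s := univ) (F' := fun y x => g x • fderiv ℝ ρ (y - f x)) univ_mem
  · exact Eventually.of_forall fun y =>
      (pm_integrand hρ.continuous hρs hf hg y).aestronglyMeasurable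
  · exact pm_integrand hρ.continuous hρs hf hg y
  · apply hg.aestronglyMeasurable.smul
    exact (hc.measurable.comp (measurable_const.sub hf)).aestronglyMeasurable
  · refine Eventually.of_forall fun x y _ => ?_
    rw [norm_smul]
    exact mul_le_mul_of_nonneg_left (hC _) (norm_nonneg _)
  · exact hg.abs.mul_const C
  · refine Eventually.of_forall fun x y _ => ?_
    have h1 : HasFDerivAt ρ (fderiv ℝ ρ (y - f x)) (y - f x) :=
      (hρ.differentiable (by simp) _).hasFDerivAt
    have h2 : HasFDerivAt (fun y => ρ (y - f x)) (fderiv ℝ ρ (y - f x)) y := by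
      have h0 : HasFDerivAt (fun y : Fin n → ℝ => y - f x)
          (ContinuousLinearMap.id ℝ (Fin n → ℝ)) y := (hasFDerivAt_id y).sub_const (f x)
      have := h1.comp y h0
      rwa [ContinuousLinearMap.comp_id] at this
    have h3 := h2.mul_const (g x)
    simpa using h3

theorem pm_pd (hρ : ContDiff ℝ (⊤ : ℕ∞) ρ) (hρs : HasCompactSupport ρ)
    (hf : Measurable f) (hg : Integrable g) (k : Fin n) (y : Fin n → ℝ) :
    pd k (pm ρ f g) y = ∫ x, pd k ρ (y - f x) * g x := by
  have hc : Continuous (fderiv ℝ ρ) := hρ.continuous_fderiv (by simp)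
  obtain ⟨C, hC⟩ := (hρs.fderiv ℝ).exists_bound_of_continuous hc
  unfold pd
  rw [(pm_hasFDerivAt hρ hρs hf hg y).fderiv]
  rw [ContinuousLinearMap.integral_apply]
  · refine integral_congr_ae (Eventually.of_forall fun x => ?_)
    simp [mul_comm]
  · have : Integrable fun x => |g x| * C := hg.abs.mul_const C
    refine this.mono' ?_ (Eventually.of_forall fun x => ?_)
    · apply hg.aestronglyMeasurable.smul
      exact (hc.measurable.comp (measurable_const.sub hf)).aestronglyMeasurable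
    · rw [norm_smul]
      exact mul_le_mul_of_nonneg_left (hC _) (norm_nonneg _)

theorem pm_contDiff (hρ : ContDiff ℝ (⊤ : ℕ∞) ρ) (hρs : HasCompactSupport ρ)
    (hf : Measurable f) (hg : Integrable g) : ContDiff ℝ 1 (pm ρ f g) := by
  rw [contDiff_one_iff_fderiv]
  refine ⟨fun y => (pm_hasFDerivAt hρ hρs hf hg y).differentiableAt, ?_⟩
  have hc : Continuous (fderiv ℝ ρ) := hρ.continuous_fderiv (by simp)
  obtain ⟨C, hC⟩ := (hρs.fderiv ℝ).exists_bound_of_continuous hc
  have : fderiv ℝ (pm ρ f g) = fun y => ∫ x, g x • fderiv ℝ ρ (y - f x) :=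
    funext fun y => (pm_hasFDerivAt hρ hρs hf hg y).fderiv
  rw [this]
  apply continuous_of_dominated (bound := fun x => |g x| * C)
  · intro y
    exact hg.aestronglyMeasurable.smul
      (hc.measurable.comp (measurable_const.sub hf)).aestronglyMeasurable
  · intro y
    refine Eventually.of_forall fun x => ?_
    rw [norm_smul]
    exact mul_le_mul_of_nonneg_left (hC _) (norm_nonneg _)
  · exact hg.abs.mul_const C
  · refine Eventually.of_forall fun x => ?_
    have h1 : Continuous fun y : Fin n → ℝ => fderiv ℝ ρ (y - f x) :=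
      hc.comp (continuous_id.sub continuous_const)
    exact h1.const_smul (g x)

theorem pm_prod_integrable (hρ : Continuous ρ) (hρs : HasCompactSupport ρ)
    (hf : Measurable f) (hg : Integrable g) :
    Integrable (fun p : (Fin n → ℝ) × (Fin n → ℝ) => ρ (p.2 - f p.1) * g p.1)
      (volume.prod volume) := by
  have hρi : Integrable ρ := hρ.integrable_of_hasCompactSupport hρs
  rw [integrable_prod_iff]
  · constructor
    · refine Eventually.of_forall fun x => ?_
      exact (hρi.comp_sub_right (f x)).mul_const (g x)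
    · have : (fun x => ∫ y, ‖ρ (y - f x) * g x‖) = fun x => (∫ y, |ρ y|) * |g x| := by
        funext x
        simp only [norm_mul, Real.norm_eq_abs]
        rw [integral_mul_const, integral_sub_right_eq_self (fun y => |ρ y|) (f x)]
      rw [this]
      exact hg.abs.const_mul _
  · apply AEStronglyMeasurable.mul
    · exact (hρ.measurable.comp (measurable_snd.sub (hf.comp measurable_fst))).aestronglyMeasurable
    · exact hg.aestronglyMeasurable.comp_fst

theorem pm_integrable (hρ : Continuous ρ) (hρs : HasCompactSupport ρ)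
    (hf : Measurable f) (hg : Integrable g) : Integrable (pm ρ f g) :=
  (pm_prod_integrable hρ hρs hf hg).integral_prod_right

theorem pm_integral (hρ : Continuous ρ) (hρs : HasCompactSupport ρ)
    (hf : Measurable f) (hg : Integrable g) : ∫ y, pm ρ f g y = (∫ y, ρ y) * ∫ x, g x := by
  have h1 := integral_integral_swap (f := fun x y => ρ (y - f x) * g x)
    (pm_prod_integrable hρ hρs hf hg)
  unfold pm
  rw [← h1]
  have : (fun x => ∫ y, ρ (y - f x) * g x) = fun x => (∫ y, ρ y) * g x := by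
    funext x
    rw [integral_mul_const, integral_sub_right_eq_self ρ (f x)]
  rw [this, integral_const_mul]

end pm

end Pool.Agent.MP8995
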