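import Mathlib
import Pool.Agent.Lib.MP_8995c5_an.Defs
import Pool.Agent.Lib.MP_8995c5_an.PushMol
import Pool.Agent.Lib.MP_8995c5_an.FDInt

set_option autoImplicit false

open MeasureTheory Metric Set Filter Topology
open scoped ENNReal NNReal Convolution

namespace Pool.Agent.MP8995

/-! The energy inequality for mollified push-forwards, and slices. -/

variable {m : ℕ}

theorem FD.meas_f' {n : ℕ} {U : Set (Fin n → ℝ)} {f : (Fin n → ℝ) → (Fin n → ℝ)}
    {Df : (Fin n → ℝ) → Matrix (Fin n) (Fin n) ℝ} {w : (Fin n → ℝ) → ℝ} {l C₀ : ℝ}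
    (h : FD n U f Df w l C₀) : Measurable f := measurable_pi_lambda f h.meas_f

/-- the density `η^n J` is integrable -/
theorem FD.gH_integrable {n : ℕ} {U : Set (Fin n → ℝ)} {f : (Fin n → ℝ) → (Fin n → ℝ)}
    {Df : (Fin n → ℝ) → Matrix (Fin n) (Fin n) ℝ} {w : (Fin n → ℝ) → ℝ} {l C₀ : ℝ}
    (h : FD n U f Df w l C₀) {η : (Fin n → ℝ) → ℝ} (hη : Continuous η)
    (hη01 : ∀ x, 0 ≤ η x ∧ η x ≤ 1) (N : ℕ) : Integrable fun x => η x ^ N * (Df x).det := by
  apply h.int_det.bdd_mul (c := 1) (hη.pow N).aestronglyMeasurable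
  refine Eventually.of_forall fun x => ?_
  rw [Pi.pow_apply, norm_pow, Real.norm_of_nonneg (hη01 x).1]
  exact pow_le_one₀ (hη01 x).1 (hη01 x).2

/-- the divergence of `z ↦ ρ (y - z) e_k` -/
theorem dv_single {n : ℕ} {ρ : (Fin n → ℝ) → ℝ} (hρ : Differentiable ℝ ρ) (k : Fin n)
    (y z : Fin n → ℝ) :
    dv (fun z => (Pi.single k (ρ (y - z)) : Fin n → ℝ)) z = - pd k ρ (y - z) := by
  unfold dv
  rw [Finset.sum_eq_single k]
  · simp only [Pi.single_eq_same]
    unfold pd
    have h1 : HasFDerivAt ρ (fderiv ℝ ρ (y - z)) (y - z) := (hρ _).hasFDerivAt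
    have h0 : HasFDerivAt (fun z : Fin n → ℝ => y - z)
        (-ContinuousLinearMap.id ℝ (Fin n → ℝ)) z := (hasFDerivAt_id z).const_sub y
    have h2 := h1.comp z h0
    have h3 : fderiv ℝ (fun z => ρ (y - z)) z =
        (fderiv ℝ ρ (y - z)).comp (-ContinuousLinearMap.id ℝ (Fin n → ℝ)) := h2.fderiv
    rw [h3]
    simp
  · intro j _ hj
    have : (fun z => (Pi.single k (ρ (y - z)) : Fin n → ℝ) j) = fun _ => 0 := by
      funext z
      simp [Pi.single_eq_of_ne hj]
    rw [this]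
    simp [pd]
  · simp

theorem FD.energy {U : Set (Fin (m + 1) → ℝ)} {f : (Fin (m + 1) → ℝ) → (Fin (m + 1) → ℝ)}
    {Df : (Fin (m + 1) → ℝ) → Matrix (Fin (m + 1)) (Fin (m + 1)) ℝ}
    {w : (Fin (m + 1) → ℝ) → ℝ} {l C₀ : ℝ}
    (h : FD (m + 1) U f Df w l C₀) (hI : IBP (m + 1) U f Df)
    {η : (Fin (m + 1) → ℝ) → ℝ} (hη : ContDiff ℝ (⊤ : ℕ∞) η) (hη01 : ∀ x, 0 ≤ η x ∧ η x ≤ 1)
    (hηs : HasCompactSupport η) (hηU : tsupport η ⊆ U)
    (hηi : Integrable fun x => w x ^ m * (∑ j, |pd j η x|) ^ (m + 1))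
    {ρ : (Fin (m + 1) → ℝ) → ℝ} (hρ : ContDiff ℝ (⊤ : ℕ∞) ρ) (hρs : HasCompactSupport ρ)
    (hρ0 : ∀ y, 0 ≤ ρ y) (k : Fin (m + 1)) (y : Fin (m + 1) → ℝ) :
    |pd k (pm ρ f fun x => η x ^ (m + 1) * (Df x).det) y| ^ (m + 1) ≤
      ((m + 1 : ℕ) : ℝ) ^ (m + 1) * |C₀| * (pm ρ f (fun x => η x ^ (m + 1) * (Df x).det) y) ^ m *
        pm ρ f (fun x => w x ^ m * (∑ j, |pd j η x|) ^ (m + 1)) y := by
  have hf := h.meas_f'
  have hgH := h.gH_integrable hη.continuous hη01 (m + 1)
  have hηd : Differentiable ℝ η := hη.differentiable (by simp)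
  -- the test functions
  set ζ : (Fin (m + 1) → ℝ) → ℝ := fun x => η x ^ (m + 1) with hζ
  set X : (Fin (m + 1) → ℝ) → (Fin (m + 1) → ℝ) := fun z => Pi.single k (ρ (y - z)) with hX
  have hζ1 : ContDiff ℝ (⊤ : ℕ∞) ζ := hη.pow _
  have hsub : Function.support ζ ⊆ Function.support η := by
    intro x hx hx'
    apply hx
    simp only [hζ]
    rw [show η x = 0 from hx']
    simp
  have hζs : HasCompactSupport ζ := hηs.mono hsub
  have hζU : tsupport ζ ⊆ U := (closure_mono hsub).trans hηU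
  have hX1 : ContDiff ℝ (⊤ : ℕ∞) X := by
    rw [contDiff_pi]
    intro j
    rcases eq_or_ne j k with rfl | hj
    · simp only [hX, Pi.single_eq_same]
      exact hρ.comp (contDiff_const.sub contDiff_id)
    · simp only [hX, Pi.single_eq_of_ne hj]
      exact contDiff_const
  have hXs : HasCompactSupport X := by
    have h1 : HasCompactSupport fun z => ρ (y - z) :=
      hρs.comp_homeomorph (Homeomorph.subLeft y)
    exact h1.comp_left (g := fun t => (Pi.single k t : Fin (m + 1) → ℝ)) (by simp)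
  have hibp := hI ζ hζ1 hζs hζU X hX1 hXs
  have hpdζ : ∀ j x, pd j ζ x = ((m + 1 : ℕ) : ℝ) * η x ^ m * pd j η x := by
    intro j x
    unfold pd
    have h1 : HasFDerivAt ζ (((m + 1 : ℕ) : ℝ) • (η x ^ m) • fderiv ℝ η x) x := by
      have := (hηd x).hasFDerivAt.pow (m + 1)
      simpa [hζ, smul_smul] using this
    rw [h1.fderiv]
    simp [mul_assoc]
  set F : (Fin (m + 1) → ℝ) → ℝ := fun x => ∑ j, pd j ζ x * ((Df x).adjugate.mulVec (X (f x))) j
    with hF
  have hlhs : ∫ x, ζ x * dv X (f x) * (Df x).det =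
      - pd k (pm ρ f fun x => η x ^ (m + 1) * (Df x).det) y := by
    rw [pm_pd hρ hρs hf hgH, ← integral_neg]
    refine integral_congr_ae (Eventually.of_forall fun x => ?_)
    simp only [hX, hζ]
    rw [dv_single (hρ.differentiable (by simp))]
    ring
  have hpdF : pd k (pm ρ f fun x => η x ^ (m + 1) * (Df x).det) y = ∫ x, F x := by
    rw [hlhs] at hibp
    linarith
  rw [hpdF]
  have hw0 := h.w_nonneg
  have hJ0 := h.det_nonneg
  have hs0 : ∀ x, 0 ≤ ∑ j, |pd j η x| := fun x => Finset.sum_nonneg fun _ _ => abs_nonneg _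
  have hFle : ∀ x, |F x| ≤ ((m + 1 : ℕ) : ℝ) * η x ^ m * ρ (y - f x) * (∑ j, |pd j η x|) *
      msum (Df x).adjugate := by
    intro x
    have hmv : ∀ j, ((Df x).adjugate.mulVec (X (f x))) j = (Df x).adjugate j k * ρ (y - f x) := by
      intro j
      simp only [hX, Matrix.mulVec_single]
      simp [Matrix.col_apply]
    simp only [hF]
    refine (Finset.abs_sum_le_sum_abs _ _).trans ?_
    have h1 : ∀ j, |pd j ζ x * ((Df x).adjugate.mulVec (X (f x))) j| ≤
        ((m + 1 : ℕ) : ℝ) * η x ^ m * ρ (y - f x) * |pd j η x| * msum (Df x).adjugate := by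
      intro j
      rw [hmv, hpdζ, abs_mul, abs_mul, abs_mul, abs_mul, abs_of_nonneg (hρ0 _),
        abs_of_nonneg (pow_nonneg (hη01 x).1 m), abs_of_nonneg (Nat.cast_nonneg (m + 1))]
      have h2 := abs_entry_le_msum (Df x).adjugate j k
      have h3 : 0 ≤ ((m + 1 : ℕ) : ℝ) * η x ^ m * |pd j η x| * ρ (y - f x) := by
        have := (hη01 x).1
        have := hρ0 (y - f x)
        positivity
      calc ((m + 1 : ℕ) : ℝ) * η x ^ m * |pd j η x| * (|(Df x).adjugate j k| * ρ (y - f x))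
          = (((m + 1 : ℕ) : ℝ) * η x ^ m * |pd j η x| * ρ (y - f x)) * |(Df x).adjugate j k| := by
            ring
        _ ≤ (((m + 1 : ℕ) : ℝ) * η x ^ m * |pd j η x| * ρ (y - f x)) * msum (Df x).adjugate :=
            mul_le_mul_of_nonneg_left h2 h3
        _ = _ := by ring
    refine (Finset.sum_le_sum fun j _ => h1 j).trans (le_of_eq ?_)
    rw [Finset.mul_sum, Finset.sum_mul]
  refine abs_integral_pow_le m (K := ((m + 1 : ℕ) : ℝ) ^ (m + 1) * |C₀|) (by positivity)
    (pm_integrand hρ.continuous hρs hf hgH y) (pm_integrand hρ.continuous hρs hf hηi y) ?_ ?_ ?_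
  · intro x
    have := hρ0 (y - f x)
    have := (hη01 x).1
    have := hJ0 x
    positivity
  · intro x
    have := hρ0 (y - f x)
    have := hw0 x
    have := hs0 x
    positivity
  · intro x
    have h1 := hρ0 (y - f x)
    have h2 := (hη01 x).1
    have h3 := hJ0 x
    have h4 := hw0 x
    have h5 := hs0 x
    have h6 : msum (Df x).adjugate ^ (m + 1) ≤ |C₀| * (w x * (Df x).det) ^ m := by
      have := h.adj_bound x
      rw [Nat.add_sub_cancel] at this
      have h7 : C₀ * (w x * (Df x).det) ^ m ≤ |C₀| * (w x * (Df x).det) ^ m := by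
        apply mul_le_mul_of_nonneg_right (le_abs_self _)
        positivity
      exact this.trans h7
    calc |F x| ^ (m + 1) ≤ (((m + 1 : ℕ) : ℝ) * η x ^ m * ρ (y - f x) * (∑ j, |pd j η x|) *
          msum (Df x).adjugate) ^ (m + 1) := pow_le_pow_left₀ (abs_nonneg _) (hFle x) _
      _ = (((m + 1 : ℕ) : ℝ) * η x ^ m * ρ (y - f x) * (∑ j, |pd j η x|)) ^ (m + 1) *
          msum (Df x).adjugate ^ (m + 1) := mul_pow _ _ _
      _ ≤ (((m + 1 : ℕ) : ℝ) * η x ^ m * ρ (y - f x) * (∑ j, |pd j η x|)) ^ (m + 1) *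
          (|C₀| * (w x * (Df x).det) ^ m) := by
          apply mul_le_mul_of_nonneg_left h6
          positivity
      _ = _ := by
          simp only [mul_pow, ← pow_mul]
          ring

/-! ### Slices -/

/-- the linear map `y ↦ insertNth i 0 y` -/
noncomputable def insL (i : Fin (m + 1)) : (Fin m → ℝ) →L[ℝ] (Fin (m + 1) → ℝ) :=
  ∑ j : Fin m, (ContinuousLinearMap.proj (R := ℝ) (φ := fun _ : Fin m => ℝ) j).smulRight
    (Pi.single (i.succAbove j) (1 : ℝ) : Fin (m + 1) → ℝ)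

theorem insL_apply (i : Fin (m + 1)) (y : Fin m → ℝ) :
    insL i y = ∑ j : Fin m, y j • (Pi.single (i.succAbove j) (1 : ℝ) : Fin (m + 1) → ℝ) := by
  simp [insL]

theorem insL_single (i : Fin (m + 1)) (j : Fin m) :
    insL i (Pi.single j 1) = Pi.single (i.succAbove j) 1 := by
  rw [insL_apply, Finset.sum_eq_single j]
  · simp
  · intro b _ hb
    simp [Pi.single_eq_of_ne hb]
  · simp

theorem insertNth_eq (i : Fin (m + 1)) (z : ℝ) (y : Fin m → ℝ) :
    (i.insertNth z y : Fin (m + 1) → ℝ) = (Pi.single i z : Fin (m + 1) → ℝ) + insL i y := by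
  funext a
  rw [insL_apply]
  refine Fin.succAboveCases i ?_ ?_ a
  · simp [Finset.sum_apply, Fin.ne_succAbove]
  · intro j
    simp only [Fin.insertNth_apply_succAbove, Pi.add_apply, Finset.sum_apply, Pi.smul_apply,
      smul_eq_mul]
    rw [Pi.single_eq_of_ne (Fin.succAbove_ne i j), zero_add, Finset.sum_eq_single j]
    · simp
    · intro b _ hb
      rw [Pi.single_eq_of_ne, mul_zero]
      intro hcon
      exact hb (Fin.succAbove_right_injective hcon).symm
    · simp

theorem insertNth_hasFDerivAt (i : Fin (m + 1)) (z : ℝ) (y : Fin m → ℝ) :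
    HasFDerivAt (fun y : Fin m → ℝ => (i.insertNth z y : Fin (m + 1) → ℝ)) (insL i) y := by
  have : (fun y : Fin m → ℝ => (i.insertNth z y : Fin (m + 1) → ℝ)) =
      fun y => (Pi.single i z : Fin (m + 1) → ℝ) + insL i y := funext fun y => insertNth_eq i z y
  rw [this]
  exact (insL i).hasFDerivAt.const_add _

theorem insertNth_contDiff (i : Fin (m + 1)) (z : ℝ) :
    ContDiff ℝ 1 (fun y : Fin m → ℝ => (i.insertNth z y : Fin (m + 1) → ℝ)) := by
  have : (fun y : Fin m → ℝ => (i.insertNth z y : Fin (m + 1) → ℝ)) =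
      fun y => (Pi.single i z : Fin (m + 1) → ℝ) + insL i y := funext fun y => insertNth_eq i z y
  rw [this]
  exact contDiff_const.add (insL i).contDiff

theorem pd_slice (i : Fin (m + 1)) (z : ℝ) {F : (Fin (m + 1) → ℝ) → ℝ} (hF : Differentiable ℝ F)
    (j : Fin m) (y : Fin m → ℝ) :
    pd j (fun y : Fin m → ℝ => F (i.insertNth z y)) y =
      pd (i.succAbove j) F (i.insertNth z y) := by
  unfold pd
  have h1 := (hF (i.insertNth z y)).hasFDerivAt.comp y (insertNth_hasFDerivAt i z y)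
  have h2 : fderiv ℝ (fun y : Fin m → ℝ => F (i.insertNth z y)) y =
      (fderiv ℝ F (i.insertNth z y)).comp (insL i) := h1.fderiv
  rw [h2, ContinuousLinearMap.comp_apply, insL_single]

end Pool.Agent.MP8995
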