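import Mathlib
import Pool.Agent.Lib.MP_8995c5_an.Defs

set_option autoImplicit false

open MeasureTheory Metric Set Filter Topology

namespace Pool.Agent.MP8995

variable {n : ℕ}

/-! ### Good radii -/

theorem exists_good_radius {α : (Fin n → ℝ) → ℝ} (hα : ∀ x, 0 ≤ α x) (hi : Integrable α)
    (c : Fin n → ℝ) {a b κ : ℝ} (hab : a < b) (hκ : 0 < κ) :
    ∃ τ ∈ Ioo a b, ∀ᶠ h in 𝓝[>] (0 : ℝ),
      ∫ x in closedBall c τ \ closedBall c (τ - h), α x ≤
        ((∫ x in closedBall c b, α x) / (b - a) + κ) * h := by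
  set G : ℝ → ℝ := fun τ => ∫ x in closedBall c τ, α x with hG
  have hmono : Monotone G := by
    intro s t hst
    exact setIntegral_mono_set hi.integrableOn (Eventually.of_forall hα)
      (HasSubset.Subset.eventuallyLE (closedBall_subset_closedBall hst))
  set F : ℝ := (∫ x in closedBall c b, α x) / (b - a) + κ with hF
  have hba : 0 < b - a := sub_pos.2 hab
  obtain ⟨τ, hτ, hd, hlt⟩ : ∃ τ ∈ Ioo a b, DifferentiableAt ℝ G τ ∧ deriv G τ < F := by
    by_contra hcon
    push Not at hcon
    have hae : ∀ᵐ τ ∂(volume.restrict (Ioo a b)), F ≤ deriv G τ := by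
      rw [ae_restrict_iff' measurableSet_Ioo]
      filter_upwards [hmono.ae_differentiableAt] with τ h1 h2
      exact hcon τ h2 h1
    have h1 : ∫ _x in a..b, F ≤ ∫ x in a..b, deriv G x := by
      apply intervalIntegral.integral_mono_ae_restrict hab.le
      · simp
      · exact (hmono.monotoneOn _).intervalIntegrable_deriv
      · rw [← restrict_Ioo_eq_restrict_Icc]; exact hae
    have h2 := (hmono.monotoneOn (uIcc a b)).intervalIntegral_deriv_mem_uIcc
    rw [uIcc_of_le (sub_nonneg.2 (hmono hab.le))] at h2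
    have h3 : 0 ≤ G a := setIntegral_nonneg measurableSet_closedBall fun x _ => hα x
    have h4 : ∫ _x in a..b, F = (b - a) * F := by simp
    rw [h4] at h1
    have h5 : (b - a) * F = G b + (b - a) * κ := by
      rw [hF]; field_simp; ring
    have h6 : 0 < (b - a) * κ := mul_pos hba hκ
    linarith [h2.2]
  refine ⟨τ, hτ, ?_⟩
  have h1 := hasDerivAt_iff_tendsto_slope_zero.1 hd.hasDerivAt
  have h2 : Tendsto (fun h : ℝ => -h) (𝓝[>] 0) (𝓝[≠] 0) := by
    apply tendsto_nhdsWithin_of_tendsto_nhds_of_eventually_within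
    · have : Tendsto (fun h : ℝ => -h) (𝓝 0) (𝓝 (-0)) := tendsto_id.neg
      rw [neg_zero] at this
      exact this.mono_left nhdsWithin_le_nhds
    · filter_upwards [self_mem_nhdsWithin] with h hh
      have : 0 < h := hh
      simp [this.ne']
  have h3 := (h1.comp h2).eventually (gt_mem_nhds hlt)
  filter_upwards [h3, self_mem_nhdsWithin] with h hh hpos
  have hpos : 0 < h := hpos
  have h4 : ∫ x in closedBall c τ \ closedBall c (τ - h), α x = G τ - G (τ - h) :=
    integral_diff measurableSet_closedBall hi.integrableOn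
      (closedBall_subset_closedBall (by linarith))
  rw [h4]
  simp only [Function.comp_apply, smul_eq_mul] at hh
  rw [← sub_eq_add_neg] at hh
  have h5 : (-h)⁻¹ * (G (τ - h) - G τ) = (G τ - G (τ - h)) / h := by
    field_simp
    ring
  rw [h5, div_lt_iff₀ hpos] at hh
  exact hh.le

/-! ### Smooth cutoffs of cubes -/

/-- A smooth bump on the line: `1` on `|u| ≤ τ - h` and `0` for `|u| ≥ τ`. -/
noncomputable def bump1 (τ h u : ℝ) : ℝ :=
  Real.smoothTransition ((τ - u) / h) * Real.smoothTransition ((τ + u) / h)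

/-- A smooth bump equal to `1` on the cube of radius `τ - h` and to `0` off the cube of radius
`τ`. -/
noncomputable def cubeBump (c : Fin n → ℝ) (τ h : ℝ) (x : Fin n → ℝ) : ℝ :=
  ∏ l, bump1 τ h (x l - c l)

theorem exists_smoothTransition_bound : ∃ C : ℝ, 0 < C ∧ ∀ x, |deriv Real.smoothTransition x| ≤ C := by
  have hc : Continuous (deriv Real.smoothTransition) :=
    (Real.smoothTransition.contDiff (n := 1)).continuous_deriv le_rfl
  obtain ⟨C, hC⟩ := (isCompact_Icc (a := (0 : ℝ)) (b := 1)).exists_bound_of_continuousOn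
    hc.continuousOn
  refine ⟨|C| + 1, by positivity, fun x => ?_⟩
  by_cases hx : x ∈ Icc (0 : ℝ) 1
  · have := hC x hx
    rw [Real.norm_eq_abs] at this
    linarith [le_abs_self C]
  · have h0 : deriv Real.smoothTransition x = 0 := by
      rw [mem_Icc, not_and_or] at hx
      rcases hx with hx | hx
      · push Not at hx
        have : Real.smoothTransition =ᶠ[𝓝 x] fun _ => (0 : ℝ) := by
          filter_upwards [gt_mem_nhds hx] with y hy
          exact Real.smoothTransition.zero_of_nonpos hy.le
        rw [this.deriv_eq]; simp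
      · push Not at hx
        have : Real.smoothTransition =ᶠ[𝓝 x] fun _ => (1 : ℝ) := by
          filter_upwards [lt_mem_nhds hx] with y hy
          exact Real.smoothTransition.one_of_one_le hy.le
        rw [this.deriv_eq]; simp
    rw [h0]; simp; positivity

theorem bump1_contDiff (τ h : ℝ) : ContDiff ℝ (⊤ : ℕ∞) (bump1 τ h) := by
  unfold bump1
  apply ContDiff.mul
  · exact Real.smoothTransition.contDiff.comp (by fun_prop)
  · exact Real.smoothTransition.contDiff.comp (by fun_prop)

theorem bump1_nonneg (τ h u : ℝ) : 0 ≤ bump1 τ h u :=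
  mul_nonneg (Real.smoothTransition.nonneg _) (Real.smoothTransition.nonneg _)

theorem bump1_le_one (τ h u : ℝ) : bump1 τ h u ≤ 1 :=
  mul_le_one₀ (Real.smoothTransition.le_one _) (Real.smoothTransition.nonneg _)
    (Real.smoothTransition.le_one _)

theorem bump1_eq_zero {τ h u : ℝ} (hh : 0 < h) (hu : τ ≤ |u|) : bump1 τ h u = 0 := by
  unfold bump1
  rcases le_abs.1 hu with hu | hu
  · rw [Real.smoothTransition.zero_of_nonpos (x := (τ - u) / h), zero_mul]
    exact div_nonpos_of_nonpos_of_nonneg (by linarith) hh.le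
  · rw [Real.smoothTransition.zero_of_nonpos (x := (τ + u) / h), mul_zero]
    exact div_nonpos_of_nonpos_of_nonneg (by linarith) hh.le

theorem bump1_eq_one {τ h u : ℝ} (hh : 0 < h) (hu : |u| ≤ τ - h) : bump1 τ h u = 1 := by
  unfold bump1
  have h1 := abs_le.1 hu
  rw [Real.smoothTransition.one_of_one_le (x := (τ - u) / h),
    Real.smoothTransition.one_of_one_le (x := (τ + u) / h), mul_one]
  · rw [le_div_iff₀ hh]; linarith
  · rw [le_div_iff₀ hh]; linarith

theorem abs_deriv_bump1_le {C : ℝ} (hC : ∀ x, |deriv Real.smoothTransition x| ≤ C) {τ h : ℝ}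
    (hh : 0 < h) (u : ℝ) : |deriv (bump1 τ h) u| ≤ 2 * C / h := by
  have hst : ∀ x, HasDerivAt Real.smoothTransition (deriv Real.smoothTransition x) x := fun x =>
    ((Real.smoothTransition.contDiff (n := 1)).differentiable (by simp) x).hasDerivAt
  have h1 : HasDerivAt (fun u : ℝ => (τ - u) / h) (-1 / h) u := by
    simpa using ((hasDerivAt_id u).const_sub τ).div_const h
  have h2 : HasDerivAt (fun u : ℝ => (τ + u) / h) (1 / h) u := by
    simpa using ((hasDerivAt_id u).const_add τ).div_const h
  have h3 := ((hst ((τ - u) / h)).comp u h1).mul ((hst ((τ + u) / h)).comp u h2)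
  have h4 : HasDerivAt (bump1 τ h) _ u := h3
  rw [h4.deriv]
  simp only [Function.comp_apply]
  have hC0 : 0 ≤ C := (abs_nonneg _).trans (hC 0)
  have e1 : |deriv Real.smoothTransition ((τ - u) / h) * (-1 / h) *
      Real.smoothTransition ((τ + u) / h)| ≤ C / h := by
    rw [abs_mul, abs_mul, abs_of_nonneg (Real.smoothTransition.nonneg ((τ + u) / h))]
    have : |(-1 : ℝ) / h| = 1 / h := by rw [abs_div, abs_neg, abs_one, abs_of_pos hh]
    rw [this]
    calc _ ≤ C * (1 / h) * 1 := by
          gcongr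
          · exact Real.smoothTransition.nonneg _
          · exact hC _
          · exact Real.smoothTransition.le_one _
      _ = C / h := by ring
  have e2 : |Real.smoothTransition ((τ - u) / h) *
      (deriv Real.smoothTransition ((τ + u) / h) * (1 / h))| ≤ C / h := by
    rw [abs_mul, abs_mul, abs_of_nonneg (Real.smoothTransition.nonneg ((τ - u) / h))]
    have : |(1 : ℝ) / h| = 1 / h := by rw [abs_div, abs_one, abs_of_pos hh]
    rw [this]
    calc _ ≤ 1 * (C * (1 / h)) := by
          gcongr
          · exact Real.smoothTransition.le_one _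
          · exact hC _
      _ = C / h := by ring
  calc _ ≤ _ := abs_add_le _ _
    _ ≤ C / h + C / h := add_le_add e1 e2
    _ = 2 * C / h := by ring

theorem cubeBump_contDiff (c : Fin n → ℝ) (τ h : ℝ) : ContDiff ℝ (⊤ : ℕ∞) (cubeBump c τ h) := by
  unfold cubeBump
  apply contDiff_prod
  intro l _
  exact (bump1_contDiff τ h).comp (by fun_prop)

theorem cubeBump_nonneg (c : Fin n → ℝ) (τ h : ℝ) (x : Fin n → ℝ) : 0 ≤ cubeBump c τ h x :=
  Finset.prod_nonneg fun _ _ => bump1_nonneg _ _ _

theorem cubeBump_le_one (c : Fin n → ℝ) (τ h : ℝ) (x : Fin n → ℝ) : cubeBump c τ h x ≤ 1 :=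
  Finset.prod_le_one (fun _ _ => bump1_nonneg _ _ _) fun _ _ => bump1_le_one _ _ _

theorem cubeBump_eq_zero {c : Fin n → ℝ} {τ h : ℝ} (hτ : 0 < τ) (hh : 0 < h) {x : Fin n → ℝ}
    (hx : x ∉ ball c τ) : cubeBump c τ h x = 0 := by
  have : ∃ l, τ ≤ |x l - c l| := by
    by_contra hcon
    push Not at hcon
    apply hx
    rw [mem_ball, dist_eq_norm, pi_norm_lt_iff hτ]
    intro l
    simpa using hcon l
  obtain ⟨l, hl⟩ := this
  exact Finset.prod_eq_zero (Finset.mem_univ l) (bump1_eq_zero hh hl)

theorem cubeBump_eq_one {c : Fin n → ℝ} {τ h : ℝ} (hh : 0 < h) {x : Fin n → ℝ}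
    (hx : x ∈ closedBall c (τ - h)) : cubeBump c τ h x = 1 := by
  apply Finset.prod_eq_one
  intro l _
  apply bump1_eq_one hh
  rw [mem_closedBall, dist_eq_norm] at hx
  exact (norm_le_pi_norm (x - c) l).trans hx

theorem pd_continuous {φ : (Fin n → ℝ) → ℝ} (hφ : ContDiff ℝ 1 φ) (l : Fin n) :
    Continuous (pd l φ) := by
  unfold pd
  exact (hφ.continuous_fderiv one_ne_zero).clm_apply continuous_const

theorem pd_cubeBump (c : Fin n → ℝ) (τ h : ℝ) (l : Fin n) (x : Fin n → ℝ) :
    pd l (cubeBump c τ h) x =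
      (∏ j ∈ Finset.univ.erase l, bump1 τ h (x j - c j)) * deriv (bump1 τ h) (x l - c l) := by
  have hb : ∀ u, HasDerivAt (bump1 τ h) (deriv (bump1 τ h) u) u := fun u =>
    ((bump1_contDiff τ h).differentiable (by simp) u).hasDerivAt
  have h1 : ∀ i ∈ (Finset.univ : Finset (Fin n)),
      HasFDerivAt (fun x : Fin n → ℝ => bump1 τ h (x i - c i))
        (deriv (bump1 τ h) (x i - c i) • (ContinuousLinearMap.proj i : (Fin n → ℝ) →L[ℝ] ℝ)) x := by
    intro i _
    have h2 : HasFDerivAt (fun x : Fin n → ℝ => x i - c i)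
        (ContinuousLinearMap.proj i : (Fin n → ℝ) →L[ℝ] ℝ) x :=
      (ContinuousLinearMap.hasFDerivAt
        (ContinuousLinearMap.proj i : (Fin n → ℝ) →L[ℝ] ℝ)).sub_const _
    exact (hb (x i - c i)).comp_hasFDerivAt x h2
  have h3 := HasFDerivAt.finsetProd h1
  have h4 : HasFDerivAt (cubeBump c τ h) _ x := h3
  unfold pd
  rw [h4.fderiv]
  simp only [ContinuousLinearMap.sum_apply, ContinuousLinearMap.smul_apply,
    ContinuousLinearMap.proj_apply, smul_eq_mul]
  rw [Finset.sum_eq_single l]
  · simp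
  · intro b _ hb
    simp [hb]
  · simp

theorem abs_pd_cubeBump_le {C : ℝ} (hC : ∀ x, |deriv Real.smoothTransition x| ≤ C)
    (c : Fin n → ℝ) {τ h : ℝ} (hh : 0 < h) (l : Fin n) (x : Fin n → ℝ) :
    |pd l (cubeBump c τ h) x| ≤ 2 * C / h := by
  rw [pd_cubeBump, abs_mul, abs_of_nonneg (Finset.prod_nonneg fun _ _ => bump1_nonneg _ _ _)]
  calc _ ≤ 1 * (2 * C / h) := by
        gcongr
        · exact Finset.prod_le_one (fun _ _ => bump1_nonneg _ _ _) fun _ _ => bump1_le_one _ _ _
        · exact abs_deriv_bump1_le hC hh _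
    _ = _ := one_mul _

theorem pd_cubeBump_eq_zero {c : Fin n → ℝ} {τ h : ℝ} (hh : 0 < h) (hhτ : h < τ) (l : Fin n)
    {x : Fin n → ℝ} (hx : x ∉ closedBall c τ \ closedBall c (τ - h)) :
    pd l (cubeBump c τ h) x = 0 := by
  have hτ : 0 < τ := hh.trans hhτ
  rw [Set.mem_sdiff, not_and_or, not_not] at hx
  rcases hx with hx | hx
  · have : cubeBump c τ h =ᶠ[𝓝 x] fun _ => (0 : ℝ) := by
      have ho : (closedBall c τ)ᶜ ∈ 𝓝 x := isClosed_closedBall.isOpen_compl.mem_nhds hx
      filter_upwards [ho] with y hy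
      exact cubeBump_eq_zero hτ hh fun hy' => hy (ball_subset_closedBall hy')
    unfold pd
    rw [this.fderiv_eq]; simp
  · have hcl : IsClosed {x | pd l (cubeBump c τ h) x = 0} :=
      isClosed_eq (pd_continuous ((cubeBump_contDiff c τ h).of_le (by simp)) l) continuous_const
    have hsub : ball c (τ - h) ⊆ {x | pd l (cubeBump c τ h) x = 0} := by
      intro y hy
      have : cubeBump c τ h =ᶠ[𝓝 y] fun _ => (1 : ℝ) := by
        filter_upwards [isOpen_ball.mem_nhds hy] with z hz
        exact cubeBump_eq_one hh (ball_subset_closedBall hz)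
      simp only [mem_ofPred_eq]
      unfold pd
      rw [this.fderiv_eq]; simp
    have h2 := hcl.closure_subset_iff.2 hsub
    rw [closure_ball c (by intro h0; linarith : τ - h ≠ 0)] at h2
    exact h2 hx

/-! ### Sets with cutoffs of controlled weighted gradient -/

/-- `Cut α B A S F`: the indicator of `S` is a pointwise limit of smooth functions with values in
`[0,1]`, vanishing off `A`, whose gradients have `α`-weighted integral over `B` at most `F`. -/
def Cut (α : (Fin n → ℝ) → ℝ) (B A S : Set (Fin n → ℝ)) (F : ℝ) : Prop :=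
  ∃ χ : ℕ → (Fin n → ℝ) → ℝ, (∀ k, ContDiff ℝ (⊤ : ℕ∞) (χ k)) ∧
    (∀ k x, 0 ≤ χ k x ∧ χ k x ≤ 1) ∧ (∀ k x, x ∉ A → χ k x = 0) ∧
    (∀ x, Tendsto (fun k => χ k x) atTop (𝓝 (S.indicator (fun _ => (1 : ℝ)) x))) ∧
    (∀ᶠ k in atTop, ∫ x in B, (∑ l, |pd l (χ k) x|) * α x ≤ F)

theorem Cut.mono_support {α : (Fin n → ℝ) → ℝ} {B A A' S : Set (Fin n → ℝ)} {F : ℝ}
    (h : Cut α B A S F) (hA : A ⊆ A') : Cut α B A' S F := by
  obtain ⟨χ, h1, h2, h3, h4, h5⟩ := h
  exact ⟨χ, h1, h2, fun k x hx => h3 k x fun hx' => hx (hA hx'), h4, h5⟩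

theorem integrableOn_grad_mul {α : (Fin n → ℝ) → ℝ} (hi : Integrable α) {B : Set (Fin n → ℝ)}
    (hB : IsCompact B) {χ : (Fin n → ℝ) → ℝ} (hχ : ContDiff ℝ 1 χ) :
    IntegrableOn (fun x => (∑ l, |pd l χ x|) * α x) B := by
  have hc : Continuous fun x => ∑ l, |pd l χ x| :=
    continuous_finset_sum _ fun l _ => (pd_continuous hχ l).abs
  exact hi.integrableOn.continuousOn_mul hc.continuousOn hB

theorem Cut.ball {α : (Fin n → ℝ) → ℝ} (hα : ∀ x, 0 ≤ α x) (hi : Integrable α) {C : ℝ}
    (hC : ∀ x, |deriv Real.smoothTransition x| ≤ C)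
    {B : Set (Fin n → ℝ)} (hB : IsCompact B) {c : Fin n → ℝ} {τ F : ℝ} (hτ : 0 < τ)
    (hF : ∀ᶠ h in 𝓝[>] (0 : ℝ), ∫ x in closedBall c τ \ closedBall c (τ - h), α x ≤ F * h) :
    Cut α B (closedBall c τ) (Metric.ball c τ) (n * (2 * C) * F) := by
  have hC0 : 0 ≤ C := (abs_nonneg _).trans (hC 0)
  set hk : ℕ → ℝ := fun k => τ / (k + 2) with hhk
  have hkpos : ∀ k, 0 < hk k := fun k => by positivity
  have hklt : ∀ k, hk k < τ := fun k => by
    rw [hhk]; simp only
    rw [div_lt_iff₀ (by positivity)]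
    nlinarith [show (0 : ℝ) ≤ k from Nat.cast_nonneg k]
  have hk0 : Tendsto hk atTop (𝓝 0) := by
    have : Tendsto (fun k : ℕ => ((k : ℝ) + 2)) atTop atTop :=
      tendsto_atTop_add_const_right _ _ tendsto_natCast_atTop_atTop
    exact Tendsto.div_atTop tendsto_const_nhds this
  have hkw : Tendsto hk atTop (𝓝[>] 0) :=
    tendsto_nhdsWithin_of_tendsto_nhds_of_eventually_within _ hk0
      (Eventually.of_forall hkpos)
  refine ⟨fun k => cubeBump c τ (hk k), fun k => cubeBump_contDiff _ _ _,
    fun k x => ⟨cubeBump_nonneg _ _ _ _, cubeBump_le_one _ _ _ _⟩, fun k x hx => ?_, fun x => ?_, ?_⟩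
  · exact cubeBump_eq_zero hτ (hkpos k) fun hx' => hx (ball_subset_closedBall hx')
  · by_cases hx : x ∈ Metric.ball c τ
    · rw [indicator_of_mem hx]
      apply tendsto_const_nhds.congr'
      have h1 : ∀ᶠ k in atTop, hk k < τ - dist x c :=
        hk0.eventually (gt_mem_nhds (sub_pos.2 hx))
      filter_upwards [h1] with k hk1
      rw [cubeBump_eq_one (hkpos k)]
      rw [mem_closedBall]; linarith
    · rw [indicator_of_notMem hx]
      apply tendsto_const_nhds.congr'
      filter_upwards with k
      rw [cubeBump_eq_zero hτ (hkpos k) hx]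
  · filter_upwards [hkw.eventually hF] with k hk1
    have hle : ∀ x, (∑ l, |pd l (cubeBump c τ (hk k)) x|) * α x ≤
        (closedBall c τ \ closedBall c (τ - hk k)).indicator
          (fun x => n * (2 * C / hk k) * α x) x := by
      intro x
      by_cases hx : x ∈ closedBall c τ \ closedBall c (τ - hk k)
      · rw [indicator_of_mem hx]
        apply mul_le_mul_of_nonneg_right _ (hα x)
        calc _ ≤ ∑ _l : Fin n, 2 * C / hk k :=
              Finset.sum_le_sum fun l _ => abs_pd_cubeBump_le hC c (hkpos k) l x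
          _ = _ := by simp
      · rw [indicator_of_notMem hx]
        have : ∑ l, |pd l (cubeBump c τ (hk k)) x| = 0 :=
          Finset.sum_eq_zero fun l _ => by
            rw [pd_cubeBump_eq_zero (hkpos k) (hklt k) l hx, abs_zero]
        rw [this, zero_mul]
    have hms : MeasurableSet (closedBall c τ \ closedBall c (τ - hk k)) :=
      measurableSet_closedBall.diff measurableSet_closedBall
    have hii : Integrable ((closedBall c τ \ closedBall c (τ - hk k)).indicator
          (fun x => n * (2 * C / hk k) * α x)) := (hi.const_mul _).indicator hms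
    have hk1' := hk1
    calc ∫ x in B, (∑ l, |pd l (cubeBump c τ (hk k)) x|) * α x
        ≤ ∫ x in B, (closedBall c τ \ closedBall c (τ - hk k)).indicator
          (fun x => n * (2 * C / hk k) * α x) x := by
          apply setIntegral_mono_ae
            (integrableOn_grad_mul hi hB ((cubeBump_contDiff _ _ _).of_le (by simp)))
            hii.integrableOn
          exact Eventually.of_forall hle
      _ ≤ ∫ x, (closedBall c τ \ closedBall c (τ - hk k)).indicator
          (fun x => n * (2 * C / hk k) * α x) x := by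
          apply setIntegral_le_integral hii
          filter_upwards with x
          exact indicator_nonneg (fun x _ => mul_nonneg (by have := hkpos k; positivity) (hα x)) x
      _ = n * (2 * C / hk k) * ∫ x in closedBall c τ \ closedBall c (τ - hk k), α x := by
          rw [integral_indicator hms, integral_const_mul]
      _ ≤ n * (2 * C / hk k) * (F * hk k) := by
          apply mul_le_mul_of_nonneg_left hk1
          have := hkpos k; positivity
      _ = n * (2 * C) * F := by
          have := (hkpos k).ne'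
          field_simp

theorem pd_mul {φ ψ : (Fin n → ℝ) → ℝ} (hφ : ContDiff ℝ 1 φ) (hψ : ContDiff ℝ 1 ψ) (l : Fin n)
    (x : Fin n → ℝ) : pd l (fun x => φ x * ψ x) x = φ x * pd l ψ x + pd l φ x * ψ x := by
  unfold pd
  rw [fderiv_fun_mul (hφ.differentiable one_ne_zero x) (hψ.differentiable one_ne_zero x)]
  simp [mul_comm]

theorem pd_one_sub {φ : (Fin n → ℝ) → ℝ} (l : Fin n) (x : Fin n → ℝ) :
    pd l (fun x => 1 - φ x) x = - pd l φ x := by
  unfold pd
  rw [fderiv_const_sub]
  simp

theorem Cut.diff {α : (Fin n → ℝ) → ℝ} (hα : ∀ x, 0 ≤ α x) (hi : Integrable α)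
    {B A S S' : Set (Fin n → ℝ)} (hB : IsCompact B) {F F' : ℝ}
    (h : Cut α B A S F) (h' : Cut α B univ S' F') : Cut α B A (S \ S') (F + F') := by
  obtain ⟨χ, h1, h2, h3, h4, h5⟩ := h
  obtain ⟨χ', h1', h2', h3', h4', h5'⟩ := h'
  refine ⟨fun k x => χ k x * (1 - χ' k x), fun k => (h1 k).mul (contDiff_const.sub (h1' k)),
    fun k x => ⟨mul_nonneg (h2 k x).1 (by linarith [(h2' k x).2]),
      mul_le_one₀ (h2 k x).2 (by linarith [(h2' k x).2]) (by linarith [(h2' k x).1])⟩,
    fun k x hx => by simp only [h3 k x hx, zero_mul], fun x => ?_, ?_⟩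
  · have := (h4 x).mul ((h4' x).const_sub 1)
    convert! this using 2
    by_cases hx : x ∈ S <;> by_cases hx' : x ∈ S' <;> simp [hx, hx']
  · filter_upwards [h5, h5'] with k hk hk'
    have c1 : ContDiff ℝ 1 (χ k) := (h1 k).of_le (by simp)
    have c1' : ContDiff ℝ 1 (χ' k) := (h1' k).of_le (by simp)
    have c2 : ContDiff ℝ 1 (fun x => 1 - χ' k x) := contDiff_const.sub c1'
    calc _ ≤ ∫ x in B, ((∑ l, |pd l (χ k) x|) * α x + (∑ l, |pd l (χ' k) x|) * α x) := by
          apply setIntegral_mono_ae (integrableOn_grad_mul hi hB (c1.mul c2))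
            ((integrableOn_grad_mul hi hB c1).add (integrableOn_grad_mul hi hB c1'))
          filter_upwards with x
          simp only [Pi.add_apply]
          rw [← add_mul, ← Finset.sum_add_distrib]
          apply mul_le_mul_of_nonneg_right _ (hα x)
          apply Finset.sum_le_sum
          intro l _
          rw [pd_mul c1 c2, pd_one_sub]
          calc _ ≤ |χ k x * -pd l (χ' k) x| + |pd l (χ k) x * (1 - χ' k x)| := abs_add_le _ _
            _ ≤ 1 * |pd l (χ' k) x| + |pd l (χ k) x| * 1 := by
                rw [abs_mul, abs_mul, abs_neg]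
                have e1 : |χ k x| ≤ 1 := abs_le.2 ⟨by linarith [(h2 k x).1], (h2 k x).2⟩
                have e2 : |1 - χ' k x| ≤ 1 :=
                  abs_le.2 ⟨by linarith [(h2' k x).2], by linarith [(h2' k x).1]⟩
                gcongr
            _ = _ := by ring
      _ = _ := integral_add (integrableOn_grad_mul hi hB c1) (integrableOn_grad_mul hi hB c1')
      _ ≤ F + F' := add_le_add hk hk'

theorem Cut.diff_biUnion {ι : Type*} {α : (Fin n → ℝ) → ℝ} (hα : ∀ x, 0 ≤ α x)
    (hi : Integrable α) {B A S : Set (Fin n → ℝ)} (hB : IsCompact B) {F : ℝ}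
    (h : Cut α B A S F) (s : Finset ι) {S' : ι → Set (Fin n → ℝ)} {F' : ι → ℝ}
    (h' : ∀ j ∈ s, Cut α B univ (S' j) (F' j)) :
    Cut α B A (S \ ⋃ j ∈ s, S' j) (F + ∑ j ∈ s, F' j) := by
  classical
  induction s using Finset.induction_on with
  | empty => simpa using h
  | insert a s ha ih =>
    have h1 := ih fun j hj => h' j (Finset.mem_insert_of_mem hj)
    have h2 := Cut.diff hα hi hB h1 (h' a (Finset.mem_insert_self _ _))
    rw [Finset.sum_insert ha, Finset.set_biUnion_insert]
    have e1 : S \ (S' a ∪ ⋃ j ∈ s, S' j) = (S \ ⋃ j ∈ s, S' j) \ S' a := by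
      rw [diff_diff, union_comm]
    rw [e1]
    have e2 : F + (F' a + ∑ j ∈ s, F' j) = F + ∑ j ∈ s, F' j + F' a := by ring
    rw [e2]
    exact h2

/-! ### The flux bound -/

theorem hasCompactSupport_of_zero_off {B : Set (Fin n → ℝ)} (hB : IsCompact B)
    {χ : (Fin n → ℝ) → ℝ} (h : ∀ x, x ∉ B → χ x = 0) : HasCompactSupport χ :=
  HasCompactSupport.intro hB h

theorem pd_integral_by_parts {φ ψ : (Fin n → ℝ) → ℝ} (hφ : ContDiff ℝ 1 φ)
    (hs : HasCompactSupport φ) (hψ : ContDiff ℝ 1 ψ) (l : Fin n) :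
    ∫ x, φ x * pd l ψ x = - ∫ x, pd l φ x * ψ x := by
  have hc1 : Continuous (pd l φ) := pd_continuous hφ l
  have hc2 : Continuous (pd l ψ) := pd_continuous hψ l
  have hs1 : HasCompactSupport (pd l φ) := by
    unfold pd
    exact (hs.fderiv_apply (𝕜 := ℝ) _)
  unfold pd
  apply integral_mul_fderiv_eq_neg_fderiv_mul_of_integrable
  · exact (hc1.mul hψ.continuous).integrable_of_hasCompactSupport hs1.mul_right
  · exact (hφ.continuous.mul hc2).integrable_of_hasCompactSupport hs.mul_right
  · exact (hφ.continuous.mul hψ.continuous).integrable_of_hasCompactSupport hs.mul_right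
  · exact fun x _ => hφ.differentiable one_ne_zero x
  · exact fun x _ => hψ.differentiable one_ne_zero x

theorem dv_continuous {V : (Fin n → ℝ) → (Fin n → ℝ)} (hV : ContDiff ℝ 1 V) :
    Continuous (dv V) := by
  unfold dv
  exact continuous_finset_sum _ fun l _ => pd_continuous (contDiff_pi.1 hV l) l

/-- Divergence theorem with a compactly supported multiplier. -/
theorem integral_mul_dv {φ : (Fin n → ℝ) → ℝ} (hφ : ContDiff ℝ 1 φ) (hs : HasCompactSupport φ)
    {V : (Fin n → ℝ) → (Fin n → ℝ)} (hV : ContDiff ℝ 1 V) :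
    ∫ x, φ x * dv V x = - ∫ x, ∑ l, pd l φ x * V x l := by
  have hV' : ∀ l, ContDiff ℝ 1 fun x => V x l := contDiff_pi.1 hV
  have hs1 : ∀ l, HasCompactSupport (pd l φ) := fun l => by
    unfold pd
    exact (hs.fderiv_apply (𝕜 := ℝ) _)
  unfold dv
  simp_rw [Finset.mul_sum]
  rw [integral_finset_sum, integral_finset_sum, ← Finset.sum_neg_distrib]
  · apply Finset.sum_congr rfl
    intro l _
    exact pd_integral_by_parts hφ hs (hV' l) l
  · intro l _
    exact ((pd_continuous hφ l).mul (hV' l).continuous).integrable_of_hasCompactSupport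
      (hs1 l).mul_right
  · intro l _
    exact (hφ.continuous.mul (pd_continuous (hV' l) l)).integrable_of_hasCompactSupport
      hs.mul_right

theorem flux_bound {α : (Fin n → ℝ) → ℝ} (hα : ∀ x, 0 ≤ α x) (hi : Integrable α)
    {B S : Set (Fin n → ℝ)} (hB : IsCompact B) (hS : MeasurableSet S) {F T Z : ℝ} (hT : 0 ≤ T)
    (hZ0 : 0 ≤ Z)
    (hcut : Cut α B B S F) {V : (Fin n → ℝ) → (Fin n → ℝ)} (hV : ContDiff ℝ 1 V)
    {ζ : (Fin n → ℝ) → ℝ} (hζ : ContDiff ℝ 1 ζ) (hVα : ∀ x ∈ B, ∀ l, |V x l| ≤ T * α x)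
    (hZ : ∀ x ∈ B, |ζ x| ≤ Z) :
    |∫ x in S, ζ x * dv V x| ≤ (∫ x in S, ∑ l, |pd l ζ x| * |V x l|) + Z * T * F := by
  obtain ⟨χ, h1, h2, h3, h4, h5⟩ := hcut
  have hBm : MeasurableSet B := hB.measurableSet
  have hcdv := dv_continuous hV
  have hcV : ∀ l, Continuous fun x => V x l := fun l => (contDiff_pi.1 hV l).continuous
  have hSB : ∀ x, x ∉ B → S.indicator (fun _ => (1 : ℝ)) x = 0 := by
    intro x hx
    have := h4 x
    have h6 : (fun k => χ k x) = fun _ => (0 : ℝ) := by
      ext k; exact h3 k x hx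
    rw [h6] at this
    exact (tendsto_nhds_unique tendsto_const_nhds this).symm
  -- limit of the left-hand sides
  have lim1 : Tendsto (fun k => ∫ x, χ k x * (ζ x * dv V x)) atTop
      (𝓝 (∫ x in S, ζ x * dv V x)) := by
    rw [← integral_indicator hS]
    apply tendsto_integral_of_dominated_convergence (B.indicator fun x => |ζ x * dv V x|)
    · intro k
      exact ((h1 k).continuous.mul (hζ.continuous.mul hcdv)).aestronglyMeasurable
    · rw [integrable_indicator_iff hBm]
      exact ((hζ.continuous.mul hcdv).abs.continuousOn).integrableOn_compact hB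
    · intro k
      filter_upwards with x
      by_cases hx : x ∈ B
      · rw [indicator_of_mem hx, norm_mul, Real.norm_eq_abs, Real.norm_eq_abs,
          abs_of_nonneg (h2 k x).1]
        exact mul_le_of_le_one_left (abs_nonneg _) (h2 k x).2
      · rw [indicator_of_notMem hx, h3 k x hx]; simp
    · filter_upwards with x
      have := (h4 x).mul_const (ζ x * dv V x)
      convert! this using 2
      by_cases hx : x ∈ S <;> simp [hx]
  have lim2 : Tendsto (fun k => ∫ x, χ k x * ∑ l, |pd l ζ x| * |V x l|) atTop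
      (𝓝 (∫ x in S, ∑ l, |pd l ζ x| * |V x l|)) := by
    have hcs : Continuous fun x => ∑ l, |pd l ζ x| * |V x l| :=
      continuous_finset_sum _ fun l _ => (pd_continuous hζ l).abs.mul (hcV l).abs
    rw [← integral_indicator hS]
    apply tendsto_integral_of_dominated_convergence
      (B.indicator fun x => abs (∑ l, |pd l ζ x| * |V x l|))
    · intro k
      exact ((h1 k).continuous.mul hcs).aestronglyMeasurable
    · rw [integrable_indicator_iff hBm]
      exact (hcs.abs.continuousOn).integrableOn_compact hB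
    · intro k
      filter_upwards with x
      by_cases hx : x ∈ B
      · rw [indicator_of_mem hx, norm_mul, Real.norm_eq_abs, Real.norm_eq_abs,
          abs_of_nonneg (h2 k x).1]
        exact mul_le_of_le_one_left (abs_nonneg _) (h2 k x).2
      · rw [indicator_of_notMem hx, h3 k x hx]; simp
    · filter_upwards with x
      have := (h4 x).mul_const (∑ l, |pd l ζ x| * |V x l|)
      convert! this using 2
      by_cases hx : x ∈ S <;> simp [hx]
  have key : ∀ᶠ k in atTop, |∫ x, χ k x * (ζ x * dv V x)| ≤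
      (∫ x, χ k x * ∑ l, |pd l ζ x| * |V x l|) + Z * T * F := by
    filter_upwards [h5] with k hk
    have c1 : ContDiff ℝ 1 (χ k) := (h1 k).of_le (by simp)
    have cs : HasCompactSupport (χ k) := hasCompactSupport_of_zero_off hB (h3 k)
    have cs1 : ∀ l, HasCompactSupport (pd l (χ k)) := fun l => by
      unfold pd
      exact (cs.fderiv_apply (𝕜 := ℝ) _)
    have c2 : ContDiff ℝ 1 (fun x => χ k x * ζ x) := c1.mul hζ
    have cs2 : HasCompactSupport (fun x => χ k x * ζ x) := cs.mul_right
    have e1 : ∫ x, χ k x * (ζ x * dv V x) = - ∫ x, ∑ l, pd l (fun x => χ k x * ζ x) x * V x l := by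
      rw [← integral_mul_dv c2 cs2 hV]
      congr 1; ext x; ring
    have hzero : ∀ x, x ∉ B → ∀ l, pd l (χ k) x = 0 := by
      intro x hx l
      have : χ k =ᶠ[𝓝 x] fun _ => (0 : ℝ) := by
        filter_upwards [hB.isClosed.isOpen_compl.mem_nhds hx] with y hy
        exact h3 k y hy
      unfold pd
      rw [this.fderiv_eq]; simp
    have hle : ∀ x, |∑ l, pd l (fun x => χ k x * ζ x) x * V x l| ≤
        χ k x * (∑ l, |pd l ζ x| * |V x l|) +
          Z * T * B.indicator (fun x => (∑ l, |pd l (χ k) x|) * α x) x := by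
      intro x
      have e2 : ∀ l, pd l (fun x => χ k x * ζ x) x * V x l =
          χ k x * (pd l ζ x * V x l) + ζ x * (pd l (χ k) x * V x l) := by
        intro l
        rw [pd_mul c1 hζ]; ring
      simp_rw [e2]
      rw [Finset.sum_add_distrib, ← Finset.mul_sum, ← Finset.mul_sum]
      refine (abs_add_le _ _).trans (add_le_add ?_ ?_)
      · rw [abs_mul, abs_of_nonneg (h2 k x).1]
        apply mul_le_mul_of_nonneg_left _ (h2 k x).1
        refine (Finset.abs_sum_le_sum_abs _ _).trans (Finset.sum_le_sum fun l _ => ?_)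
        rw [abs_mul]
      · by_cases hx : x ∈ B
        · rw [indicator_of_mem hx, abs_mul]
          have e3 : |∑ l, pd l (χ k) x * V x l| ≤ T * ((∑ l, |pd l (χ k) x|) * α x) := by
            refine (Finset.abs_sum_le_sum_abs _ _).trans ?_
            rw [Finset.sum_mul, Finset.mul_sum]
            apply Finset.sum_le_sum
            intro l _
            rw [abs_mul]
            calc _ ≤ |pd l (χ k) x| * (T * α x) :=
                  mul_le_mul_of_nonneg_left (hVα x hx l) (abs_nonneg _)
              _ = _ := by ring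
          calc _ ≤ Z * (T * ((∑ l, |pd l (χ k) x|) * α x)) :=
                mul_le_mul (hZ x hx) e3 (abs_nonneg _) hZ0
            _ = _ := by ring
        · rw [indicator_of_notMem hx]
          have : ∑ l, pd l (χ k) x * V x l = 0 :=
            Finset.sum_eq_zero fun l _ => by rw [hzero x hx l, zero_mul]
          rw [this]; simp
    have hcs : Continuous fun x => ∑ l, |pd l ζ x| * |V x l| :=
      continuous_finset_sum _ fun l _ => (pd_continuous hζ l).abs.mul (hcV l).abs
    have i1 : Integrable fun x => χ k x * (∑ l, |pd l ζ x| * |V x l|) :=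
      (c1.continuous.mul hcs).integrable_of_hasCompactSupport cs.mul_right
    have i2 : Integrable (B.indicator (fun x => (∑ l, |pd l (χ k) x|) * α x)) :=
      (integrable_indicator_iff hBm).2 (integrableOn_grad_mul hi hB c1)
    rw [e1, abs_neg]
    calc |∫ x, ∑ l, pd l (fun x => χ k x * ζ x) x * V x l|
        ≤ ∫ x, (χ k x * (∑ l, |pd l ζ x| * |V x l|) +
          Z * T * B.indicator (fun x => (∑ l, |pd l (χ k) x|) * α x) x) := by
          have i3 : Integrable fun x => (χ k x * (∑ l, |pd l ζ x| * |V x l|) +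
              Z * T * B.indicator (fun x => (∑ l, |pd l (χ k) x|) * α x) x) :=
            i1.add (i2.const_mul _)
          rw [← Real.norm_eq_abs]
          exact norm_integral_le_of_norm_le i3 (Eventually.of_forall fun x => by
            rw [Real.norm_eq_abs]; exact hle x)
      _ = (∫ x, χ k x * (∑ l, |pd l ζ x| * |V x l|)) +
          Z * T * ∫ x in B, (∑ l, |pd l (χ k) x|) * α x := by
          rw [integral_add i1 (i2.const_mul _), integral_const_mul, integral_indicator hBm]
      _ ≤ _ := by
          have := mul_le_mul_of_nonneg_left hk (mul_nonneg hZ0 hT)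
          linarith
  exact le_of_tendsto_of_tendsto lim1.abs (lim2.add_const _) key

end Pool.Agent.MP8995
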