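import Mathlib
import Pool.Agent.Lib.MP_8995c5_an.Diff

/-!
# The essential image of a set under a Sobolev map
-/

set_option autoImplicit false

open MeasureTheory Metric Set Filter Topology
open scoped ENNReal NNReal

namespace Pool.Agent.MP8995

variable {n : ℕ}

/-- the continuous linear map of a matrix -/
noncomputable def clm (M : Matrix (Fin n) (Fin n) ℝ) : (Fin n → ℝ) →L[ℝ] (Fin n → ℝ) :=
  LinearMap.toContinuousLinearMap (Matrix.toLin' M)

theorem clm_apply (M : Matrix (Fin n) (Fin n) ℝ) (v : Fin n → ℝ) : clm M v = M.mulVec v := rfl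

theorem clm_det (M : Matrix (Fin n) (Fin n) ℝ) : (clm M).det = M.det := by
  unfold clm
  rw [LinearMap.det_toContinuousLinearMap, LinearMap.det_toLin']

theorem integral_closedBall_odd (L : (Fin n → ℝ) →L[ℝ] (Fin n → ℝ)) (x : Fin n → ℝ) (ρ : ℝ) :
    ∫ y in closedBall x ρ, L (y - x) = 0 := by
  have h1 := (measurePreserving_add_right (volume : Measure (Fin n → ℝ)) x
    ).setIntegral_preimage_emb (measurableEmbedding_addRight x) (fun y => L (y - x))
    (closedBall x ρ)
  have h2 : (fun z => z + x) ⁻¹' closedBall x ρ = closedBall (0 : Fin n → ℝ) ρ := by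
    ext z; simp [dist_eq_norm]
  rw [← h1, h2]
  simp only [add_sub_cancel_right]
  set F : (Fin n → ℝ) → (Fin n → ℝ) := indicator (closedBall 0 ρ) fun z => L z with hF
  have h3 : ∫ z in closedBall (0 : Fin n → ℝ) ρ, L z = ∫ z, F z :=
    (integral_indicator measurableSet_closedBall).symm
  have h4 : ∀ z, F (-z) = - F z := by
    intro z
    rw [hF]
    by_cases hz : z ∈ closedBall (0 : Fin n → ℝ) ρ
    · have hz' : -z ∈ closedBall (0 : Fin n → ℝ) ρ := by
        rw [mem_closedBall_zero_iff] at hz ⊢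
        rwa [norm_neg]
      rw [indicator_of_mem hz, indicator_of_mem hz', map_neg]
    · have hz' : -z ∉ closedBall (0 : Fin n → ℝ) ρ := by
        rw [mem_closedBall_zero_iff] at hz ⊢
        rwa [norm_neg]
      rw [indicator_of_notMem hz, indicator_of_notMem hz', neg_zero]
  rw [h3]
  have h5 : ∫ z, F z = - ∫ z, F z := by
    conv_lhs => rw [← integral_neg_eq_self F volume]
    simp only [h4]
    rw [integral_neg]
  have h6 : (2 : ℝ) • ∫ z, F z = 0 := by
    rw [two_smul]
    nth_rewrite 1 [h5]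
    exact neg_add_cancel _
  exact (smul_eq_zero.1 h6).resolve_left two_ne_zero

/-- the rescaled integral measuring the deviation from the affine approximation -/
noncomputable def dev (f : (Fin n → ℝ) → (Fin n → ℝ))
    (Df : (Fin n → ℝ) → Matrix (Fin n) (Fin n) ℝ) (k : ℕ) (x : Fin n → ℝ) : ℝ :=
  (((1 / 2 : ℝ) ^ k) ^ (n + 1))⁻¹ *
    ∫ y in closedBall x ((1 / 2 : ℝ) ^ k), ‖f y - f x - (Df x).mulVec (y - x)‖

theorem measurable_mulVec {Df : (Fin n → ℝ) → Matrix (Fin n) (Fin n) ℝ}
    (hm : ∀ i j, Measurable fun x => Df x i j) :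
    Measurable fun p : (Fin n → ℝ) × (Fin n → ℝ) => (Df p.1).mulVec (p.2 - p.1) := by
  refine measurable_pi_lambda _ fun i => ?_
  simp only [Matrix.mulVec, dotProduct]
  refine Finset.measurable_sum _ fun j _ => ?_
  exact ((hm i j).comp measurable_fst).mul
    ((measurable_pi_apply j).comp (measurable_snd.sub measurable_fst))

theorem stronglyMeasurable_dev {f : (Fin n → ℝ) → (Fin n → ℝ)}
    {Df : (Fin n → ℝ) → Matrix (Fin n) (Fin n) ℝ}
    (hf : Measurable f) (hm : ∀ i j, Measurable fun x => Df x i j) (k : ℕ) :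
    StronglyMeasurable (dev f Df k) := by
  unfold dev
  refine StronglyMeasurable.const_mul ?_ _
  have h1 : ∀ x, ∫ y in closedBall x ((1 / 2 : ℝ) ^ k), ‖f y - f x - (Df x).mulVec (y - x)‖ =
      ∫ y, indicator {p : (Fin n → ℝ) × (Fin n → ℝ) | dist p.2 p.1 ≤ (1 / 2 : ℝ) ^ k}
        (fun p => ‖f p.2 - f p.1 - (Df p.1).mulVec (p.2 - p.1)‖) (x, y) := by
    intro x
    rw [← integral_indicator measurableSet_closedBall]
    rfl
  simp only [h1]
  refine StronglyMeasurable.integral_prod_right' (f := indicator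
    {p : (Fin n → ℝ) × (Fin n → ℝ) | dist p.2 p.1 ≤ (1 / 2 : ℝ) ^ k}
        (fun p => ‖f p.2 - f p.1 - (Df p.1).mulVec (p.2 - p.1)‖)) ?_
  refine (Measurable.indicator ?_ ?_).stronglyMeasurable
  · exact (((hf.comp measurable_snd).sub (hf.comp measurable_fst)).sub
      (measurable_mulVec hm)).norm
  · exact measurableSet_le (measurable_snd.dist measurable_fst) measurable_const

theorem Sob.integrable_f {U : Set (Fin n → ℝ)} {f : (Fin n → ℝ) → (Fin n → ℝ)}
    {Df : (Fin n → ℝ) → Matrix (Fin n) (Fin n) ℝ} (h : Sob n U f Df) : Integrable f := by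
  have hI : Integrable (fun x => ∑ i, |f x i|) :=
    integrable_finsetSum _ fun i _ => (h.int_f i).abs
  refine hI.mono' (measurable_pi_lambda _ h.meas_f).aestronglyMeasurable
    (Eventually.of_forall fun x => ?_)
  rw [pi_norm_le_iff_of_nonneg (Finset.sum_nonneg fun i _ => abs_nonneg _)]
  intro i
  exact Finset.single_le_sum (f := fun i => |f x i|) (fun l _ => abs_nonneg _)
    (Finset.mem_univ i)

/-- uniform smallness of the deviations on a set gives differentiability within the set -/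
theorem hasFDerivWithinAt_of_dev {U : Set (Fin n → ℝ)} {f : (Fin n → ℝ) → (Fin n → ℝ)}
    {Df : (Fin n → ℝ) → Matrix (Fin n) (Fin n) ℝ} (h : Sob n U f Df) {K : Set (Fin n → ℝ)}
    (hK : ∀ c > 0, ∃ N : ℕ, ∀ k ≥ N, ∀ x ∈ K, dev f Df k x ≤ c) {x : Fin n → ℝ} (hx : x ∈ K) :
    HasFDerivWithinAt f (clm (Df x)) K x := by
  rw [hasFDerivWithinAt_iff_isLittleO, Asymptotics.isLittleO_iff]
  intro c hc
  set c' : ℝ := c / (2 * (2 ^ (n + 1) + 1)) with hc'
  have hc'0 : 0 < c' := by positivity
  obtain ⟨N, hN⟩ := hK c' hc'0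
  rw [eventually_nhdsWithin_iff, Metric.eventually_nhds_iff]
  refine ⟨(1 / 2) ^ (N + 1), by positivity, fun {x'} hxx' hx' => ?_⟩
  rcases eq_or_ne x' x with rfl | hne
  · simp
  have hpos : 0 < ‖x' - x‖ := norm_pos_iff.2 (sub_ne_zero.2 hne)
  have hle1 : ‖x' - x‖ ≤ 1 := by
    rw [dist_eq_norm] at hxx'
    refine hxx'.le.trans ?_
    exact pow_le_one₀ (by norm_num) (by norm_num)
  obtain ⟨k, hk1, hk2⟩ := exists_nat_pow_near_of_lt_one hpos hle1
    (by norm_num : (0 : ℝ) < 1 / 2) (by norm_num)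
  have hkN : N + 1 ≤ k := by
    by_contra hcon
    push Not at hcon
    have h1 : (1 / 2 : ℝ) ^ (N + 1) ≤ (1 / 2 : ℝ) ^ (k + 1) :=
      pow_le_pow_of_le_one (by norm_num) (by norm_num) (by omega)
    rw [dist_eq_norm] at hxx'
    linarith
  obtain ⟨m, rfl⟩ : ∃ m, k = m + 1 := ⟨k - 1, by omega⟩
  set ρ : ℝ := (1 / 2) ^ (m + 1) with hρ
  have hρ0 : 0 < ρ := by positivity
  have hρm : (1 / 2 : ℝ) ^ m = 2 * ρ := by rw [hρ, pow_succ]; ring
  have hd1 := hN m (by omega) x hx
  have hd2 := hN (m + 1) (by omega) x' hx'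
  unfold dev at hd1 hd2
  rw [hρm, inv_mul_le_iff₀ (by positivity)] at hd1
  rw [← hρ, inv_mul_le_iff₀ (by positivity)] at hd2
  -- the affine difference
  set L : (Fin n → ℝ) →L[ℝ] (Fin n → ℝ) := clm (Df x) - clm (Df x') with hL
  set a : Fin n → ℝ := f x' - f x - clm (Df x) (x' - x) with ha
  have hell : ∀ y, (f y - f x - (Df x).mulVec (y - x)) - (f y - f x' - (Df x').mulVec (y - x')) =
      a - L (y - x') := by
    intro y
    rw [ha, hL, _root_.sub_apply, ← clm_apply, ← clm_apply]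
    have : y - x = (y - x') + (x' - x) := by abel
    rw [this, map_add]
    abel
  have hfi : ∀ (z : Fin n → ℝ) (s : ℝ) (c : Fin n → ℝ) (M : Matrix (Fin n) (Fin n) ℝ)
      (z' : Fin n → ℝ), IntegrableOn (fun y => f y - c - M.mulVec (y - z')) (closedBall z s) := by
    intro z s c M z'
    refine (h.integrable_f.integrableOn.sub (integrableOn_const
      (measure_closedBall_lt_top).ne)).sub ?_
    exact ContinuousOn.integrableOn_compact (isCompact_closedBall _ _)
      (Continuous.continuousOn ((clm M).continuous.comp (continuous_id.sub continuous_const)))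
  have hLi : IntegrableOn (fun y => L (y - x')) (closedBall x' ρ) :=
    ContinuousOn.integrableOn_compact (isCompact_closedBall _ _)
      (Continuous.continuousOn (L.continuous.comp (continuous_id.sub continuous_const)))
  have hconst : IntegrableOn (fun _ : Fin n → ℝ => a) (closedBall x' ρ) :=
    integrableOn_const (measure_closedBall_lt_top).ne
  have e1 : ∫ y in closedBall x' ρ, (a - L (y - x')) = ((2 * ρ) ^ n : ℝ) • a := by
    rw [integral_sub hconst hLi, integral_closedBall_odd, sub_zero, setIntegral_const,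
      volume_real_closedBall x' hρ0.le]
  have hsub : closedBall x' ρ ⊆ closedBall x (2 * ρ) := by
    intro y hy
    rw [mem_closedBall] at hy ⊢
    have h1 := dist_triangle y x' x
    have h2 : dist x' x ≤ ρ := by rw [dist_eq_norm]; exact hk2
    linarith
  have e2 : ‖((2 * ρ) ^ n : ℝ) • a‖ ≤
      (2 * ρ) ^ (n + 1) * c' + ρ ^ (n + 1) * c' := by
    rw [← e1]
    refine (norm_integral_le_integral_norm _).trans ?_
    calc ∫ y in closedBall x' ρ, ‖a - L (y - x')‖
        ≤ ∫ y in closedBall x' ρ, (‖f y - f x - (Df x).mulVec (y - x)‖ +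
            ‖f y - f x' - (Df x').mulVec (y - x')‖) := by
          refine setIntegral_mono_on (hconst.sub hLi).norm
            ((hfi _ _ _ _ _).norm.add (hfi _ _ _ _ _).norm) measurableSet_closedBall
            fun y _ => ?_
          rw [← hell y]
          exact norm_sub_le _ _
      _ = (∫ y in closedBall x' ρ, ‖f y - f x - (Df x).mulVec (y - x)‖) +
            ∫ y in closedBall x' ρ, ‖f y - f x' - (Df x').mulVec (y - x')‖ :=
          integral_add (hfi _ _ _ _ _).norm (hfi _ _ _ _ _).norm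
      _ ≤ (∫ y in closedBall x (2 * ρ), ‖f y - f x - (Df x).mulVec (y - x)‖) +
            ∫ y in closedBall x' ρ, ‖f y - f x' - (Df x').mulVec (y - x')‖ := by
          refine add_le_add (setIntegral_mono_set (hfi _ _ _ _ _).norm
            (Eventually.of_forall fun y => norm_nonneg _) (LE.le.eventuallyLE hsub))
            le_rfl
      _ ≤ (2 * ρ) ^ (n + 1) * c' + ρ ^ (n + 1) * c' := add_le_add hd1 hd2
  rw [norm_smul, Real.norm_eq_abs, abs_of_pos (by positivity)] at e2
  -- conclusion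
  have h3 : ‖a‖ ≤ c' * (2 ^ (n + 1) + 1) * ρ := by
    have h4 : (ρ : ℝ) ^ n * ‖a‖ ≤ ρ ^ n * (c' * (2 ^ (n + 1) + 1) * ρ) := by
      calc (ρ : ℝ) ^ n * ‖a‖ ≤ (2 * ρ) ^ n * ‖a‖ := by
            gcongr
            linarith
        _ ≤ (2 * ρ) ^ (n + 1) * c' + ρ ^ (n + 1) * c' := e2
        _ = ρ ^ n * (c' * (2 ^ (n + 1) + 1) * ρ) := by rw [mul_pow, pow_succ, pow_succ]; ring
    exact le_of_mul_le_mul_left h4 (by positivity)
  have h5 : ρ ≤ 2 * ‖x' - x‖ := by
    have : (1 / 2 : ℝ) ^ (m + 1 + 1) = ρ / 2 := by rw [pow_succ, hρ]; ring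
    rw [this] at hk1
    linarith
  calc ‖a‖ ≤ c' * (2 ^ (n + 1) + 1) * ρ := h3
    _ ≤ c' * (2 ^ (n + 1) + 1) * (2 * ‖x' - x‖) := by gcongr
    _ = c * ‖x' - x‖ := by
        rw [hc']
        field_simp

/-- countable decomposition into pieces on which `f` is injective and differentiable -/
theorem exists_pieces {f : (Fin n → ℝ) → (Fin n → ℝ)}
    {Df : (Fin n → ℝ) → Matrix (Fin n) (Fin n) ℝ} {P : Set (Fin n → ℝ)}
    (hP : MeasurableSet P)
    (hd : ∀ x ∈ P, HasFDerivWithinAt f (clm (Df x)) P x) (hdet : ∀ x ∈ P, (Df x).det ≠ 0) :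
    ∃ T : ℕ → Set (Fin n → ℝ), (∀ l, MeasurableSet (T l)) ∧ Pairwise (Function.onFun Disjoint T) ∧
      (⋃ l, T l = P) ∧ ∀ l, InjOn f (T l) := by
  classical
  let r : ((Fin n → ℝ) →L[ℝ] (Fin n → ℝ)) → ℝ≥0 := fun A =>
    if h : A.det ≠ 0 then
      (if ‖((A.toContinuousLinearEquivOfDetNeZero h).symm : (Fin n → ℝ) →L[ℝ] (Fin n → ℝ))‖₊ = 0
        then 1
        else ‖((A.toContinuousLinearEquivOfDetNeZero h).symm :
          (Fin n → ℝ) →L[ℝ] (Fin n → ℝ))‖₊⁻¹ / 2) else 1
  have hr : ∀ A, r A ≠ 0 := by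
    intro A
    simp only [r]
    split_ifs with h1 h2
    · exact one_ne_zero
    · exact div_ne_zero (inv_ne_zero h2) two_ne_zero
    · exact one_ne_zero
  obtain ⟨t, A, ht1, ht2, ht3, ht4, ht5⟩ :=
    exists_partition_approximatesLinearOn_of_hasFDerivWithinAt f P (fun x => clm (Df x)) hd r hr
  refine ⟨fun l => P ∩ t l, fun l => hP.inter (ht2 l), ?_, ?_, ?_⟩
  · intro a b hab
    exact (ht1 hab).mono inter_subset_right inter_subset_right
  · rw [← inter_iUnion]
    exact inter_eq_left.2 ht3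
  · intro l
    rcases P.eq_empty_or_nonempty with hPe | hPn
    · rw [hPe]; simp
    obtain ⟨y, hy, hAy⟩ := ht5 hPn l
    have hA : (A l).det ≠ 0 := by rw [hAy, clm_det]; exact hdet y hy
    have happ := ht4 l
    have hcoe : ((A l).toContinuousLinearEquivOfDetNeZero hA :
        (Fin n → ℝ) →L[ℝ] (Fin n → ℝ)) = A l := by
      simp
    rw [← hcoe] at happ
    refine happ.injOn ?_
    by_cases h0 : ‖(((A l).toContinuousLinearEquivOfDetNeZero hA).symm :
        (Fin n → ℝ) →L[ℝ] (Fin n → ℝ))‖₊ = 0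
    · left
      have h1 : (((A l).toContinuousLinearEquivOfDetNeZero hA).symm :
        (Fin n → ℝ) →L[ℝ] (Fin n → ℝ)) = 0 := by
        rwa [nnnorm_eq_zero] at h0
      refine ⟨fun a b => ?_⟩
      have h2 : ∀ v : Fin n → ℝ, v = 0 := by
        intro v
        have h3 := ((A l).toContinuousLinearEquivOfDetNeZero hA).symm_apply_apply v
        have h4 : ((A l).toContinuousLinearEquivOfDetNeZero hA).symm
            (((A l).toContinuousLinearEquivOfDetNeZero hA) v) = 0 := by
          change ((((A l).toContinuousLinearEquivOfDetNeZero hA).symm :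
            (Fin n → ℝ) →L[ℝ] (Fin n → ℝ))) _ = 0
          rw [h1]; rfl
        rw [← h3, h4]
      rw [h2 a, h2 b]
    · right
      rw [hcoe]
      have hrA : r (A l) = ‖(((A l).toContinuousLinearEquivOfDetNeZero hA).symm :
          (Fin n → ℝ) →L[ℝ] (Fin n → ℝ))‖₊⁻¹ / 2 := by
        simp only [r]
        rw [dif_pos hA, if_neg h0]
      rw [hrA]
      exact NNReal.half_lt_self (inv_ne_zero h0)

/-- T2.3 the essential image of a set, with multiplicity at least one. -/
theorem exists_image_set {U : Set (Fin n → ℝ)}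
    {f : (Fin n → ℝ) → (Fin n → ℝ)} {Df : (Fin n → ℝ) → Matrix (Fin n) (Fin n) ℝ}
    (h : Sob n U f Df) (hJ : ∀ x, 0 ≤ (Df x).det)
    {B : Set (Fin n → ℝ)} (hB : MeasurableSet B) (hBU : B ⊆ U) :
    ∃ W : Set (Fin n → ℝ), MeasurableSet W ∧
      (∀ G : (Fin n → ℝ) → ℝ≥0∞, Measurable G →
        ∫⁻ y in W, G y ≤ ∫⁻ x in B, ENNReal.ofReal (Df x).det * G (f x)) ∧
      (∀ Z : Set (Fin n → ℝ), MeasurableSet Z → volume (Z ∩ W) = 0 →
        ∀ᵐ x ∂(volume.restrict B), f x ∈ Z → (Df x).det = 0) := by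
  have hfm : Measurable f := measurable_pi_lambda _ h.meas_f
  have hBfin : volume B ≠ ∞ := ((measure_mono hBU).trans_lt h.bdd.measure_lt_top).ne
  -- convergence of the deviations
  have hconv : ∀ᵐ x, x ∈ B → Tendsto (fun k => dev f Df k x) atTop (𝓝 0) := by
    have h1 := ae_l1_diff h
    rw [ae_restrict_iff' h.isOpen.measurableSet] at h1
    filter_upwards [h1] with x hx hxB
    have h2 := hx (hBU hxB)
    have h3 : Tendsto (fun k : ℕ => (1 / 2 : ℝ) ^ k) atTop (𝓝[>] 0) := by
      rw [tendsto_nhdsWithin_iff]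
      exact ⟨tendsto_pow_atTop_nhds_zero_of_lt_one (by norm_num) (by norm_num),
        Eventually.of_forall fun k => by simp⟩
    exact h2.comp h3
  -- Egorov
  have heg : ∀ m : ℕ, ∃ t ⊆ B, MeasurableSet t ∧ volume t ≤ ENNReal.ofReal ((m : ℝ) + 1)⁻¹ ∧
      TendstoUniformlyOn (fun k x => dev f Df k x) (fun _ => (0 : ℝ)) atTop (B \ t) := fun m =>
    tendstoUniformlyOn_of_ae_tendsto (fun k => stronglyMeasurable_dev hfm h.meas_Df k)
      stronglyMeasurable_const hB hBfin hconv (by positivity)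
  choose t htB htm htv htu using heg
  have hKd : ∀ m, ∀ x ∈ B \ t m, HasFDerivWithinAt f (clm (Df x)) (B \ t m) x := by
    intro m x hx
    refine hasFDerivWithinAt_of_dev h (fun c hc => ?_) hx
    have h1 := Metric.tendstoUniformlyOn_iff.1 (htu m) c hc
    obtain ⟨N, hN⟩ := eventually_atTop.1 h1
    refine ⟨N, fun k hk x hx => ?_⟩
    have h2 := hN k hk x hx
    rw [Real.dist_eq, zero_sub, abs_neg] at h2
    exact (le_abs_self _).trans h2.le
  -- the disjoint positive parts
  have hdm : MeasurableSet {x : Fin n → ℝ | 0 < (Df x).det} :=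
    measurableSet_lt measurable_const (measurable_det_aux h.meas_Df)
  set Q : ℕ → Set (Fin n → ℝ) := disjointed fun m => B \ t m with hQ
  have hQm : ∀ m, MeasurableSet (Q m) := MeasurableSet.disjointed fun m => hB.diff (htm m)
  have hQsub : ∀ m, Q m ⊆ B \ t m := fun m => disjointed_subset _ m
  set P : ℕ → Set (Fin n → ℝ) := fun m => Q m ∩ {x | 0 < (Df x).det} with hP
  have hPm : ∀ m, MeasurableSet (P m) := fun m => (hQm m).inter hdm
  have hPsub : ∀ m, P m ⊆ B \ t m := fun m => inter_subset_left.trans (hQsub m)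
  have hPd : ∀ m, ∀ x ∈ P m, HasFDerivWithinAt f (clm (Df x)) (P m) x := fun m x hx =>
    (hKd m x (hPsub m hx)).mono (hPsub m)
  have hPdet : ∀ m, ∀ x ∈ P m, (Df x).det ≠ 0 := fun m x hx => ne_of_gt hx.2
  have hPdisj : Pairwise (Function.onFun Disjoint P) := fun a b hab =>
    (disjoint_disjointed (fun m => B \ t m) hab).mono inter_subset_left inter_subset_left
  choose T hTm hTdisj hTU hTinj using fun m => exists_pieces (hPm m) (hPd m) (hPdet m)
  have hTsub : ∀ m l, T m l ⊆ P m := fun m l => by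
    rw [← hTU m]; exact subset_iUnion _ l
  have hTd : ∀ m l, ∀ x ∈ T m l, HasFDerivWithinAt f (clm (Df x)) (T m l) x := fun m l x hx =>
    (hPd m x (hTsub m l hx)).mono (hTsub m l)
  have habs : ∀ x, |(clm (Df x)).det| = (Df x).det := fun x => by
    rw [clm_det, abs_of_nonneg (hJ x)]
  -- the set
  set W : Set (Fin n → ℝ) := ⋃ m, ⋃ l, f '' T m l with hW
  refine ⟨W, MeasurableSet.iUnion fun m => MeasurableSet.iUnion fun l =>
    measurable_image_of_fderivWithin (hTm m l) (hTd m l) (hTinj m l), ?_, ?_⟩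
  · intro G hG
    have hPB : (⋃ m, P m) ⊆ B := iUnion_subset fun m => (hPsub m).trans sdiff_subset
    calc ∫⁻ y in W, G y ≤ ∑' m, ∫⁻ y in ⋃ l, f '' T m l, G y := lintegral_iUnion_le _ _
      _ ≤ ∑' m, ∑' l, ∫⁻ y in f '' T m l, G y :=
          ENNReal.tsum_le_tsum fun m => lintegral_iUnion_le _ _
      _ = ∑' m, ∑' l, ∫⁻ x in T m l, ENNReal.ofReal (Df x).det * G (f x) := by
          congr 1; funext m; congr 1; funext l
          rw [lintegral_image_eq_lintegral_abs_det_fderiv_mul volume (hTm m l) (hTd m l)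
            (hTinj m l)]
          simp only [habs]
      _ = ∑' m, ∫⁻ x in P m, ENNReal.ofReal (Df x).det * G (f x) := by
          congr 1; funext m
          rw [← lintegral_iUnion (hTm m) (hTdisj m), hTU m]
      _ = ∫⁻ x in ⋃ m, P m, ENNReal.ofReal (Df x).det * G (f x) :=
          (lintegral_iUnion hPm hPdisj _).symm
      _ ≤ ∫⁻ x in B, ENNReal.ofReal (Df x).det * G (f x) := lintegral_mono_set hPB
  · intro Z hZ hZW
    rw [ae_restrict_iff' hB, ae_iff]
    -- the exceptional set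
    have hsub : {x | ¬ (x ∈ B → f x ∈ Z → (Df x).det = 0)} ⊆
        (⋂ m, t m) ∪ ⋃ m, ⋃ l, (T m l ∩ f ⁻¹' Z) := by
      intro x hx
      simp only [mem_ofPred_eq, Classical.not_imp] at hx
      obtain ⟨hxB, hxZ, hx0⟩ := hx
      by_cases hxt : ∀ m, x ∈ t m
      · left; exact mem_iInter.2 hxt
      · right
        push Not at hxt
        obtain ⟨m, hm⟩ := hxt
        have h1 : x ∈ ⋃ m, (B \ t m) := mem_iUnion.2 ⟨m, hxB, hm⟩
        rw [← iUnion_disjointed] at h1
        obtain ⟨m', hm'⟩ := mem_iUnion.1 h1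
        have h2 : x ∈ P m' := ⟨hm', lt_of_le_of_ne (hJ x) (Ne.symm hx0)⟩
        rw [← hTU m'] at h2
        obtain ⟨l, hl⟩ := mem_iUnion.1 h2
        exact mem_iUnion.2 ⟨m', mem_iUnion.2 ⟨l, hl, hxZ⟩⟩
    refine measure_mono_null hsub (measure_union_null ?_ ?_)
    · have h1 : ∀ m : ℕ, volume (⋂ m, t m) ≤ ENNReal.ofReal ((m : ℝ) + 1)⁻¹ := fun m =>
        (measure_mono (iInter_subset _ m)).trans (htv m)
      have h2 : Tendsto (fun m : ℕ => ENNReal.ofReal ((m : ℝ) + 1)⁻¹) atTop (𝓝 0) := by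
        have h3 := tendsto_one_div_add_atTop_nhds_zero_nat (𝕜 := ℝ)
        have h4 := ENNReal.tendsto_ofReal h3
        rw [ENNReal.ofReal_zero] at h4
        refine h4.congr fun m => ?_
        rw [one_div]
      exact le_antisymm (ge_of_tendsto' h2 h1) zero_le
    · rw [measure_iUnion_null_iff]
      intro m
      rw [measure_iUnion_null_iff]
      intro l
      have hm1 : MeasurableSet (T m l ∩ f ⁻¹' Z) := (hTm m l).inter (hfm hZ)
      have h1 := lintegral_abs_det_fderiv_eq_addHaar_image (volume : Measure (Fin n → ℝ)) hm1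
        (f' := fun x => clm (Df x)) (fun x hx => (hTd m l x hx.1).mono inter_subset_left)
        ((hTinj m l).mono inter_subset_left)
      have h2 : volume (f '' (T m l ∩ f ⁻¹' Z)) = 0 := by
        refine measure_mono_null ?_ hZW
        rintro y ⟨x, ⟨hx1, hx2⟩, rfl⟩
        exact ⟨hx2, mem_iUnion.2 ⟨m, mem_iUnion.2 ⟨l, mem_image_of_mem f hx1⟩⟩⟩
      rw [h2] at h1
      simp only [habs] at h1
      rw [lintegral_eq_zero_iff ((measurable_det_aux h.meas_Df).ennreal_ofReal)] at h1
      have h3 : ∀ᵐ x ∂(volume.restrict (T m l ∩ f ⁻¹' Z)), False := by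
        filter_upwards [h1, ae_restrict_mem hm1] with x hx hx2
        simp only [Pi.zero_apply, ENNReal.ofReal_eq_zero] at hx
        have := (hTsub m l hx2.1).2
        simp only [mem_ofPred_eq] at this
        linarith
      rw [ae_iff] at h3
      simpa using h3

end Pool.Agent.MP8995
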