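import Mathlib
import Pool.Agent.Lib.MP_8995c5_an.Image

/-!
# Most points are good at a suitable small scale
-/

set_option autoImplicit false

open MeasureTheory Metric Set Filter Topology
open scoped ENNReal NNReal

namespace Pool.Agent.MP8995

variable {n : ℕ}

/-- `x` is a good point at the scale `σ`: the map is close to affine near `x`. -/
structure GoodPt (f : (Fin n → ℝ) → (Fin n → ℝ)) (Df : (Fin n → ℝ) → Matrix (Fin n) (Fin n) ℝ)
    (Φ : (Fin n → ℝ) → ℝ) (Λ ω σ : ℝ) (x : Fin n → ℝ) : Prop where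
  h1 : msum (Df x) ≤ Λ
  h2 : msum (Df x).adjugate ≤ Λ
  h3 : |(Df x).det| ≤ Λ
  h4 : ∫ y in closedBall x σ, msum ((Df y).adjugate - (Df x).adjugate) ≤ ω * σ ^ n
  h5 : ∫ y in closedBall x σ, ‖f y - f x - (Df x).mulVec (y - x)‖ ≤ ω * σ ^ (n + 1)
  h6 : ∫ y in closedBall x σ, |Φ y - Φ x| ≤ ω * σ ^ n

/-- rescaled oscillation integral -/
noncomputable def osc (v : (Fin n → ℝ) → ℝ) (k : ℕ) (x : Fin n → ℝ) : ℝ :=
  (((1 / 2 : ℝ) ^ k) ^ n)⁻¹ * ∫ y in closedBall x ((1 / 2 : ℝ) ^ k), |v y - v x|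

theorem stronglyMeasurable_osc {v : (Fin n → ℝ) → ℝ} (hv : Measurable v) (k : ℕ) :
    StronglyMeasurable (osc v k) := by
  unfold osc
  refine StronglyMeasurable.const_mul ?_ _
  have h1 : ∀ x, ∫ y in closedBall x ((1 / 2 : ℝ) ^ k), |v y - v x| =
      ∫ y, indicator {p : (Fin n → ℝ) × (Fin n → ℝ) | dist p.2 p.1 ≤ (1 / 2 : ℝ) ^ k}
        (fun p => |v p.2 - v p.1|) (x, y) := by
    intro x
    rw [← integral_indicator measurableSet_closedBall]
    rfl
  simp only [h1]
  refine StronglyMeasurable.integral_prod_right' (f := indicator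
    {p : (Fin n → ℝ) × (Fin n → ℝ) | dist p.2 p.1 ≤ (1 / 2 : ℝ) ^ k}
        (fun p => |v p.2 - v p.1|)) ?_
  refine (Measurable.indicator ?_ ?_).stronglyMeasurable
  · exact ((hv.comp measurable_snd).sub (hv.comp measurable_fst)).abs
  · exact measurableSet_le (measurable_snd.dist measurable_fst) measurable_const

theorem ae_tendsto_osc {v : (Fin n → ℝ) → ℝ} (hv : Integrable v) :
    ∀ᵐ x, Tendsto (fun k => osc v k x) atTop (𝓝 0) := by
  filter_upwards [(Besicovitch.vitaliFamily volume).ae_tendsto_average_norm_sub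
      hv.locallyIntegrable] with x hx
  have h1 := hx.comp (Besicovitch.tendsto_filterAt volume x)
  have h3 : Tendsto (fun k : ℕ => (1 / 2 : ℝ) ^ k) atTop (𝓝[>] 0) := by
    rw [tendsto_nhdsWithin_iff]
    exact ⟨tendsto_pow_atTop_nhds_zero_of_lt_one (by norm_num) (by norm_num),
      Eventually.of_forall fun k => by simp⟩
  have h4 := (h1.comp h3).const_mul ((2 : ℝ) ^ n)
  rw [mul_zero] at h4
  refine h4.congr fun k => ?_
  simp only [Function.comp_apply]
  rw [setAverage_eq, volume_real_closedBall x (by positivity), smul_eq_mul]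
  unfold osc
  simp only [Real.norm_eq_abs]
  rw [mul_pow, mul_inv, ← mul_assoc, ← mul_assoc]
  congr 1
  field_simp

theorem volume_real_inter_gt_tendsto {K₀ : Set (Fin n → ℝ)} (hK : volume K₀ ≠ ∞)
    {D : ℕ → (Fin n → ℝ) → ℝ} (hD : ∀ k, StronglyMeasurable (D k))
    (hD0 : ∀ᵐ x ∂(volume.restrict K₀), Tendsto (fun k => D k x) atTop (𝓝 0)) {ω : ℝ}
    (hω : 0 < ω) (hD1 : ∀ k x, 0 ≤ D k x) (hKm : MeasurableSet K₀) :
    Tendsto (fun k => volume (K₀ ∩ {x | ω < D k x})) atTop (𝓝 0) := by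
  have : IsFiniteMeasure (volume.restrict K₀) := ⟨by
    rw [Measure.restrict_apply_univ]; exact lt_top_iff_ne_top.2 hK⟩
  have h1 := tendstoInMeasure_of_tendsto_ae (μ := volume.restrict K₀)
    (fun k => (hD k).aestronglyMeasurable) hD0
  have h2 := h1 (ENNReal.ofReal ω) (by simpa using hω)
  refine tendsto_of_tendsto_of_tendsto_of_le_of_le tendsto_const_nhds h2
    (fun k => zero_le) (fun k => ?_)
  simp only
  rw [inter_comm, ← Measure.restrict_apply' hKm]
  refine measure_mono fun x hx => ?_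
  simp only [mem_ofPred_eq] at hx ⊢
  rw [edist_dist, Real.dist_eq, sub_zero, abs_of_nonneg (hD1 k x)]
  exact ENNReal.ofReal_le_ofReal (le_of_lt hx)

theorem exists_good_scale {U : Set (Fin n → ℝ)}
    {f : (Fin n → ℝ) → (Fin n → ℝ)} {Df : (Fin n → ℝ) → Matrix (Fin n) (Fin n) ℝ}
    (h : Sob n U f Df) (hadjm : ∀ i j, Integrable fun x => (Df x).adjugate i j)
    (hdet : Integrable fun x => (Df x).det) {Φ : (Fin n → ℝ) → ℝ} (hΦ : Integrable Φ)
    (hΦm : Measurable Φ) {K₀ : Set (Fin n → ℝ)} (hK₀ : IsCompact K₀) (hKU : K₀ ⊆ U) {κ : ℝ}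
    (hκ : 0 < κ) :
    ∃ Λ : ℝ, 0 ≤ Λ ∧ ∀ ω > 0, ∀ σ₀ > 0, ∃ σ, 0 < σ ∧ σ ≤ σ₀ ∧
      volume.real (K₀ \ {x | GoodPt f Df Φ Λ ω σ x}) ≤ κ := by
  have hfm : Measurable f := measurable_pi_lambda _ h.meas_f
  have hK : volume K₀ ≠ ∞ := hK₀.measure_lt_top.ne
  -- the bound
  set G : (Fin n → ℝ) → ℝ := fun x => msum (Df x) + msum (Df x).adjugate + |(Df x).det| with hG
  have hGm : Measurable G := by
    refine ((Finset.measurable_sum _ fun i _ => Finset.measurable_sum _ fun j _ =>
      (h.meas_Df i j).abs).add (Finset.measurable_sum _ fun i _ =>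
        Finset.measurable_sum _ fun j _ => (measurable_adj_apply h.meas_Df i j).abs)).add
      (measurable_det_aux h.meas_Df).abs
  have hN : ∃ N : ℕ, volume (K₀ ∩ {x | (N : ℝ) < G x}) < ENNReal.ofReal (κ / 2) := by
    have h1 : Tendsto (fun N : ℕ => volume (K₀ ∩ {x | (N : ℝ) < G x})) atTop
        (𝓝 (volume (⋂ N : ℕ, K₀ ∩ {x | (N : ℝ) < G x}))) := by
      refine tendsto_measure_iInter_atTop (fun N => ?_) ?_ ?_
      · exact (hK₀.measurableSet.inter (measurableSet_lt measurable_const hGm)).nullMeasurableSet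
      · intro a b hab x hx
        refine ⟨hx.1, ?_⟩
        have hab' : (a : ℝ) ≤ b := by exact_mod_cast hab
        have := hx.2
        simp only [mem_ofPred_eq] at this ⊢
        linarith
      · exact ⟨0, ((measure_mono inter_subset_left).trans_lt hK₀.measure_lt_top).ne⟩
    have h2 : (⋂ N : ℕ, K₀ ∩ {x | (N : ℝ) < G x}) = ∅ := by
      rw [eq_empty_iff_forall_notMem]
      intro x hx
      obtain ⟨N, hN⟩ := exists_nat_ge (G x)
      have := (mem_iInter.1 hx N).2
      simp only [mem_ofPred_eq] at this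
      linarith
    rw [h2, measure_empty] at h1
    exact (h1.eventually (gt_mem_nhds (by simpa using hκ))).exists
  obtain ⟨N, hN⟩ := hN
  refine ⟨N, by positivity, fun ω hω σ₀ hσ₀ => ?_⟩
  -- the averages
  set D : ℕ → (Fin n → ℝ) → ℝ := fun k x =>
    (∑ i, ∑ j, osc (fun y => (Df y).adjugate i j) k x) + dev f Df k x + osc Φ k x with hD
  have hosc0 : ∀ (v : (Fin n → ℝ) → ℝ) k x, 0 ≤ osc v k x := fun v k x =>
    mul_nonneg (by positivity) (integral_nonneg fun y => abs_nonneg _)
  have hdev0 : ∀ k x, 0 ≤ dev f Df k x := fun k x =>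
    mul_nonneg (by positivity) (integral_nonneg fun y => norm_nonneg _)
  have hsum0 : ∀ k x, 0 ≤ ∑ i, ∑ j, osc (fun y => (Df y).adjugate i j) k x := fun k x =>
    Finset.sum_nonneg fun i _ => Finset.sum_nonneg fun j _ => hosc0 _ _ _
  have hD0 : ∀ k x, 0 ≤ D k x := fun k x =>
    add_nonneg (add_nonneg (hsum0 k x) (hdev0 k x)) (hosc0 _ _ _)
  have hDm : ∀ k, StronglyMeasurable (D k) := by
    intro k
    have h1 : Measurable fun x => ∑ i, ∑ j, osc (fun y => (Df y).adjugate i j) k x :=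
      Finset.measurable_sum _ fun i _ => Finset.measurable_sum _ fun j _ =>
        (stronglyMeasurable_osc (measurable_adj_apply h.meas_Df i j) k).measurable
    exact ((h1.stronglyMeasurable).add (stronglyMeasurable_dev hfm h.meas_Df k)).add
      (stronglyMeasurable_osc hΦm k)
  have hconv : ∀ᵐ x ∂(volume.restrict K₀), Tendsto (fun k => D k x) atTop (𝓝 0) := by
    have a1 : ∀ᵐ x, ∀ i j, Tendsto (fun k => osc (fun y => (Df y).adjugate i j) k x) atTop
        (𝓝 0) := by
      rw [ae_all_iff]; intro i; rw [ae_all_iff]; intro j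
      exact ae_tendsto_osc (hadjm i j)
    have a2 := ae_tendsto_osc hΦ
    have a3 := ae_l1_diff h
    rw [ae_restrict_iff' h.isOpen.measurableSet] at a3
    rw [ae_restrict_iff' hK₀.measurableSet]
    filter_upwards [a1, a2, a3] with x hx1 hx2 hx3 hxK
    have h3 : Tendsto (fun k : ℕ => (1 / 2 : ℝ) ^ k) atTop (𝓝[>] 0) := by
      rw [tendsto_nhdsWithin_iff]
      exact ⟨tendsto_pow_atTop_nhds_zero_of_lt_one (by norm_num) (by norm_num),
        Eventually.of_forall fun k => by simp⟩
    have h4 : Tendsto (fun k => dev f Df k x) atTop (𝓝 0) := (hx3 (hKU hxK)).comp h3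
    have h5 := tendsto_finsetSum Finset.univ fun i _ =>
      tendsto_finsetSum Finset.univ fun j _ => hx1 i j
    simp only [Finset.sum_const_zero] at h5
    have h6 := (h5.add h4).add hx2
    simpa using h6
  have ht := volume_real_inter_gt_tendsto hK hDm hconv hω hD0 hK₀.measurableSet
  have hσ : ∀ᶠ k : ℕ in atTop, (1 / 2 : ℝ) ^ k < σ₀ :=
    (tendsto_pow_atTop_nhds_zero_of_lt_one (by norm_num) (by norm_num)).eventually
      (gt_mem_nhds hσ₀)
  obtain ⟨k, hk1, hk2⟩ := ((ht.eventually (gt_mem_nhds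
    (show (0 : ℝ≥0∞) < ENNReal.ofReal (κ / 2) by simpa using hκ))).and hσ).exists
  set σ : ℝ := (1 / 2 : ℝ) ^ k with hσdef
  have hσ0 : 0 < σ := by positivity
  refine ⟨σ, hσ0, hk2.le, ?_⟩
  have hsub : K₀ \ {x | GoodPt f Df Φ N ω σ x} ⊆
      (K₀ ∩ {x | (N : ℝ) < G x}) ∪ (K₀ ∩ {x | ω < D k x}) := by
    rintro x ⟨hxK, hxG⟩
    by_contra hcon
    rw [mem_union, not_or] at hcon
    have c1 : G x ≤ N := by
      by_contra hc
      exact hcon.1 ⟨hxK, not_le.1 hc⟩
    have c2 : D k x ≤ ω := by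
      by_contra hc
      exact hcon.2 ⟨hxK, not_le.1 hc⟩
    apply hxG
    have m1 : 0 ≤ msum (Df x) := msum_nonneg_aux _
    have m2 : 0 ≤ msum (Df x).adjugate := msum_nonneg_aux _
    have m3 : 0 ≤ |(Df x).det| := abs_nonneg _
    simp only [hG] at c1
    simp only [hD] at c2
    have d1 := hsum0 k x
    have d2 := hdev0 k x
    have d3 := hosc0 Φ k x
    refine ⟨by linarith, by linarith, by linarith, ?_, ?_, ?_⟩
    · have e1 : ∑ i, ∑ j, osc (fun y => (Df y).adjugate i j) k x ≤ ω := by linarith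
      have e2 : ∑ i, ∑ j, osc (fun y => (Df y).adjugate i j) k x =
          (σ ^ n)⁻¹ * ∫ y in closedBall x σ, msum ((Df y).adjugate - (Df x).adjugate) := by
        have hI : ∀ i j, IntegrableOn (fun y => |(Df y).adjugate i j - (Df x).adjugate i j|)
            (closedBall x σ) := fun i j =>
          ((hadjm i j).integrableOn.sub (integrableOn_const
            (measure_closedBall_lt_top).ne)).abs
        have e3 : ∫ y in closedBall x σ, msum ((Df y).adjugate - (Df x).adjugate) =
            ∑ i, ∑ j, ∫ y in closedBall x σ, |(Df y).adjugate i j - (Df x).adjugate i j| := by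
          unfold msum
          simp only [Matrix.sub_apply]
          rw [integral_finsetSum _ fun i _ => integrable_finsetSum _ fun j _ => hI i j]
          refine Finset.sum_congr rfl fun i _ => ?_
          rw [integral_finsetSum _ fun j _ => hI i j]
        rw [e3]
        simp only [Finset.mul_sum]
        rfl
      rw [e2, inv_mul_le_iff₀ (by positivity)] at e1
      linarith
    · have e1 : dev f Df k x ≤ ω := by linarith
      unfold dev at e1
      rw [inv_mul_le_iff₀ (by positivity)] at e1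
      linarith
    · have e1 : osc Φ k x ≤ ω := by linarith
      unfold osc at e1
      rw [inv_mul_le_iff₀ (by positivity)] at e1
      linarith
  have hfin1 : volume (K₀ ∩ {x | (N : ℝ) < G x}) + volume (K₀ ∩ {x | ω < D k x}) ≤
      ENNReal.ofReal κ := by
    calc volume (K₀ ∩ {x | (N : ℝ) < G x}) + volume (K₀ ∩ {x | ω < D k x})
        ≤ ENNReal.ofReal (κ / 2) + ENNReal.ofReal (κ / 2) := add_le_add hN.le hk1.le
      _ = ENNReal.ofReal κ := by
          rw [← ENNReal.ofReal_add (by positivity) (by positivity)]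
          congr 1; ring
  rw [measureReal_def]
  refine ENNReal.toReal_le_of_le_ofReal hκ.le ?_
  exact ((measure_mono hsub).trans (measure_union_le _ _)).trans hfin1

end Pool.Agent.MP8995
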