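import Mathlib
import Pool.Agent.Lib.MP_8995c5_an.Defs
import Pool.Agent.Lib.MP_8995c5_an.Flux
import Pool.Agent.Lib.MP_8995c5_an.Piola
import Pool.Agent.Lib.MP_8995c5_an.Degree
import Pool.Agent.Lib.MP_8995c5_an.BV

set_option autoImplicit false

open MeasureTheory Metric Set Filter Topology

namespace Pool.Agent.MP8995

variable {n : ℕ}

theorem pd_smooth {φ : (Fin n → ℝ) → ℝ} (hφ : ContDiff ℝ (⊤ : ℕ∞) φ) (l : Fin n) :
    ContDiff ℝ (⊤ : ℕ∞) (pd l φ) := by
  unfold pd
  exact (hφ.fderiv_right (m := (⊤ : ℕ∞)) (by simp)).clm_apply contDiff_const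

/-- The field `adj (Dg) X(g)`. -/
noncomputable def fld (g X : (Fin n → ℝ) → (Fin n → ℝ)) (x : Fin n → ℝ) : Fin n → ℝ :=
  (jac g x).adjugate.mulVec (X (g x))

theorem msum_nonneg (M : Matrix (Fin n) (Fin n) ℝ) : 0 ≤ msum M :=
  Finset.sum_nonneg fun _ _ => Finset.sum_nonneg fun _ _ => abs_nonneg _

theorem abs_mulVec_le (M : Matrix (Fin n) (Fin n) ℝ) {v : Fin n → ℝ} {b : ℝ}
    (hb : ∀ i, |v i| ≤ b) (l : Fin n) : |M.mulVec v l| ≤ msum M * b := by
  have hrow : ∑ i, |M l i| ≤ msum M := by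
    unfold msum
    exact Finset.single_le_sum (f := fun i => ∑ j, |M i j|)
      (fun i _ => Finset.sum_nonneg fun _ _ => abs_nonneg _) (Finset.mem_univ l)
  by_cases hn : IsEmpty (Fin n)
  · exact (hn.false l).elim
  have hb0 : 0 ≤ b := (abs_nonneg _).trans (hb l)
  unfold Matrix.mulVec dotProduct
  calc |∑ i, M l i * v i| ≤ ∑ i, |M l i * v i| := Finset.abs_sum_le_sum_abs _ _
    _ ≤ ∑ i, |M l i| * b := Finset.sum_le_sum fun i _ => by
        rw [abs_mul]; exact mul_le_mul_of_nonneg_left (hb i) (abs_nonneg _)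
    _ = (∑ i, |M l i|) * b := by rw [Finset.sum_mul]
    _ ≤ msum M * b := mul_le_mul_of_nonneg_right hrow hb0

theorem dv_smul_field {ψ : (Fin n → ℝ) → ℝ} {X : (Fin n → ℝ) → (Fin n → ℝ)}
    (hψ : ContDiff ℝ 1 ψ) (hX : ContDiff ℝ 1 X) (y : Fin n → ℝ) :
    dv (fun y l => ψ y * X y l) y = ψ y * dv X y + ∑ l, pd l ψ y * X y l := by
  unfold dv
  rw [Finset.mul_sum, ← Finset.sum_add_distrib]
  apply Finset.sum_congr rfl
  intro l _
  exact pd_mul hψ (contDiff_pi.1 hX l) l y

/-- The key isoperimetric estimate for the degree function of a smooth map on a set with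
controlled flux. -/
theorem exists_iso (hn : 2 ≤ n) : ∃ C : ℝ, 0 < C ∧
    ∀ {g : (Fin n → ℝ) → (Fin n → ℝ)} (_ : ContDiff ℝ (⊤ : ℕ∞) g)
      {α : (Fin n → ℝ) → ℝ} (_ : ∀ x, 0 ≤ α x) (_ : Integrable α)
      {B S : Set (Fin n → ℝ)} (_ : IsCompact B) (_ : MeasurableSet S)
      {F T G : ℝ} (_ : 0 ≤ T) (_ : 0 ≤ F) (_ : 0 ≤ G) (_ : Cut α B B S F)
      {ψ : (Fin n → ℝ) → ℝ} (_ : ContDiff ℝ (⊤ : ℕ∞) ψ) (_ : ∀ y, 0 ≤ ψ y ∧ ψ y ≤ 1)
      (_ : ∀ y, ∑ l, |pd l ψ y| ≤ G)
      (_ : ∀ x ∈ B, ψ (g x) * msum (jac g x).adjugate ≤ T * α x)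
      {D : (Fin n → ℝ) → ℝ} (_ : Integrable D) (_ : ∀ᵐ y, ∃ m : ℤ, D y = m)
      (_ : ∃ R : ℝ, ∀ y, R < ‖y‖ → D y = 0)
      (_ : ∀ h : (Fin n → ℝ) → ℝ, Continuous h →
        ∫ x in S, h (g x) * (jac g x).det = ∫ y, h y * D y),
      ∫ y in {y | ψ y = 1}, |D y| ≤ C * (T * F + G * ∫ y, |D y|) ^ ((n : ℝ) / (n - 1)) := by
  obtain ⟨C, hC, hbv⟩ := bv_sobolev n hn
  refine ⟨C, hC, ?_⟩
  intro g hg α hα hi B S hB hS F T G hT hF hG hcut ψ hψ hψ01 hψG hadj D hD hDint hDsupp hDg
  have hψ1 : ContDiff ℝ 1 ψ := hψ.of_le (by simp)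
  have hψc : Continuous ψ := hψ.continuous
  set u : (Fin n → ℝ) → ℝ := fun y => ψ y * D y with hu
  have hui : Integrable u := by
    apply hD.bdd_mul (c := 1) hψc.aestronglyMeasurable
    exact Eventually.of_forall fun y => by
      rw [Real.norm_eq_abs, abs_of_nonneg (hψ01 y).1]; exact (hψ01 y).2
  have husupp : ∃ R : ℝ, ∀ y, R < ‖y‖ → u y = 0 := by
    obtain ⟨R, hR⟩ := hDsupp
    exact ⟨R, fun y hy => by simp only [hu, hR y hy, mul_zero]⟩
  set M : ℝ := T * F + G * ∫ y, |D y| with hM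
  have hM0 : 0 ≤ M := by
    have : 0 ≤ ∫ y, |D y| := integral_nonneg fun y => abs_nonneg _
    positivity
  have hXM : ∀ X : (Fin n → ℝ) → (Fin n → ℝ), ContDiff ℝ (⊤ : ℕ∞) X → HasCompactSupport X →
      (∀ y i, |X y i| ≤ 1) → |∫ y, u y * dv X y| ≤ M := by
    intro X hX hXs hX1
    have hXc1 : ContDiff ℝ 1 X := hX.of_le (by simp)
    set ψX : (Fin n → ℝ) → (Fin n → ℝ) := fun y l => ψ y * X y l with hψX
    have hψXs : ContDiff ℝ (⊤ : ℕ∞) ψX :=
      contDiff_pi.2 fun l => hψ.mul (contDiff_pi.1 hX l)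
    have hdvc : Continuous (dv ψX) := dv_continuous (hψXs.of_le (by simp))
    have hsumc : Continuous fun y => ∑ l, pd l ψ y * X y l :=
      continuous_finset_sum _ fun l _ =>
        (pd_continuous hψ1 l).mul ((contDiff_pi.1 hXc1 l).continuous)
    -- first piece
    have e1 : ∀ y, u y * dv X y = dv ψX y * D y - (∑ l, pd l ψ y * X y l) * D y := by
      intro y
      rw [dv_smul_field hψ1 hXc1 y]
      simp only [hu]; ring
    have hXcs : HasCompactSupport ψX := by
      apply hXs.mono'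
      intro y hy
      apply subset_tsupport
      intro h0
      apply hy
      ext l
      simp [hψX, h0]
    have hdvb : ∃ c, ∀ y, ‖dv ψX y‖ ≤ c := by
      apply hdvc.bounded_above_of_compact_support
      unfold dv
      apply HasCompactSupport.intro hXcs.isCompact
      intro y hy
      apply Finset.sum_eq_zero
      intro l _
      unfold pd
      have : (fun z => ψX z l) =ᶠ[𝓝 y] fun _ => (0 : ℝ) := by
        filter_upwards [(isClosed_tsupport ψX).isOpen_compl.mem_nhds hy] with z hz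
        rw [image_eq_zero_of_notMem_tsupport hz]; rfl
      rw [this.fderiv_eq]; simp
    obtain ⟨c, hc⟩ := hdvb
    have i1 : Integrable fun y => dv ψX y * D y :=
      hD.bdd_mul (c := c) hdvc.aestronglyMeasurable (Eventually.of_forall hc)
    have hsb : ∀ y, |∑ l, pd l ψ y * X y l| ≤ G := by
      intro y
      calc _ ≤ ∑ l, |pd l ψ y * X y l| := Finset.abs_sum_le_sum_abs _ _
        _ ≤ ∑ l, |pd l ψ y| := Finset.sum_le_sum fun l _ => by
            rw [abs_mul]; exact mul_le_of_le_one_right (abs_nonneg _) (hX1 y l)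
        _ ≤ G := hψG y
    have i2 : Integrable fun y => (∑ l, pd l ψ y * X y l) * D y :=
      hD.bdd_mul (c := G) hsumc.aestronglyMeasurable
        (Eventually.of_forall fun y => by rw [Real.norm_eq_abs]; exact hsb y)
    have e2 : ∫ y, u y * dv X y = (∫ y, dv ψX y * D y) - ∫ y, (∑ l, pd l ψ y * X y l) * D y := by
      rw [← integral_sub i1 i2]
      congr 1; ext y; exact e1 y
    rw [e2]
    have hpi := piola hg hψXs
    have b1 : |∫ y, dv ψX y * D y| ≤ T * F := by
      rw [← hDg (dv ψX) hdvc]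
      have e3 : ∀ x, dv ψX (g x) * (jac g x).det = (1 : ℝ) * dv (fld g ψX) x := by
        intro x; rw [one_mul]; exact (hpi.2 x).symm
      simp_rw [e3]
      have hV : ContDiff ℝ 1 (fld g ψX) := hpi.1.of_le (by simp)
      have := flux_bound hα hi hB hS hT zero_le_one hcut hV (ζ := fun _ => (1 : ℝ))
        contDiff_const (fun x hx l => ?_) (fun x _ => by simp)
      · refine this.trans ?_
        have e4 : ∀ x, ∑ l, |pd l (fun _ : Fin n → ℝ => (1 : ℝ)) x| * |fld g ψX x l| = 0 := by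
          intro x
          apply Finset.sum_eq_zero
          intro l _
          unfold pd
          simp
        simp_rw [e4]
        simp
      · calc |fld g ψX x l| ≤ msum (jac g x).adjugate * ψ (g x) := by
              apply abs_mulVec_le
              intro i
              simp only [hψX]
              rw [abs_mul, abs_of_nonneg (hψ01 _).1]
              exact mul_le_of_le_one_right (hψ01 _).1 (hX1 _ _)
          _ ≤ T * α x := by rw [mul_comm]; exact hadj x hx
    have b2 : |∫ y, (∑ l, pd l ψ y * X y l) * D y| ≤ G * ∫ y, |D y| := by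
      rw [← integral_const_mul, ← Real.norm_eq_abs]
      apply norm_integral_le_of_norm_le (hD.abs.const_mul G)
      filter_upwards with y
      rw [norm_mul, Real.norm_eq_abs, Real.norm_eq_abs]
      exact mul_le_mul_of_nonneg_right (hsb y) (abs_nonneg _)
    calc _ ≤ |∫ y, dv ψX y * D y| + |∫ y, (∑ l, pd l ψ y * X y l) * D y| := abs_sub _ _
      _ ≤ M := add_le_add b1 b2
  obtain ⟨hup, hle⟩ := hbv u M hui husupp hM0 hXM
  refine le_trans ?_ hle
  have hms : MeasurableSet {y | ψ y = 1} := measurableSet_eq_fun hψc.measurable measurable_const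
  calc ∫ y in {y | ψ y = 1}, |D y| ≤ ∫ y in {y | ψ y = 1}, |u y| ^ ((n : ℝ) / (n - 1)) := by
        apply setIntegral_mono_on_ae hD.abs.integrableOn hup.integrableOn hms
        filter_upwards [hDint] with y hy hy1
        obtain ⟨m, hm⟩ := hy
        have hy1 : ψ y = 1 := hy1
        simp only [hu, hy1, one_mul, hm]
        have hn1 : (1 : ℝ) < n := by exact_mod_cast hn
        rcases eq_or_ne m 0 with rfl | h0
        · simp only [Int.cast_zero, abs_zero]
          rw [Real.zero_rpow]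
          have : (0 : ℝ) < n / (n - 1) := by
            apply div_pos <;> linarith
          exact this.ne'
        · have h1 : (1 : ℝ) ≤ |(m : ℝ)| := by
            have := Int.one_le_abs h0
            exact_mod_cast this
          calc |(m : ℝ)| = |(m : ℝ)| ^ (1 : ℝ) := (Real.rpow_one _).symm
            _ ≤ _ := by
                apply Real.rpow_le_rpow_of_exponent_le h1
                rw [le_div_iff₀ (by linarith)]
                linarith
    _ ≤ ∫ y, |u y| ^ ((n : ℝ) / (n - 1)) := by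
        apply setIntegral_le_integral hup
        exact Eventually.of_forall fun y => by positivity

end Pool.Agent.MP8995
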