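import Mathlib
import Pool.Agent.Lib.MP_8995c5_an.Defs
import Pool.Agent.Lib.MP_8995c5_an.Flux
import Pool.Agent.Lib.MP_8995c5_an.Iso

set_option autoImplicit false

open MeasureTheory Metric Set Filter Topology

namespace Pool.Agent.MP8995

variable {n : ℕ}

theorem norm_fderiv_le_sum_pd {φ : (Fin n → ℝ) → ℝ} (x : Fin n → ℝ) :
    ‖fderiv ℝ φ x‖ ≤ ∑ l, |pd l φ x| := by
  apply ContinuousLinearMap.opNorm_le_bound _ (Finset.sum_nonneg fun _ _ => abs_nonneg _)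
  intro v
  have h1 : fderiv ℝ φ x v = ∑ l, v l * pd l φ x := by
    have h2 : v = ∑ l, v l • (Pi.single l (1 : ℝ) : Fin n → ℝ) := by
      ext i
      simp [Finset.sum_apply, Pi.single_apply]
    conv_lhs => rw [h2]
    rw [map_sum]
    simp [pd]
  rw [h1, Real.norm_eq_abs, Finset.sum_mul]
  refine (Finset.abs_sum_le_sum_abs _ _).trans (Finset.sum_le_sum fun l _ => ?_)
  rw [abs_mul, mul_comm]
  exact mul_le_mul_of_nonneg_left (norm_le_pi_norm v l) (abs_nonneg _)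

theorem lip_of_pd {φ : (Fin n → ℝ) → ℝ} (hφ : ContDiff ℝ 1 φ) {Z : ℝ}
    (hZ : ∀ x, ∑ l, |pd l φ x| ≤ Z) (x y : Fin n → ℝ) : |φ x - φ y| ≤ Z * ‖x - y‖ := by
  have := (convex_univ (𝕜 := ℝ) (E := Fin n → ℝ)).norm_image_sub_le_of_norm_fderiv_le
    (f := φ) (C := Z) (fun x _ => hφ.differentiable one_ne_zero x)
    (fun x _ => (norm_fderiv_le_sum_pd x).trans (hZ x)) (mem_univ y) (mem_univ x)
  simpa using this

theorem rpow_conj (hn : 2 ≤ n) {x r : ℝ} (hx : 0 ≤ x) (hr : 0 ≤ r) :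
    (x * r ^ (n - 1)) ^ ((n : ℝ) / (n - 1)) = x ^ ((n : ℝ) / (n - 1)) * r ^ n := by
  rw [Real.mul_rpow hx (by positivity)]
  congr 1
  rw [← Real.rpow_natCast r (n - 1), ← Real.rpow_mul hr, ← Real.rpow_natCast r n]
  congr 1
  have h1 : ((n - 1 : ℕ) : ℝ) = n - 1 := by
    rw [Nat.cast_sub (by omega)]; simp
  have h2 : (n : ℝ) - 1 ≠ 0 := by
    have : (2 : ℝ) ≤ n := by exact_mod_cast hn
    linarith
  rw [h1]; field_simp

/-- The data attached to a tile and a smooth map. -/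
structure TD (g : (Fin n → ℝ) → (Fin n → ℝ)) (α : (Fin n → ℝ) → ℝ) (c : Fin n → ℝ)
    (τ r Q : ℝ) (E : Set (Fin n → ℝ)) : Prop where
  hg : ContDiff ℝ (⊤ : ℕ∞) g
  hα : ∀ x, 0 ≤ α x
  hi : Integrable α
  hE : MeasurableSet E
  hEB : E ⊆ closedBall c τ
  hr : 0 < r
  hτ : τ ≤ 10 * r
  hQ : 0 ≤ Q
  hcut : Cut α (closedBall c τ) (closedBall c τ) E (Q * r ^ (n - 1))
  hint : ∫ x in closedBall c τ, α x ≤ Q * r ^ n

section
variable {g : (Fin n → ℝ) → (Fin n → ℝ)} {α : (Fin n → ℝ) → ℝ} {c : Fin n → ℝ}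
  {τ r Q : ℝ} {E : Set (Fin n → ℝ)}

theorem TD.bounded (h : TD g α c τ r Q E) : Bornology.IsBounded E :=
  isBounded_closedBall.subset h.hEB

theorem TD.integrableOn (h : TD g α c τ r Q E) {φ : (Fin n → ℝ) → ℝ} (hφ : Continuous φ) :
    IntegrableOn φ E :=
  (hφ.continuousOn.integrableOn_compact (isCompact_closedBall c τ)).mono_set h.hEB

theorem jac_continuous {g : (Fin n → ℝ) → (Fin n → ℝ)} (hg : ContDiff ℝ 1 g) :
    Continuous (jac g) := by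
  apply continuous_matrix
  intro i j
  exact pd_continuous (contDiff_pi.1 hg i) j

theorem fld_contDiff {g X : (Fin n → ℝ) → (Fin n → ℝ)} (hg : ContDiff ℝ (⊤ : ℕ∞) g)
    (hX : ContDiff ℝ (⊤ : ℕ∞) X) : ContDiff ℝ 1 (fld g X) :=
  (piola hg hX).1.of_le (by simp)

theorem dv_fld {g X : (Fin n → ℝ) → (Fin n → ℝ)} (hg : ContDiff ℝ (⊤ : ℕ∞) g)
    (hX : ContDiff ℝ (⊤ : ℕ∞) X) (x : Fin n → ℝ) :
    dv (fld g X) x = dv X (g x) * (jac g x).det := (piola hg hX).2 x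

/-- Flux bound on a tile with a multiplier. -/
theorem TD.flux (h : TD g α c τ r Q E) {V : (Fin n → ℝ) → (Fin n → ℝ)} (hV : ContDiff ℝ 1 V)
    {T : ℝ} (hT : 0 ≤ T) (hVα : ∀ x ∈ closedBall c τ, ∀ l, |V x l| ≤ T * α x)
    {ζ : (Fin n → ℝ) → ℝ} (hζ : ContDiff ℝ 1 ζ) {Z Z₁ : ℝ} (hZ0 : 0 ≤ Z)
    (hZ : ∀ x ∈ closedBall c τ, |ζ x| ≤ Z) (hZ₁ : ∀ x, ∑ l, |pd l ζ x| ≤ Z₁) :
    |∫ x in E, ζ x * dv V x| ≤ Z₁ * T * (Q * r ^ n) + Z * T * (Q * r ^ (n - 1)) := by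
  have h1 := flux_bound h.hα h.hi (isCompact_closedBall c τ) h.hE hT hZ0 h.hcut hV hζ hVα hZ
  refine h1.trans (add_le_add ?_ le_rfl)
  have hZ₁0 : 0 ≤ Z₁ := (Finset.sum_nonneg fun _ _ => abs_nonneg _).trans (hZ₁ c)
  have hcV : ∀ l, Continuous fun x => V x l := fun l => (contDiff_pi.1 hV l).continuous
  have hcs : Continuous fun x => ∑ l, |pd l ζ x| * |V x l| :=
    continuous_finset_sum _ fun l _ => (pd_continuous hζ l).abs.mul (hcV l).abs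
  calc ∫ x in E, ∑ l, |pd l ζ x| * |V x l| ≤ ∫ x in E, Z₁ * T * α x := by
        apply setIntegral_mono_on (h.integrableOn hcs) ((h.hi.const_mul _).integrableOn) h.hE
        intro x hx
        calc ∑ l, |pd l ζ x| * |V x l| ≤ ∑ l, |pd l ζ x| * (T * α x) :=
              Finset.sum_le_sum fun l _ =>
                mul_le_mul_of_nonneg_left (hVα x (h.hEB hx) l) (abs_nonneg _)
          _ = (∑ l, |pd l ζ x|) * (T * α x) := by rw [Finset.sum_mul]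
          _ ≤ Z₁ * (T * α x) :=
              mul_le_mul_of_nonneg_right (hZ₁ x) (mul_nonneg hT (h.hα x))
          _ = _ := by ring
    _ = Z₁ * T * ∫ x in E, α x := integral_const_mul _ _
    _ ≤ Z₁ * T * ∫ x in closedBall c τ, α x := by
        apply mul_le_mul_of_nonneg_left _ (mul_nonneg hZ₁0 hT)
        exact setIntegral_mono_set h.hi.integrableOn (Eventually.of_forall h.hα)
          h.hEB.eventuallyLE
    _ ≤ Z₁ * T * (Q * r ^ n) := mul_le_mul_of_nonneg_left h.hint (mul_nonneg hZ₁0 hT)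

theorem TD.flux_one (h : TD g α c τ r Q E) {V : (Fin n → ℝ) → (Fin n → ℝ)}
    (hV : ContDiff ℝ 1 V)
    {T : ℝ} (hT : 0 ≤ T) (hVα : ∀ x ∈ closedBall c τ, ∀ l, |V x l| ≤ T * α x) :
    |∫ x in E, dv V x| ≤ T * (Q * r ^ (n - 1)) := by
  have := h.flux hV hT hVα (ζ := fun _ => (1 : ℝ)) contDiff_const (Z := 1) (Z₁ := 0) zero_le_one
    (fun x _ => by simp) (fun x => by simp [pd])
  simpa using this

end

/-- Degree bounds on tiles: the total degree is controlled by the flux, and so is the part of the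
degree where a cutoff `ψ` equals one. -/
theorem exists_deg_bound (hn : 2 ≤ n) : ∃ C : ℝ, 0 < C ∧
    ∀ {g : (Fin n → ℝ) → (Fin n → ℝ)} {α : (Fin n → ℝ) → ℝ} {c : Fin n → ℝ}
      {τ r Q : ℝ} {E : Set (Fin n → ℝ)} (_ : TD g α c τ r Q E) {t : ℝ} (_ : 0 ≤ t)
      (_ : ∀ x ∈ closedBall c τ, msum (jac g x).adjugate ≤ t * α x),
      ∃ D : (Fin n → ℝ) → ℝ, Integrable D ∧
      (∀ h : (Fin n → ℝ) → ℝ, Continuous h →
        ∫ x in E, h (g x) * (jac g x).det = ∫ y, h y * D y) ∧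
      (∫ y, |D y| ≤ C * ((t * Q) ^ ((n : ℝ) / (n - 1)) * r ^ n)) ∧
      ∀ {ψ : (Fin n → ℝ) → ℝ} (_ : ContDiff ℝ (⊤ : ℕ∞) ψ) (_ : ∀ y, 0 ≤ ψ y ∧ ψ y ≤ 1)
      {G : ℝ} (_ : 0 ≤ G) (_ : ∀ y, ∑ l, |pd l ψ y| ≤ G) {T : ℝ} (_ : 0 ≤ T)
      (_ : ∀ x ∈ closedBall c τ, ψ (g x) * msum (jac g x).adjugate ≤ T * α x),
      ∫ y in {y | ψ y = 1}, |D y| ≤
        C * (T * (Q * r ^ (n - 1)) + G * ∫ y, |D y|) ^ ((n : ℝ) / (n - 1)) := by
  obtain ⟨C, hC, hiso⟩ := exists_iso hn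
  refine ⟨C, hC, ?_⟩
  intro g α c τ r Q E h t ht hadj
  obtain ⟨D, hD, hDint, hDsupp, hDg⟩ := exists_degree h.hg h.hE h.bounded
  have hF : 0 ≤ Q * r ^ (n - 1) := by have := h.hr; have := h.hQ; positivity
  refine ⟨D, hD, hDg, ?_, ?_⟩
  · have := hiso h.hg h.hα h.hi (isCompact_closedBall c τ) h.hE (G := 0) ht hF le_rfl h.hcut
      (ψ := fun _ => (1 : ℝ)) contDiff_const (fun _ => by simp) (fun y => by simp [pd])
      (fun x hx => by rw [one_mul]; exact hadj x hx) hD hDint hDsupp hDg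
    simp only [setOf_true, setIntegral_univ, zero_mul, add_zero] at this
    rw [← mul_assoc, rpow_conj hn (mul_nonneg ht h.hQ) h.hr.le] at this
    exact this
  · intro ψ hψ hψ01 G hG hψG T hT hadj'
    exact hiso h.hg h.hα h.hi (isCompact_closedBall c τ) h.hE hT hF hG h.hcut
      hψ hψ01 hψG hadj' hD hDint hDsupp hDg

/-- Crude bound on a tile. -/
theorem exists_crude (hn : 2 ≤ n) (Z₀ Z₁ X₀ X₁ : ℝ) (hZ₀ : 0 ≤ Z₀) (hZ₁ : 0 ≤ Z₁)
    (hX₀ : 0 ≤ X₀) (hX₁ : 0 ≤ X₁) (Q : ℝ) : ∃ C : ℝ, 0 < C ∧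
    ∀ {g : (Fin n → ℝ) → (Fin n → ℝ)} {α : (Fin n → ℝ) → ℝ} {c : Fin n → ℝ}
      {τ r : ℝ} {E : Set (Fin n → ℝ)} (_ : TD g α c τ r Q E) {t : ℝ} (_ : 1 ≤ t)
      (_ : ∀ x ∈ closedBall c τ, msum (jac g x).adjugate ≤ t * α x)
      {ζ : (Fin n → ℝ) → ℝ} (_ : ContDiff ℝ (⊤ : ℕ∞) ζ) (_ : ∀ x, |ζ x| ≤ Z₀)
      (_ : ∀ x, ∑ l, |pd l ζ x| ≤ Z₁)
      {X : (Fin n → ℝ) → (Fin n → ℝ)} (_ : ContDiff ℝ (⊤ : ℕ∞) X) (_ : ∀ y i, |X y i| ≤ X₀)
      (_ : ∀ y, |dv X y| ≤ X₁),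
      |∫ x in E, ζ x * (dv X (g x) * (jac g x).det)| ≤ C * t ^ ((n : ℝ) / (n - 1)) * r ^ n := by
  obtain ⟨C, hC, hdeg⟩ := exists_deg_bound hn
  refine ⟨Z₀ * X₁ * C * |Q| ^ ((n : ℝ) / (n - 1)) + 11 * Z₁ * X₀ * |Q| + 1, by positivity, ?_⟩
  intro g α c τ r E h t ht hadj ζ hζ hZ0b hZ1b X hX hX0b hX1b
  have hn1 : (0 : ℝ) < n - 1 := by
    have : (2 : ℝ) ≤ n := by exact_mod_cast hn
    linarith
  have hQ := h.hQ
  have hr := h.hr
  rw [abs_of_nonneg hQ]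
  obtain ⟨D, hD, hDg, hDb, -⟩ := hdeg h (zero_le_one.trans ht) hadj
  have hXc : ContDiff ℝ 1 X := hX.of_le (by simp)
  have hζc : ContDiff ℝ 1 ζ := hζ.of_le (by simp)
  have hdvc : Continuous (dv X) := dv_continuous hXc
  have hcont : Continuous fun x => dv X (g x) * (jac g x).det :=
    (hdvc.comp h.hg.continuous).mul (jac_continuous (h.hg.of_le (by simp))).matrix_det
  have e1 : ∫ x in E, ζ x * (dv X (g x) * (jac g x).det) =
      ζ c * (∫ x in E, dv X (g x) * (jac g x).det) +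
      ∫ x in E, (ζ x - ζ c) * dv (fld g X) x := by
    rw [← integral_const_mul, ← integral_add]
    · congr 1; ext x; rw [dv_fld h.hg hX]; ring
    · exact h.integrableOn (continuous_const.mul hcont)
    · exact h.integrableOn ((hζc.continuous.sub continuous_const).mul
        (dv_continuous (fld_contDiff h.hg hX)))
  rw [e1]
  have b1 : |ζ c * (∫ x in E, dv X (g x) * (jac g x).det)| ≤
      Z₀ * (X₁ * (C * ((t * Q) ^ ((n : ℝ) / (n - 1)) * r ^ n))) := by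
    rw [abs_mul, hDg (dv X) hdvc]
    apply mul_le_mul (hZ0b c) _ (abs_nonneg _) hZ₀
    calc |∫ y, dv X y * D y| ≤ ∫ y, X₁ * |D y| := by
          rw [← Real.norm_eq_abs]
          apply norm_integral_le_of_norm_le (hD.abs.const_mul X₁)
          filter_upwards with y
          rw [norm_mul, Real.norm_eq_abs, Real.norm_eq_abs]
          exact mul_le_mul_of_nonneg_right (hX1b y) (abs_nonneg _)
      _ = X₁ * ∫ y, |D y| := integral_const_mul _ _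
      _ ≤ _ := mul_le_mul_of_nonneg_left hDb hX₁
  have b2 : |∫ x in E, (ζ x - ζ c) * dv (fld g X) x| ≤
      Z₁ * (X₀ * t) * (Q * r ^ n) + (10 * r * Z₁) * (X₀ * t) * (Q * r ^ (n - 1)) := by
    apply h.flux (fld_contDiff h.hg hX) (by positivity) _ (hζc.sub contDiff_const)
      (by positivity)
    · intro x hx
      refine (lip_of_pd hζc hZ1b x c).trans ?_
      rw [mem_closedBall, dist_eq_norm] at hx
      have := h.hτ
      calc Z₁ * ‖x - c‖ ≤ Z₁ * (10 * r) := mul_le_mul_of_nonneg_left (by linarith) hZ₁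
        _ = _ := by ring
    · intro x
      have : ∀ l, pd l (fun x => ζ x - ζ c) x = pd l ζ x := by
        intro l
        unfold pd
        rw [fderiv_sub_const]
      simp_rw [this]
      exact hZ1b x
    · intro x hx l
      calc |fld g X x l| ≤ msum (jac g x).adjugate * X₀ := abs_mulVec_le _ (fun i => hX0b _ i) l
        _ ≤ (t * α x) * X₀ := mul_le_mul_of_nonneg_right (hadj x hx) hX₀
        _ = _ := by ring
  have hrr : r * r ^ (n - 1) = r ^ n := by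
    obtain ⟨k, rfl⟩ : ∃ k, n = k + 1 := ⟨n - 1, by omega⟩
    simp only [Nat.add_sub_cancel]; ring
  have htp : t ≤ t ^ ((n : ℝ) / (n - 1)) := by
    calc t = t ^ (1 : ℝ) := (Real.rpow_one _).symm
      _ ≤ _ := by
          apply Real.rpow_le_rpow_of_exponent_le ht
          rw [le_div_iff₀ hn1]; linarith
  have ht0 : 0 ≤ t := zero_le_one.trans ht
  calc _ ≤ _ := abs_add_le _ _
    _ ≤ Z₀ * (X₁ * (C * ((t * Q) ^ ((n : ℝ) / (n - 1)) * r ^ n))) +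
        (Z₁ * (X₀ * t) * (Q * r ^ n) + (10 * r * Z₁) * (X₀ * t) * (Q * r ^ (n - 1))) :=
        add_le_add b1 b2
    _ = Z₀ * X₁ * C * Q ^ ((n : ℝ) / (n - 1)) * t ^ ((n : ℝ) / (n - 1)) * r ^ n +
        11 * Z₁ * X₀ * Q * t * r ^ n := by
        rw [Real.mul_rpow ht0 hQ]
        have e2 : (10 * r * Z₁) * (X₀ * t) * (Q * r ^ (n - 1)) =
          10 * Z₁ * X₀ * t * Q * (r * r ^ (n - 1)) := by ring
        rw [e2, hrr]; ring
    _ ≤ Z₀ * X₁ * C * Q ^ ((n : ℝ) / (n - 1)) * t ^ ((n : ℝ) / (n - 1)) * r ^ n +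
        11 * Z₁ * X₀ * Q * t ^ ((n : ℝ) / (n - 1)) * r ^ n := by
        gcongr
    _ ≤ _ := by
        have : 0 ≤ 1 * t ^ ((n : ℝ) / (n - 1)) * r ^ n := by positivity
        nlinarith [this]

end Pool.Agent.MP8995
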