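import Mathlib
import Pool.Agent.Lib.MP_8995c5_an.TileBound
import Pool.Agent.Lib.MP_8995c5_an.Approx

set_option autoImplicit false

open MeasureTheory Metric Set Filter Topology
open scoped ENNReal

namespace Pool.Agent.MP8995

variable {n : ℕ}

/-- Choice of the parameters of the small tiles. -/
theorem exists_params {p t Λ e : ℝ} (hp : 0 < p) (ht : 0 < t) (_hΛ : 0 ≤ Λ) (he : 0 < e) :
    ∃ R β σ₀ : ℝ, 1 ≤ R ∧ 8 * Λ ≤ R ∧ 0 < β ∧ 0 < σ₀ ∧ ∀ σ, 0 < σ → σ ≤ σ₀ →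
      R * σ * t + R * β + (β + t ^ p / R) ^ p + Λ ^ 2 * σ ≤ e := by
  obtain ⟨ν, hν⟩ : ∃ ν : ℝ, ν = (e / 4) ^ (1 / p) := ⟨_, rfl⟩
  have he4 : 0 < e / 4 := div_pos he four_pos
  have hν0 : 0 < ν := by rw [hν]; exact Real.rpow_pos_of_pos he4 _
  obtain ⟨T, hT⟩ : ∃ T : ℝ, T = t ^ p := ⟨_, rfl⟩
  have htp : 0 < T := by rw [hT]; exact Real.rpow_pos_of_pos ht _
  rw [← hT]
  obtain ⟨R, hR1, hR2, hR3⟩ : ∃ R : ℝ, 1 ≤ R ∧ 8 * Λ ≤ R ∧ 2 * T / ν ≤ R :=
    ⟨max 1 (max (8 * Λ) (2 * T / ν)), le_max_left _ _,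
      (le_max_left _ _).trans (le_max_right _ _), (le_max_right _ _).trans (le_max_right _ _)⟩
  have hR0 : 0 < R := zero_lt_one.trans_le hR1
  obtain ⟨β, hβ0, hβ1, hβ2⟩ : ∃ β : ℝ, 0 < β ∧ β ≤ ν / 2 ∧ β ≤ e / (4 * R) :=
    ⟨min (ν / 2) (e / (4 * R)), lt_min (half_pos hν0) (div_pos he (mul_pos four_pos hR0)),
      min_le_left _ _, min_le_right _ _⟩
  have hΛ1 : 0 < Λ ^ 2 + 1 := add_pos_of_nonneg_of_pos (sq_nonneg Λ) one_pos
  refine ⟨R, β, min (e / (4 * R * t)) (e / (4 * (Λ ^ 2 + 1))), hR1, hR2, hβ0,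
    lt_min (div_pos he (mul_pos (mul_pos four_pos hR0) ht)) (div_pos he (mul_pos four_pos hΛ1)),
    fun σ hσ hσ' => ?_⟩
  have h1 : R * σ * t ≤ e / 4 := by
    have := hσ'.trans (min_le_left _ _)
    rw [le_div_iff₀ (mul_pos (mul_pos four_pos hR0) ht)] at this
    linarith only [this]
  have h2 : R * β ≤ e / 4 := by
    rw [le_div_iff₀ (mul_pos four_pos hR0)] at hβ2
    linarith only [hβ2]
  have h3 : (β + T / R) ^ p ≤ e / 4 := by
    have h6 : T / R ≤ ν / 2 := by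
      rw [div_le_iff₀ hR0]
      rw [div_le_iff₀ hν0] at hR3
      linarith only [hR3]
    have h4 : β + T / R ≤ ν := by linarith only [h6, hβ1]
    have h0 : 0 ≤ β + T / R := add_nonneg hβ0.le (div_pos htp hR0).le
    calc (β + T / R) ^ p ≤ ν ^ p := Real.rpow_le_rpow h0 h4 hp.le
      _ = e / 4 := by
          rw [hν, ← Real.rpow_mul he4.le, one_div, inv_mul_cancel₀ hp.ne', Real.rpow_one]
  have h4 : Λ ^ 2 * σ ≤ e / 4 := by
    have := hσ'.trans (min_le_right _ _)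
    rw [le_div_iff₀ (mul_pos four_pos hΛ1)] at this
    have e1 : σ * (4 * (Λ ^ 2 + 1)) = 4 * (Λ ^ 2 * σ) + 4 * σ := by ring
    rw [e1] at this
    linarith only [this, hσ]
  linarith only [h1, h2, h3, h4]

/-- Absolute continuity of the integral. -/
theorem exists_abs_cont {Φ : (Fin n → ℝ) → ℝ} (hΦ : Integrable Φ) {K₀ : Set (Fin n → ℝ)}
    (hK₀ : IsCompact K₀) {η : ℝ} (hη : 0 < η) :
    ∃ δ > 0, ∀ S' : Set (Fin n → ℝ), MeasurableSet S' → S' ⊆ K₀ → volume.real S' ≤ δ →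
      ∫ x in S', |Φ x| ≤ η := by
  have h1 : ∫⁻ x, ‖Φ x‖ₑ ≠ ∞ := hΦ.hasFiniteIntegral.ne
  obtain ⟨δ, hδ, hS⟩ := exists_pos_setLIntegral_lt_of_measure_lt h1
    (ε := ENNReal.ofReal η) (ENNReal.ofReal_pos.2 hη).ne'
  obtain ⟨δ', hδ'0, hδ'⟩ : ∃ δ' : ℝ, 0 < δ' ∧ ENNReal.ofReal δ' < δ := by
    rcases eq_or_ne δ ∞ with rfl | hne
    · exact ⟨1, one_pos, ENNReal.ofReal_lt_top⟩
    · have hpos : 0 < δ.toReal := ENNReal.toReal_pos hδ.ne' hne
      refine ⟨δ.toReal / 2, half_pos hpos, ?_⟩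
      rw [← ENNReal.ofReal_toReal hne, ENNReal.ofReal_lt_ofReal_iff hpos]
      rw [ENNReal.toReal_ofReal hpos.le]
      exact half_lt_self hpos
  refine ⟨δ', hδ'0, fun S' hS'm hS' hv => ?_⟩
  have hfin : volume S' ≠ ∞ := (lt_of_le_of_lt (measure_mono hS') hK₀.measure_lt_top).ne
  have h2 : volume S' < δ := by
    refine lt_of_le_of_lt ?_ hδ'
    rw [← ENNReal.ofReal_toReal hfin]
    exact ENNReal.ofReal_le_ofReal hv
  have h3 := hS S' h2
  have h4 : ∫ x in S', |Φ x| = (∫⁻ x in S', ‖Φ x‖ₑ).toReal := by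
    rw [← integral_norm_eq_lintegral_enorm hΦ.aestronglyMeasurable.restrict]
    rfl
  rw [h4]
  exact ENNReal.toReal_le_of_le_ofReal hη.le h3.le

theorem bounded_of_cs {φ : (Fin n → ℝ) → ℝ} (hc : Continuous φ) (hs : HasCompactSupport φ) :
    ∃ C : ℝ, 0 ≤ C ∧ ∀ x, |φ x| ≤ C := by
  obtain ⟨C, hC⟩ := hc.bounded_above_of_compact_support hs
  exact ⟨C, (norm_nonneg _).trans (hC 0), hC⟩

theorem pd_hasCompactSupport {φ : (Fin n → ℝ) → ℝ} (hs : HasCompactSupport φ) (l : Fin n) :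
    HasCompactSupport (pd l φ) := by
  unfold pd
  exact hs.fderiv_apply (𝕜 := ℝ) _

theorem sum_pd_bounded {φ : (Fin n → ℝ) → ℝ} (hφ : ContDiff ℝ 1 φ) (hs : HasCompactSupport φ) :
    ∃ C : ℝ, 0 ≤ C ∧ ∀ x, ∑ l, |pd l φ x| ≤ C := by
  choose c hc0 hc using fun l => bounded_of_cs (pd_continuous hφ l) (pd_hasCompactSupport hs l)
  exact ⟨∑ l, c l, Finset.sum_nonneg fun l _ => hc0 l, fun x =>
    Finset.sum_le_sum fun l _ => hc l x⟩

theorem ibp_zero {A c : ℝ} (hc : 0 < c) (h : ∀ η > 0, |A| ≤ c * η) : A = 0 := by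
  by_contra hne
  have hpos : 0 < |A| := abs_pos.2 hne
  have h1 := h (|A| / (2 * c)) (div_pos hpos (mul_pos two_pos hc))
  have e : c * (|A| / (2 * c)) = |A| / 2 := by field_simp
  rw [e] at h1
  linarith only [h1, hpos]

theorem ibp_fam_bound {X : (Fin n → ℝ) → (Fin n → ℝ)} (hXi : ∀ i, ContDiff ℝ 1 fun y => X y i)
    (hXsi : ∀ i, HasCompactSupport fun y => X y i) :
    ∃ X₀ : ℝ, 0 ≤ X₀ ∧ ∀ y i, |X y i| ≤ X₀ := by
  choose x₀ hx₀ hx0b using fun i => bounded_of_cs (hXi i).continuous (hXsi i)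
  exact ⟨∑ i, x₀ i, Finset.sum_nonneg fun i _ => hx₀ i, fun y i => (hx0b i y).trans
    (Finset.single_le_sum (fun i _ => hx₀ i) (Finset.mem_univ i))⟩

theorem ibp_fam_bound' {X : (Fin n → ℝ) → (Fin n → ℝ)} (hXi : ∀ i, ContDiff ℝ 1 fun y => X y i)
    (hXsi : ∀ i, HasCompactSupport fun y => X y i) :
    ∃ X₁ : ℝ, 0 ≤ X₁ ∧ ∀ y i, ∑ l, |pd l (fun y => X y i) y| ≤ X₁ := by
  choose x₁ hx₁ hx1b using fun i => sum_pd_bounded (hXi i) (hXsi i)
  exact ⟨∑ i, x₁ i, Finset.sum_nonneg fun i _ => hx₁ i, fun y i => (hx1b i y).trans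
    (Finset.single_le_sum (fun i _ => hx₁ i) (Finset.mem_univ i))⟩

theorem ibp_dv_smooth {X : (Fin n → ℝ) → (Fin n → ℝ)} (hX : ContDiff ℝ (⊤ : ℕ∞) X) :
    ContDiff ℝ (⊤ : ℕ∞) (dv X) := by
  unfold dv
  exact ContDiff.sum fun j _ => pd_smooth (contDiff_pi.1 hX j) j

theorem ibp_pd_zero_off {φ : (Fin n → ℝ) → ℝ} {x : Fin n → ℝ} (hx : x ∉ tsupport φ) (j : Fin n) :
    pd j φ x = 0 := by
  have h1 : φ =ᶠ[𝓝 x] fun _ => (0 : ℝ) := by
    filter_upwards [(isClosed_tsupport φ).isOpen_compl.mem_nhds hx] with z hz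
    exact image_eq_zero_of_notMem_tsupport hz
  unfold pd
  rw [h1.fderiv_eq]
  simp

theorem ibp_dv_hasCompactSupport {X : (Fin n → ℝ) → (Fin n → ℝ)} (hXs : HasCompactSupport X) :
    HasCompactSupport (dv X) := by
  apply HasCompactSupport.intro hXs.isCompact
  intro y hy
  unfold dv
  apply Finset.sum_eq_zero
  intro j _
  have h1 : (fun z => X z j) =ᶠ[𝓝 y] fun _ => (0 : ℝ) := by
    filter_upwards [(isClosed_tsupport X).isOpen_compl.mem_nhds hy] with z hz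
    rw [image_eq_zero_of_notMem_tsupport hz]; rfl
  unfold pd
  rw [h1.fderiv_eq]
  simp

theorem ibp_integrable_of_coord {f : (Fin n → ℝ) → (Fin n → ℝ)} (hfm : Measurable f)
    (hf : ∀ i, Integrable fun x => f x i) : Integrable f := by
  apply (integrable_finsetSum Finset.univ fun i _ => (hf i).abs).mono'
    hfm.aestronglyMeasurable
  filter_upwards with x
  rw [pi_norm_le_iff_of_nonneg (Finset.sum_nonneg fun _ _ => abs_nonneg _)]
  intro i
  exact Finset.single_le_sum (f := fun i => |f x i|) (fun _ _ => abs_nonneg _)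
    (Finset.mem_univ i)

theorem ibp_abs_entry_le_msum (M : Matrix (Fin n) (Fin n) ℝ) (i j : Fin n) : |M i j| ≤ msum M := by
  unfold msum
  exact (Finset.single_le_sum (f := fun j => |M i j|) (fun _ _ => abs_nonneg _)
    (Finset.mem_univ j)).trans (Finset.single_le_sum (f := fun i => ∑ j, |M i j|)
    (fun i _ => Finset.sum_nonneg fun _ _ => abs_nonneg _) (Finset.mem_univ i))

theorem ibp_measurable_msum_adj {Df : (Fin n → ℝ) → Matrix (Fin n) (Fin n) ℝ}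
    (hm : ∀ i j, Measurable fun x => (Df x).adjugate i j) :
    Measurable fun x => msum (Df x).adjugate := by
  unfold msum
  exact Finset.measurable_sum _ fun i _ => Finset.measurable_sum _ fun j _ => (hm i j).abs

theorem ibp_integrable_Phi {ζ D E : (Fin n → ℝ) → ℝ} {Z₀ Xd : ℝ} (hZ₀ : 0 ≤ Z₀)
    (hζ : ∀ x, |ζ x| ≤ Z₀) (hD : ∀ x, |D x| ≤ Xd)
    (hm : AEStronglyMeasurable (fun x => ζ x * (D x * E x)) (volume : Measure (Fin n → ℝ)))
    (hE : Integrable E) :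
    Integrable fun x => ζ x * (D x * E x) := by
  apply (hE.abs.const_mul (Z₀ * Xd)).mono' hm
  filter_upwards with x
  rw [norm_mul, norm_mul, Real.norm_eq_abs, Real.norm_eq_abs, Real.norm_eq_abs, mul_assoc]
  exact mul_le_mul (hζ x) (mul_le_mul_of_nonneg_right (hD x) (abs_nonneg _))
    (mul_nonneg (abs_nonneg _) (abs_nonneg _)) hZ₀

/-- The level `t`. -/
theorem ibp_exists_level (hn1 : (1 : ℝ) ≤ n - 1) {I J : ℝ → ℝ} (hJ0 : ∀ s, 0 ≤ J s)
    (hJI : ∀ s, J s ≤ I s)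
    (hlog : ∀ δ > 0, ∀ t₀ : ℝ, ∃ t : ℝ, t₀ ≤ t ∧ 1 ≤ t ∧ t ^ ((1 : ℝ) / (n - 1)) * I t ≤ δ)
    {C η δ d : ℝ} (M₀ : ℝ) (hC : 0 < C) (hη : 0 < η) (hδ : 0 < δ) (hd : 0 < d) :
    ∃ t : ℝ, 1 ≤ t ∧ M₀ ≤ t * (5 * d) ^ n ∧
      0 ≤ 1 / t * J (t / 2 ^ (n + 1)) ∧
      C * (t ^ ((n : ℝ) / (n - 1)) * (1 / t * J (t / 2 ^ (n + 1)))) ≤ η ∧
      C * (1 / t * J (t / 2 ^ (n + 1))) ≤ δ / 2 := by
  obtain ⟨q, hq⟩ : ∃ q : ℝ, q = (1 : ℝ) / (n - 1) := ⟨_, rfl⟩
  have hn0 : (0 : ℝ) < n - 1 := zero_lt_one.trans_le hn1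
  have hp : (n : ℝ) / (n - 1) = q + 1 := by
    rw [hq, div_add_one hn0.ne']
    congr 1
    ring
  rw [hp]
  simp only [← hq] at hlog
  have hq0 : 0 < q := by rw [hq]; exact one_div_pos.2 hn0
  obtain ⟨N, hN⟩ : ∃ N : ℝ, N = 2 ^ (n + 1) := ⟨_, rfl⟩
  have hN1 : 1 ≤ N := by rw [hN]; exact one_le_pow₀ one_le_two
  have hN0 : 0 < N := zero_lt_one.trans_le hN1
  rw [← hN]
  obtain ⟨cn, hcn⟩ : ∃ cn : ℝ, cn = N ^ q := ⟨_, rfl⟩
  have hcn0 : 0 < cn := by rw [hcn]; exact Real.rpow_pos_of_pos hN0 _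
  have hCcn : 0 < C * cn := mul_pos hC hcn0
  obtain ⟨m, hm0, hm1, hm2⟩ : ∃ m : ℝ, 0 < m ∧ m ≤ η / (C * cn) ∧ m ≤ δ / (2 * (C * cn)) :=
    ⟨min (η / (C * cn)) (δ / (2 * (C * cn))),
      lt_min (div_pos hη hCcn) (div_pos hδ (mul_pos two_pos hCcn)), min_le_left _ _,
      min_le_right _ _⟩
  have h5d : 0 < (5 * d) ^ n := pow_pos (mul_pos (by norm_num) hd) n
  obtain ⟨t', ht'0, ht'1, ht'δ⟩ := hlog m hm0 (M₀ / (5 * d) ^ n)
  have ht'pos : 0 < t' := zero_lt_one.trans_le ht'1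
  obtain ⟨t, ht⟩ : ∃ t : ℝ, t = t' * N := ⟨_, rfl⟩
  have htt' : t' ≤ t := by rw [ht]; exact le_mul_of_one_le_right ht'pos.le hN1
  have ht1 : 1 ≤ t := ht'1.trans htt'
  have ht0 : 0 < t := zero_lt_one.trans_le ht1
  have htd : M₀ ≤ t * (5 * d) ^ n := by
    have h1 : M₀ / (5 * d) ^ n ≤ t := ht'0.trans htt'
    rwa [div_le_iff₀ h5d] at h1
  have htdiv : t / N = t' := by rw [ht]; exact mul_div_cancel_right₀ _ hN0.ne'
  have hb0 : 0 ≤ 1 / t * J (t / N) := mul_nonneg (one_div_pos.2 ht0).le (hJ0 _)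
  have htq : 1 ≤ t ^ (q + 1) := Real.one_le_rpow ht1 (add_pos hq0 one_pos).le
  have htpb : t ^ (q + 1) * (1 / t * J (t / N)) ≤ cn * m := by
    have h1 : t ^ (q + 1) = t ^ q * t := by rw [Real.rpow_add_one ht0.ne']
    have h2 : t ^ (q + 1) * (1 / t * J (t / N)) = t ^ q * J (t / N) := by
      rw [h1]
      field_simp
    rw [h2, htdiv]
    calc t ^ q * J t' ≤ t ^ q * I t' :=
          mul_le_mul_of_nonneg_left (hJI t') (Real.rpow_pos_of_pos ht0 _).le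
      _ = cn * (t' ^ q * I t') := by
          rw [ht, Real.mul_rpow ht'pos.le hN0.le, hcn]
          ring
      _ ≤ cn * m := mul_le_mul_of_nonneg_left ht'δ hcn0.le
  refine ⟨t, ht1, htd, hb0, ?_, ?_⟩
  · calc C * (t ^ (q + 1) * (1 / t * J (t / N))) ≤ C * (cn * (η / (C * cn))) :=
          mul_le_mul_of_nonneg_left (htpb.trans (mul_le_mul_of_nonneg_left hm1 hcn0.le)) hC.le
      _ = η := by field_simp
  · calc C * (1 / t * J (t / N)) ≤ C * (t ^ (q + 1) * (1 / t * J (t / N))) :=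
          mul_le_mul_of_nonneg_left (le_mul_of_one_le_left hb0 htq) hC.le
      _ ≤ C * (cn * (δ / (2 * (C * cn)))) :=
          mul_le_mul_of_nonneg_left (htpb.trans (mul_le_mul_of_nonneg_left hm2 hcn0.le)) hC.le
      _ = δ / 2 := by field_simp

/-- The precision `ε`. -/
theorem ibp_exists_eps {σ β Λ ω η Z₁ X₀ X₁ Λ₁ : ℝ} (hσ : 0 < σ) (hβ : 0 < β) (hΛ : 0 ≤ Λ)
    (hω : ω ≤ β / (2 * (1 + Λ) * 100 ^ n)) (hη : 0 < η) (hZ₁ : 0 ≤ Z₁) (hX₀ : 0 ≤ X₀)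
    (hX₁ : 0 ≤ X₁) (hΛ₁ : 0 ≤ Λ₁) :
    ∃ ε : ℝ, 0 < ε ∧ ε ≤ (σ / 100) ^ n ∧
      ε * (1 + Λ / σ) + ω * (1 + Λ) * σ ^ n ≤ β * (σ / 100) ^ n ∧
      Z₁ * X₀ * ε ≤ η ∧ Z₁ * (Λ₁ * X₁) * ε ≤ η := by
  obtain ⟨s, hs⟩ : ∃ s : ℝ, s = (σ / 100) ^ n := ⟨_, rfl⟩
  have hs0 : 0 < s := by rw [hs]; exact pow_pos (div_pos hσ (by norm_num)) n
  rw [← hs]
  have hΛσ : 0 < 1 + Λ / σ := add_pos_of_pos_of_nonneg one_pos (div_nonneg hΛ hσ.le)
  have ha : 0 ≤ Z₁ * X₀ := mul_nonneg hZ₁ hX₀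
  have hb : 0 ≤ Z₁ * (Λ₁ * X₁) := mul_nonneg hZ₁ (mul_nonneg hΛ₁ hX₁)
  have ha1 : 0 < Z₁ * X₀ + 1 := add_pos_of_nonneg_of_pos ha one_pos
  have hb1 : 0 < Z₁ * (Λ₁ * X₁) + 1 := add_pos_of_nonneg_of_pos hb one_pos
  obtain ⟨ε, hε0, hε1, hε2, hε3, hε4⟩ : ∃ ε : ℝ, 0 < ε ∧ ε ≤ s ∧ ε ≤ β / 2 * s / (1 + Λ / σ) ∧
      ε ≤ η / (Z₁ * X₀ + 1) ∧ ε ≤ η / (Z₁ * (Λ₁ * X₁) + 1) :=
    ⟨min (min s (β / 2 * s / (1 + Λ / σ))) (min (η / (Z₁ * X₀ + 1)) (η / (Z₁ * (Λ₁ * X₁) + 1))),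
      lt_min (lt_min hs0 (div_pos (mul_pos (half_pos hβ) hs0) hΛσ))
        (lt_min (div_pos hη ha1) (div_pos hη hb1)),
      (min_le_left _ _).trans (min_le_left _ _), (min_le_left _ _).trans (min_le_right _ _),
      (min_le_right _ _).trans (min_le_left _ _), (min_le_right _ _).trans (min_le_right _ _)⟩
  refine ⟨ε, hε0, hε1, ?_, ?_, ?_⟩
  · rw [le_div_iff₀ hΛσ] at hε2
    have h0 : 0 < 2 * (1 + Λ) * 100 ^ n :=
      mul_pos (mul_pos two_pos (add_pos_of_pos_of_nonneg one_pos hΛ)) (pow_pos (by norm_num) n)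
    rw [le_div_iff₀ h0] at hω
    have h3 : σ ^ n = s * 100 ^ n := by
      rw [hs, ← mul_pow, div_mul_cancel₀ _ (by norm_num : (100 : ℝ) ≠ 0)]
    have h2 : ω * (1 + Λ) * σ ^ n ≤ β / 2 * s := by
      have h5 := mul_le_mul_of_nonneg_right hω (half_pos hs0).le
      calc ω * (1 + Λ) * σ ^ n = ω * (2 * (1 + Λ) * 100 ^ n) * (s / 2) := by rw [h3]; ring
        _ ≤ β * (s / 2) := h5
        _ = β / 2 * s := by ring
    linarith only [hε2, h2]
  · rw [le_div_iff₀ ha1, mul_add, mul_one] at hε3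
    linarith only [hε3, hε0, mul_comm ε (Z₁ * X₀)]
  · rw [le_div_iff₀ hb1, mul_add, mul_one] at hε4
    linarith only [hε4, hε0, mul_comm ε (Z₁ * (Λ₁ * X₁))]

/-- The pointwise bound of the second part. -/
theorem ibp_fld_sub_le {g f X : (Fin n → ℝ) → (Fin n → ℝ)} {M : Matrix (Fin n) (Fin n) ℝ}
    {X₀ X₁ Λ₁ : ℝ} (hX₀ : 0 ≤ X₀) (hX₁ : 0 ≤ X₁) (hΛ₁ : 0 ≤ Λ₁)
    (hXi : ∀ i, ContDiff ℝ 1 fun y => X y i) (hX0b : ∀ y i, |X y i| ≤ X₀)
    (hX1b : ∀ y i, ∑ l, |pd l (fun y => X y i) y| ≤ X₁) (x : Fin n → ℝ) (j : Fin n) {I : ℝ}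
    (hI1 : Λ₁ < msum M → I = msum M) (hI2 : ¬ Λ₁ < msum M → I = 0) :
    |fld g X x j - M.mulVec (X (f x)) j| ≤
      X₀ * msum ((jac g x).adjugate - M) + (2 * X₀ * I + Λ₁ * X₁ * ‖g x - f x‖) := by
  have e1 : fld g X x j - M.mulVec (X (f x)) j =
      ((jac g x).adjugate - M).mulVec (X (g x)) j + M.mulVec (X (g x) - X (f x)) j := by
    unfold fld
    rw [Matrix.sub_mulVec, Matrix.mulVec_sub, Pi.sub_apply, Pi.sub_apply]
    ring
  rw [e1]
  have h2 : 0 ≤ Λ₁ * X₁ * ‖g x - f x‖ := mul_nonneg (mul_nonneg hΛ₁ hX₁) (norm_nonneg _)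
  refine (abs_add_le _ _).trans (add_le_add ?_ ?_)
  · rw [mul_comm]
    exact abs_mulVec_le _ (fun i => hX0b _ i) j
  · by_cases hx : Λ₁ < msum M
    · rw [hI1 hx]
      have h1 := abs_mulVec_le M (v := X (g x) - X (f x)) (b := 2 * X₀)
        (fun i => by
          rw [Pi.sub_apply, two_mul]
          exact (abs_sub _ _).trans (add_le_add (hX0b (g x) i) (hX0b (f x) i))) j
      rw [mul_comm (2 * X₀)]
      exact h1.trans (le_add_of_nonneg_right h2)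
    · rw [hI2 hx, mul_zero, zero_add]
      have h1 := abs_mulVec_le M (v := X (g x) - X (f x)) (b := X₁ * ‖g x - f x‖)
        (fun i => by
          rw [Pi.sub_apply]
          exact lip_of_pd (hXi i) (fun y => hX1b y i) _ _) j
      refine h1.trans ?_
      rw [mul_assoc]
      exact mul_le_mul_of_nonneg_right (not_lt.1 hx) (mul_nonneg hX₁ (norm_nonneg _))

theorem ibp_sum_mul_le {a b : Fin n → ℝ} {B Z : ℝ} (hB : 0 ≤ B) (ha : ∑ j, |a j| ≤ Z)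
    (hb : ∀ j, |b j| ≤ B) : |∑ j, a j * b j| ≤ Z * B := by
  calc |∑ j, a j * b j| ≤ ∑ j, |a j| * B := by
        refine (Finset.abs_sum_le_sum_abs _ _).trans (Finset.sum_le_sum fun j _ => ?_)
        rw [abs_mul]
        exact mul_le_mul_of_nonneg_left (hb j) (abs_nonneg _)
    _ = (∑ j, |a j|) * B := by rw [Finset.sum_mul]
    _ ≤ Z * B := mul_le_mul_of_nonneg_right ha hB

/-- Three integrals. -/
theorem ibp_int_three {K₀ : Set (Fin n → ℝ)} {u v w : (Fin n → ℝ) → ℝ} {a b c Z η ε : ℝ}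
    (hu : IntegrableOn u K₀) (hv : IntegrableOn v K₀) (hw : IntegrableOn w K₀)
    (hZ : 0 ≤ Z) (ha : 0 ≤ a) (hb : 0 ≤ b) (hc : 0 ≤ c)
    (h1 : ∫ x in K₀, u x ≤ ε) (h2 : ∫ x in K₀, v x ≤ η) (h3 : ∫ x in K₀, w x ≤ ε)
    (h4 : Z * a * ε ≤ η) (h5 : Z * c * ε ≤ η) :
    Z * ∫ x in K₀, (a * u x + (b * v x + c * w x)) ≤ (2 + b * Z) * η := by
  have e1 : ∫ x in K₀, (a * u x + (b * v x + c * w x)) =
      a * (∫ x in K₀, u x) + (b * (∫ x in K₀, v x) + c * ∫ x in K₀, w x) := by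
    have k1 : IntegrableOn (fun x => a * u x) K₀ := hu.const_mul _
    have k2 : IntegrableOn (fun x => b * v x) K₀ := hv.const_mul _
    have k3 : IntegrableOn (fun x => c * w x) K₀ := hw.const_mul _
    have k4 : IntegrableOn (fun x => b * v x + c * w x) K₀ := k2.add k3
    rw [← integral_const_mul, ← integral_const_mul, ← integral_const_mul,
      ← integral_add k2 k3, ← integral_add k1 k4]
  rw [e1]
  have f1 := mul_le_mul_of_nonneg_left h1 (mul_nonneg hZ ha)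
  have f2 := mul_le_mul_of_nonneg_left h2 (mul_nonneg hZ hb)
  have f3 := mul_le_mul_of_nonneg_left h3 (mul_nonneg hZ hc)
  have e2 : Z * (a * (∫ x in K₀, u x) + (b * (∫ x in K₀, v x) + c * ∫ x in K₀, w x)) =
      Z * a * (∫ x in K₀, u x) + Z * b * (∫ x in K₀, v x) + Z * c * ∫ x in K₀, w x := by ring
  rw [e2]
  linarith only [f1, f2, f3, h4, h5, mul_comm (b * Z) η, mul_comm Z b,
    (by ring : (2 + b * Z) * η = 2 * η + Z * b * η)]

/-- The second part. -/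
theorem ibp_part2 {ζ : (Fin n → ℝ) → ℝ} {X f g : (Fin n → ℝ) → (Fin n → ℝ)}
    {Df : (Fin n → ℝ) → Matrix (Fin n) (Fin n) ℝ} {K₀ : Set (Fin n → ℝ)} (hK₀ : IsCompact K₀)
    (hζc : ContDiff ℝ 1 ζ) (hζs : HasCompactSupport ζ) (hζK : tsupport ζ ⊆ K₀)
    (hX : ContDiff ℝ (⊤ : ℕ∞) X) {X₀ X₁ Z₁ : ℝ} (hX₀ : 0 ≤ X₀) (hX₁ : 0 ≤ X₁) (hZ₁ : 0 ≤ Z₁)
    (hZ1b : ∀ x, ∑ l, |pd l ζ x| ≤ Z₁) (hX0b : ∀ y i, |X y i| ≤ X₀)
    (hX1b : ∀ y i, ∑ l, |pd l (fun y => X y i) y| ≤ X₁)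
    (hfm : Measurable f) (hfi : Integrable f)
    (hadjmeas : ∀ i j, Measurable fun x => (Df x).adjugate i j)
    (hadjm : ∀ i j, Integrable fun x => (Df x).adjugate i j)
    (hmsm : Measurable fun x => msum (Df x).adjugate)
    (hmsi : Integrable fun x => msum (Df x).adjugate)
    (hg : ContDiff ℝ (⊤ : ℕ∞) g) {Λ₁ η ε : ℝ} (hΛ₁ : 0 ≤ Λ₁)
    (hgf : ∫ x in K₀, ‖g x - f x‖ ≤ ε)
    (hgA : ∫ x in K₀, msum ((jac g x).adjugate - (Df x).adjugate) ≤ ε)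
    (hlevη : ∫ x in {x | Λ₁ < msum (Df x).adjugate}, msum (Df x).adjugate ≤ η)
    (hε3 : Z₁ * X₀ * ε ≤ η) (hε4 : Z₁ * (Λ₁ * X₁) * ε ≤ η) :
    |(∫ x, ∑ j, pd j ζ x * fld g X x j) -
      ∫ x, ∑ j, pd j ζ x * ((Df x).adjugate.mulVec (X (f x))) j| ≤ (2 + 2 * X₀ * Z₁) * η := by
  have hXi : ∀ i, ContDiff ℝ 1 fun y => X y i := contDiff_pi.1 (hX.of_le (by simp))
  have hK₀m : MeasurableSet K₀ := hK₀.measurableSet
  have hgAi : IntegrableOn (fun x => msum ((jac g x).adjugate - (Df x).adjugate)) K₀ := by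
    have hadjc : Continuous fun x => (jac g x).adjugate :=
      (jac_continuous (hg.of_le (by simp))).matrix_adjugate
    unfold msum
    refine integrable_finsetSum _ fun i _ => integrable_finsetSum _ fun j _ => ?_
    have h1 : IntegrableOn (fun y => (jac g y).adjugate i j - (Df y).adjugate i j) K₀ :=
      (((continuous_apply_apply i j).comp hadjc).continuousOn.integrableOn_compact hK₀).sub
        (hadjm i j).integrableOn
    exact h1.abs
  have hgfi : IntegrableOn (fun x => ‖g x - f x‖) K₀ :=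
    ((hg.continuous.continuousOn.integrableOn_compact hK₀).sub hfi.integrableOn).norm
  have hlev : MeasurableSet {x | Λ₁ < msum (Df x).adjugate} :=
    measurableSet_lt measurable_const hmsm
  have hlevi : Integrable ({x | Λ₁ < msum (Df x).adjugate}.indicator
      fun x => msum (Df x).adjugate) := hmsi.indicator hlev
  have hi1 : Integrable fun x => ∑ j, pd j ζ x * fld g X x j := by
    have hV1 : ContDiff ℝ 1 (fld g X) := fld_contDiff hg hX
    refine integrable_finsetSum _ fun j _ => ?_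
    exact ((pd_continuous hζc j).mul (contDiff_pi.1 hV1 j).continuous).integrable_of_hasCompactSupport
      (pd_hasCompactSupport hζs j).mul_right
  have hi2 : Integrable fun x => ∑ j, pd j ζ x * ((Df x).adjugate.mulVec (X (f x))) j := by
    have hWm : ∀ j, Measurable fun x => ((Df x).adjugate.mulVec (X (f x))) j := by
      intro j
      unfold Matrix.mulVec dotProduct
      exact Finset.measurable_sum _ fun i _ =>
        (hadjmeas j i).mul ((hXi i).continuous.measurable.comp hfm)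
    apply (hmsi.mul_const X₀).const_mul Z₁ |>.mono'
    · exact (Finset.measurable_sum _ fun j _ =>
        (pd_continuous hζc j).measurable.mul (hWm j)).aestronglyMeasurable
    · filter_upwards with x
      rw [Real.norm_eq_abs]
      exact ibp_sum_mul_le (mul_nonneg (msum_nonneg _) hX₀) (hZ1b x)
        (fun j => abs_mulVec_le _ (fun i => hX0b _ i) j)
  rw [← integral_sub hi1 hi2]
  have hpt : ∀ x, ‖(∑ j, pd j ζ x * fld g X x j) -
      ∑ j, pd j ζ x * ((Df x).adjugate.mulVec (X (f x))) j‖ ≤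
      K₀.indicator (fun x => Z₁ * (X₀ * msum ((jac g x).adjugate - (Df x).adjugate) +
    (2 * X₀ * {x | Λ₁ < msum (Df x).adjugate}.indicator (fun x => msum (Df x).adjugate) x +
      Λ₁ * X₁ * ‖g x - f x‖))) x := by
    intro x
    rw [Real.norm_eq_abs, ← Finset.sum_sub_distrib]
    by_cases hx : x ∈ K₀
    · rw [indicator_of_mem hx]
      have hB0 : 0 ≤ X₀ * msum ((jac g x).adjugate - (Df x).adjugate) +
          (2 * X₀ * {x | Λ₁ < msum (Df x).adjugate}.indicator (fun x => msum (Df x).adjugate) x +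
            Λ₁ * X₁ * ‖g x - f x‖) :=
        add_nonneg (mul_nonneg hX₀ (msum_nonneg _)) (add_nonneg
          (mul_nonneg (mul_nonneg zero_le_two hX₀) (indicator_nonneg (fun _ _ => msum_nonneg _) x))
          (mul_nonneg (mul_nonneg hΛ₁ hX₁) (norm_nonneg _)))
      have e1 : ∀ j ∈ (Finset.univ : Finset (Fin n)),
          pd j ζ x * fld g X x j - pd j ζ x * ((Df x).adjugate.mulVec (X (f x))) j =
          pd j ζ x * (fld g X x j - ((Df x).adjugate.mulVec (X (f x))) j) :=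
        fun j _ => (mul_sub _ _ _).symm
      rw [Finset.sum_congr rfl e1]
      refine ibp_sum_mul_le hB0 (hZ1b x) (fun j => ?_)
      exact ibp_fld_sub_le hX₀ hX₁ hΛ₁ hXi hX0b hX1b x j
        (fun hx => indicator_of_mem (s := {x | Λ₁ < msum (Df x).adjugate}) hx _)
        (fun hx => indicator_of_notMem (s := {x | Λ₁ < msum (Df x).adjugate}) hx _)
    · rw [indicator_of_notMem hx, Finset.sum_eq_zero, abs_zero]
      intro j _
      rw [ibp_pd_zero_off (fun h => hx (hζK h)) j, zero_mul, zero_mul, sub_zero]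
  have hBdi : IntegrableOn (fun x => X₀ * msum ((jac g x).adjugate - (Df x).adjugate) +
    (2 * X₀ * {x | Λ₁ < msum (Df x).adjugate}.indicator (fun x => msum (Df x).adjugate) x +
      Λ₁ * X₁ * ‖g x - f x‖)) K₀ :=
    (hgAi.const_mul _).add ((hlevi.integrableOn.const_mul _).add (hgfi.const_mul _))
  rw [← Real.norm_eq_abs]
  refine (norm_integral_le_of_norm_le ((integrable_indicator_iff hK₀m).2 (hBdi.const_mul Z₁))
    (Eventually.of_forall hpt)).trans ?_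
  rw [integral_indicator hK₀m, integral_const_mul]
  have e2 : ∫ x in K₀, {x | Λ₁ < msum (Df x).adjugate}.indicator
      (fun x => msum (Df x).adjugate) x ≤ η := by
    refine (setIntegral_le_integral hlevi (Eventually.of_forall fun x =>
      indicator_nonneg (fun _ _ => msum_nonneg _) x)).trans ?_
    rw [integral_indicator hlev]
    exact hlevη
  exact ibp_int_three hgAi hlevi.integrableOn hgfi hZ₁ hX₀ (mul_nonneg zero_le_two hX₀)
    (mul_nonneg hΛ₁ hX₁) hgA e2 hgf hε3 hε4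

end Pool.Agent.MP8995
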