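import Mathlib
import Pool.Agent.Lib.MP_8995c5_an.TileBound
import Pool.Agent.Lib.MP_8995c5_an.Cover

set_option autoImplicit false

open MeasureTheory Metric Set Filter Topology

namespace Pool.Agent.MP8995

variable {n : ℕ}

/-- Deviation of `g` and of its cofactors from those of an affine map. -/
noncomputable def devi (g : (Fin n → ℝ) → (Fin n → ℝ)) (B : Matrix (Fin n) (Fin n) ℝ)
    (fs xs : Fin n → ℝ) (σ : ℝ) (x : Fin n → ℝ) : ℝ :=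
  msum ((jac g x).adjugate - B.adjugate) +
    msum B.adjugate * (‖g x - (fs + B.mulVec (x - xs))‖ / σ)

theorem msum_add_le (M N : Matrix (Fin n) (Fin n) ℝ) : msum (M + N) ≤ msum M + msum N := by
  unfold msum
  rw [← Finset.sum_add_distrib]
  apply Finset.sum_le_sum
  intro i _
  rw [← Finset.sum_add_distrib]
  apply Finset.sum_le_sum
  intro j _
  exact abs_add_le _ _

theorem norm_mulVec_le (M : Matrix (Fin n) (Fin n) ℝ) (v : Fin n → ℝ) :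
    ‖M.mulVec v‖ ≤ msum M * ‖v‖ := by
  rw [pi_norm_le_iff_of_nonneg (mul_nonneg (msum_nonneg _) (norm_nonneg _))]
  intro l
  exact abs_mulVec_le M (fun i => norm_le_pi_norm v i) l

theorem affine_contDiff (B : Matrix (Fin n) (Fin n) ℝ) (fs xs : Fin n → ℝ) :
    ContDiff ℝ (⊤ : ℕ∞) (fun x => fs + B.mulVec (x - xs)) := by
  apply contDiff_const.add
  have : (fun x : Fin n → ℝ => B.mulVec (x - xs)) = fun x => Matrix.mulVecLin B (x - xs) := rfl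
  rw [this]
  exact (LinearMap.toContinuousLinearMap (Matrix.mulVecLin B)).contDiff.comp
    (contDiff_id.sub contDiff_const)

theorem jac_affine (B : Matrix (Fin n) (Fin n) ℝ) (fs xs x : Fin n → ℝ) :
    jac (fun x => fs + B.mulVec (x - xs)) x = B := by
  ext i j
  unfold jac pd
  have h1 : (fun y : Fin n → ℝ => (fs + B.mulVec (y - xs)) i) =
      fun y => fs i + (∑ k, B i k * (y k - xs k)) := by
    ext y; simp [Matrix.mulVec, dotProduct]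
  rw [h1, fderiv_const_add]
  have h2 : HasFDerivAt (fun y : Fin n → ℝ => ∑ k, B i k * (y k - xs k))
      (∑ k, B i k • (ContinuousLinearMap.proj k : (Fin n → ℝ) →L[ℝ] ℝ)) x := by
    apply HasFDerivAt.fun_sum
    intro k _
    exact (((ContinuousLinearMap.proj k : (Fin n → ℝ) →L[ℝ] ℝ).hasFDerivAt (x := x)).sub_const
      (xs k)).const_mul (B i k)
  rw [h2.fderiv]
  simp [Pi.single_apply]

theorem pd_sub_const {φ : (Fin n → ℝ) → ℝ} (a : ℝ) (l : Fin n) (x : Fin n → ℝ) :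
    pd l (fun x => φ x - a) x = pd l φ x := by
  unfold pd
  rw [fderiv_sub_const]

/-! ### Auxiliary statements with small contexts -/

/-- the two cutoffs around `fs` -/
structure StCut (fs : Fin n → ℝ) (ρ C : ℝ) (χ ψ : (Fin n → ℝ) → ℝ) : Prop where
  χs : ContDiff ℝ (⊤ : ℕ∞) χ
  ψs : ContDiff ℝ (⊤ : ℕ∞) ψ
  χ0 : ∀ y, 0 ≤ χ y
  χ1 : ∀ y, χ y ≤ 1
  χpd : ∀ l y, |pd l χ y| ≤ 4 * C / ρ
  χin : ∀ y, ‖y - fs‖ ≤ ρ / 2 → χ y = 1
  χout : ∀ y, ρ ≤ ‖y - fs‖ → χ y = 0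
  χpdout : ∀ l y, ρ < ‖y - fs‖ → pd l χ y = 0
  χpdin : ∀ l y, ‖y - fs‖ ≤ ρ / 2 → pd l χ y = 0
  ψ01 : ∀ y, 0 ≤ ψ y ∧ ψ y ≤ 1
  ψout : ∀ y, ρ / 2 ≤ ‖y - fs‖ → ψ y = 1
  ψin : ∀ y, ‖y - fs‖ ≤ ρ / 4 → ψ y = 0
  ψG : ∀ y, ∑ l, |pd l ψ y| ≤ 8 * n * C / ρ

theorem st_aux1 {C ρ : ℝ} (hρ : 0 < ρ) : 2 * C / (ρ / 2) = 4 * C / ρ := by
  field_simp; ring

theorem st_aux2 {C ρ : ℝ} (hρ : 0 < ρ) : 2 * C / (ρ / 4) = 8 * C / ρ := by
  field_simp; ring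

theorem st_cut {C ρ : ℝ} (hCb : ∀ x, |deriv Real.smoothTransition x| ≤ C) (fs : Fin n → ℝ)
    (hρ : 0 < ρ) :
    StCut fs ρ C (cubeBump fs ρ (ρ / 2)) (fun y => 1 - cubeBump fs (ρ / 2) (ρ / 4) y) := by
  have h2 : 0 < ρ / 2 := half_pos hρ
  have h4 : 0 < ρ / 4 := by linarith
  refine ⟨cubeBump_contDiff _ _ _, contDiff_const.sub (cubeBump_contDiff _ _ _),
    fun y => cubeBump_nonneg _ _ _ _, fun y => cubeBump_le_one _ _ _ _, ?_, ?_, ?_, ?_, ?_, ?_, ?_,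
    ?_, ?_⟩
  · intro l y
    exact (abs_pd_cubeBump_le hCb fs h2 l y).trans (st_aux1 hρ).le
  · intro y hy
    apply cubeBump_eq_one h2
    rw [mem_closedBall, dist_eq_norm]; linarith
  · intro y hy
    apply cubeBump_eq_zero hρ h2
    rw [mem_ball, dist_eq_norm]; linarith
  · intro l y hy
    apply pd_cubeBump_eq_zero h2 (by linarith)
    rintro ⟨h1, -⟩
    rw [mem_closedBall, dist_eq_norm] at h1; linarith
  · intro l y hy
    apply pd_cubeBump_eq_zero h2 (by linarith)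
    rintro ⟨-, h1⟩
    apply h1
    rw [mem_closedBall, dist_eq_norm]; linarith
  · intro y
    have e1 := cubeBump_nonneg fs (ρ / 2) (ρ / 4) y
    have e2 := cubeBump_le_one fs (ρ / 2) (ρ / 4) y
    constructor <;> linarith
  · intro y hy
    show 1 - cubeBump fs (ρ / 2) (ρ / 4) y = 1
    rw [cubeBump_eq_zero h2 h4, sub_zero]
    rw [mem_ball, dist_eq_norm]; linarith
  · intro y hy
    show 1 - cubeBump fs (ρ / 2) (ρ / 4) y = 0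
    rw [cubeBump_eq_one h4, sub_self]
    rw [mem_closedBall, dist_eq_norm]; linarith
  · intro y
    calc _ ≤ ∑ _l : Fin n, 8 * C / ρ := by
          apply Finset.sum_le_sum
          intro l _
          rw [pd_one_sub l y, abs_neg]
          exact (abs_pd_cubeBump_le hCb fs h4 l y).trans (st_aux2 hρ).le
      _ = _ := by
          rw [Finset.sum_const, Finset.card_univ, Fintype.card_fin, nsmul_eq_mul]; ring

/-- the three fields -/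
structure StFld (fs : Fin n → ℝ) (ρ C X₀ X₁ : ℝ) (ψ : (Fin n → ℝ) → ℝ)
    (X Xt Xh Y : (Fin n → ℝ) → (Fin n → ℝ)) : Prop where
  ts : ContDiff ℝ (⊤ : ℕ∞) Xt
  hs : ContDiff ℝ (⊤ : ℕ∞) Xh
  ys : ContDiff ℝ (⊤ : ℕ∞) Y
  dvt : ∀ y, dv Xt y = dv X y
  dvsum : ∀ y, dv Xh y + dv Y y = dv X y
  tn : ∀ y i, |Xt y i| ≤ X₁ * ‖y - fs‖
  t2 : ∀ y i, |Xt y i| ≤ 2 * X₀
  hn : ∀ y i, |Xh y i| ≤ X₁ * ρ
  hlip : ∀ y z i, |Xh y i - Xh z i| ≤ X₁ * (4 * n * C + 1) * ‖y - z‖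
  dvin : ∀ y, ‖y - fs‖ ≤ ρ / 2 → dv Xh y = dv X y
  yb : ∀ y, |dv Y y| ≤ n * X₁ * (4 * C + 1)
  y0 : ∀ y, ψ y ≠ 1 → dv Y y = 0

theorem st_dvX {X : (Fin n → ℝ) → (Fin n → ℝ)} {X₁ : ℝ}
    (hX1b : ∀ y i, ∑ l, |pd l (fun y => X y i) y| ≤ X₁) (y : Fin n → ℝ) : |dv X y| ≤ n * X₁ := by
  unfold dv
  calc |∑ j, pd j (fun y => X y j) y| ≤ ∑ j, |pd j (fun y => X y j) y| :=
        Finset.abs_sum_le_sum_abs _ _
    _ ≤ ∑ _j : Fin n, X₁ := by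
        apply Finset.sum_le_sum
        intro j _
        refine le_trans ?_ (hX1b y j)
        exact Finset.single_le_sum (f := fun l => |pd l (fun y => X y j) y|)
          (fun l _ => abs_nonneg _) (Finset.mem_univ j)
    _ = _ := by rw [Finset.sum_const, Finset.card_univ, Fintype.card_fin, nsmul_eq_mul]

theorem st_dv_one_sub {χ : (Fin n → ℝ) → ℝ} {Xt : (Fin n → ℝ) → (Fin n → ℝ)}
    (hχ : ContDiff ℝ 1 χ) (hXt : ContDiff ℝ 1 Xt) (y : Fin n → ℝ) :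
    dv (fun y l => (1 - χ y) * Xt y l) y = (1 - χ y) * dv Xt y - ∑ l, pd l χ y * Xt y l := by
  have e : ∑ l, pd l (fun y => 1 - χ y) y * Xt y l = - ∑ l, pd l χ y * Xt y l := by
    rw [← Finset.sum_neg_distrib]
    apply Finset.sum_congr rfl
    intro l _
    rw [pd_one_sub, neg_mul]
  rw [dv_smul_field (ψ := fun y => 1 - χ y) (X := Xt) (contDiff_const.sub hχ) hXt y, e,
    ← sub_eq_add_neg]

/-- bound of the gradient term -/
theorem st_grad {ρ C X₁ p d v : ℝ} (hρ : 0 < ρ) (hC : 0 < C) (hX₁ : 0 ≤ X₁)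
    (h1 : |p| ≤ 4 * C / ρ) (h0 : ρ < d → p = 0) (hv : |v| ≤ X₁ * d) : |p * v| ≤ 4 * C * X₁ := by
  rw [abs_mul]
  rcases lt_or_ge ρ d with hy | hy
  · rw [h0 hy, abs_zero, zero_mul]; positivity
  · calc |p| * |v| ≤ 4 * C / ρ * (X₁ * ρ) := by
          apply mul_le_mul h1 _ (abs_nonneg _) (by positivity)
          exact hv.trans (mul_le_mul_of_nonneg_left hy hX₁)
      _ = _ := by field_simp

theorem st_hn {ρ X₁ c v d : ℝ} (hρ : 0 < ρ) (hX₁ : 0 ≤ X₁) (h0 : 0 ≤ c) (h1 : c ≤ 1)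
    (hz : ρ ≤ d → c = 0) (hv : |v| ≤ X₁ * d) : |c * v| ≤ X₁ * ρ := by
  rw [abs_mul, abs_of_nonneg h0]
  rcases le_total ρ d with hy | hy
  · rw [hz hy, zero_mul]; positivity
  · calc c * |v| ≤ 1 * (X₁ * d) := mul_le_mul h1 hv (abs_nonneg _) zero_le_one
      _ ≤ X₁ * ρ := by rw [one_mul]; exact mul_le_mul_of_nonneg_left hy hX₁

theorem st_lip {fs : Fin n → ℝ} {ρ C X₁ : ℝ} {χ ψ : (Fin n → ℝ) → ℝ}
    (hc : StCut fs ρ C χ ψ) (hρ : 0 < ρ) (hC : 0 < C) (hX₁ : 0 ≤ X₁)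
    {X Xt : (Fin n → ℝ) → (Fin n → ℝ)} (hXts : ContDiff ℝ 1 Xt)
    (hpd : ∀ l i y, pd l (fun y => Xt y i) y = pd l (fun y => X y i) y)
    (hX1b : ∀ y i, ∑ l, |pd l (fun y => X y i) y| ≤ X₁)
    (hXtn : ∀ y i, |Xt y i| ≤ X₁ * ‖y - fs‖) (y z : Fin n → ℝ) (i : Fin n) :
    |χ y * Xt y i - χ z * Xt z i| ≤ X₁ * (4 * n * C + 1) * ‖y - z‖ := by
  have hχ1 : ContDiff ℝ 1 χ := hc.χs.of_le (by simp)
  have hXi : ContDiff ℝ 1 fun y => Xt y i := contDiff_pi.1 hXts i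
  refine lip_of_pd (φ := fun y => χ y * Xt y i) (hχ1.mul hXi) (fun y => ?_) y z
  calc ∑ l, |pd l (fun y => χ y * Xt y i) y|
      ≤ ∑ l, (|pd l (fun y => X y i) y| + 4 * C * X₁) := by
        apply Finset.sum_le_sum
        intro l _
        rw [pd_mul hχ1 hXi l y, hpd]
        refine (abs_add_le _ _).trans (add_le_add ?_ (st_grad hρ hC hX₁ (hc.χpd l y)
          (hc.χpdout l y) (hXtn y i)))
        rw [abs_mul, abs_of_nonneg (hc.χ0 y)]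
        exact mul_le_of_le_one_left (abs_nonneg _) (hc.χ1 y)
    _ = (∑ l, |pd l (fun y => X y i) y|) + n * (4 * C * X₁) := by
        rw [Finset.sum_add_distrib, Finset.sum_const, Finset.card_univ, Fintype.card_fin,
          nsmul_eq_mul]
    _ ≤ X₁ + n * (4 * C * X₁) := by linarith [hX1b y i]
    _ = _ := by ring

theorem st_yb {fs : Fin n → ℝ} {ρ C X₁ : ℝ} {χ ψ : (Fin n → ℝ) → ℝ}
    (hc : StCut fs ρ C χ ψ) (hρ : 0 < ρ) (hC : 0 < C) (hX₁ : 0 ≤ X₁)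
    {X Xt : (Fin n → ℝ) → (Fin n → ℝ)}
    (hX1b : ∀ y i, ∑ l, |pd l (fun y => X y i) y| ≤ X₁)
    (hXtn : ∀ y i, |Xt y i| ≤ X₁ * ‖y - fs‖) (y : Fin n → ℝ) :
    |(1 - χ y) * dv X y - ∑ l, pd l χ y * Xt y l| ≤ n * X₁ * (4 * C + 1) := by
  have h0 := hc.χ0 y
  have h1 := hc.χ1 y
  calc _ ≤ |(1 - χ y) * dv X y| + |∑ l, pd l χ y * Xt y l| := abs_sub _ _
    _ ≤ n * X₁ + ∑ _l : Fin n, 4 * C * X₁ := by
        apply add_le_add
        · rw [abs_mul, abs_of_nonneg (by linarith)]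
          calc (1 - χ y) * |dv X y| ≤ 1 * |dv X y| :=
                mul_le_mul_of_nonneg_right (by linarith) (abs_nonneg _)
            _ ≤ _ := by rw [one_mul]; exact st_dvX hX1b y
        · refine (Finset.abs_sum_le_sum_abs _ _).trans (Finset.sum_le_sum fun l _ => ?_)
          exact st_grad hρ hC hX₁ (hc.χpd l y) (hc.χpdout l y) (hXtn y l)
    _ = _ := by
        rw [Finset.sum_const, Finset.card_univ, Fintype.card_fin, nsmul_eq_mul]; ring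

theorem st_fld {fs : Fin n → ℝ} {ρ C X₀ X₁ : ℝ} {χ ψ : (Fin n → ℝ) → ℝ}
    (hc : StCut fs ρ C χ ψ) (hρ : 0 < ρ) (hC : 0 < C) (hX₁ : 0 ≤ X₁)
    {X : (Fin n → ℝ) → (Fin n → ℝ)} (hX : ContDiff ℝ (⊤ : ℕ∞) X) (hX0b : ∀ y i, |X y i| ≤ X₀)
    (hX1b : ∀ y i, ∑ l, |pd l (fun y => X y i) y| ≤ X₁) :
    StFld fs ρ C X₀ X₁ ψ X (fun y l => X y l - X fs l) (fun y l => χ y * (X y l - X fs l))
      (fun y l => (1 - χ y) * (X y l - X fs l)) := by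
  have hXts : ContDiff ℝ (⊤ : ℕ∞) fun y l => X y l - X fs l :=
    contDiff_pi.2 fun l => (contDiff_pi.1 hX l).sub contDiff_const
  have hXtc : ContDiff ℝ 1 fun y l => X y l - X fs l := hXts.of_le (by simp)
  have hXc : ContDiff ℝ 1 X := hX.of_le (by simp)
  have hχc : ContDiff ℝ 1 χ := hc.χs.of_le (by simp)
  have hpd : ∀ l i y, pd l (fun y => X y i - X fs i) y = pd l (fun y => X y i) y :=
    fun l i y => pd_sub_const (X fs i) l y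
  have hdvt : ∀ y, dv (fun y l => X y l - X fs l) y = dv X y := by
    intro y
    unfold dv
    exact Finset.sum_congr rfl fun l _ => hpd l l y
  have hdvh : ∀ y, dv (fun y l => χ y * (X y l - X fs l)) y
      = χ y * dv X y + ∑ l, pd l χ y * (X y l - X fs l) := by
    intro y
    rw [← hdvt y]; exact dv_smul_field hχc hXtc y
  have hdvy : ∀ y, dv (fun y l => (1 - χ y) * (X y l - X fs l)) y
      = (1 - χ y) * dv X y - ∑ l, pd l χ y * (X y l - X fs l) := by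
    intro y
    rw [← hdvt y]; exact st_dv_one_sub hχc hXtc y
  have htn : ∀ y i, |X y i - X fs i| ≤ X₁ * ‖y - fs‖ := fun y i =>
    lip_of_pd (contDiff_pi.1 hXc i) (fun y => hX1b y i) y fs
  refine ⟨hXts, contDiff_pi.2 fun l => hc.χs.mul (contDiff_pi.1 hXts l),
    contDiff_pi.2 fun l => (contDiff_const.sub hc.χs).mul (contDiff_pi.1 hXts l), hdvt, ?_, htn,
    ?_, ?_, ?_, ?_, ?_, ?_⟩
  · intro y
    rw [hdvh, hdvy]; ring
  · intro y i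
    calc |X y i - X fs i| ≤ |X y i| + |X fs i| := abs_sub _ _
      _ ≤ _ := by linarith [hX0b y i, hX0b fs i]
  · intro y i
    exact st_hn hρ hX₁ (hc.χ0 y) (hc.χ1 y) (hc.χout y) (htn y i)
  · exact st_lip hc hρ hC hX₁ hXtc hpd hX1b htn
  · intro y hy
    rw [hdvh, hc.χin y hy, one_mul, Finset.sum_eq_zero, add_zero]
    intro l _
    rw [hc.χpdin l y hy, zero_mul]
  · intro y
    rw [hdvy]
    exact st_yb hc hρ hC hX₁ (Xt := fun y l => X y l - X fs l) hX1b htn y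
  · intro y hy
    have hy' : ‖y - fs‖ ≤ ρ / 2 := by
      by_contra hcon
      exact hy (hc.ψout y (not_le.mp hcon).le)
    rw [hdvy, hc.χin y hy', sub_self, zero_mul, zero_sub, neg_eq_zero]
    apply Finset.sum_eq_zero
    intro l _
    rw [hc.χpdin l y hy', zero_mul]

/-- values far from `fs` have small cofactors -/
theorem st_far {J B : Matrix (Fin n) (Fin n) ℝ} {u l s : Fin n → ℝ} {σ ρ b : ℝ} (hσ0 : 0 < σ)
    (hσρ : σ ≤ ρ) (hl : ‖l - s‖ ≤ ρ / 64) (hu : ρ / 4 < ‖u - s‖)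
    (hd1 : msum (J.adjugate - B.adjugate) ≤ b) (hd2 : msum B.adjugate * (‖u - l‖ / σ) ≤ b) :
    msum J.adjugate ≤ 9 * b := by
  have h1 : ‖u - s‖ ≤ ‖u - l‖ + ‖l - s‖ := by
    calc ‖u - s‖ = ‖(u - l) + (l - s)‖ := by congr 1; abel
      _ ≤ _ := norm_add_le _ _
  have h2 : σ / 8 ≤ ‖u - l‖ := by linarith
  have h3 : msum B.adjugate ≤ 8 * b := by
    have h4 : (1 : ℝ) / 8 ≤ ‖u - l‖ / σ := by
      rw [le_div_iff₀ hσ0]; linarith
    have h5 := mul_le_mul_of_nonneg_left h4 (msum_nonneg B.adjugate)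
    linarith
  calc msum J.adjugate = msum ((J.adjugate - B.adjugate) + B.adjugate) := by
        rw [sub_add_cancel]
    _ ≤ _ := msum_add_le _ _
    _ ≤ _ := by linarith

theorem st_rr (hn : 2 ≤ n) (r : ℝ) : r * r ^ (n - 1) = r ^ n := by
  obtain ⟨k, rfl⟩ : ∃ k, n = k + 1 := ⟨n - 1, by omega⟩
  rw [Nat.add_sub_cancel, pow_succ']

theorem st_a1 {X₁ X₀ ρ t β : ℝ} (hX₀ : 0 ≤ X₀) (hX₁ : 0 ≤ X₁) (hβ : 0 ≤ β) (ht : 0 ≤ t)
    (hρ : 0 ≤ ρ) : X₁ * ρ * t + 18 * X₀ * β ≤ (X₁ + 18 * X₀) * (ρ * t + β) := by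
  have h1 : 0 ≤ X₁ * β := mul_nonneg hX₁ hβ
  have h2 : 0 ≤ X₀ * (ρ * t) := mul_nonneg hX₀ (mul_nonneg hρ ht)
  linarith

/-- pointwise bound of the field in term (a) -/
theorem st_a2 {m a v t α ρ X₁ X₀ β d : ℝ} (hX₁ : 0 ≤ X₁) (hX₀ : 0 ≤ X₀) (ht : 0 ≤ t)
    (hρ : 0 ≤ ρ) (hβ : 0 ≤ β) (hα : 0 ≤ α) (h1 : d ≤ ρ → v ≤ m * (X₁ * ρ))
    (h2 : ρ < d → v ≤ m * (2 * X₀)) (hm : m ≤ t * α) (hm' : ρ < d → m ≤ 9 * (β * α))
    (ha : a = X₁ * ρ * t + 18 * X₀ * β) : v ≤ a * α := by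
  rw [ha]
  rcases le_or_gt d ρ with hd | hd
  · have e1 := mul_le_mul_of_nonneg_right hm (mul_nonneg hX₁ hρ)
    have e2 : 0 ≤ X₀ * (β * α) := mul_nonneg hX₀ (mul_nonneg hβ hα)
    linarith [h1 hd]
  · have e1 := mul_le_mul_of_nonneg_right (hm' hd) (mul_nonneg zero_le_two hX₀)
    have e2 : 0 ≤ (X₁ * ρ) * (t * α) := mul_nonneg (mul_nonneg hX₁ hρ) (mul_nonneg ht hα)
    linarith [h2 hd]

/-- term (a) -/
theorem st_a (hn : 2 ≤ n) {g : (Fin n → ℝ) → (Fin n → ℝ)} {α : (Fin n → ℝ) → ℝ} {c : Fin n → ℝ}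
    {τ r Q : ℝ} {E : Set (Fin n → ℝ)} (h : TD g α c τ r Q E) {t : ℝ} (ht : 0 ≤ t)
    (hadj : ∀ x ∈ closedBall c τ, msum (jac g x).adjugate ≤ t * α x)
    {ζ : (Fin n → ℝ) → ℝ} {Z₁ : ℝ} (hζ : ContDiff ℝ 1 ζ) (hZ₁ : 0 ≤ Z₁)
    (hZ1b : ∀ x, ∑ l, |pd l ζ x| ≤ Z₁) {fs xs : Fin n → ℝ} {ρ β X₀ X₁ : ℝ}
    (hρ : 0 < ρ) (hβ : 0 ≤ β) (hX₀ : 0 ≤ X₀) (hX₁ : 0 ≤ X₁)
    (hball : ∀ x ∈ closedBall c τ, ‖x - xs‖ ≤ 11 * r)
    (hfar : ∀ x ∈ closedBall c τ, ρ / 4 < ‖g x - fs‖ → msum (jac g x).adjugate ≤ 9 * (β * α x))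
    {Xt : (Fin n → ℝ) → (Fin n → ℝ)} (hXts : ContDiff ℝ (⊤ : ℕ∞) Xt)
    (hXtn : ∀ y i, |Xt y i| ≤ X₁ * ‖y - fs‖) (hXt2 : ∀ y i, |Xt y i| ≤ 2 * X₀) :
    |∫ x in E, (ζ x - ζ xs) * dv (fld g Xt) x|
      ≤ 12 * Z₁ * (X₁ + 18 * X₀) * Q * (ρ * t + β) * r ^ n := by
  have hr := h.hr
  have hQ := h.hQ
  have hTa : 0 ≤ X₁ * ρ * t + 18 * X₀ * β := by positivity
  have := h.flux (fld_contDiff h.hg hXts) hTa (ζ := fun x => ζ x - ζ xs) (Z := 11 * r * Z₁)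
    (Z₁ := Z₁) (fun x hx l => ?_) (hζ.sub contDiff_const) (by positivity) (fun x hx => ?_)
    (fun x => ?_)
  · refine this.trans ?_
    have e : Z₁ * (X₁ * ρ * t + 18 * X₀ * β) * (Q * r ^ n) +
        11 * r * Z₁ * (X₁ * ρ * t + 18 * X₀ * β) * (Q * r ^ (n - 1)) =
        (12 * Z₁ * Q * r ^ n) * (X₁ * ρ * t + 18 * X₀ * β) := by
      rw [← st_rr hn]; ring
    rw [e]
    calc (12 * Z₁ * Q * r ^ n) * (X₁ * ρ * t + 18 * X₀ * β)
        ≤ (12 * Z₁ * Q * r ^ n) * ((X₁ + 18 * X₀) * (ρ * t + β)) :=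
          mul_le_mul_of_nonneg_left (st_a1 hX₀ hX₁ hβ ht hρ.le) (by positivity)
      _ = _ := by ring
  · exact st_a2 hX₁ hX₀ ht hρ.le hβ (h.hα x)
      (fun hd => abs_mulVec_le _ (fun i => (hXtn _ i).trans (mul_le_mul_of_nonneg_left hd hX₁)) l)
      (fun _ => abs_mulVec_le _ (fun i => hXt2 _ i) l) (hadj x hx)
      (fun hd => hfar x hx (by linarith)) rfl
  · refine (lip_of_pd hζ hZ1b x xs).trans ?_
    calc Z₁ * ‖x - xs‖ ≤ Z₁ * (11 * r) := mul_le_mul_of_nonneg_left (hball x hx) hZ₁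
      _ = _ := by ring
  · simp_rw [pd_sub_const]
    exact hZ1b x

theorem st_dv_sub {V W : (Fin n → ℝ) → (Fin n → ℝ)} (hV : ContDiff ℝ 1 V) (hW : ContDiff ℝ 1 W)
    (x : Fin n → ℝ) : dv (fun x l => V x l - W x l) x = dv V x - dv W x := by
  unfold dv
  rw [← Finset.sum_sub_distrib]
  apply Finset.sum_congr rfl
  intro l _
  unfold pd
  rw [fderiv_fun_sub ((contDiff_pi.1 hV l).differentiable one_ne_zero x)
    ((contDiff_pi.1 hW l).differentiable one_ne_zero x)]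
  rfl

theorem st_b1 {m₁ m₂ b a M₁ σ ρ d v : ℝ} (hσ0 : 0 < σ) (hσρ : σ ≤ ρ) (ha : 0 ≤ a)
    (hM₁ : 0 ≤ M₁) (h1 : m₁ ≤ b) (h2 : m₂ * (d / σ) ≤ b) (hb : 0 ≤ b)
    (hv : v ≤ m₁ * (a * ρ) + m₂ * (a * M₁ * d)) : v ≤ a * (M₁ + 1) * ρ * b := by
  have e1 : m₁ * (a * ρ) ≤ b * (a * ρ) :=
    mul_le_mul_of_nonneg_right h1 (mul_nonneg ha (hσ0.le.trans hσρ))
  have e2 : m₂ * (a * M₁ * d) = (a * M₁ * σ) * (m₂ * (d / σ)) := by
    field_simp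
  have e3 : (a * M₁ * σ) * (m₂ * (d / σ)) ≤ (a * M₁ * σ) * b :=
    mul_le_mul_of_nonneg_left h2 (mul_nonneg (mul_nonneg ha hM₁) hσ0.le)
  have e4 : (a * M₁ * b) * σ ≤ (a * M₁ * b) * ρ :=
    mul_le_mul_of_nonneg_left hσρ (mul_nonneg (mul_nonneg ha hM₁) hb)
  rw [e2] at hv
  linarith

/-- term (b) -/
theorem st_b (hn : 2 ≤ n) {g : (Fin n → ℝ) → (Fin n → ℝ)} {α : (Fin n → ℝ) → ℝ} {c : Fin n → ℝ}
    {τ r Q : ℝ} {E : Set (Fin n → ℝ)} (h : TD g α c τ r Q E)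
    {L : (Fin n → ℝ) → (Fin n → ℝ)} (hL : ContDiff ℝ (⊤ : ℕ∞) L)
    {B : Matrix (Fin n) (Fin n) ℝ} (hjL : ∀ x, jac L x = B)
    {R ρ σ β M₁ X₁ : ℝ} (hσ : σ = 100 * r) (hρσ : ρ = R * σ) (hσρ : σ ≤ ρ) (hβ : 0 ≤ β)
    (hM₁ : 0 ≤ M₁) (hX₁ : 0 ≤ X₁)
    (hd1 : ∀ x ∈ closedBall c τ, msum ((jac g x).adjugate - B.adjugate) ≤ β * α x)
    (hd2 : ∀ x ∈ closedBall c τ, msum B.adjugate * (‖g x - L x‖ / σ) ≤ β * α x)
    {Xh : (Fin n → ℝ) → (Fin n → ℝ)} (hXhs : ContDiff ℝ (⊤ : ℕ∞) Xh)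
    (hXhn : ∀ y i, |Xh y i| ≤ X₁ * ρ) (hXhlip : ∀ y z i, |Xh y i - Xh z i| ≤ X₁ * M₁ * ‖y - z‖) :
    |∫ x in E, (dv (fld g Xh) x - dv (fld L Xh) x)|
      ≤ 100 * (X₁ * (M₁ + 1)) * Q * (R * β) * r ^ n := by
  have hr := h.hr
  have hσ0 : 0 < σ := by rw [hσ]; positivity
  have hρ0 : 0 < ρ := hσ0.trans_le hσρ
  have hTb : 0 ≤ X₁ * (M₁ + 1) * ρ * β := by positivity
  have c1 := fld_contDiff h.hg hXhs
  have c2 := fld_contDiff hL hXhs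
  have hW := h.flux_one (V := fun x l => fld g Xh x l - fld L Xh x l)
    (contDiff_pi.2 fun l => (contDiff_pi.1 c1 l).sub (contDiff_pi.1 c2 l)) hTb (fun x hx l => ?_)
  · simp_rw [st_dv_sub c1 c2] at hW
    refine hW.trans (le_of_eq ?_)
    rw [hρσ, hσ, ← st_rr hn]; ring
  · have e1 : fld g Xh x l - fld L Xh x l =
        ((jac g x).adjugate - B.adjugate).mulVec (Xh (g x)) l +
          B.adjugate.mulVec (Xh (g x) - Xh (L x)) l := by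
      simp only [fld, hjL]
      rw [Matrix.sub_mulVec, Matrix.mulVec_sub]
      simp
    rw [e1, mul_assoc _ β]
    exact st_b1 hσ0 hσρ hX₁ hM₁ (hd1 x hx) (hd2 x hx) (mul_nonneg hβ (h.hα x))
      ((abs_add_le _ _).trans (add_le_add (abs_mulVec_le _ (fun i => hXhn _ i) l)
        (abs_mulVec_le _ (fun i => hXhlip _ _ i) l)))

theorem st_c0 {D v ψ : (Fin n → ℝ) → ℝ} {M : ℝ} (hD : Integrable D) (hψ : Continuous ψ)
    (hv : ∀ y, |v y| ≤ M) (h0 : ∀ y, ψ y ≠ 1 → v y = 0) :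
    |∫ y, v y * D y| ≤ M * ∫ y in {y | ψ y = 1}, |D y| := by
  have hms : MeasurableSet {y | ψ y = 1} := measurableSet_eq_fun hψ.measurable measurable_const
  rw [← integral_indicator hms, ← integral_const_mul, ← Real.norm_eq_abs]
  apply norm_integral_le_of_norm_le ((hD.abs.indicator hms).const_mul _)
  filter_upwards with y
  rw [norm_mul, Real.norm_eq_abs, Real.norm_eq_abs]
  by_cases hy : ψ y = 1
  · rw [indicator_of_mem (show y ∈ {y | ψ y = 1} from hy)]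
    exact mul_le_mul_of_nonneg_right (hv y) (abs_nonneg _)
  · rw [h0 y hy, indicator_of_notMem (show y ∉ {y | ψ y = 1} from hy), abs_zero, zero_mul,
      mul_zero]

theorem st_c1 {β Q r' I G Cd tp Qp R r : ℝ} (hr : 0 < r) (hR : 0 < R) (hr' : 0 ≤ r')
    (hβ : 0 ≤ β) (hQ : 0 ≤ Q) (hG : 0 ≤ G) (hCd : 0 ≤ Cd) (htp : 0 ≤ tp) (hQp : 0 ≤ Qp)
    (hI : I ≤ Cd * ((tp * Qp) * (r * r'))) :
    9 * β * (Q * r') + G / (R * (100 * r)) * I ≤ (9 * Q + G * Cd * Qp / 100) * (β + tp / R) * r' := by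
  have h3 : G / (R * (100 * r)) * I ≤ G / (R * (100 * r)) * (Cd * ((tp * Qp) * (r * r'))) :=
    mul_le_mul_of_nonneg_left hI (by positivity)
  have h4 : G / (R * (100 * r)) * (Cd * ((tp * Qp) * (r * r')))
      = (G * Cd * Qp / 100) * (tp / R) * r' := by
    field_simp
  have h5 : 0 ≤ 9 * Q * (tp / R) * r' := by positivity
  have h6 : 0 ≤ (G * Cd * Qp / 100) * β * r' := by positivity
  linarith

/-- term (c) -/
theorem st_c (hn : 2 ≤ n) {p : ℝ} (hp : p = (n : ℝ) / (n - 1)) (hp0 : 0 ≤ p)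
    {D v ψ : (Fin n → ℝ) → ℝ} {M β Q r t R ρ C Cd : ℝ} (hD : Integrable D)
    (hψ : Continuous ψ) (hv : ∀ y, |v y| ≤ M) (h0 : ∀ y, ψ y ≠ 1 → v y = 0)
    (hr : 0 < r) (hR : 0 < R) (hρ : ρ = R * (100 * r)) (hβ : 0 ≤ β) (hQ : 0 ≤ Q)
    (hC : 0 ≤ C) (hCd : 0 ≤ Cd) (ht : 0 ≤ t) (hM : 0 ≤ M)
    (hDb : ∫ y, |D y| ≤ Cd * ((t * Q) ^ p * r ^ n))
    (hψb : ∫ y in {y | ψ y = 1}, |D y| ≤
      Cd * (9 * β * (Q * r ^ (n - 1)) + 8 * n * C / ρ * ∫ y, |D y|) ^ p) :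
    |∫ y, v y * D y| ≤
      M * (Cd * (9 * Q + 8 * n * C * Cd * Q ^ p / 100) ^ p) * (β + t ^ p / R) ^ p * r ^ n := by
  have hI : 0 ≤ ∫ y, |D y| := integral_nonneg fun y => abs_nonneg _
  have hrn : 0 ≤ r ^ (n - 1) := pow_nonneg hr.le _
  have htp : 0 ≤ t ^ p := Real.rpow_nonneg ht p
  have hQp : 0 ≤ Q ^ p := Real.rpow_nonneg hQ p
  have hG : 0 ≤ 8 * n * C := by positivity
  have hK : 0 ≤ 9 * Q + 8 * n * C * Cd * Q ^ p / 100 := by positivity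
  have hs : 0 ≤ β + t ^ p / R := by positivity
  have h2 := st_c1 hr hR hrn hβ hQ hG hCd htp hQp (I := ∫ y, |D y|)
    (by rw [st_rr hn, ← Real.mul_rpow ht hQ]; exact hDb)
  rw [← hρ] at h2
  have h2' : 0 ≤ 9 * β * (Q * r ^ (n - 1)) + 8 * n * C / ρ * ∫ y, |D y| := by
    rw [hρ]; positivity
  have h6 : (9 * β * (Q * r ^ (n - 1)) + 8 * n * C / ρ * ∫ y, |D y|) ^ p ≤
      (9 * Q + 8 * n * C * Cd * Q ^ p / 100) ^ p * (β + t ^ p / R) ^ p * r ^ n := by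
    refine (Real.rpow_le_rpow h2' h2 hp0).trans (le_of_eq ?_)
    rw [← Real.mul_rpow hK hs, hp, rpow_conj hn (mul_nonneg (hp ▸ hK) (hp ▸ hs)) hr.le]
  calc |∫ y, v y * D y| ≤ M * ∫ y in {y | ψ y = 1}, |D y| := st_c0 hD hψ hv h0
    _ ≤ M * (Cd * ((9 * Q + 8 * n * C * Cd * Q ^ p / 100) ^ p * (β + t ^ p / R) ^ p * r ^ n)) :=
        mul_le_mul_of_nonneg_left (hψb.trans (mul_le_mul_of_nonneg_left h6 hCd)) hM
    _ = _ := by ring

/-- term (d) -/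
theorem st_d {g : (Fin n → ℝ) → (Fin n → ℝ)} {α : (Fin n → ℝ) → ℝ} {c : Fin n → ℝ}
    {τ r Q : ℝ} {E : Set (Fin n → ℝ)} (h : TD g α c τ r Q E)
    {L X Xh : (Fin n → ℝ) → (Fin n → ℝ)} (hLc : Continuous L) (hXh : ContDiff ℝ 1 Xh)
    {fs : Fin n → ℝ} {b σ X₂ Λ : ℝ} (hσ : σ = 100 * r) (hb : |b| ≤ Λ) (hΛ : 0 ≤ Λ) (hX₂ : 0 ≤ X₂)
    (hin : ∀ x ∈ closedBall c τ, dv Xh (L x) = dv X (L x))
    (hX2b : ∀ y z, |dv X y - dv X z| ≤ X₂ * ‖y - z‖)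
    (hLfs : ∀ x ∈ closedBall c τ, ‖L x - fs‖ ≤ Λ * (11 * r)) :
    |(∫ x in E, dv Xh (L x) * b) - dv X fs * b * volume.real E| ≤
      X₂ * 20 ^ n * (Λ ^ 2 * σ) * r ^ n := by
  have hr := h.hr
  have hvolE : volume.real E ≤ 20 ^ n * r ^ n := by
    calc volume.real E ≤ volume.real (closedBall c (10 * r)) :=
          measureReal_mono (h.hEB.trans (closedBall_subset_closedBall h.hτ))
            measure_closedBall_lt_top.ne
      _ = 20 ^ n * r ^ n := by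
          rw [vol_real_cb c (by positivity), ← mul_pow]; congr 1; ring
  have e1 : dv X fs * b * volume.real E = ∫ _x in E, dv X fs * b := by
    rw [setIntegral_const, smul_eq_mul, mul_comm]
  have hc1 : Continuous fun x => dv Xh (L x) * b :=
    ((dv_continuous hXh).comp hLc).mul continuous_const
  rw [e1, ← integral_sub (h.integrableOn hc1) (h.integrableOn continuous_const),
    ← Real.norm_eq_abs]
  have hb : ∀ x ∈ E, ‖dv Xh (L x) * b - dv X fs * b‖ ≤ X₂ * (Λ * σ) * Λ := by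
    intro x hx
    have hx' := h.hEB hx
    rw [hin x hx', ← sub_mul, norm_mul, Real.norm_eq_abs, Real.norm_eq_abs]
    apply mul_le_mul _ hb (abs_nonneg _) (by rw [hσ]; positivity)
    refine (hX2b _ _).trans (mul_le_mul_of_nonneg_left ?_ hX₂)
    refine (hLfs x hx').trans (mul_le_mul_of_nonneg_left ?_ hΛ)
    rw [hσ]; linarith
  have h3 := norm_setIntegral_le_of_norm_le_const (μ := volume) (s := E)
    (lt_of_le_of_lt (measure_mono h.hEB) measure_closedBall_lt_top) hb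
  refine h3.trans ?_
  calc X₂ * (Λ * σ) * Λ * volume.real E ≤ X₂ * (Λ * σ) * Λ * (20 ^ n * r ^ n) :=
        mul_le_mul_of_nonneg_left hvolE (by rw [hσ]; positivity)
    _ = _ := by ring

/-- the decomposition -/
theorem st_sum {g : (Fin n → ℝ) → (Fin n → ℝ)} {α : (Fin n → ℝ) → ℝ} {c : Fin n → ℝ}
    {τ r Q : ℝ} {E : Set (Fin n → ℝ)} (h : TD g α c τ r Q E)
    {L : (Fin n → ℝ) → (Fin n → ℝ)} (hL : ContDiff ℝ (⊤ : ℕ∞) L)
    {B : Matrix (Fin n) (Fin n) ℝ} (hjL : ∀ x, jac L x = B) {ζ : (Fin n → ℝ) → ℝ}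
    (hζ : ContDiff ℝ 1 ζ) {fs xs : Fin n → ℝ} {ρ C X₀ X₁ : ℝ} {ψ : (Fin n → ℝ) → ℝ}
    {X Xt Xh Y : (Fin n → ℝ) → (Fin n → ℝ)} (hf : StFld fs ρ C X₀ X₁ ψ X Xt Xh Y) :
    ∫ x in E, ζ x * (dv X (g x) * (jac g x).det) =
      (∫ x in E, (ζ x - ζ xs) * dv (fld g Xt) x) +
      ζ xs * ((∫ x in E, (dv (fld g Xh) x - dv (fld L Xh) x)) +
        (∫ x in E, dv Y (g x) * (jac g x).det) + ∫ x in E, dv Xh (L x) * B.det) := by
  have hgc := h.hg.continuous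
  have hdetc : Continuous fun x => (jac g x).det :=
    (jac_continuous (h.hg.of_le (by simp))).matrix_det
  have hXhc : ContDiff ℝ 1 Xh := hf.hs.of_le (by simp)
  have hYc : ContDiff ℝ 1 Y := hf.ys.of_le (by simp)
  have i1 : IntegrableOn (fun x => (ζ x - ζ xs) * dv (fld g Xt) x) E :=
    h.integrableOn ((hζ.continuous.sub continuous_const).mul
      (dv_continuous (fld_contDiff h.hg hf.ts)))
  have i2 : IntegrableOn (fun x => dv (fld g Xh) x - dv (fld L Xh) x) E :=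
    h.integrableOn ((dv_continuous (fld_contDiff h.hg hf.hs)).sub
      (dv_continuous (fld_contDiff hL hf.hs)))
  have i3 : IntegrableOn (fun x => dv Y (g x) * (jac g x).det) E :=
    h.integrableOn (((dv_continuous hYc).comp hgc).mul hdetc)
  have i4 : IntegrableOn (fun x => dv Xh (L x) * B.det) E :=
    h.integrableOn (((dv_continuous hXhc).comp hL.continuous).mul continuous_const)
  have i23 : IntegrableOn (fun x => (dv (fld g Xh) x - dv (fld L Xh) x) +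
      dv Y (g x) * (jac g x).det) E := i2.add i3
  have i234 : IntegrableOn (fun x => (dv (fld g Xh) x - dv (fld L Xh) x) +
      dv Y (g x) * (jac g x).det + dv Xh (L x) * B.det) E := i23.add i4
  rw [← integral_add i2 i3, ← integral_add i23 i4, ← integral_const_mul,
    ← integral_add i1 (i234.const_mul _)]
  apply integral_congr_ae
  filter_upwards with x
  rw [dv_fld h.hg hf.ts, dv_fld h.hg hf.hs, dv_fld hL hf.hs, hjL, hf.dvt, ← hf.dvsum (g x)]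
  ring

/-- the final estimate -/
theorem st_final {Ka Kb Kc Kd A S U W β R : ℝ} (ha : 0 ≤ Ka) (hb : 0 ≤ Kb) (hc : 0 ≤ Kc)
    (hd : 0 ≤ Kd) (hA : 0 ≤ A) (hU : 0 ≤ U) (hW : 0 ≤ W) (hβ : 0 ≤ β) (hR : 1 ≤ R)
    (hS : S = A + R * β + U + W) :
    Ka * (A + β) + Kb * (R * β) + Kc * U + Kd * W ≤ (Ka + Kb + Kc + Kd + 1) * S := by
  have h1 : β ≤ R * β := le_mul_of_one_le_left hβ hR
  have h2 : 0 ≤ R * β := hβ.trans h1
  have v1 : Ka * (A + β) ≤ Ka * S := mul_le_mul_of_nonneg_left (by linarith) ha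
  have v2 : Kb * (R * β) ≤ Kb * S := mul_le_mul_of_nonneg_left (by linarith) hb
  have v3 : Kc * U ≤ Kc * S := mul_le_mul_of_nonneg_left (by linarith) hc
  have v4 : Kd * W ≤ Kd * S := mul_le_mul_of_nonneg_left (by linarith) hd
  have v5 : 0 ≤ S := by linarith
  linarith

theorem st_tri {a b c d e f v z A B' C' D' Z : ℝ} (h1 : |a| ≤ A) (h2 : |b| ≤ B') (h3 : |c| ≤ C')
    (h4 : |d - e * v| ≤ D') (hf : |f| ≤ Z) (hZ : 0 ≤ Z) (hz : z = f * e) :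
    |a + f * (b + c + d) - z * v| ≤ A + Z * (B' + C' + D') := by
  have e5 : a + f * (b + c + d) - z * v = a + f * (b + c + (d - e * v)) := by rw [hz]; ring
  rw [e5]
  refine (abs_add_le _ _).trans (add_le_add h1 ?_)
  rw [abs_mul]
  apply mul_le_mul hf _ (abs_nonneg _) hZ
  exact (abs_add_le _ _).trans (add_le_add ((abs_add_le _ _).trans (add_le_add h2 h3)) h4)

theorem exists_small (hn : 2 ≤ n) (Z₀ Z₁ X₀ X₁ X₂ : ℝ) (hZ₀ : 0 ≤ Z₀) (hZ₁ : 0 ≤ Z₁)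
    (hX₀ : 0 ≤ X₀) (hX₁ : 0 ≤ X₁) (hX₂ : 0 ≤ X₂) (Q : ℝ) : ∃ C : ℝ, 0 < C ∧
    ∀ {g : (Fin n → ℝ) → (Fin n → ℝ)} {α : (Fin n → ℝ) → ℝ} {c : Fin n → ℝ}
      {τ r : ℝ} {E : Set (Fin n → ℝ)} (_ : TD g α c τ r Q E) {t : ℝ} (_ : 1 ≤ t)
      (_ : ∀ x ∈ closedBall c τ, msum (jac g x).adjugate ≤ t * α x)
      {ζ : (Fin n → ℝ) → ℝ} (_ : ContDiff ℝ (⊤ : ℕ∞) ζ) (_ : ∀ x, |ζ x| ≤ Z₀)
      (_ : ∀ x, ∑ l, |pd l ζ x| ≤ Z₁)
      {X : (Fin n → ℝ) → (Fin n → ℝ)} (_ : ContDiff ℝ (⊤ : ℕ∞) X) (_ : ∀ y i, |X y i| ≤ X₀)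
      (_ : ∀ y i, ∑ l, |pd l (fun y => X y i) y| ≤ X₁)
      (_ : ∀ y z, |dv X y - dv X z| ≤ X₂ * ‖y - z‖)
      {B : Matrix (Fin n) (Fin n) ℝ} {fs xs : Fin n → ℝ} {Λ β R σ : ℝ} (_ : σ = 100 * r)
      (_ : ‖xs - c‖ ≤ r) (_ : msum B ≤ Λ) (_ : |B.det| ≤ Λ) (_ : 0 ≤ β) (_ : 1 ≤ R)
      (_ : 8 * Λ ≤ R) (_ : ∀ x ∈ closedBall c τ, devi g B fs xs σ x ≤ β * α x),
      |(∫ x in E, ζ x * (dv X (g x) * (jac g x).det)) -
          ζ xs * (dv X fs * B.det) * volume.real E| ≤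
        C * (R * σ * t + R * β + (β + t ^ ((n : ℝ) / (n - 1)) / R) ^ ((n : ℝ) / (n - 1)) +
          Λ ^ 2 * σ) * r ^ n := by
  obtain ⟨Cd, hCd, hdeg⟩ := exists_deg_bound hn
  obtain ⟨C, hC, hCb⟩ := exists_smoothTransition_bound
  have hn1 : (0 : ℝ) < n - 1 := by
    have : (2 : ℝ) ≤ n := by exact_mod_cast hn
    linarith
  obtain ⟨p, hp⟩ : ∃ p : ℝ, p = (n : ℝ) / (n - 1) := ⟨_, rfl⟩
  have hp0 : 0 ≤ p := by rw [hp]; exact div_nonneg (Nat.cast_nonneg n) hn1.le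
  rw [← hp] at hdeg ⊢
  obtain ⟨q, hq⟩ : ∃ q : ℝ, q = |Q| := ⟨_, rfl⟩
  have hq0 : 0 ≤ q := hq ▸ abs_nonneg _
  have hqp : 0 ≤ q ^ p := Real.rpow_nonneg hq0 p
  have hKa0 : 0 ≤ 12 * Z₁ * (X₁ + 18 * X₀) * q := by positivity
  have hKb0 : 0 ≤ Z₀ * (100 * (X₁ * (4 * n * C + 1 + 1)) * q) := by positivity
  have hK'0 : 0 ≤ 9 * q + 8 * n * C * Cd * q ^ p / 100 := by positivity
  have hK'p := Real.rpow_nonneg hK'0 p
  have hM0 : 0 ≤ n * X₁ * (4 * C + 1) := by positivity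
  have hKc0 : 0 ≤ Z₀ * (n * X₁ * (4 * C + 1) *
      (Cd * (9 * q + 8 * n * C * Cd * q ^ p / 100) ^ p)) := by positivity
  have hKd0 : 0 ≤ Z₀ * (X₂ * 20 ^ n) := by positivity
  refine ⟨12 * Z₁ * (X₁ + 18 * X₀) * q + Z₀ * (100 * (X₁ * (4 * n * C + 1 + 1)) * q) +
    Z₀ * (n * X₁ * (4 * C + 1) * (Cd * (9 * q + 8 * n * C * Cd * q ^ p / 100) ^ p)) +
    Z₀ * (X₂ * 20 ^ n) + 1, by linarith, ?_⟩
  intro g α c τ r E h t ht hadj ζ hζ hZ0b hZ1b X hX hX0b hX1b hX2b B fs xs Λ β R σ hσ hxs hBΛ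
    hdetΛ hβ hR hRΛ hdev
  have hQ := h.hQ
  have hqQ : q = Q := hq ▸ abs_of_nonneg hQ
  have hr := h.hr
  have hσ0 : 0 < σ := by rw [hσ]; linarith
  have hR0 : 0 < R := zero_lt_one.trans_le hR
  have ht0 : 0 ≤ t := zero_le_one.trans ht
  have hΛ0 : 0 ≤ Λ := (msum_nonneg B).trans hBΛ
  have hρ0 : 0 < R * σ := mul_pos hR0 hσ0
  have hσρ : σ ≤ R * σ := le_mul_of_one_le_left hσ0.le hR
  have hζc : ContDiff ℝ 1 ζ := hζ.of_le (by simp)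
  -- the affine map
  have hLs := affine_contDiff B fs xs
  have hjL := jac_affine B fs xs
  obtain ⟨L, hL⟩ : ∃ L : (Fin n → ℝ) → (Fin n → ℝ), L = fun x => fs + B.mulVec (x - xs) :=
    ⟨_, rfl⟩
  rw [← hL] at hLs hjL
  have hball : ∀ x ∈ closedBall c τ, ‖x - xs‖ ≤ 11 * r := by
    intro x hx
    rw [mem_closedBall, dist_eq_norm] at hx
    have := h.hτ
    calc ‖x - xs‖ = ‖(x - c) + (c - xs)‖ := by congr 1; abel
      _ ≤ ‖x - c‖ + ‖c - xs‖ := norm_add_le _ _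
      _ ≤ 10 * r + r := by
          rw [norm_sub_rev c xs]; linarith
      _ = _ := by ring
  have hLfs : ∀ x ∈ closedBall c τ, ‖L x - fs‖ ≤ Λ * (11 * r) := by
    intro x hx
    have : L x - fs = B.mulVec (x - xs) := by rw [hL]; exact add_sub_cancel_left _ _
    rw [this]
    exact (norm_mulVec_le _ _).trans (mul_le_mul hBΛ (hball x hx) (norm_nonneg _) hΛ0)
  have hLρ : ∀ x ∈ closedBall c τ, ‖L x - fs‖ ≤ R * σ / 64 := by
    intro x hx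
    refine (hLfs x hx).trans ?_
    have := mul_le_mul_of_nonneg_right hRΛ hr.le
    have h2 : 0 ≤ R * r := mul_nonneg hR0.le hr.le
    rw [hσ]
    linarith
  have hcut := st_cut hCb fs hρ0
  obtain ⟨χ, hχ⟩ : ∃ χ : (Fin n → ℝ) → ℝ, χ = cubeBump fs (R * σ) (R * σ / 2) := ⟨_, rfl⟩
  obtain ⟨ψ, hψ⟩ : ∃ ψ : (Fin n → ℝ) → ℝ,
    ψ = fun y => 1 - cubeBump fs (R * σ / 2) (R * σ / 4) y := ⟨_, rfl⟩
  rw [← hχ, ← hψ] at hcut
  have hf := st_fld hcut hρ0 hC hX₁ hX hX0b hX1b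
  obtain ⟨Xt, hXt⟩ : ∃ Xt : (Fin n → ℝ) → (Fin n → ℝ), Xt = fun y l => X y l - X fs l :=
    ⟨_, rfl⟩
  obtain ⟨Xh, hXh⟩ : ∃ Xh : (Fin n → ℝ) → (Fin n → ℝ),
    Xh = fun y l => χ y * (X y l - X fs l) := ⟨_, rfl⟩
  obtain ⟨Y, hY⟩ : ∃ Y : (Fin n → ℝ) → (Fin n → ℝ),
    Y = fun y l => (1 - χ y) * (X y l - X fs l) := ⟨_, rfl⟩
  rw [← hXt, ← hXh, ← hY] at hf
  have hd1 : ∀ x ∈ closedBall c τ, msum ((jac g x).adjugate - B.adjugate) ≤ β * α x := by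
    intro x hx
    refine le_trans ?_ (hdev x hx)
    exact le_add_of_nonneg_right (mul_nonneg (msum_nonneg _) (div_nonneg (norm_nonneg _) hσ0.le))
  have hd2 : ∀ x ∈ closedBall c τ, msum B.adjugate * (‖g x - L x‖ / σ) ≤ β * α x := by
    intro x hx
    refine le_trans ?_ (hdev x hx)
    rw [hL]
    exact le_add_of_nonneg_left (msum_nonneg _)
  have hfar : ∀ x ∈ closedBall c τ, R * σ / 4 < ‖g x - fs‖ →
      msum (jac g x).adjugate ≤ 9 * (β * α x) := fun x hx hfx =>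
    st_far hσ0 hσρ (hLρ x hx) hfx (hd1 x hx) (hd2 x hx)
  have ba := st_a hn h ht0 hadj hζc hZ₁ hZ1b hρ0 hβ hX₀ hX₁ hball hfar hf.ts hf.tn hf.t2
  have bb := st_b hn h hLs hjL hσ rfl hσρ hβ (by positivity : (0 : ℝ) ≤ 4 * n * C + 1) hX₁ hd1
    hd2 hf.hs hf.hn hf.hlip
  obtain ⟨D, hD, hDg, hDb, hDψ⟩ := hdeg h ht0 hadj
  have hψb := hDψ hcut.ψs hcut.ψ01 (G := 8 * n * C / (R * σ)) (by positivity) hcut.ψG
    (T := 9 * β) (by linarith) (fun x hx => by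
      by_cases hg' : ‖g x - fs‖ ≤ R * σ / 4
      · rw [hcut.ψin _ hg', zero_mul]
        exact mul_nonneg (by linarith) (h.hα x)
      · rw [mul_assoc]
        exact (mul_le_of_le_one_left (msum_nonneg _) (hcut.ψ01 _).2).trans
          (hfar x hx (not_le.mp hg')))
  have bc := st_c hn hp hp0 hD hcut.ψs.continuous hf.yb hf.y0 hr hR0 (hσ ▸ rfl) hβ hQ hC.le
    hCd.le ht0 hM0 hDb hψb
  have hYc : ContDiff ℝ 1 Y := hf.ys.of_le (by simp)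
  rw [← hDg (dv Y) (dv_continuous hYc)] at bc
  have bd := st_d h (Xh := Xh) (X := X) (b := B.det) hLs.continuous (hf.hs.of_le (by simp)) hσ
    hdetΛ hΛ0 hX₂ (fun x hx => hf.dvin _ ((hLρ x hx).trans (by linarith))) hX2b hLfs
  rw [st_sum h hLs hjL hζc hf (xs := xs)]
  refine (st_tri ba bb bc bd (hZ0b xs) hZ₀ rfl).trans ?_
  have hfin := mul_le_mul_of_nonneg_right (st_final hKa0 hKb0 hKc0 hKd0
    (A := R * σ * t) (U := (β + t ^ p / R) ^ p) (W := Λ ^ 2 * σ) (mul_nonneg hρ0.le ht0)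
    (Real.rpow_nonneg (add_nonneg hβ (div_nonneg (Real.rpow_nonneg ht0 p) hR0.le)) p)
    (mul_nonneg (sq_nonneg Λ) hσ0.le) hβ hR rfl) (pow_nonneg hr.le n)
  refine le_trans (le_of_eq ?_) hfin
  rw [hqQ]
  ring

end Pool.Agent.MP8995
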