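import Mathlib
import Pool.Agent.Lib.MP_8995c5_an.Defs
import Pool.Agent.Lib.MP_8995c5_an.Flux
import Pool.Agent.Lib.MP_8995c5_an.Cover
import Pool.Agent.Lib.MP_8995c5_an.Iso

set_option autoImplicit false

open MeasureTheory Metric Set Filter Topology

namespace Pool.Agent.MP8995

variable {n : ℕ}

/-! ### The tiles -/

/-- The neighbours of a cube. -/
noncomputable def nbr {m : ℕ} (c : Fin m → Fin n → ℝ) (r : Fin m → ℝ) (i : Fin m) :
    Finset (Fin m) :=
  open Classical in
  Finset.univ.filter fun j => (closedBall (c i) (10 * r i) ∩ closedBall (c j) (10 * r j)).Nonempty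

theorem card_nbr_le {m : ℕ} {c : Fin m → Fin n → ℝ} {r : Fin m → ℝ} (hr : ∀ i, 0 < r i)
    (hd : Pairwise fun i j => Disjoint (closedBall (c i) (r i)) (closedBall (c j) (r j)))
    (hcmp : ∀ i j, (closedBall (c i) (10 * r i) ∩ closedBall (c j) (10 * r j)).Nonempty →
        r j ≤ 2 * r i) (i : Fin m) : ((nbr c r i).card : ℝ) ≤ 64 ^ n := by
  have hmem : ∀ j ∈ nbr c r i,
      (closedBall (c i) (10 * r i) ∩ closedBall (c j) (10 * r j)).Nonempty := by
    intro j hj
    simpa [nbr] using hj
  have hri := hr i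
  have h1 : (⋃ j ∈ nbr c r i, closedBall (c j) (r i / 2)) ⊆ closedBall (c i) (32 * r i) := by
    intro z hz
    simp only [mem_iUnion, exists_prop] at hz
    obtain ⟨j, hj, hz⟩ := hz
    have h2 := dist_le_add_of_nonempty_closedBall_inter_closedBall (hmem j hj)
    have h3 := hcmp i j (hmem j hj)
    rw [mem_closedBall] at hz ⊢
    have := dist_triangle z (c j) (c i)
    rw [dist_comm (c j) (c i)] at this
    linarith
  have h2 : ∑ j ∈ nbr c r i, volume.real (closedBall (c j) (r i / 2)) ≤
      volume.real (closedBall (c i) (32 * r i)) := by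
    rw [← measureReal_biUnion_finset (h := fun i _ => measure_closedBall_lt_top.ne)]
    · exact measureReal_mono h1 measure_closedBall_lt_top.ne
    · intro j hj k hk hjk
      apply (hd hjk).mono
      · apply closedBall_subset_closedBall
        have h3 := hcmp j i (by rw [inter_comm]; exact hmem j hj)
        linarith
      · apply closedBall_subset_closedBall
        have h3 := hcmp k i (by rw [inter_comm]; exact hmem k hk)
        linarith
    · intro j _
      exact measurableSet_closedBall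
  rw [vol_real_cb _ (by positivity)] at h2
  have h3 : ∀ j ∈ nbr c r i, volume.real (closedBall (c j) (r i / 2)) = r i ^ n := by
    intro j _
    rw [vol_real_cb _ (by positivity)]
    congr 1; ring
  rw [Finset.sum_congr rfl h3, Finset.sum_const, nsmul_eq_mul] at h2
  have h4 : (2 * (32 * r i)) ^ n = 64 ^ n * r i ^ n := by
    rw [← mul_pow]; congr 1; ring
  rw [h4] at h2
  exact le_of_mul_le_mul_right h2 (by positivity)

/-- The `i`-th tile. -/
def tile {m : ℕ} (c : Fin m → Fin n → ℝ) (τ : Fin m → ℝ) (i : Fin m) : Set (Fin n → ℝ) :=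
  ball (c i) (τ i) \ ⋃ j, ⋃ (_ : j < i), ball (c j) (τ j)

theorem tile_subset {m : ℕ} (c : Fin m → Fin n → ℝ) (τ : Fin m → ℝ) (i : Fin m) :
    tile c τ i ⊆ ball (c i) (τ i) := diff_subset

theorem measurableSet_tile {m : ℕ} (c : Fin m → Fin n → ℝ) (τ : Fin m → ℝ) (i : Fin m) :
    MeasurableSet (tile c τ i) :=
  measurableSet_ball.diff (MeasurableSet.iUnion fun _ => MeasurableSet.iUnion fun _ =>
    measurableSet_ball)

theorem disjoint_tile {m : ℕ} (c : Fin m → Fin n → ℝ) (τ : Fin m → ℝ) :
    Pairwise fun i j => Disjoint (tile c τ i) (tile c τ j) := by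
  intro i j hij
  rw [Set.disjoint_left]
  intro x hx hx'
  rcases lt_or_gt_of_ne hij with h | h
  · exact hx'.2 (mem_iUnion.2 ⟨i, mem_iUnion.2 ⟨h, hx.1⟩⟩)
  · exact hx.2 (mem_iUnion.2 ⟨j, mem_iUnion.2 ⟨h, hx'.1⟩⟩)

theorem iUnion_tile {m : ℕ} (c : Fin m → Fin n → ℝ) (τ : Fin m → ℝ) :
    ⋃ i, tile c τ i = ⋃ i, ball (c i) (τ i) := by
  apply Subset.antisymm
  · exact iUnion_mono fun i => tile_subset c τ i
  · intro x hx
    classical
    obtain ⟨i, hi⟩ := mem_iUnion.1 hx
    set s : Finset (Fin m) := Finset.univ.filter fun j => x ∈ ball (c j) (τ j) with hs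
    have hne : s.Nonempty := ⟨i, by simpa [hs] using hi⟩
    refine mem_iUnion.2 ⟨s.min' hne, ?_, ?_⟩
    · have := s.min'_mem hne
      simp only [hs, Finset.mem_filter] at this
      exact this.2
    · intro hx'
      simp only [mem_iUnion, exists_prop] at hx'
      obtain ⟨j, hj, hxj⟩ := hx'
      have : s.min' hne ≤ j := s.min'_le j (by simp only [hs, Finset.mem_filter]; exact ⟨Finset.mem_univ _, hxj⟩)
      exact absurd hj (not_lt.2 this)

/-- Choice of good radii and the resulting cutoffs of the tiles. -/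
theorem exists_radii {n : ℕ} (hn : 0 < n) : ∃ C₁ : ℝ, 0 < C₁ ∧
    ∀ {m : ℕ} {c : Fin m → Fin n → ℝ} {r : Fin m → ℝ} (_ : ∀ i, 0 < r i)
    (_ : Pairwise fun i j => Disjoint (closedBall (c i) (r i)) (closedBall (c j) (r j)))
    (_ : ∀ i j, (closedBall (c i) (10 * r i) ∩ closedBall (c j) (10 * r j)).Nonempty →
        r j ≤ 2 * r i)
    {α : (Fin n → ℝ) → ℝ} (_ : ∀ x, 0 ≤ α x) (_ : Integrable α) {A : ℝ} (_ : 0 < A)
    (_ : ∀ i, ∫ x in closedBall (c i) (10 * r i), α x ≤ A * r i ^ n),
    ∃ τ : Fin m → ℝ, (∀ i, τ i ∈ Ioo (5 * r i) (10 * r i)) ∧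
      ∀ i, Cut α (closedBall (c i) (τ i)) (closedBall (c i) (τ i)) (tile c τ i)
        (C₁ * A * r i ^ (n - 1)) := by
  obtain ⟨C, hC, hCb⟩ := exists_smoothTransition_bound
  refine ⟨(n * (2 * C) + 1) * 2 * (1 + 64 ^ n * 2 ^ (n - 1)), by positivity, ?_⟩
  intro m c r hr hd hcmp α hα hi A hA hint
  choose τ hτ hτF using fun i => exists_good_radius hα hi (c i) (a := 5 * r i) (b := 10 * r i)
    (κ := A * r i ^ (n - 1)) (by linarith [hr i]) (by have := hr i; positivity)
  have hτpos : ∀ i, 0 < τ i := fun i => by have := (hτ i).1; linarith [hr i]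
  have hF : ∀ i, (∫ x in closedBall (c i) (10 * r i), α x) / (10 * r i - 5 * r i) +
      A * r i ^ (n - 1) ≤ 2 * A * r i ^ (n - 1) := by
    intro i
    have h1 : (∫ x in closedBall (c i) (10 * r i), α x) / (10 * r i - 5 * r i) ≤
        A * r i ^ (n - 1) := by
      have hri := hr i
      rw [div_le_iff₀ (by linarith)]
      calc _ ≤ A * r i ^ n := hint i
        _ = A * r i ^ (n - 1) * r i := by
            obtain ⟨k, rfl⟩ : ∃ k, n = k + 1 := ⟨n - 1, by omega⟩
            simp only [Nat.add_sub_cancel]; ring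
        _ ≤ A * r i ^ (n - 1) * (10 * r i - 5 * r i) := by
            apply mul_le_mul_of_nonneg_left _ (by positivity)
            linarith
    linarith
  have hτF' : ∀ i, ∀ᶠ h in 𝓝[>] (0 : ℝ),
      ∫ x in closedBall (c i) (τ i) \ closedBall (c i) (τ i - h), α x ≤
        (2 * A * r i ^ (n - 1)) * h := by
    intro i
    filter_upwards [hτF i, self_mem_nhdsWithin] with h hh hpos
    exact hh.trans (mul_le_mul_of_nonneg_right (hF i) (le_of_lt hpos))
  refine ⟨τ, hτ, fun i => ?_⟩
  have hB : IsCompact (closedBall (c i) (τ i)) := isCompact_closedBall _ _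
  have hbase := Cut.ball hα hi hCb hB (hτpos i) (hτF' i)
  classical
  set s : Finset (Fin m) := (nbr c r i).filter fun j => j < i with hs
  have hcut := Cut.diff_biUnion hα hi hB hbase s (S' := fun j => ball (c j) (τ j))
    (F' := fun j => n * (2 * C) * (2 * A * r j ^ (n - 1)))
    (fun j _ => (Cut.ball hα hi hCb hB (hτpos j) (hτF' j)).mono_support (subset_univ _))
  have htile : ball (c i) (τ i) \ ⋃ j ∈ s, ball (c j) (τ j) = tile c τ i := by
    ext x
    simp only [tile, Set.mem_sdiff, mem_iUnion, exists_prop, not_exists, not_and]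
    refine and_congr_right fun hxi => ⟨fun h j hj hxj => ?_, fun h j hj hxj => ?_⟩
    · refine h j ?_ hxj
      simp only [hs, nbr, Finset.mem_filter, Finset.mem_univ, true_and]
      refine ⟨⟨x, ?_, ?_⟩, hj⟩
      · exact closedBall_subset_closedBall (hτ i).2.le (ball_subset_closedBall hxi)
      · exact closedBall_subset_closedBall (hτ j).2.le (ball_subset_closedBall hxj)
    · simp only [hs, Finset.mem_filter] at hj
      exact h j hj.2 hxj
  rw [htile] at hcut
  obtain ⟨χ, h1, h2, h3, h4, h5⟩ := hcut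
  refine ⟨χ, h1, h2, h3, h4, ?_⟩
  filter_upwards [h5] with k hk
  refine hk.trans ?_
  have hri := hr i
  have hsum : ∑ j ∈ s, (n * (2 * C) * (2 * A * r j ^ (n - 1)) : ℝ) ≤
      64 ^ n * (n * (2 * C) * (2 * A * (2 ^ (n - 1) * r i ^ (n - 1)))) := by
    calc _ ≤ ∑ _j ∈ s, (n * (2 * C) * (2 * A * (2 ^ (n - 1) * r i ^ (n - 1))) : ℝ) := by
          apply Finset.sum_le_sum
          intro j hj
          simp only [hs, nbr, Finset.mem_filter, Finset.mem_univ, true_and] at hj
          have h6 := hcmp i j hj.1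
          have hrj := hr j
          have h7 : r j ^ (n - 1) ≤ 2 ^ (n - 1) * r i ^ (n - 1) := by
            rw [← mul_pow]
            exact pow_le_pow_left₀ hrj.le h6 _
          gcongr
      _ = (s.card : ℝ) * (n * (2 * C) * (2 * A * (2 ^ (n - 1) * r i ^ (n - 1)))) := by
          rw [Finset.sum_const, nsmul_eq_mul]
      _ ≤ _ := by
          apply mul_le_mul_of_nonneg_right _ (by positivity)
          refine le_trans ?_ (card_nbr_le hr hd hcmp i)
          exact_mod_cast Finset.card_filter_le _ _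
  calc _ ≤ n * (2 * C) * (2 * A * r i ^ (n - 1)) +
        64 ^ n * (n * (2 * C) * (2 * A * (2 ^ (n - 1) * r i ^ (n - 1)))) := by linarith
    _ = (n * (2 * C)) * 2 * (1 + 64 ^ n * 2 ^ (n - 1)) * A * r i ^ (n - 1) := by ring
    _ ≤ _ := by
        gcongr
        linarith

end Pool.Agent.MP8995
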