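import Mathlib
import Pool.Agent.Lib.MP_8995c5_an.Tile
import Pool.Agent.Lib.MP_8995c5_an.SmallTile
import Pool.Agent.Lib.MP_8995c5_an.GoodScale

set_option autoImplicit false

open MeasureTheory Metric Set Filter Topology

namespace Pool.Agent.MP8995

variable {n : ℕ}

theorem Cut.mono_const {α : (Fin n → ℝ) → ℝ} {B A S : Set (Fin n → ℝ)} {F F' : ℝ}
    (h : Cut α B A S F) (hF : F ≤ F') : Cut α B A S F' := by
  obtain ⟨χ, h1, h2, h3, h4, h5⟩ := h
  exact ⟨χ, h1, h2, h3, h4, h5.mono fun k hk => hk.trans hF⟩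

theorem msum_continuous : Continuous (msum : Matrix (Fin n) (Fin n) ℝ → ℝ) := by
  unfold msum
  exact continuous_finsetSum _ fun i _ => continuous_finsetSum _ fun j _ =>
    (continuous_apply_apply i j).abs

theorem msum_neg (M : Matrix (Fin n) (Fin n) ℝ) : msum (-M) = msum M := by
  unfold msum; simp

theorem msum_sub_comm (M N : Matrix (Fin n) (Fin n) ℝ) : msum (M - N) = msum (N - M) := by
  rw [← msum_neg, neg_sub]

theorem msum_sub_triangle (M N P : Matrix (Fin n) (Fin n) ℝ) :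
    msum (M - P) ≤ msum (M - N) + msum (N - P) := by
  have := msum_add_le (M - N) (N - P)
  rwa [sub_add_sub_cancel] at this

theorem devi_continuous {g : (Fin n → ℝ) → (Fin n → ℝ)} (hg : ContDiff ℝ (⊤ : ℕ∞) g)
    (B : Matrix (Fin n) (Fin n) ℝ) (fs xs : Fin n → ℝ) (σ : ℝ) :
    Continuous (devi g B fs xs σ) := by
  unfold devi
  have h1 : Continuous fun x => (jac g x).adjugate :=
    (jac_continuous (hg.of_le (by simp))).matrix_adjugate
  have h2 : Continuous fun x => fs + B.mulVec (x - xs) := (affine_contDiff B fs xs).continuous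
  exact (msum_continuous.comp (h1.sub continuous_const)).add
    (continuous_const.mul ((hg.continuous.sub h2).norm.div_const σ))

theorem devi_nonneg (g : (Fin n → ℝ) → (Fin n → ℝ)) (B : Matrix (Fin n) (Fin n) ℝ)
    (fs xs : Fin n → ℝ) {σ : ℝ} (hσ : 0 < σ) (x : Fin n → ℝ) : 0 ≤ devi g B fs xs σ x := by
  unfold devi
  have := msum_nonneg ((jac g x).adjugate - B.adjugate)
  have := msum_nonneg B.adjugate
  positivity

theorem integrable_msum_sub {Df : (Fin n → ℝ) → Matrix (Fin n) (Fin n) ℝ}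
    (hadjm : ∀ i j, Integrable fun x => (Df x).adjugate i j) (M : Matrix (Fin n) (Fin n) ℝ)
    {K : Set (Fin n → ℝ)} (hK : IsCompact K) :
    IntegrableOn (fun y => msum ((Df y).adjugate - M)) K := by
  unfold msum
  apply integrable_finset_sum
  intro i _
  apply integrable_finset_sum
  intro j _
  have h1 : IntegrableOn (fun y => (Df y).adjugate i j - M i j) K :=
    (hadjm i j).integrableOn.sub (continuousOn_const.integrableOn_compact hK)
  exact h1.abs

/-- The deviation has small integral near a good point. -/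
theorem integral_devi_le {f : (Fin n → ℝ) → (Fin n → ℝ)}
    {Df : (Fin n → ℝ) → Matrix (Fin n) (Fin n) ℝ} (hf : Integrable f)
    (hadjm : ∀ i j, Integrable fun x => (Df x).adjugate i j)
    {g : (Fin n → ℝ) → (Fin n → ℝ)} (hg : ContDiff ℝ (⊤ : ℕ∞) g)
    {K₀ : Set (Fin n → ℝ)} (hK₀ : IsCompact K₀) {ε : ℝ}
    (hgf : ∫ x in K₀, ‖g x - f x‖ ≤ ε)
    (hgA : ∫ x in K₀, msum ((jac g x).adjugate - (Df x).adjugate) ≤ ε)
    {Φ : (Fin n → ℝ) → ℝ} {Λ ω σ : ℝ} (hσ : 0 < σ) {xs : Fin n → ℝ}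
    (hgood : GoodPt f Df Φ Λ ω σ xs) {b : Set (Fin n → ℝ)} (hbc : IsCompact b)
    (hb1 : b ⊆ K₀) (hb2 : b ⊆ closedBall xs σ) :
    ∫ x in b, devi g (Df xs) (f xs) xs σ x ≤ ε * (1 + Λ / σ) + ω * (1 + Λ) * σ ^ n := by
  have hbm := hbc.measurableSet
  have hΛ0 : 0 ≤ Λ := (msum_nonneg _).trans hgood.h1
  have hLc : Continuous fun x => f xs + (Df xs).mulVec (x - xs) :=
    (affine_contDiff (Df xs) (f xs) xs).continuous
  have hadjc : Continuous fun x => (jac g x).adjugate :=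
    (jac_continuous (hg.of_le (by simp))).matrix_adjugate
  have hgfi : ∀ {K : Set (Fin n → ℝ)}, IsCompact K → IntegrableOn (fun x => ‖g x - f x‖) K :=
    fun hK => ((hg.continuous.continuousOn.integrableOn_compact hK).sub hf.integrableOn).norm
  have hgAi : ∀ {K : Set (Fin n → ℝ)}, IsCompact K →
      IntegrableOn (fun x => msum ((jac g x).adjugate - (Df x).adjugate)) K := by
    intro K hK
    unfold msum
    apply integrable_finset_sum
    intro i _
    apply integrable_finset_sum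
    intro j _
    have h1 : IntegrableOn (fun y => (jac g y).adjugate i j - (Df y).adjugate i j) K :=
      (((continuous_apply_apply i j).comp hadjc).continuousOn.integrableOn_compact hK).sub
        (hadjm i j).integrableOn
    exact h1.abs
  have hAi : IntegrableOn (fun x => msum ((Df x).adjugate - (Df xs).adjugate)) (closedBall xs σ) :=
    integrable_msum_sub hadjm _ (isCompact_closedBall _ _)
  have hLi : IntegrableOn (fun x => ‖f x - f xs - (Df xs).mulVec (x - xs)‖) (closedBall xs σ) := by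
    have h1 : IntegrableOn (fun x => f x - (f xs + (Df xs).mulVec (x - xs))) (closedBall xs σ) :=
      hf.integrableOn.sub (hLc.continuousOn.integrableOn_compact (isCompact_closedBall _ _))
    refine h1.norm.congr (Eventually.of_forall fun x => ?_)
    simp only [sub_sub]
  have hpt : ∀ x, devi g (Df xs) (f xs) xs σ x ≤
      msum ((jac g x).adjugate - (Df x).adjugate) + msum ((Df x).adjugate - (Df xs).adjugate) +
      (Λ / σ * ‖g x - f x‖ + Λ / σ * ‖f x - f xs - (Df xs).mulVec (x - xs)‖) := by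
    intro x
    unfold devi
    apply add_le_add (msum_sub_triangle _ _ _)
    have h1 : ‖g x - (f xs + (Df xs).mulVec (x - xs))‖ ≤
        ‖g x - f x‖ + ‖f x - f xs - (Df xs).mulVec (x - xs)‖ := by
      calc _ = ‖(g x - f x) + (f x - f xs - (Df xs).mulVec (x - xs))‖ := by congr 1; abel
        _ ≤ _ := norm_add_le _ _
    calc msum (Df xs).adjugate * (‖g x - (f xs + (Df xs).mulVec (x - xs))‖ / σ)
        ≤ Λ * ((‖g x - f x‖ + ‖f x - f xs - (Df xs).mulVec (x - xs)‖) / σ) := by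
          apply mul_le_mul hgood.h2 _ (by positivity) hΛ0
          exact div_le_div_of_nonneg_right h1 hσ.le
      _ = _ := by ring
  have j1 : IntegrableOn (fun x => msum ((jac g x).adjugate - (Df x).adjugate) +
      msum ((Df x).adjugate - (Df xs).adjugate)) b := (hgAi hbc).add (hAi.mono_set hb2)
  have j2 : IntegrableOn (fun x => Λ / σ * ‖g x - f x‖ +
      Λ / σ * ‖f x - f xs - (Df xs).mulVec (x - xs)‖) b :=
    ((hgfi hbc).const_mul _).add ((hLi.mono_set hb2).const_mul _)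
  calc ∫ x in b, devi g (Df xs) (f xs) xs σ x
      ≤ ∫ x in b, (msum ((jac g x).adjugate - (Df x).adjugate) +
          msum ((Df x).adjugate - (Df xs).adjugate) +
          (Λ / σ * ‖g x - f x‖ + Λ / σ * ‖f x - f xs - (Df xs).mulVec (x - xs)‖)) := by
        apply setIntegral_mono_on _ (j1.add j2) hbm (fun x _ => hpt x)
        exact (devi_continuous hg _ _ _ _).continuousOn.integrableOn_compact hbc
    _ = (∫ x in b, msum ((jac g x).adjugate - (Df x).adjugate)) +
        (∫ x in b, msum ((Df x).adjugate - (Df xs).adjugate)) +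
        (Λ / σ * (∫ x in b, ‖g x - f x‖) +
          Λ / σ * ∫ x in b, ‖f x - f xs - (Df xs).mulVec (x - xs)‖) := by
        rw [integral_add j1 j2, integral_add (hgAi hbc) (hAi.mono_set hb2),
          integral_add ((hgfi hbc).const_mul _) ((hLi.mono_set hb2).const_mul _),
          integral_const_mul, integral_const_mul]
    _ ≤ ε + ω * σ ^ n + (Λ / σ * ε + Λ / σ * (ω * σ ^ (n + 1))) := by
        have k1 : ∫ x in b, msum ((jac g x).adjugate - (Df x).adjugate) ≤ ε :=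
          (setIntegral_mono_set (hgAi hK₀) (Eventually.of_forall fun _ => msum_nonneg _)
            hb1.eventuallyLE).trans hgA
        have k2 : ∫ x in b, msum ((Df x).adjugate - (Df xs).adjugate) ≤ ω * σ ^ n :=
          (setIntegral_mono_set hAi (Eventually.of_forall fun _ => msum_nonneg _)
            hb2.eventuallyLE).trans hgood.h4
        have k3 : ∫ x in b, ‖g x - f x‖ ≤ ε :=
          (setIntegral_mono_set (hgfi hK₀) (Eventually.of_forall fun _ => norm_nonneg _)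
            hb1.eventuallyLE).trans hgf
        have k4 : ∫ x in b, ‖f x - f xs - (Df xs).mulVec (x - xs)‖ ≤ ω * σ ^ (n + 1) :=
          (setIntegral_mono_set hLi (Eventually.of_forall fun _ => norm_nonneg _)
            hb2.eventuallyLE).trans hgood.h5
        have : 0 ≤ Λ / σ := by positivity
        gcongr
    _ = _ := by
        rw [pow_succ]; field_simp; ring

/-! ### Auxiliary statements with small contexts -/

theorem sp_vols {m : ℕ} {c : Fin m → Fin n → ℝ} {r : Fin m → ℝ} (hr0 : ∀ i, 0 < r i)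
    (hdisj : Pairwise fun i j => Disjoint (closedBall (c i) (r i)) (closedBall (c j) (r j)))
    (s : Finset (Fin m)) {V : Set (Fin n → ℝ)} (hVf : volume V ≠ ⊤)
    (hV : ∀ i ∈ s, closedBall (c i) (r i) ⊆ V) : ∑ i ∈ s, r i ^ n ≤ volume.real V := by
  calc ∑ i ∈ s, r i ^ n ≤ ∑ i ∈ s, volume.real (closedBall (c i) (r i)) := by
        apply Finset.sum_le_sum
        intro i _
        rw [vol_real_cb _ (hr0 i).le]
        exact pow_le_pow_left₀ (hr0 i).le (by linarith [hr0 i]) n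
    _ = volume.real (⋃ i ∈ s, closedBall (c i) (r i)) := by
        rw [measureReal_biUnion_finset (h := fun i _ => measure_closedBall_lt_top.ne)]
        · intro i _ j _ hij
          exact hdisj hij
        · intro i _
          exact measurableSet_closedBall
    _ ≤ volume.real V := measureReal_mono (iUnion₂_subset hV) hVf

theorem sp_compl {m : ℕ} {c : Fin m → Fin n → ℝ} {r : Fin m → ℝ} (hr0 : ∀ i, 0 < r i)
    (hdisj : Pairwise fun i j => Disjoint (closedBall (c i) (r i)) (closedBall (c j) (r j)))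
    {K₀ G : Set (Fin n → ℝ)} (hK : volume K₀ ≠ ⊤) (hbK' : ∀ i, closedBall (c i) (r i) ⊆ K₀)
    {s b : ℝ} (T : Finset (Fin m))
    (hT : ∀ i ∈ T, r i = s → ∀ x ∈ closedBall (c i) (r i), x ∉ G)
    (hbad : ∑ i with r i ≠ s, r i ^ n ≤ b) :
    ∑ i ∈ T, r i ^ n ≤ b + volume.real (K₀ \ G) := by
  rw [← Finset.sum_filter_add_sum_filter_not T (fun i => r i ≠ s)]
  apply add_le_add
  · refine le_trans ?_ hbad
    apply Finset.sum_le_sum_of_subset_of_nonneg
    · exact Finset.filter_subset_filter _ (Finset.subset_univ T)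
    · intro i _ _
      exact pow_nonneg (hr0 i).le n
  · apply sp_vols hr0 hdisj _ ((measure_mono diff_subset).trans_lt hK.lt_top).ne
    intro i hi x hx
    obtain ⟨h1, h2⟩ := Finset.mem_filter.1 hi
    exact ⟨hbK' i hx, hT i h1 (not_not.1 h2) x hx⟩

theorem sp_msum_integrable {Df : (Fin n → ℝ) → Matrix (Fin n) (Fin n) ℝ}
    (hadjm : ∀ i j, Integrable fun x => (Df x).adjugate i j) :
    Integrable fun x => msum (Df x).adjugate := by
  unfold msum
  exact integrable_finset_sum _ fun i _ => integrable_finset_sum _ fun j _ => (hadjm i j).abs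

theorem sp_gA {g : (Fin n → ℝ) → (Fin n → ℝ)} (hg : ContDiff ℝ (⊤ : ℕ∞) g)
    {Df : (Fin n → ℝ) → Matrix (Fin n) (Fin n) ℝ}
    (hadjm : ∀ i j, Integrable fun x => (Df x).adjugate i j) {K : Set (Fin n → ℝ)}
    (hK : IsCompact K) :
    IntegrableOn (fun x => msum ((jac g x).adjugate - (Df x).adjugate)) K := by
  have hadjc : Continuous fun x => (jac g x).adjugate :=
    (jac_continuous (hg.of_le (by simp))).matrix_adjugate
  unfold msum
  apply integrable_finset_sum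
  intro i _
  apply integrable_finset_sum
  intro j _
  have h1 : IntegrableOn (fun y => (jac g y).adjugate i j - (Df y).adjugate i j) K :=
    (((continuous_apply_apply i j).comp hadjc).continuousOn.integrableOn_compact hK).sub
      (hadjm i j).integrableOn
  exact h1.abs

theorem sp_mc {g : (Fin n → ℝ) → (Fin n → ℝ)} (hg : ContDiff ℝ (⊤ : ℕ∞) g) :
    Continuous fun x => msum (jac g x).adjugate :=
  msum_continuous.comp (jac_continuous (hg.of_le (by simp))).matrix_adjugate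

/-- first part of the weight -/
theorem sp_b1 {g : (Fin n → ℝ) → (Fin n → ℝ)} (hg : ContDiff ℝ (⊤ : ℕ∞) g)
    {Df : (Fin n → ℝ) → Matrix (Fin n) (Fin n) ℝ}
    (hadjm : ∀ i j, Integrable fun x => (Df x).adjugate i j) {K₀ : Set (Fin n → ℝ)}
    (hK₀ : IsCompact K₀) {t r ε : ℝ} (ht : 1 ≤ t) (hr : 0 < r) {c : Fin n → ℝ}
    (hbK : closedBall c (10 * r) ⊆ K₀)
    (hint : ∫ x in closedBall c (10 * r), msum (Df x).adjugate ≤ t * (200 * r) ^ n)
    (hgA : ∫ x in K₀, msum ((jac g x).adjugate - (Df x).adjugate) ≤ ε) (hε : ε ≤ r ^ n) :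
    ∫ x in closedBall c (10 * r), msum (jac g x).adjugate / t ≤ (200 ^ n + 1) * r ^ n := by
  have hgAi := sp_gA hg hadjm hK₀
  have hmi := sp_msum_integrable hadjm
  rw [integral_div, div_le_iff₀ (zero_lt_one.trans_le ht)]
  have k0 : ∀ x, msum (jac g x).adjugate ≤
      msum (Df x).adjugate + msum ((jac g x).adjugate - (Df x).adjugate) := by
    intro x
    have := msum_add_le (Df x).adjugate ((jac g x).adjugate - (Df x).adjugate)
    rwa [add_sub_cancel] at this
  calc ∫ x in closedBall c (10 * r), msum (jac g x).adjugate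
      ≤ ∫ x in closedBall c (10 * r), (msum (Df x).adjugate +
          msum ((jac g x).adjugate - (Df x).adjugate)) := by
        apply setIntegral_mono_on
          ((sp_mc hg).continuousOn.integrableOn_compact (isCompact_closedBall _ _))
          (hmi.integrableOn.add (hgAi.mono_set hbK)) measurableSet_closedBall
          (fun x _ => k0 x)
    _ = (∫ x in closedBall c (10 * r), msum (Df x).adjugate) +
        ∫ x in closedBall c (10 * r), msum ((jac g x).adjugate - (Df x).adjugate) :=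
        integral_add hmi.integrableOn (hgAi.mono_set hbK)
    _ ≤ t * (200 * r) ^ n + ε :=
        add_le_add hint ((setIntegral_mono_set hgAi (Eventually.of_forall fun _ => msum_nonneg _)
          hbK.eventuallyLE).trans hgA)
    _ ≤ t * (200 * r) ^ n + t * r ^ n := by
        have h2 : r ^ n ≤ t * r ^ n := le_mul_of_one_le_left (pow_nonneg hr.le n) ht
        linarith
    _ = (200 ^ n + 1) * r ^ n * t := by rw [mul_pow]; ring

/-- second part of the weight -/
theorem sp_b2 {m : ℕ} {c : Fin m → Fin n → ℝ} {r : Fin m → ℝ} (hr0 : ∀ i, 0 < r i)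
    (hdisj : Pairwise fun i j => Disjoint (closedBall (c i) (r i)) (closedBall (c j) (r j)))
    (hcmp : ∀ i j, (closedBall (c i) (10 * r i) ∩ closedBall (c j) (10 * r j)).Nonempty →
        r j ≤ 2 * r i) {IK : Finset (Fin m)} {u : Fin m → (Fin n → ℝ) → ℝ}
    (hu : ∀ i, Integrable ((closedBall (c i) (10 * r i)).indicator (u i)))
    (hu0 : ∀ i x, 0 ≤ (closedBall (c i) (10 * r i)).indicator (u i) x)
    (hui : ∀ i ∈ IK, ∫ x in closedBall (c i) (10 * r i), u i x ≤ r i ^ n) (j : Fin m) :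
    ∑ i ∈ IK, ∫ x in closedBall (c j) (10 * r j),
        (closedBall (c i) (10 * r i)).indicator (u i) x ≤ 64 ^ n * 2 ^ n * r j ^ n := by
  classical
  have hrj := hr0 j
  calc _ ≤ ∑ i ∈ IK, (if i ∈ nbr c r j then (2 * r j) ^ n else 0) := by
        apply Finset.sum_le_sum
        intro i hi'
        split_ifs with hij
        · have hne : (closedBall (c j) (10 * r j) ∩ closedBall (c i) (10 * r i)).Nonempty := by
            simpa [nbr] using hij
          calc ∫ x in closedBall (c j) (10 * r j),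
                (closedBall (c i) (10 * r i)).indicator (u i) x
              ≤ ∫ x, (closedBall (c i) (10 * r i)).indicator (u i) x :=
                setIntegral_le_integral (hu i) (Eventually.of_forall (hu0 i))
            _ = ∫ x in closedBall (c i) (10 * r i), u i x :=
                integral_indicator measurableSet_closedBall
            _ ≤ r i ^ n := hui i hi'
            _ ≤ (2 * r j) ^ n := pow_le_pow_left₀ (hr0 i).le (hcmp j i hne) n
        · apply le_of_eq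
          apply setIntegral_eq_zero_of_forall_eq_zero
          intro x hx
          apply indicator_of_notMem
          intro hx'
          apply hij
          simp only [nbr, Finset.mem_filter, Finset.mem_univ, true_and]
          exact ⟨x, hx, hx'⟩
    _ ≤ ∑ _i ∈ nbr c r j, (2 * r j) ^ n := by
        rw [← Finset.sum_filter]
        apply Finset.sum_le_sum_of_subset_of_nonneg
        · intro i hi'
          exact (Finset.mem_filter.1 hi').2
        · intro i _ _
          positivity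
    _ = ((nbr c r j).card : ℝ) * (2 * r j) ^ n := by
        rw [Finset.sum_const, nsmul_eq_mul]
    _ ≤ 64 ^ n * (2 * r j) ^ n :=
        mul_le_mul_of_nonneg_right (card_nbr_le hr0 hdisj hcmp j) (by positivity)
    _ = _ := by rw [mul_pow]; ring

/-- the weight -/
theorem sp_weight {m : ℕ} {c : Fin m → Fin n → ℝ} {r : Fin m → ℝ} (hr0 : ∀ i, 0 < r i)
    (hdisj : Pairwise fun i j => Disjoint (closedBall (c i) (r i)) (closedBall (c j) (r j)))
    (hcmp : ∀ i j, (closedBall (c i) (10 * r i) ∩ closedBall (c j) (10 * r j)).Nonempty →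
        r j ≤ 2 * r i) {IK : Finset (Fin m)} {v : Fin m → (Fin n → ℝ) → ℝ}
    (hvc : ∀ i, Continuous (v i)) (hv0 : ∀ i x, 0 ≤ v i x) {β : ℝ} (hβ : 0 < β)
    (hvi : ∀ i ∈ IK, ∫ x in closedBall (c i) (10 * r i), v i x ≤ β * r i ^ n)
    {K₀ : Set (Fin n → ℝ)} (hK₀ : IsCompact K₀) (hbK : ∀ i, closedBall (c i) (10 * r i) ⊆ K₀)
    {w : (Fin n → ℝ) → ℝ} (hwc : Continuous w) (hw0 : ∀ x, 0 ≤ w x) {t B : ℝ} (ht : 0 < t)
    (hwi : ∀ j, ∫ x in closedBall (c j) (10 * r j), w x / t ≤ B * r j ^ n) :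
    ∃ α : (Fin n → ℝ) → ℝ, (∀ x, 0 ≤ α x) ∧ Integrable α ∧
      (∀ j, ∫ x in closedBall (c j) (10 * r j), α x ≤ (B + 64 ^ n * 2 ^ n) * r j ^ n) ∧
      (∀ x ∈ K₀, w x ≤ t * α x) ∧
      ∀ i ∈ IK, ∀ x ∈ closedBall (c i) (10 * r i), v i x ≤ β * α x := by
  have hK₀m : MeasurableSet K₀ := hK₀.measurableSet
  have hterm : ∀ i, Integrable ((closedBall (c i) (10 * r i)).indicator
      (fun x => v i x / β)) := by
    intro i
    rw [integrable_indicator_iff measurableSet_closedBall]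
    exact ((hvc i).div_const β).continuousOn.integrableOn_compact (isCompact_closedBall _ _)
  have hterm0 : ∀ i x, 0 ≤ (closedBall (c i) (10 * r i)).indicator (fun x => v i x / β) x :=
    fun i x => indicator_nonneg (fun x _ => div_nonneg (hv0 i x) hβ.le) x
  obtain ⟨α₀, hα₀⟩ : ∃ α₀ : (Fin n → ℝ) → ℝ, α₀ = fun x => w x / t +
    ∑ i ∈ IK, (closedBall (c i) (10 * r i)).indicator (fun x => v i x / β) x := ⟨_, rfl⟩
  have hα₀0 : ∀ x, 0 ≤ α₀ x := fun x => by
    rw [hα₀]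
    exact add_nonneg (div_nonneg (hw0 x) ht.le) (Finset.sum_nonneg fun i _ => hterm0 i x)
  have hα₀i : IntegrableOn α₀ K₀ := by
    rw [hα₀]
    exact ((hwc.div_const t).continuousOn.integrableOn_compact hK₀).add
      (integrable_finset_sum _ fun i _ => (hterm i).integrableOn)
  refine ⟨K₀.indicator α₀, fun x => indicator_nonneg (fun x _ => hα₀0 x) x,
    (integrable_indicator_iff hK₀m).2 hα₀i, ?_, ?_, ?_⟩
  · intro j
    have e1 : ∫ x in closedBall (c j) (10 * r j), K₀.indicator α₀ x =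
        ∫ x in closedBall (c j) (10 * r j), α₀ x := by
      apply setIntegral_congr_fun measurableSet_closedBall
      intro x hx
      exact indicator_of_mem (hbK j hx) _
    have i1 : IntegrableOn (fun x => w x / t) (closedBall (c j) (10 * r j)) :=
      (hwc.div_const t).continuousOn.integrableOn_compact (isCompact_closedBall _ _)
    rw [e1, hα₀, integral_add i1 (integrable_finset_sum _ fun i _ => (hterm i).integrableOn),
      integral_finset_sum _ fun i _ => (hterm i).integrableOn, add_mul]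
    refine add_le_add (hwi j) (sp_b2 hr0 hdisj hcmp hterm hterm0 (fun i hi => ?_) j)
    rw [integral_div, div_le_iff₀ hβ]
    linarith [hvi i hi]
  · intro x hx
    rw [indicator_of_mem hx, hα₀]
    have h1 : w x / t ≤ w x / t +
        ∑ i ∈ IK, (closedBall (c i) (10 * r i)).indicator (fun x => v i x / β) x :=
      le_add_of_nonneg_right (Finset.sum_nonneg fun i _ => hterm0 i x)
    rw [div_le_iff₀ ht] at h1
    linarith
  · intro i hi x hx
    rw [indicator_of_mem (hbK i hx), hα₀]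
    have h3 := Finset.single_le_sum (f := fun i =>
      (closedBall (c i) (10 * r i)).indicator (fun x => v i x / β) x)
      (fun i _ => hterm0 i x) hi
    rw [indicator_of_mem hx] at h3
    have h4 : v i x / β ≤ w x / t +
        ∑ i ∈ IK, (closedBall (c i) (10 * r i)).indicator (fun x => v i x / β) x :=
      h3.trans (le_add_of_nonneg_left (div_nonneg (hw0 x) ht.le))
    rw [div_le_iff₀ hβ] at h4
    linarith

theorem sp_td {g : (Fin n → ℝ) → (Fin n → ℝ)} (hg : ContDiff ℝ (⊤ : ℕ∞) g)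
    {α : (Fin n → ℝ) → ℝ} (hα0 : ∀ x, 0 ≤ α x) (hαi : Integrable α) {m : ℕ}
    {c : Fin m → Fin n → ℝ} {r τ : Fin m → ℝ} (hr0 : ∀ i, 0 < r i) {A C₁ : ℝ} (hA0 : 0 < A)
    (hC₁ : 0 < C₁) (hαint : ∀ j, ∫ x in closedBall (c j) (10 * r j), α x ≤ A * r j ^ n)
    (hτ : ∀ i, τ i ∈ Ioo (5 * r i) (10 * r i))
    (hcut : ∀ i, Cut α (closedBall (c i) (τ i)) (closedBall (c i) (τ i)) (tile c τ i)
        (C₁ * A * r i ^ (n - 1))) (i : Fin m) :
    TD g α (c i) (τ i) (r i) ((C₁ + 1) * A) (tile c τ i) := by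
  have hri := hr0 i
  have hQ0 : 0 ≤ (C₁ + 1) * A := by positivity
  have h1 : C₁ * A ≤ (C₁ + 1) * A := mul_le_mul_of_nonneg_right (by linarith) hA0.le
  have h2 : A ≤ (C₁ + 1) * A := le_mul_of_one_le_left hA0.le (by linarith)
  refine ⟨hg, hα0, hαi, measurableSet_tile c τ i,
    (tile_subset c τ i).trans ball_subset_closedBall, hri, (hτ i).2.le, hQ0, ?_, ?_⟩
  · exact (hcut i).mono_const (mul_le_mul_of_nonneg_right h1 (pow_nonneg hri.le _))
  · exact ((setIntegral_mono_set hαi.integrableOn (Eventually.of_forall hα0)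
      (closedBall_subset_closedBall (hτ i).2.le).eventuallyLE).trans (hαint i)).trans
      (mul_le_mul_of_nonneg_right h2 (pow_nonneg hri.le _))

theorem sp_level {K₀ : Set (Fin n → ℝ)} (hK₀ : MeasurableSet K₀) {w : (Fin n → ℝ) → ℝ}
    (hw : Measurable w) {s : ℝ} (hs : 0 < s) :
    ∫ x in {x | s < K₀.indicator w x}, K₀.indicator w x = ∫ x in K₀ ∩ {x | s < w x}, w x := by
  have hs2 : MeasurableSet {x | s < w x} := measurableSet_lt measurable_const hw
  have e : {x | s < K₀.indicator w x} = K₀ ∩ {x | s < w x} := by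
    ext x
    by_cases hx : x ∈ K₀
    · simp only [mem_ofPred_eq, Set.mem_inter_iff, indicator_of_mem hx, hx, true_and]
    · simp only [mem_ofPred_eq, Set.mem_inter_iff, indicator_of_notMem hx, hx, false_and,
        iff_false, not_lt, hs.le]
  rw [e]
  apply setIntegral_congr_fun (hK₀.inter hs2)
  intro x hx
  exact indicator_of_mem hx.1 _

theorem sp_phi {E : Set (Fin n → ℝ)} {Φ : (Fin n → ℝ) → ℝ} (hΦ : Integrable Φ) {c xs : Fin n → ℝ}
    {τ r σ ω : ℝ} (hE : E ⊆ closedBall c τ) (hEs : E ⊆ closedBall xs σ) (hσ : σ = 100 * r)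
    (h6 : ∫ y in closedBall xs σ, |Φ y - Φ xs| ≤ ω * σ ^ n) :
    |(∫ x in E, Φ x) - Φ xs * volume.real E| ≤ 100 ^ n * ω * r ^ n := by
  have htf : volume E ≠ ⊤ :=
    (lt_of_le_of_lt (measure_mono hE) measure_closedBall_lt_top).ne
  have hc1 : IntegrableOn (fun _ => Φ xs) E := integrableOn_const htf
  have e1 : Φ xs * volume.real E = ∫ _x in E, Φ xs := by
    rw [setIntegral_const, smul_eq_mul, mul_comm]
  have hc2 : IntegrableOn (fun y => |Φ y - Φ xs|) (closedBall xs σ) :=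
    (hΦ.integrableOn.sub (continuousOn_const.integrableOn_compact
      (isCompact_closedBall _ _))).abs
  rw [e1, ← integral_sub hΦ.integrableOn hc1]
  calc |∫ x in E, (Φ x - Φ xs)| ≤ ∫ x in E, |Φ x - Φ xs| :=
        abs_integral_le_integral_abs
    _ ≤ ∫ x in closedBall xs σ, |Φ x - Φ xs| :=
        setIntegral_mono_set hc2 (Eventually.of_forall fun _ => abs_nonneg _) hEs.eventuallyLE
    _ ≤ ω * σ ^ n := h6
    _ = _ := by rw [hσ, mul_pow]; ring

theorem sp_volT {m : ℕ} {c : Fin m → Fin n → ℝ} {r τ : Fin m → ℝ} (hr0 : ∀ i, 0 < r i)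
    (hτ : ∀ i, τ i ≤ 10 * r i) (T : Finset (Fin m)) :
    volume.real (⋃ i ∈ T, tile c τ i) ≤ 20 ^ n * ∑ i ∈ T, r i ^ n := by
  calc volume.real (⋃ i ∈ T, tile c τ i) ≤ ∑ i ∈ T, volume.real (tile c τ i) :=
        measureReal_biUnion_finset_le _ _
    _ ≤ ∑ i ∈ T, 20 ^ n * r i ^ n := by
        apply Finset.sum_le_sum
        intro i _
        calc volume.real (tile c τ i) ≤ volume.real (closedBall (c i) (10 * r i)) :=
              measureReal_mono (((tile_subset c τ i).trans ball_subset_closedBall).trans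
                (closedBall_subset_closedBall (hτ i))) measure_closedBall_lt_top.ne
          _ = 20 ^ n * r i ^ n := by
              rw [vol_real_cb _ (by have := hr0 i; positivity), ← mul_pow]
              congr 1; ring
    _ = 20 ^ n * ∑ i ∈ T, r i ^ n := by rw [Finset.mul_sum]

theorem sp_split {m : ℕ} {c : Fin m → Fin n → ℝ} {τ : Fin m → ℝ} {S : Set (Fin n → ℝ)}
    (hcovt : S ⊆ ⋃ i, tile c τ i) {F : (Fin n → ℝ) → ℝ} (hF : Integrable F)
    (hF0 : ∀ x, x ∉ S → F x = 0) : ∫ x, F x = ∑ i, ∫ x in tile c τ i, F x := by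
  rw [← integral_iUnion_fintype (measurableSet_tile c τ) (disjoint_tile c τ)
    (fun i => hF.integrableOn)]
  symm
  apply setIntegral_eq_integral_of_forall_compl_eq_zero
  intro x hx
  exact hF0 x fun hx' => hx (hcovt hx')

theorem sp_s1 {m : ℕ} {IK : Finset (Fin m)} {d : Fin m → ℝ} {r : Fin m → ℝ} {M V : ℝ}
    (hM : 0 ≤ M) (h : ∀ i ∈ IK, |d i| ≤ M * r i ^ n) (hV : ∑ i ∈ IK, r i ^ n ≤ V) :
    |∑ i ∈ IK, d i| ≤ M * V := by
  calc _ ≤ ∑ i ∈ IK, |d i| := Finset.abs_sum_le_sum_abs _ _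
    _ ≤ ∑ i ∈ IK, M * r i ^ n := Finset.sum_le_sum h
    _ = M * ∑ i ∈ IK, r i ^ n := by rw [Finset.mul_sum]
    _ ≤ _ := mul_le_mul_of_nonneg_left hV hM

theorem sp_s2 {m : ℕ} {c : Fin m → Fin n → ℝ} {τ : Fin m → ℝ} {T : Finset (Fin m)}
    {H Φ : (Fin n → ℝ) → ℝ} (hΦ : Integrable Φ) {r : Fin m → ℝ} {M V : ℝ} (hM : 0 ≤ M)
    (h : ∀ i, |∫ x in tile c τ i, H x| ≤ M * r i ^ n) (hV : ∑ i ∈ T, r i ^ n ≤ V) :
    |∑ i ∈ T, ((∫ x in tile c τ i, H x) - ∫ x in tile c τ i, Φ x)| ≤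
        M * V + ∫ x in ⋃ i ∈ T, tile c τ i, |Φ x| := by
  rw [integral_biUnion_finset _ (fun i _ => measurableSet_tile c τ i)
    (fun i _ j _ hij => disjoint_tile c τ hij) (fun i _ => hΦ.abs.integrableOn)]
  calc _ ≤ ∑ i ∈ T, |(∫ x in tile c τ i, H x) - ∫ x in tile c τ i, Φ x| :=
        Finset.abs_sum_le_sum_abs _ _
    _ ≤ ∑ i ∈ T, (M * r i ^ n + ∫ x in tile c τ i, |Φ x|) := by
        apply Finset.sum_le_sum
        intro i _
        refine (abs_sub _ _).trans (add_le_add (h i) ?_)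
        exact abs_integral_le_integral_abs
    _ = M * (∑ i ∈ T, r i ^ n) + ∑ i ∈ T, ∫ x in tile c τ i, |Φ x| := by
        rw [Finset.sum_add_distrib, Finset.mul_sum]
    _ ≤ _ := add_le_add (mul_le_mul_of_nonneg_left hV hM) le_rfl

theorem sp_f1 {a5 b κ : ℝ} (ha : 0 ≤ a5) (hb : 0 ≤ b) (hκ : 0 ≤ κ) :
    a5 * b + κ ≤ (a5 + 1) * (b + κ) := by
  have := mul_nonneg ha hκ
  linarith

theorem sp_f2 {a20 C₂ C₃ h100 a5 u : ℝ} (hC₂ : 0 ≤ C₂)
    (hC₃ : 0 ≤ C₃) (h100' : 0 ≤ h100) (ha5 : 0 ≤ a5) (hu : 0 ≤ u) :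
    a20 * (a5 * u) ≤ ((a20 + C₂) * a5 + C₃ + h100) * u := by
  have h1 : 0 ≤ C₂ * a5 * u := by positivity
  have h2 : 0 ≤ (C₃ + h100) * u := by positivity
  linarith

theorem sp_f3 {a20 C₂ C₃ h100 a5 err ω V : ℝ} (ha20 : 0 ≤ a20) (hC₂ : 0 ≤ C₂) (hC₃ : 0 ≤ C₃)
    (h100' : 0 ≤ h100) (ha5 : 0 ≤ a5) (herr : 0 ≤ err) (hω : 0 ≤ ω) (hV : 0 ≤ V) :
    (C₃ * err + h100 * ω) * V ≤ ((a20 + C₂) * a5 + C₃ + h100) * (err + ω) * V := by
  apply mul_le_mul_of_nonneg_right _ hV
  have w1 : 0 ≤ (a20 + C₂) * a5 * (err + ω) := by positivity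
  have w2 : 0 ≤ C₃ * ω := by positivity
  have w3 : 0 ≤ h100 * err := by positivity
  linarith

theorem sp_f4 {a20 C₂ C₃ h100 a5 tp u : ℝ} (ha20 : 0 ≤ a20) (hC₃ : 0 ≤ C₃)
    (h100' : 0 ≤ h100) (ha5 : 0 ≤ a5) (htp : 0 ≤ tp) (hu : 0 ≤ u) :
    C₂ * tp * (a5 * u) ≤ ((a20 + C₂) * a5 + C₃ + h100) * (tp * u) := by
  have w1 : 0 ≤ (a20 * a5 + C₃ + h100) * (tp * u) := by positivity
  linarith

theorem sp_dvX {X : (Fin n → ℝ) → (Fin n → ℝ)} {X₁ : ℝ}
    (hX1b : ∀ y i, ∑ l, |pd l (fun y => X y i) y| ≤ X₁) (y : Fin n → ℝ) : |dv X y| ≤ n * X₁ :=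
  st_dvX hX1b y

/-- scales are small -/
theorem sp_ten {t d r σ a : ℝ} (hn0 : n ≠ 0) (ht0 : 0 < t) (hd : 0 < d) (hr : 0 < r)
    (hσd : σ ≤ 10 * d) (h : r = σ / 100 ∨ t * (50 * r) ^ n ≤ a) (ha : a ≤ t * (5 * d) ^ n) :
    10 * r ≤ d := by
  rcases h with h | h
  · rw [h]; linarith
  · have h1 : (50 * r) ^ n ≤ (5 * d) ^ n := le_of_mul_le_mul_left (h.trans ha) ht0
    have h2 : 50 * r ≤ 5 * d := (pow_le_pow_iff_left₀ (by positivity) (by positivity) hn0).1 h1
    linarith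

theorem sp_good {E : Set (Fin n → ℝ)} {H Φ : (Fin n → ℝ) → ℝ} {P v a b : ℝ}
    (h1 : |(∫ x in E, H x) - P * v| ≤ a) (h2 : |(∫ x in E, Φ x) - P * v| ≤ b) :
    |(∫ x in E, H x) - ∫ x in E, Φ x| ≤ a + b := by
  calc |(∫ x in E, H x) - ∫ x in E, Φ x|
      = |((∫ x in E, H x) - P * v) - ((∫ x in E, Φ x) - P * v)| := by
        congr 1; ring
    _ ≤ _ := abs_sub _ _
    _ ≤ _ := add_le_add h1 h2

/-- The main estimate for a smooth map close to `f`. -/
theorem exists_step (hn : 2 ≤ n) (Z₀ Z₁ X₀ X₁ X₂ : ℝ) (hZ₀ : 0 ≤ Z₀) (hZ₁ : 0 ≤ Z₁)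
    (hX₀ : 0 ≤ X₀) (hX₁ : 0 ≤ X₁) (hX₂ : 0 ≤ X₂) : ∃ C : ℝ, 0 < C ∧
    ∀ {ζ : (Fin n → ℝ) → ℝ} (_ : ContDiff ℝ (⊤ : ℕ∞) ζ) (_ : HasCompactSupport ζ)
      (_ : ∀ x, |ζ x| ≤ Z₀) (_ : ∀ x, ∑ l, |pd l ζ x| ≤ Z₁)
      {X : (Fin n → ℝ) → (Fin n → ℝ)} (_ : ContDiff ℝ (⊤ : ℕ∞) X) (_ : ∀ y i, |X y i| ≤ X₀)
      (_ : ∀ y i, ∑ l, |pd l (fun y => X y i) y| ≤ X₁)
      (_ : ∀ y z, |dv X y - dv X z| ≤ X₂ * ‖y - z‖)
      {f : (Fin n → ℝ) → (Fin n → ℝ)} {Df : (Fin n → ℝ) → Matrix (Fin n) (Fin n) ℝ}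
      (_ : Integrable f) (_ : ∀ i j, Integrable fun x => (Df x).adjugate i j)
      {Φ : (Fin n → ℝ) → ℝ} (_ : Integrable Φ)
      (_ : ∀ x, Φ x = ζ x * (dv X (f x) * (Df x).det))
      {K₀ : Set (Fin n → ℝ)} (_ : IsCompact K₀) {d : ℝ} (_ : 0 < d)
      (_ : cthickening d (tsupport ζ) ⊆ K₀)
      (_ : Measurable fun x => msum (Df x).adjugate)
      {t Λ β R σ ω ε : ℝ} (_ : 1 ≤ t)
      (_ : ∫ x in K₀, msum (Df x).adjugate ≤ t * (5 * d) ^ n)
      (_ : 0 < σ) (_ : σ ≤ 10 * d) (_ : 0 < β) (_ : 1 ≤ R) (_ : 8 * Λ ≤ R) (_ : 0 ≤ ω)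
      {G : Set (Fin n → ℝ)} (_ : ∀ x ∈ G, GoodPt f Df Φ Λ ω σ x)
      {g : (Fin n → ℝ) → (Fin n → ℝ)} (_ : ContDiff ℝ (⊤ : ℕ∞) g)
      (_ : ∫ x in K₀, ‖g x - f x‖ ≤ ε)
      (_ : ∫ x in K₀, msum ((jac g x).adjugate - (Df x).adjugate) ≤ ε)
      (_ : ε ≤ (σ / 100) ^ n) (_ : ε * (1 + Λ / σ) + ω * (1 + Λ) * σ ^ n ≤ β * (σ / 100) ^ n),
      ∃ S' : Set (Fin n → ℝ), MeasurableSet S' ∧ S' ⊆ K₀ ∧
        volume.real S' ≤ C * (1 / t * (∫ x in K₀ ∩ {x | t / 2 ^ (n + 1) < msum (Df x).adjugate},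
          msum (Df x).adjugate) + volume.real (K₀ \ G)) ∧
        |(∫ x, ζ x * (dv X (g x) * (jac g x).det)) - ∫ x, Φ x| ≤
          C * (t ^ ((n : ℝ) / (n - 1)) *
            (1 / t * (∫ x in K₀ ∩ {x | t / 2 ^ (n + 1) < msum (Df x).adjugate},
              msum (Df x).adjugate) + volume.real (K₀ \ G))) +
          C * (R * σ * t + R * β + (β + t ^ ((n : ℝ) / (n - 1)) / R) ^ ((n : ℝ) / (n - 1)) +
          Λ ^ 2 * σ + ω) * volume.real K₀ + ∫ x in S', |Φ x| := by
  obtain ⟨C₁, hC₁, hradii⟩ := exists_radii (n := n) (by omega)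
  obtain ⟨A, hA⟩ : ∃ A : ℝ, A = 200 ^ n + 1 + 64 ^ n * 2 ^ n := ⟨_, rfl⟩
  have hA0 : 0 < A := by rw [hA]; positivity
  obtain ⟨C₂, hC₂, hcrude⟩ := exists_crude hn Z₀ Z₁ X₀ (n * X₁) hZ₀ hZ₁ hX₀ (by positivity)
    ((C₁ + 1) * A)
  obtain ⟨C₃, hC₃, hsmall⟩ := exists_small hn Z₀ Z₁ X₀ X₁ X₂ hZ₀ hZ₁ hX₀ hX₁ hX₂ ((C₁ + 1) * A)
  obtain ⟨p, hp⟩ : ∃ p : ℝ, p = (n : ℝ) / (n - 1) := ⟨_, rfl⟩
  rw [← hp] at hcrude hsmall ⊢
  obtain ⟨a20, ha20⟩ : ∃ a : ℝ, a = 20 ^ n := ⟨_, rfl⟩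
  obtain ⟨a5, ha5⟩ : ∃ a : ℝ, a = 2 * 5 ^ n := ⟨_, rfl⟩
  obtain ⟨a100, ha100⟩ : ∃ a : ℝ, a = 100 ^ n := ⟨_, rfl⟩
  have h20 : 0 ≤ a20 := by rw [ha20]; positivity
  have h5 : 0 ≤ a5 := by rw [ha5]; positivity
  have h100 : 0 ≤ a100 := by rw [ha100]; positivity
  refine ⟨(a20 + C₂) * (a5 + 1) + C₃ + a100, by positivity, ?_⟩
  intro ζ hζ hζs hZ0b hZ1b X hX hX0b hX1b hX2b f Df hf hadjm Φ hΦ hΦd K₀ hK₀ d hd hdK hmeas
    t Λ β R σ ω ε ht htd hσ hσd hβ hR hRΛ hω G hG g hg hgf hgA hε1 hε2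
  have hK₀m : MeasurableSet K₀ := hK₀.measurableSet
  have hK₀f : volume K₀ ≠ ⊤ := hK₀.measure_lt_top.ne
  have ht0 : 0 < t := zero_lt_one.trans_le ht
  have hn0 : n ≠ 0 := by omega
  have hmi := sp_msum_integrable hadjm
  have ha0 : ∀ x, 0 ≤ K₀.indicator (fun x => msum (Df x).adjugate) x :=
    fun x => indicator_nonneg (fun _ _ => msum_nonneg _) x
  have hSb : Bornology.IsBounded (tsupport ζ) := hζs.isCompact.isBounded
  obtain ⟨m, c, r, hcS, hrσ, hralt, hdisj, hcov, hcmp, hint, hbad⟩ :=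
    exists_cover hn0 ha0 (hmeas.indicator hK₀m) (hmi.indicator hK₀m) hSb ht0 hσ
  have hr0 : ∀ i, 0 < r i := fun i => lt_of_lt_of_le (div_pos hσ (by norm_num)) (hrσ i)
  rw [integral_indicator hK₀m] at hralt
  have h10 : ∀ i, 10 * r i ≤ d := fun i => sp_ten hn0 ht0 hd (hr0 i) hσd (hralt i) htd
  have hbK : ∀ i, closedBall (c i) (10 * r i) ⊆ K₀ := fun i =>
    ((closedBall_subset_closedBall (h10 i)).trans
      (closedBall_subset_cthickening (hcS i) d)).trans hdK
  rw [sp_level hK₀m hmeas (div_pos ht0 (by positivity : (0 : ℝ) < 2 ^ (n + 1)))] at hbad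
  obtain ⟨b, hb⟩ : ∃ b : ℝ,
    b = 1 / t * (∫ x in K₀ ∩ {x | t / 2 ^ (n + 1) < msum (Df x).adjugate},
      msum (Df x).adjugate) := ⟨_, rfl⟩
  have hb0 : 0 ≤ b := by
    rw [hb]
    exact mul_nonneg (one_div_nonneg.2 ht0.le) (integral_nonneg fun _ => msum_nonneg _)
  have hbadsum : ∑ i with r i ≠ σ / 100, r i ^ n ≤ a5 * b := by
    refine hbad.trans (le_of_eq ?_)
    rw [hb, ha5]; ring
  rw [← hb]
  clear hbad
  classical
  obtain ⟨IK, hIK⟩ : ∃ IK : Finset (Fin m), IK = Finset.univ.filter fun i =>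
    r i = σ / 100 ∧ (closedBall (c i) (r i) ∩ G).Nonempty := ⟨_, rfl⟩
  have hxex : ∀ i : Fin m, ∃ x : Fin n → ℝ, i ∈ IK → x ∈ closedBall (c i) (r i) ∩ G := by
    intro i
    by_cases hi' : i ∈ IK
    · rw [hIK] at hi'
      obtain ⟨x, hx⟩ := (Finset.mem_filter.1 hi').2.2
      exact ⟨x, fun _ => hx⟩
    · exact ⟨0, fun h => absurd h hi'⟩
  choose xs hxs using hxex
  have hrIK : ∀ i ∈ IK, r i = σ / 100 := fun i hi' => by
    rw [hIK] at hi'
    exact (Finset.mem_filter.1 hi').2.1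
  have hcompl := sp_compl hr0 hdisj hK₀f (fun i =>
    (closedBall_subset_closedBall (by linarith [hr0 i])).trans (hbK i)) (G := G) (IKᶜ) (by
      intro i hi hs x hx hxG
      rw [hIK, Finset.mem_compl, Finset.mem_filter] at hi
      exact hi ⟨Finset.mem_univ i, hs, ⟨x, hx, hxG⟩⟩) hbadsum
  clear hIK hbadsum
  have hb2 : ∀ i ∈ IK, closedBall (c i) (10 * r i) ⊆ closedBall (xs i) σ := by
    intro i hi' x hx
    have h1 := (hxs i hi').1
    have h2 := hrIK i hi'
    rw [mem_closedBall] at hx h1 ⊢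
    have := dist_triangle x (c i) (xs i)
    rw [dist_comm (c i) (xs i)] at this
    linarith
  have hdvint : ∀ i ∈ IK, ∫ x in closedBall (c i) (10 * r i),
      devi g (Df (xs i)) (f (xs i)) (xs i) σ x ≤ β * r i ^ n := by
    intro i hi'
    have := integral_devi_le hf hadjm hg hK₀ hgf hgA hσ (hG _ (hxs i hi').2)
      (isCompact_closedBall (c i) (10 * r i)) (hbK i) (hb2 i hi')
    rw [hrIK i hi'] at this ⊢
    exact this.trans hε2
  obtain ⟨α, hα0, hαi, hαint, hadj, hαdv⟩ := sp_weight hr0 hdisj hcmp (IK := IK)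
    (v := fun i => devi g (Df (xs i)) (f (xs i)) (xs i) σ)
    (fun i => devi_continuous hg _ _ _ _) (fun i x => devi_nonneg _ _ _ _ hσ x) hβ hdvint hK₀ hbK
    (w := fun x => msum (jac g x).adjugate) (sp_mc hg) (fun x => msum_nonneg _) ht0
    (B := 200 ^ n + 1) (fun j => sp_b1 hg hadjm hK₀ ht (hr0 j) (hbK j) (by
      refine le_trans (le_of_eq ?_) (hint j)
      apply setIntegral_congr_fun measurableSet_closedBall
      intro x hx
      exact (indicator_of_mem (hbK j hx) (fun x => msum (Df x).adjugate)).symm) hgA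
      (hε1.trans (pow_le_pow_left₀ (div_nonneg hσ.le (by norm_num)) (hrσ j) n)))
  rw [← hA] at hαint
  obtain ⟨τ, hτ, hcut⟩ := hradii hr0 hdisj hcmp hα0 hαi hA0 hαint
  have hTD := sp_td hg hα0 hαi hr0 hA0 hC₁ hαint hτ hcut
  clear hcut hαint hradii
  have hτK : ∀ i, closedBall (c i) (τ i) ⊆ K₀ := fun i =>
    (closedBall_subset_closedBall (hτ i).2.le).trans (hbK i)
  have hadj' : ∀ i, ∀ x ∈ closedBall (c i) (τ i), msum (jac g x).adjugate ≤ t * α x :=
    fun i x hx => hadj x (hτK i hx)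
  -- the sum over the tiles
  have hXc : ContDiff ℝ 1 X := hX.of_le (by simp)
  obtain ⟨H, hH⟩ : ∃ H : (Fin n → ℝ) → ℝ, H = fun x => ζ x * (dv X (g x) * (jac g x).det) :=
    ⟨_, rfl⟩
  have hHc : Continuous H := by
    rw [hH]
    exact hζ.continuous.mul (((dv_continuous hXc).comp hg.continuous).mul
      (jac_continuous (hg.of_le (by simp))).matrix_det)
  have hH0 : ∀ x, x ∉ tsupport ζ → H x = 0 := by
    intro x hx
    rw [hH]
    exact mul_eq_zero_of_left (image_eq_zero_of_notMem_tsupport hx) _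
  have hHi : Integrable H := hHc.integrable_of_hasCompactSupport
    (HasCompactSupport.intro hζs.isCompact hH0)
  have hcovt : tsupport ζ ⊆ ⋃ i, tile c τ i := by
    rw [iUnion_tile]
    refine hcov.trans (iUnion_mono fun i => ?_)
    exact closedBall_subset_ball (hτ i).1
  have hΦ0 : ∀ x, x ∉ tsupport ζ → Φ x = 0 := by
    intro x hx
    rw [hΦd, image_eq_zero_of_notMem_tsupport hx, zero_mul]
  -- bad tiles
  have hbadt : ∀ i, |∫ x in tile c τ i, H x| ≤ C₂ * t ^ p * r i ^ n := fun i => by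
    rw [hH]
    exact hcrude (hTD i) ht (hadj' i) hζ hZ0b hZ1b hX hX0b (sp_dvX hX1b)
  obtain ⟨err, herr⟩ : ∃ err : ℝ, err = R * σ * t + R * β + (β + t ^ p / R) ^ p + Λ ^ 2 * σ :=
    ⟨_, rfl⟩
  have hp0 : 0 ≤ t ^ p := Real.rpow_nonneg ht0.le p
  have hR0 : 0 ≤ R := zero_le_one.trans hR
  have herr0 : 0 ≤ err := by
    rw [herr]
    positivity
  rw [← herr]
  have hgoodt : ∀ i ∈ IK, |(∫ x in tile c τ i, H x) - ∫ x in tile c τ i, Φ x| ≤
      (C₃ * err + a100 * ω) * r i ^ n := by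
    intro i hi'
    have hσi : σ = 100 * r i := by rw [hrIK i hi']; ring
    have hxi := hxs i hi'
    have hgd := hG _ hxi.2
    have hxi1 := hxi.1
    rw [mem_closedBall, dist_eq_norm] at hxi1
    have h1 := hsmall (hTD i) ht (hadj' i) hζ hZ0b hZ1b hX hX0b hX1b hX2b (B := Df (xs i))
      (fs := f (xs i)) (xs := xs i) hσi hxi1 hgd.h1 hgd.h3 hβ.le hR hRΛ
      (fun x hx => hαdv i hi' x (closedBall_subset_closedBall (hτ i).2.le hx))
    rw [← hΦd, ← herr, ← hH] at h1
    have h2 := sp_phi hΦ ((tile_subset c τ i).trans ball_subset_closedBall)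
      (((tile_subset c τ i).trans ball_subset_closedBall).trans
        ((closedBall_subset_closedBall (hτ i).2.le).trans (hb2 i hi'))) hσi hgd.h6
    rw [add_mul, ha100]
    exact sp_good h1 h2
  have hIKsum : ∑ i ∈ IK, r i ^ n ≤ volume.real K₀ := sp_vols hr0 hdisj _ hK₀f fun i _ =>
    (closedBall_subset_closedBall (by linarith [hr0 i])).trans (hbK i)
  have hκ0 : 0 ≤ volume.real (K₀ \ G) := measureReal_nonneg
  have hbound := hcompl.trans (sp_f1 h5 hb0 hκ0)
  have hbκ : 0 ≤ b + volume.real (K₀ \ G) := add_nonneg hb0 hκ0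
  have h51 : 0 ≤ a5 + 1 := by linarith
  refine ⟨⋃ i ∈ IKᶜ, tile c τ i, ?_, ?_, ?_, ?_⟩
  · exact Finset.measurableSet_biUnion _ fun i _ => measurableSet_tile c τ i
  · exact iUnion₂_subset fun i _ =>
      ((tile_subset c τ i).trans ball_subset_closedBall).trans (hτK i)
  · refine (sp_volT hr0 (fun i => (hτ i).2.le) _).trans ?_
    rw [← ha20]
    exact (mul_le_mul_of_nonneg_left hbound h20).trans (sp_f2 hC₂.le hC₃.le h100 h51 hbκ)
  · have e1 : ∫ x, ζ x * (dv X (g x) * (jac g x).det) = ∫ x, H x := by rw [hH]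
    rw [e1, sp_split hcovt hHi hH0, sp_split hcovt hΦ hΦ0, ← Finset.sum_sub_distrib,
      ← Finset.sum_add_sum_compl IK]
    have s1 := sp_s1 (M := C₃ * err + a100 * ω) (by positivity) hgoodt hIKsum
    have s2 := sp_s2 (T := IKᶜ) hΦ (mul_nonneg hC₂.le hp0) hbadt hbound
    have u1 := sp_f3 (V := volume.real K₀) h20 hC₂.le hC₃.le h100 h51 herr0 hω measureReal_nonneg
    have u2 := sp_f4 (C₂ := C₂) h20 hC₃.le h100 h51 hp0 hbκ
    refine (abs_add_le _ _).trans ((add_le_add s1 s2).trans ?_)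
    linarith

end Pool.Agent.MP8995
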