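import Mathlib
import Pool.Agent.Lib.MP_8995c5_an.IBPAux
import Pool.Agent.Lib.MP_8995c5_an.Step
import Pool.Agent.Lib.MP_8995c5_an.GoodScale

set_option autoImplicit false

open MeasureTheory Metric Set Filter Topology
open scoped ENNReal

namespace Pool.Agent.MP8995

variable {n : ℕ}

theorem ibp_mul_le_of_le_div {C x V η : ℝ} (hC : 0 < C) (hV : 0 ≤ V) (hη : 0 < η)
    (hx : x ≤ η / (C * (V + 1))) : C * x * V ≤ η := by
  rw [le_div_iff₀ (mul_pos hC (add_pos_of_nonneg_of_pos hV one_pos))] at hx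
  rcases le_total 0 x with h0 | h0
  · have h1 : 0 ≤ C * x := mul_nonneg hC.le h0
    have e : x * (C * (V + 1)) = C * x * V + C * x := by ring
    rw [e] at hx
    linarith only [hx, h1]
  · exact (mul_nonpos_of_nonpos_of_nonneg (mul_nonpos_of_nonneg_of_nonpos hC.le h0) hV).trans hη.le

theorem ibp_part1_arith {A C b κv V err ω η T IS : ℝ} (hC : 0 < C) (hV : 0 ≤ V) (hη : 0 < η)
    (hT : 0 < T) (h1 : C * (T * b) ≤ η) (h2 : κv ≤ η / (C * T))
    (h3 : err ≤ η / (C * (V + 1))) (h4 : ω ≤ η / (C * (V + 1))) (h5 : IS ≤ η)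
    (hA : A ≤ C * (T * (b + κv)) + C * (err + ω) * V + IS) : A ≤ 5 * η := by
  have g3 := ibp_mul_le_of_le_div hC hV hη h3
  have g4 := ibp_mul_le_of_le_div hC hV hη h4
  rw [le_div_iff₀ (mul_pos hC hT)] at h2
  have e1 : C * (T * (b + κv)) = C * (T * b) + κv * (C * T) := by ring
  have e2 : C * (err + ω) * V = C * err * V + C * ω * V := by ring
  rw [e1, e2] at hA
  linarith only [hA, g3, g4, h1, h2, h5]

theorem ibp_vol_arith {v C b κv δ : ℝ} (hC : 0 < C) (h1 : C * b ≤ δ / 2) (h2 : κv ≤ δ / (2 * C))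
    (hv : v ≤ C * (b + κv)) : v ≤ δ := by
  rw [le_div_iff₀ (mul_pos two_pos hC)] at h2
  have e1 : C * (b + κv) = C * b + κv * (2 * C) / 2 := by ring
  rw [e1] at hv
  linarith only [hv, h1, h2]

theorem ibp_final_arith {a b c w η q : ℝ} (hid : a = -c) (h1 : |a - b| ≤ 5 * η)
    (h2 : |c - w| ≤ (2 + q) * η) : |b + w| ≤ (7 + q) * η := by
  have e : b + w = -(a - b) - (c - w) := by rw [hid]; ring
  rw [e]
  refine (abs_sub _ _).trans ?_
  rw [abs_neg]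
  linarith only [h1, h2]

theorem ibp (hn : 2 ≤ n) {U : Set (Fin n → ℝ)}
    {f : (Fin n → ℝ) → (Fin n → ℝ)} {Df : (Fin n → ℝ) → Matrix (Fin n) (Fin n) ℝ}
    (h : Sob n U f Df) (hp : ∀ i j, Integrable fun x => |Df x i j| ^ (n - 1))
    (hdet : Integrable fun x => (Df x).det)
    (hlog : ∀ δ > 0, ∀ t₀ : ℝ, ∃ t : ℝ, t₀ ≤ t ∧ 1 ≤ t ∧
      t ^ ((1 : ℝ) / (n - 1)) *
        ∫ x in {x | t < msum (Df x).adjugate}, msum (Df x).adjugate ≤ δ) :
    IBP n U f Df := by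
  intro ζ hζ hζs hζU X hX hXs
  have hn1 : (1 : ℝ) ≤ n - 1 := by
    have : (2 : ℝ) ≤ n := by exact_mod_cast hn
    linarith only [this]
  have hζc : ContDiff ℝ 1 ζ := hζ.of_le (by simp)
  have hXi : ∀ i, ContDiff ℝ 1 fun y => X y i := contDiff_pi.1 (hX.of_le (by simp))
  have hXsi : ∀ i, HasCompactSupport fun y => X y i := fun i =>
    hXs.comp_left (g := fun v : Fin n → ℝ => v i) rfl
  -- bounds
  obtain ⟨Z₀, hZ₀, hZ0b⟩ := bounded_of_cs hζc.continuous hζs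
  obtain ⟨Z₁, hZ₁, hZ1b⟩ := sum_pd_bounded hζc hζs
  obtain ⟨X₀, hX₀, hX0b⟩ := ibp_fam_bound hXi hXsi
  obtain ⟨X₁, hX₁, hX1b⟩ := ibp_fam_bound' hXi hXsi
  have hdvXc : ContDiff ℝ (⊤ : ℕ∞) (dv X) := ibp_dv_smooth hX
  have hdvXs : HasCompactSupport (dv X) := ibp_dv_hasCompactSupport hXs
  obtain ⟨X₂, hX₂, hX2b'⟩ := sum_pd_bounded (hdvXc.of_le (by simp)) hdvXs
  have hX2b : ∀ y z, |dv X y - dv X z| ≤ X₂ * ‖y - z‖ := lip_of_pd (hdvXc.of_le (by simp)) hX2b'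
  obtain ⟨Xd, -, hXdb⟩ := bounded_of_cs hdvXc.continuous hdvXs
  -- measurability and integrability
  have hfm : Measurable f := measurable_pi_iff.2 h.meas_f
  have hfi : Integrable f := ibp_integrable_of_coord hfm h.int_f
  have hmsi : Integrable fun x => msum (Df x).adjugate := integrable_adj (f := f) h.meas_Df hp
  have hadjmeas : ∀ i j, Measurable fun x => (Df x).adjugate i j := fun i j =>
    measurable_adj_apply h.meas_Df i j
  have hmsm : Measurable fun x => msum (Df x).adjugate := ibp_measurable_msum_adj hadjmeas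
  have hadjm : ∀ i j, Integrable fun x => (Df x).adjugate i j := fun i j =>
    hmsi.mono' (hadjmeas i j).aestronglyMeasurable
      (Eventually.of_forall fun x => ibp_abs_entry_le_msum _ i j)
  have hΦm : Measurable fun x => ζ x * (dv X (f x) * (Df x).det) :=
    hζc.continuous.measurable.mul ((hdvXc.continuous.measurable.comp hfm).mul
      (measurable_det_aux h.meas_Df))
  have hΦi : Integrable fun x => ζ x * (dv X (f x) * (Df x).det) :=
    ibp_integrable_Phi hZ₀ hZ0b (fun x => hXdb (f x)) hΦm.aestronglyMeasurable hdet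
  obtain ⟨Φ, hΦe⟩ : ∃ Φ : (Fin n → ℝ) → ℝ, Φ = fun x => ζ x * (dv X (f x) * (Df x).det) :=
    ⟨_, rfl⟩
  rw [← hΦe] at hΦm hΦi
  have hΦx : ∀ x, Φ x = ζ x * (dv X (f x) * (Df x).det) := fun x => congrFun hΦe x
  -- the compact neighbourhood
  obtain ⟨d, hd, hdU⟩ := hζs.isCompact.exists_cthickening_subset_open h.isOpen hζU
  obtain ⟨K₀, hK₀d⟩ : ∃ K₀ : Set (Fin n → ℝ), K₀ = cthickening d (tsupport ζ) := ⟨_, rfl⟩
  have hK₀ : IsCompact K₀ := by rw [hK₀d]; exact hζs.isCompact.cthickening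
  have hζK : tsupport ζ ⊆ K₀ := by rw [hK₀d]; exact self_subset_cthickening _
  have hdK : cthickening d (tsupport ζ) ⊆ K₀ := hK₀d.ge
  rw [← hK₀d] at hdU
  obtain ⟨C, hC, hstep⟩ := exists_step hn Z₀ Z₁ X₀ X₁ X₂ hZ₀ hZ₁ hX₀ hX₁ hX₂
  have hp0 : 0 < (n : ℝ) / (n - 1) :=
    div_pos (by linarith only [hn1]) (zero_lt_one.trans_le hn1)
  obtain ⟨V, hV⟩ : ∃ V : ℝ, V = volume.real K₀ := ⟨_, rfl⟩
  have hV0 : 0 ≤ V := by rw [hV]; exact measureReal_nonneg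
  have hVC : 0 < C * (V + 1) := mul_pos hC (add_pos_of_nonneg_of_pos hV0 one_pos)
  have hI0 : ∀ A : Set (Fin n → ℝ), 0 ≤ ∫ x in A, msum (Df x).adjugate := fun A =>
    integral_nonneg fun _ => msum_nonneg _
  -- it suffices to prove the following
  suffices hmain : ∀ η > 0, |(∫ x, Φ x) + ∫ x, ∑ j, pd j ζ x *
      ((Df x).adjugate.mulVec (X (f x))) j| ≤ (7 + 2 * X₀ * Z₁) * η by
    have h0 := ibp_zero (add_pos_of_pos_of_nonneg (by norm_num)
      (mul_nonneg (mul_nonneg zero_le_two hX₀) hZ₁)) hmain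
    have e : (fun x => ζ x * dv X (f x) * (Df x).det) = Φ := by
      rw [hΦe]; exact funext fun x => mul_assoc _ _ _
    rw [e]
    exact eq_neg_of_add_eq_zero_left h0
  intro η hη
  -- absolute continuity
  obtain ⟨δ, hδ, hac⟩ := exists_abs_cont hΦi hK₀ hη
  -- the level t
  obtain ⟨t, ht1, htd, hb0, hCtpb, hCb⟩ := ibp_exists_level (n := n) hn1
    (I := fun s => ∫ x in {x | s < msum (Df x).adjugate}, msum (Df x).adjugate)
    (J := fun s => ∫ x in K₀ ∩ {x | s < msum (Df x).adjugate}, msum (Df x).adjugate)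
    (fun s => hI0 _)
    (fun s => setIntegral_mono_set hmsi.integrableOn (Eventually.of_forall fun _ => msum_nonneg _)
        inter_subset_right.eventuallyLE)
    hlog (∫ x in K₀, msum (Df x).adjugate) hC hη hδ hd
  have ht0 : 0 < t := zero_lt_one.trans_le ht1
  have htp : 0 < t ^ ((n : ℝ) / (n - 1)) := Real.rpow_pos_of_pos ht0 _
  -- the exceptional measure κ
  obtain ⟨κ, hκ0, hκ1, hκ2⟩ : ∃ κ : ℝ, 0 < κ ∧ κ ≤ δ / (2 * C) ∧
      κ ≤ η / (C * t ^ ((n : ℝ) / (n - 1))) :=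
    ⟨min (δ / (2 * C)) (η / (C * t ^ ((n : ℝ) / (n - 1)))),
      lt_min (div_pos hδ (mul_pos two_pos hC)) (div_pos hη (mul_pos hC htp)),
      min_le_left _ _, min_le_right _ _⟩
  obtain ⟨Λ, hΛ, hgs⟩ := exists_good_scale h hadjm hdet hΦi hΦm hK₀ hdU hκ0
  -- parameters
  obtain ⟨R, β, σ₀, hR1, hRΛ, hβ, hσ₀, hpar⟩ := exists_params hp0 ht0 hΛ (div_pos hη hVC)
  have hω1' : 0 < 2 * (1 + Λ) * 100 ^ n :=
    mul_pos (mul_pos two_pos (add_pos_of_pos_of_nonneg one_pos hΛ)) (pow_pos (by norm_num) n)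
  obtain ⟨ω, hω0, hω1, hω2⟩ : ∃ ω : ℝ, 0 < ω ∧ ω ≤ η / (C * (V + 1)) ∧
      ω ≤ β / (2 * (1 + Λ) * 100 ^ n) :=
    ⟨min (η / (C * (V + 1))) (β / (2 * (1 + Λ) * 100 ^ n)),
      lt_min (div_pos hη hVC) (div_pos hβ hω1'), min_le_left _ _, min_le_right _ _⟩
  obtain ⟨σ, hσ, hσ1, hσG⟩ := hgs ω hω0 (min σ₀ (10 * d))
    (lt_min hσ₀ (mul_pos (by norm_num) hd))
  -- the level Λ₁
  obtain ⟨Λ₁, -, hΛ₁, hΛ₁η⟩ := hlog η hη 1
  have hΛ₁' : ∫ x in {x | Λ₁ < msum (Df x).adjugate}, msum (Df x).adjugate ≤ η :=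
    (le_mul_of_one_le_left (hI0 _) (Real.one_le_rpow hΛ₁
      (one_div_pos.2 (zero_lt_one.trans_le hn1)).le)).trans hΛ₁η
  have hΛ₁0 : 0 ≤ Λ₁ := zero_le_one.trans hΛ₁
  -- the precision ε
  obtain ⟨ε, hε0, hε1, hε2, hε3, hε4⟩ := ibp_exists_eps (n := n) hσ hβ hΛ hω2 hη hZ₁ hX₀ hX₁ hΛ₁0
  obtain ⟨g, hg, hgf, -, hgA⟩ := exists_smooth_approx hn h hp hK₀ hdU hε0
  obtain ⟨S', hS'm, hS'K, hS'v, hS'⟩ := hstep hζ hζs hZ0b hZ1b hX hX0b hX1b hX2b hfi hadjm hΦi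
    hΦx hK₀ hd hdK hmsm ht1 htd hσ (hσ1.trans (min_le_right _ _)) hβ hR1 hRΛ
    hω0.le (G := {x | GoodPt f Df Φ Λ ω σ x}) (fun x hx => hx) hg hgf hgA hε1 hε2
  have hSΦ : ∫ x in S', |Φ x| ≤ η :=
    hac S' hS'm hS'K (ibp_vol_arith hC hCb (hσG.trans hκ1) hS'v)
  rw [← hV] at hS'
  have part1 : |(∫ x, ζ x * (dv X (g x) * (jac g x).det)) - ∫ x, Φ x| ≤ 5 * η :=
    ibp_part1_arith hC hV0 hη htp hCtpb (hσG.trans hκ2)
      (hpar σ hσ (hσ1.trans (min_le_left _ _))) hω1 hSΦ hS'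
  -- the second part
  have hid : ∫ x, ζ x * (dv X (g x) * (jac g x).det) =
      - ∫ x, ∑ j, pd j ζ x * fld g X x j := by
    rw [← integral_mul_dv hζc hζs (fld_contDiff hg hX)]
    exact integral_congr_ae (Eventually.of_forall fun x => by
      show ζ x * (dv X (g x) * (jac g x).det) = ζ x * dv (fld g X) x
      rw [dv_fld hg hX])
  have part2 := ibp_part2 hK₀ hζc hζs hζK hX hX₀ hX₁ hZ₁ hZ1b hX0b hX1b hfm hfi hadjmeas hadjm
    hmsm hmsi hg hΛ₁0 hgf hgA hΛ₁' hε3 hε4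
  exact ibp_final_arith hid part1 part2

end Pool.Agent.MP8995
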