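import Mathlib
import Pool.Agent.Lib.MP_8995c5_an.Defs

set_option autoImplicit false

open MeasureTheory Metric Set Filter Topology
open scoped ENNReal NNReal

namespace Pool.Agent.MP8995

variable {m : ℕ}

theorem fderiv_apply_le {F : (Fin m → ℝ) → ℝ} (x z : Fin m → ℝ) (hz : ‖z‖ ≤ 1) :
    |fderiv ℝ F x z| ≤ ∑ j, |pd j F x| := by
  have h1 : z = ∑ j, z j • (Pi.single j (1 : ℝ) : Fin m → ℝ) := by
    ext i
    simp [Finset.sum_apply, Pi.single_apply]
  have h2 : fderiv ℝ F x z = ∑ j, z j * pd j F x := by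
    conv_lhs => rw [h1]
    rw [map_sum]
    refine Finset.sum_congr rfl fun j _ => ?_
    rw [map_smul, smul_eq_mul]
    rfl
  rw [h2]
  refine (Finset.abs_sum_le_sum_abs _ _).trans (Finset.sum_le_sum fun j _ => ?_)
  rw [abs_mul]
  have : |z j| ≤ 1 := by
    have := norm_le_pi_norm z j
    rw [Real.norm_eq_abs] at this
    linarith
  nlinarith [abs_nonneg (pd j F x), abs_nonneg (z j)]

/-- the pointwise inequality along a ray -/
theorem morrey_ray {C₀ : ℝ} {H B : (Fin m → ℝ) → ℝ} (hH : ContDiff ℝ 1 H) (hH0 : ∀ y, 0 ≤ H y)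
    (hB : Continuous B) (hB0 : ∀ y, 0 ≤ B y)
    (hHB : ∀ y j, |pd j H y| ^ (m + 1) ≤ C₀ * H y ^ m * B y) {κ : ℝ} (hκ : 0 < κ)
    (y z : Fin m → ℝ) (hz : ‖z‖ ≤ 1) :
    H y + κ ≤ 2 ^ m * (H (y + z) + κ + (m : ℝ) ^ (m + 1) * |C₀| *
      ∫ t in Icc (0 : ℝ) 1, t ^ ((m + 1) * m) * B (y + t ^ (m + 1) • z)) := by
  set n : ℕ := m + 1 with hn
  have hn0 : (n : ℝ) ≠ 0 := by rw [hn]; positivity
  have hpos : ∀ x, 0 < H x + κ := fun x => by linarith [hH0 x]
  set V : (Fin m → ℝ) → ℝ := fun x => (H x + κ) ^ ((n : ℝ)⁻¹) with hV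
  have hVn : ∀ x, V x ^ n = H x + κ := fun x =>
    Real.rpow_inv_natCast_pow (hpos x).le (by omega)
  have hV0 : ∀ x, 0 ≤ V x := fun x => Real.rpow_nonneg (hpos x).le _
  have hHd : Differentiable ℝ H := hH.differentiable (by simp)
  -- the path
  have hγ : ∀ t : ℝ, HasDerivAt (fun t : ℝ => y + t ^ n • z) (((n : ℝ) * t ^ m) • z) t := by
    intro t
    have := ((hasDerivAt_pow n t).smul_const z).const_add y
    simpa [hn] using this
  set G : ℝ → ℝ := fun t => (fderiv ℝ H (y + t ^ n • z) (((n : ℝ) * t ^ m) • z)) * ((n : ℝ)⁻¹) *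
    (H (y + t ^ n • z) + κ) ^ ((n : ℝ)⁻¹ - 1) with hG
  have hφ : ∀ t : ℝ, HasDerivAt (fun t : ℝ => V (y + t ^ n • z)) (G t) t := by
    intro t
    have h1 : HasDerivAt (fun t : ℝ => H (y + t ^ n • z) + κ)
        (fderiv ℝ H (y + t ^ n • z) (((n : ℝ) * t ^ m) • z)) t := by
      have := (hHd (y + t ^ n • z)).hasFDerivAt.comp_hasDerivAt t (hγ t)
      exact this.add_const κ
    exact h1.rpow_const (Or.inl (hpos _).ne')
  have hcont : Continuous G := by
    have hp : Continuous fun t : ℝ => y + t ^ n • z := by fun_prop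
    have h1 : Continuous fun t : ℝ => fderiv ℝ H (y + t ^ n • z) (((n : ℝ) * t ^ m) • z) := by
      have := (hH.continuous_fderiv (by simp)).comp hp
      exact this.clm_apply (by fun_prop)
    have h2 : Continuous fun t : ℝ => (H (y + t ^ n • z) + κ) ^ ((n : ℝ)⁻¹ - 1) := by
      refine Continuous.rpow_const ((hH.continuous.comp hp).add continuous_const) ?_
      intro t
      exact Or.inl (hpos _).ne'
    exact (h1.mul continuous_const).mul h2
  -- pointwise bound of `|G|^n`
  have hGn : ∀ t ∈ Icc (0 : ℝ) 1, |G t| ^ n ≤ (m : ℝ) ^ (m + 1) * |C₀| *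
      (t ^ (n * m) * B (y + t ^ n • z)) := by
    intro t ht
    set x := y + t ^ n • z with hx
    have e1 : G t = t ^ m * (fderiv ℝ H x z) * (H x + κ) ^ ((n : ℝ)⁻¹ - 1) := by
      simp only [hG]
      rw [← hx, map_smul, smul_eq_mul]
      field_simp
    have e2 : ((H x + κ) ^ ((n : ℝ)⁻¹ - 1)) ^ n = ((H x + κ) ^ m)⁻¹ := by
      rw [← Real.rpow_natCast, ← Real.rpow_mul (hpos x).le]
      have : ((n : ℝ)⁻¹ - 1) * (n : ℝ) = -(m : ℝ) := by
        rw [sub_mul, inv_mul_cancel₀ hn0, hn]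
        push_cast
        ring
      rw [this, Real.rpow_neg (hpos x).le, Real.rpow_natCast]
    have e3 : |fderiv ℝ H x z| ^ n ≤ (m : ℝ) ^ (m + 1) * (|C₀| * (H x + κ) ^ m * B x) := by
      have h1 : |fderiv ℝ H x z| ^ n ≤ (∑ j, |pd j H x|) ^ (m + 1) :=
        pow_le_pow_left₀ (abs_nonneg _) (fderiv_apply_le x z hz) _
      have h2 : (∑ j, |pd j H x|) ^ (m + 1) ≤ (m : ℝ) ^ m * ∑ j, |pd j H x| ^ (m + 1) := by
        rcases Nat.eq_zero_or_pos m with h0 | h0
        · subst h0
          simp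
        · have := pow_sum_div_card_le_sum_pow (s := Finset.univ) (f := fun j => |pd j H x|)
            (fun _ _ => abs_nonneg _) m
          rw [Finset.card_univ, Fintype.card_fin, div_le_iff₀ (by positivity)] at this
          linarith
      have h3 : ∑ j : Fin m, |pd j H x| ^ (m + 1) ≤ (m : ℝ) * (|C₀| * (H x + κ) ^ m * B x) := by
        calc ∑ j : Fin m, |pd j H x| ^ (m + 1) ≤ ∑ j : Fin m, (|C₀| * (H x + κ) ^ m * B x) := by
              refine Finset.sum_le_sum fun j _ => (hHB x j).trans ?_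
              have := hB0 x
              have := hH0 x
              have h5 : H x ^ m ≤ (H x + κ) ^ m := pow_le_pow_left₀ (hH0 x) (by linarith) _
              have h6 : C₀ ≤ |C₀| := le_abs_self _
              gcongr
          _ = (m : ℝ) * (|C₀| * (H x + κ) ^ m * B x) := by simp
      calc |fderiv ℝ H x z| ^ n ≤ (m : ℝ) ^ m * ∑ j, |pd j H x| ^ (m + 1) := h1.trans h2
        _ ≤ (m : ℝ) ^ m * ((m : ℝ) * (|C₀| * (H x + κ) ^ m * B x)) := by gcongr
        _ = (m : ℝ) ^ (m + 1) * (|C₀| * (H x + κ) ^ m * B x) := by ring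
    have ht0 := ht.1
    rw [e1, abs_mul, abs_mul, mul_pow, mul_pow, abs_of_nonneg (pow_nonneg ht0 m),
      abs_of_nonneg (Real.rpow_nonneg (hpos x).le _), e2, ← pow_mul, mul_comm m n]
    have hp := pow_pos (hpos x) m
    calc t ^ (n * m) * |fderiv ℝ H x z| ^ n * ((H x + κ) ^ m)⁻¹
        ≤ t ^ (n * m) * ((m : ℝ) ^ (m + 1) * (|C₀| * (H x + κ) ^ m * B x)) *
          ((H x + κ) ^ m)⁻¹ := by gcongr
      _ = (m : ℝ) ^ (m + 1) * |C₀| * (t ^ (n * m) * B x) * ((H x + κ) ^ m * ((H x + κ) ^ m)⁻¹) := by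
          ring
      _ = (m : ℝ) ^ (m + 1) * |C₀| * (t ^ (n * m) * B x) := by
          rw [mul_inv_cancel₀ hp.ne', mul_one]
  -- the fundamental theorem of calculus and Jensen
  have hftc : ∫ t in (0 : ℝ)..1, G t = V (y + z) - V y := by
    rw [intervalIntegral.integral_eq_sub_of_hasDerivAt (fun t _ => hφ t)
      (hcont.intervalIntegrable _ _)]
    simp [hn]
  have hftc' : ∫ t in Icc (0 : ℝ) 1, G t = V (y + z) - V y := by
    rw [← hftc, intervalIntegral.integral_of_le zero_le_one, integral_Icc_eq_integral_Ioc]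
  have : IsProbabilityMeasure (volume.restrict (Icc (0 : ℝ) 1)) := ⟨by simp⟩
  have hjen : |∫ t in Icc (0 : ℝ) 1, G t| ^ n ≤ ∫ t in Icc (0 : ℝ) 1, |G t| ^ n := by
    have h1 : |∫ t in Icc (0 : ℝ) 1, G t| ≤ ∫ t in Icc (0 : ℝ) 1, |G t| :=
      abs_integral_le_integral_abs
    refine (pow_le_pow_left₀ (abs_nonneg _) h1 n).trans ?_
    have := (convexOn_pow (𝕜 := ℝ) n).map_integral_le (μ := volume.restrict (Icc (0 : ℝ) 1))
      (f := fun t => |G t|) (continuous_pow n).continuousOn isClosed_Ici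
      (Eventually.of_forall fun t => mem_Ici.2 (abs_nonneg (G t)))
      (hcont.abs.integrableOn_Icc) ((hcont.abs.pow n).integrableOn_Icc)
    exact this
  have hint : ∫ t in Icc (0 : ℝ) 1, |G t| ^ n ≤ (m : ℝ) ^ (m + 1) * |C₀| *
      ∫ t in Icc (0 : ℝ) 1, t ^ (n * m) * B (y + t ^ n • z) := by
    rw [← integral_const_mul]
    refine setIntegral_mono_on ((hcont.abs.pow n).integrableOn_Icc) ?_ measurableSet_Icc hGn
    apply Continuous.integrableOn_Icc
    fun_prop
  have hVle : V y ≤ V (y + z) + |∫ t in Icc (0 : ℝ) 1, G t| := by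
    rw [hftc']
    have := neg_abs_le (V (y + z) - V y)
    linarith
  calc H y + κ = V y ^ n := (hVn y).symm
    _ ≤ (V (y + z) + |∫ t in Icc (0 : ℝ) 1, G t|) ^ n := pow_le_pow_left₀ (hV0 y) hVle n
    _ ≤ 2 ^ (n - 1) * (V (y + z) ^ n + |∫ t in Icc (0 : ℝ) 1, G t| ^ n) :=
        add_pow_le (hV0 _) (abs_nonneg _) n
    _ ≤ 2 ^ m * (H (y + z) + κ + (m : ℝ) ^ (m + 1) * |C₀| *
      ∫ t in Icc (0 : ℝ) 1, t ^ (n * m) * B (y + t ^ n • z)) := by
        rw [hVn, show n - 1 = m by omega]
        have := hjen.trans hint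
        gcongr

theorem morrey_slice (m : ℕ) (C₀ : ℝ) : ∃ C : ℝ, 0 < C ∧
    ∀ (H B : (Fin m → ℝ) → ℝ), ContDiff ℝ 1 H → (∀ y, 0 ≤ H y) → Continuous B → (∀ y, 0 ≤ B y) →
      Integrable H → Integrable B → (∀ y j, |pd j H y| ^ (m + 1) ≤ C₀ * H y ^ m * B y) →
      ∀ y, H y ≤ C * ((∫ z, H z) + ∫ z, B z) := by
  set K : ℝ := (m : ℝ) ^ (m + 1) * |C₀| with hK
  have hK0 : 0 ≤ K := by positivity
  refine ⟨1 + K, by positivity, ?_⟩
  intro H B hH hH0 hB hB0 hHi hBi hHB y
  have hIH : 0 ≤ ∫ z, H z := integral_nonneg hH0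
  have hIB : 0 ≤ ∫ z, B z := integral_nonneg hB0
  set D : Set (Fin m → ℝ) := closedBall 0 1 with hD
  have hDvol : (volume D).toReal = 2 ^ m := by
    rw [hD, Real.volume_pi_closedBall _ zero_le_one]
    simp
  have hDfin : volume D ≠ ⊤ := (isCompact_closedBall (0 : Fin m → ℝ) 1).measure_lt_top.ne
  -- the double integral
  have hcontF : Continuous fun p : (Fin m → ℝ) × ℝ =>
      p.2 ^ ((m + 1) * m) * B (y + p.2 ^ (m + 1) • p.1) := by fun_prop
  have hFint : Integrable (Function.uncurry fun (z : Fin m → ℝ) (t : ℝ) =>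
      t ^ ((m + 1) * m) * B (y + t ^ (m + 1) • z))
      ((volume.restrict D).prod (volume.restrict (Icc (0 : ℝ) 1))) := by
    rw [Measure.prod_restrict]
    apply ContinuousOn.integrableOn_compact
    · exact (isCompact_closedBall _ _).prod isCompact_Icc
    · exact hcontF.continuousOn
  have hswap := integral_integral_swap hFint
  have hinner : ∀ t ∈ Icc (0 : ℝ) 1,
      ∫ z in D, t ^ ((m + 1) * m) * B (y + t ^ (m + 1) • z) ≤ ∫ z, B z := by
    intro t ht
    rcases eq_or_lt_of_le ht.1 with h0 | h0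
    · rcases Nat.eq_zero_or_pos m with hm | hm
      · subst hm
        have : ∀ a : Fin 0 → ℝ, a = 0 := fun a => Subsingleton.elim _ _
        have hDuniv : D = univ := by
          ext a
          simp [hD, this a]
        rw [hDuniv, setIntegral_univ]
        apply le_of_eq
        refine integral_congr_ae (Eventually.of_forall fun z => ?_)
        simp only [mul_zero, pow_zero, one_mul]
        rw [this (y + _), this z]
      · rw [← h0]
        have hne : (m + 1) * m ≠ 0 := by positivity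
        simpa [hne] using hIB
    · have hI : Integrable fun z => t ^ ((m + 1) * m) * B (y + t ^ (m + 1) • z) := by
        apply Integrable.const_mul
        have h1 : Integrable fun z => B (y + z) := hBi.comp_add_left y
        exact (integrable_comp_smul_iff volume (fun z => B (y + z)) (by positivity)).2 h1
      calc ∫ z in D, t ^ ((m + 1) * m) * B (y + t ^ (m + 1) • z)
          ≤ ∫ z, t ^ ((m + 1) * m) * B (y + t ^ (m + 1) • z) := by
            apply setIntegral_le_integral hI
            refine Eventually.of_forall fun z => ?_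
            have := hB0 (y + t ^ (m + 1) • z)
            have := h0.le
            positivity
        _ = ∫ z, B z := by
            rw [integral_const_mul,
              Measure.integral_comp_smul volume (fun z => B (y + z)) (t ^ (m + 1)),
              integral_add_left_eq_self]
            simp only [Module.finrank_fintype_fun_eq_card, Fintype.card_fin, smul_eq_mul]
            rw [abs_of_pos (by positivity), ← pow_mul, ← mul_assoc, mul_inv_cancel₀ (by positivity),
              one_mul]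
  have hdouble : ∫ z in D, ∫ t in Icc (0 : ℝ) 1, t ^ ((m + 1) * m) * B (y + t ^ (m + 1) • z) ≤
      ∫ z, B z := by
    rw [hswap]
    have h1 : IntegrableOn (fun t : ℝ => ∫ z in D, t ^ ((m + 1) * m) * B (y + t ^ (m + 1) • z))
        (Icc 0 1) := by
      have := hFint.integral_prod_right
      exact this
    calc ∫ t in Icc (0 : ℝ) 1, ∫ z in D, t ^ ((m + 1) * m) * B (y + t ^ (m + 1) • z)
        ≤ ∫ t in Icc (0 : ℝ) 1, ∫ z, B z :=
          setIntegral_mono_on h1 (by simp) measurableSet_Icc hinner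
      _ = ∫ z, B z := by simp
  have hdI : IntegrableOn (fun z => ∫ t in Icc (0 : ℝ) 1,
      t ^ ((m + 1) * m) * B (y + t ^ (m + 1) • z)) D := hFint.integral_prod_left
  -- the main inequality
  have hmain : ∀ κ : ℝ, 0 < κ → H y + κ ≤ (∫ z, H z) + 2 ^ m * κ + K * ∫ z, B z := by
    intro κ hκ
    have hHs : IntegrableOn (fun z => H (y + z)) D := (hHi.comp_add_left y).integrableOn
    have hκI : IntegrableOn (fun _ : Fin m → ℝ => κ) D := integrableOn_const hDfin
    have hHκ : IntegrableOn (fun z => H (y + z) + κ) D := hHs.add hκI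
    have h1 : ∫ z in D, (H y + κ) ≤ ∫ z in D, 2 ^ m * (H (y + z) + κ + K *
        ∫ t in Icc (0 : ℝ) 1, t ^ ((m + 1) * m) * B (y + t ^ (m + 1) • z)) := by
      apply setIntegral_mono_on (integrableOn_const hDfin) _ measurableSet_closedBall
      · intro z hz
        exact morrey_ray hH hH0 hB hB0 hHB hκ y z (by simpa [hD] using hz)
      · apply Integrable.const_mul
        exact hHκ.add (hdI.const_mul K)
    have h2 : ∫ z in D, (H y + κ) = 2 ^ m * (H y + κ) := by
      rw [setIntegral_const, measureReal_def, hDvol, smul_eq_mul]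
    have h3 : ∫ z in D, 2 ^ m * (H (y + z) + κ + K *
        ∫ t in Icc (0 : ℝ) 1, t ^ ((m + 1) * m) * B (y + t ^ (m + 1) • z)) =
        2 ^ m * ((∫ z in D, H (y + z)) + 2 ^ m * κ + K *
        ∫ z in D, ∫ t in Icc (0 : ℝ) 1, t ^ ((m + 1) * m) * B (y + t ^ (m + 1) • z)) := by
      rw [integral_const_mul, integral_add hHκ (hdI.const_mul K), integral_add hHs hκI,
        integral_const_mul, setIntegral_const, measureReal_def, hDvol, smul_eq_mul]
    rw [h2, h3] at h1
    have h4 := le_of_mul_le_mul_left h1 (by positivity)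
    have h5 : ∫ z in D, H (y + z) ≤ ∫ z, H z := by
      calc ∫ z in D, H (y + z) ≤ ∫ z, H (y + z) :=
            setIntegral_le_integral (hHi.comp_add_left y) (Eventually.of_forall fun z => hH0 _)
        _ = ∫ z, H z := integral_add_left_eq_self H y
    have h6 := mul_le_mul_of_nonneg_left hdouble hK0
    linarith
  have hlim : H y ≤ (∫ z, H z) + K * ∫ z, B z := by
    refine le_of_forall_pos_le_add fun ε hε => ?_
    have h1 := hmain (ε / 2 ^ m) (by positivity)
    have h2 : 2 ^ m * (ε / 2 ^ m) = ε := by field_simp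
    rw [h2] at h1
    have h3 : 0 < ε / 2 ^ m := by positivity
    linarith
  nlinarith
end Pool.Agent.MP8995
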