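import Mathlib
import Pool.Agent.Lib.MP_8995c5_an.Defs
import Pool.Agent.Lib.MP_8995c5_an.PushMol
import Pool.Agent.Lib.MP_8995c5_an.Energy
import Pool.Agent.Lib.MP_8995c5_an.Morrey
import Pool.Agent.Lib.MP_8995c5_an.Cutoff

set_option autoImplicit false

open MeasureTheory Metric Set Filter Topology
open scoped ENNReal NNReal Convolution

namespace Pool.Agent.MP8995

variable {m : ℕ}

/-- the sequence of bump functions -/
noncomputable def bmpk (n k : ℕ) : ContDiffBump (0 : Fin n → ℝ) where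
  rIn := 1 / ((k : ℝ) + 1)
  rOut := 2 / ((k : ℝ) + 1)
  rIn_pos := by positivity
  rIn_lt_rOut := by gcongr; norm_num

/-- the corresponding mollifiers -/
noncomputable def rhok (n k : ℕ) : (Fin n → ℝ) → ℝ := (bmpk n k).normed volume

theorem rhok_contDiff (n k : ℕ) : ContDiff ℝ (⊤ : ℕ∞) (rhok n k) := (bmpk n k).contDiff_normed

theorem rhok_support (n k : ℕ) : HasCompactSupport (rhok n k) := (bmpk n k).hasCompactSupport_normed

theorem rhok_nonneg (n k : ℕ) (y : Fin n → ℝ) : 0 ≤ rhok n k y := (bmpk n k).nonneg_normed y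

theorem rhok_integral (n k : ℕ) : ∫ y, rhok n k y = 1 := (bmpk n k).integral_normed

theorem rhok_tendsto (n : ℕ) {W : Set (Fin n → ℝ)} (hW : MeasurableSet W) :
    ∀ᵐ y, y ∈ W → Tendsto (fun k => ∫ t in W, rhok n k (y - t)) atTop (𝓝 1) := by
  have hloc : LocallyIntegrable (W.indicator fun _ => (1 : ℝ)) (volume : Measure (Fin n → ℝ)) :=
    (locallyIntegrable_const 1).indicator hW
  have h1 : Tendsto (fun k : ℕ => (bmpk n k).rOut) atTop (𝓝 0) := by
    show Tendsto (fun k : ℕ => 2 / ((k : ℝ) + 1)) atTop (𝓝 0)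
    have := (tendsto_one_div_add_atTop_nhds_zero_nat (𝕜 := ℝ)).const_mul 2
    simpa [div_eq_mul_inv] using this
  have h2 : ∀ᶠ k : ℕ in atTop, (bmpk n k).rOut ≤ 2 * (bmpk n k).rIn := by
    refine Eventually.of_forall fun k => le_of_eq ?_
    show 2 / ((k : ℝ) + 1) = 2 * (1 / ((k : ℝ) + 1))
    ring
  have h3 := ContDiffBump.ae_convolution_tendsto_right_of_locallyIntegrable (φ := bmpk n)
    h1 h2 hloc
  filter_upwards [h3] with y hy hyW
  rw [indicator_of_mem hyW] at hy
  refine hy.congr fun k => ?_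
  rw [convolution_eq_swap, ← integral_indicator hW]
  refine integral_congr_ae (Eventually.of_forall fun t => ?_)
  simp only [ContinuousLinearMap.lsmul_apply, smul_eq_mul]
  by_cases ht : t ∈ W
  · rw [indicator_of_mem ht, indicator_of_mem ht, mul_one]
    rfl
  · rw [indicator_of_notMem ht, indicator_of_notMem ht, mul_zero]

theorem rhok_integrable_sub (n k : ℕ) (y : Fin n → ℝ) : Integrable fun t => rhok n k (y - t) :=
  ((rhok_contDiff n k).continuous.integrable_of_hasCompactSupport (rhok_support n k)).comp_sub_left y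

/-- the key inequality -/
theorem FD.key {U : Set (Fin (m + 1) → ℝ)} {f : (Fin (m + 1) → ℝ) → (Fin (m + 1) → ℝ)}
    {Df : (Fin (m + 1) → ℝ) → Matrix (Fin (m + 1)) (Fin (m + 1)) ℝ}
    {w : (Fin (m + 1) → ℝ) → ℝ} {l C₀ : ℝ}
    (h : FD (m + 1) U f Df w l C₀) (hI : IBP (m + 1) U f Df) {C : ℝ} (hC0 : 0 < C)
    (hC : ∀ (H B : (Fin m → ℝ) → ℝ), ContDiff ℝ 1 H → (∀ y, 0 ≤ H y) → Continuous B →
      (∀ y, 0 ≤ B y) → Integrable H → Integrable B →
      (∀ y j, |pd j H y| ^ (m + 1) ≤ (((m + 1 : ℕ) : ℝ) ^ (m + 1) * |C₀|) * H y ^ m * B y) →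
      ∀ y, H y ≤ C * ((∫ z, H z) + ∫ z, B z))
    {η : (Fin (m + 1) → ℝ) → ℝ} (hη : ContDiff ℝ (⊤ : ℕ∞) η) (hη01 : ∀ x, 0 ≤ η x ∧ η x ≤ 1)
    (hηs : HasCompactSupport η) (hηU : tsupport η ⊆ U)
    (hηi : Integrable fun x => w x ^ m * (∑ j, |pd j η x|) ^ (m + 1))
    {B W : Set (Fin (m + 1) → ℝ)} (hηB : ∀ x ∈ B, η x = 1)
    (hW : MeasurableSet W)
    (hWi : ∀ G : (Fin (m + 1) → ℝ) → ℝ≥0∞, Measurable G →
        ∫⁻ y in W, G y ≤ ∫⁻ x in B, ENNReal.ofReal (Df x).det * G (f x))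
    (hB : MeasurableSet B)
    (i : Fin (m + 1)) {p q : ℝ}
    (hz : ∀ᵐ z ∂(volume.restrict (Icc p q)),
      volume {y : Fin m → ℝ | (i.insertNth z y : Fin (m + 1) → ℝ) ∈ W} ≠ 0) :
    ENNReal.ofReal (q - p) ≤ ENNReal.ofReal (C * ((∫ x, η x ^ (m + 1) * (Df x).det) +
      ∫ x, w x ^ m * (∑ j, |pd j η x|) ^ (m + 1))) := by
  have hf := h.meas_f'
  have hw0 := h.w_nonneg
  have hJ0 := h.det_nonneg
  have hs0 : ∀ x, 0 ≤ ∑ j, |pd j η x| := fun x => Finset.sum_nonneg fun _ _ => abs_nonneg _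
  set gH : (Fin (m + 1) → ℝ) → ℝ := fun x => η x ^ (m + 1) * (Df x).det with hgHdef
  set gB : (Fin (m + 1) → ℝ) → ℝ := fun x => w x ^ m * (∑ j, |pd j η x|) ^ (m + 1) with hgBdef
  have hgH : Integrable gH := h.gH_integrable hη.continuous hη01 (m + 1)
  have hgH0 : ∀ x, 0 ≤ gH x := fun x => by
    have := (hη01 x).1
    have := hJ0 x
    simp only [hgHdef]
    positivity
  have hgB0 : ∀ x, 0 ≤ gB x := fun x => by
    have := hw0 x
    have := hs0 x
    simp only [hgBdef]
    positivity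
  set H : ℕ → (Fin (m + 1) → ℝ) → ℝ := fun k => pm (rhok (m + 1) k) f gH with hHdef
  set Bk : ℕ → (Fin (m + 1) → ℝ) → ℝ := fun k => pm (rhok (m + 1) k) f gB with hBkdef
  have hH1 : ∀ k, ContDiff ℝ 1 (H k) := fun k =>
    pm_contDiff (rhok_contDiff _ k) (rhok_support _ k) hf hgH
  have hB1 : ∀ k, Continuous (Bk k) := fun k =>
    pm_continuous (rhok_contDiff _ k).continuous (rhok_support _ k) hf hηi
  have hH0 : ∀ k y, 0 ≤ H k y := fun k y => pm_nonneg (rhok_nonneg _ k) hgH0 y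
  have hB0 : ∀ k y, 0 ≤ Bk k y := fun k y => pm_nonneg (rhok_nonneg _ k) hgB0 y
  have hHi : ∀ k, Integrable (H k) := fun k =>
    pm_integrable (rhok_contDiff _ k).continuous (rhok_support _ k) hf hgH
  have hBi : ∀ k, Integrable (Bk k) := fun k =>
    pm_integrable (rhok_contDiff _ k).continuous (rhok_support _ k) hf hηi
  have hHint : ∀ k, ∫ y, H k y = ∫ x, gH x := fun k => by
    rw [pm_integral (rhok_contDiff _ k).continuous (rhok_support _ k) hf hgH, rhok_integral,
      one_mul]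
  have hBint : ∀ k, ∫ y, Bk k y = ∫ x, gB x := fun k => by
    rw [pm_integral (rhok_contDiff _ k).continuous (rhok_support _ k) hf hηi, rhok_integral,
      one_mul]
  -- F1
  have F1 := rhok_tendsto (m + 1) hW
  -- F2
  have F2 : ∀ k y, ENNReal.ofReal (∫ t in W, rhok (m + 1) k (y - t)) ≤
      ENNReal.ofReal (H k y) := by
    intro k y
    have hρc := (rhok_contDiff (m + 1) k).continuous
    rw [ofReal_integral_eq_lintegral_ofReal (rhok_integrable_sub (m + 1) k y).integrableOn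
      (Eventually.of_forall fun t => rhok_nonneg _ k _)]
    have h1 := hWi (fun t => ENNReal.ofReal (rhok (m + 1) k (y - t)))
      (hρc.measurable.comp (measurable_const.sub measurable_id)).ennreal_ofReal
    refine h1.trans ?_
    have h2 : ∫⁻ x in B, ENNReal.ofReal (Df x).det * ENNReal.ofReal (rhok (m + 1) k (y - f x)) ≤
        ∫⁻ x in B, ENNReal.ofReal (rhok (m + 1) k (y - f x) * gH x) := by
      apply setLIntegral_mono' hB
      intro x hx
      rw [← ENNReal.ofReal_mul (hJ0 x)]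
      apply ENNReal.ofReal_le_ofReal
      simp only [hgHdef]
      rw [hηB x hx, one_pow, one_mul, mul_comm]
    refine h2.trans ?_
    refine (setLIntegral_le_lintegral _ _).trans (le_of_eq ?_)
    rw [hHdef, ← ofReal_integral_eq_lintegral_ofReal
      (pm_integrand hρc (rhok_support _ k) hf hgH y)
      (Eventually.of_forall fun x => mul_nonneg (rhok_nonneg _ k _) (hgH0 x))]
    rfl
  -- the slicing map
  set e := MeasurableEquiv.piFinSuccAbove (fun _ : Fin (m + 1) => ℝ) i with he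
  have hmp : MeasurePreserving (e.symm) (volume.prod volume) volume :=
    (volume_preserving_piFinSuccAbove (fun _ : Fin (m + 1) => ℝ) i).symm
  have he1 : ∀ z y, e.symm (z, y) = (i.insertNth z y : Fin (m + 1) → ℝ) := fun z y => rfl
  -- F3
  have F3 : ∀ᵐ z : ℝ, ∀ k, Integrable (fun y : Fin m → ℝ => H k (i.insertNth z y)) ∧
      Integrable (fun y : Fin m → ℝ => Bk k (i.insertNth z y)) := by
    rw [ae_all_iff]
    intro k
    have h1 : Integrable (H k ∘ e.symm) (volume.prod volume) :=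
      (hmp.integrable_comp_emb e.symm.measurableEmbedding).2 (hHi k)
    have h2 : Integrable (Bk k ∘ e.symm) (volume.prod volume) :=
      (hmp.integrable_comp_emb e.symm.measurableEmbedding).2 (hBi k)
    filter_upwards [h1.prod_right_ae, h2.prod_right_ae] with z hz1 hz2
    exact ⟨hz1, hz2⟩
  set S : ℕ → ℝ → ℝ≥0∞ := fun k z => ∫⁻ y : Fin m → ℝ,
    ENNReal.ofReal (H k (i.insertNth z y) + Bk k (i.insertNth z y)) with hS
  have hmeasP : ∀ k, Measurable fun y => ENNReal.ofReal (H k y + Bk k y) := fun k =>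
    ((hH1 k).continuous.add (hB1 k)).measurable.ennreal_ofReal
  have hSmeas : ∀ k, Measurable (S k) := by
    intro k
    have : Measurable fun p : ℝ × (Fin m → ℝ) => ENNReal.ofReal
        (H k (e.symm p) + Bk k (e.symm p)) := (hmeasP k).comp e.symm.measurable
    exact this.lintegral_prod_right'
  -- F4
  have F4 : ∀ᵐ z : ℝ, ∀ k (y : Fin m → ℝ),
      ENNReal.ofReal (H k (i.insertNth z y)) ≤ ENNReal.ofReal C * S k z := by
    filter_upwards [F3] with z hz3 k y
    have h1 := hC (fun y => H k (i.insertNth z y)) (fun y => Bk k (i.insertNth z y))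
      ((hH1 k).comp (insertNth_contDiff i z)) (fun y => hH0 k _)
      ((hB1 k).comp (insertNth_contDiff i z).continuous) (fun y => hB0 k _) (hz3 k).1 (hz3 k).2
      (by
        intro y j
        rw [pd_slice i z ((hH1 k).differentiable (by simp))]
        exact h.energy hI hη hη01 hηs hηU hηi (rhok_contDiff _ k) (rhok_support _ k)
          (rhok_nonneg _ k) _ _) y
    have h2 : S k z = ENNReal.ofReal ((∫ y : Fin m → ℝ, H k (i.insertNth z y)) +
        ∫ y : Fin m → ℝ, Bk k (i.insertNth z y)) := by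
      rw [← integral_add (hz3 k).1 (hz3 k).2]
      exact (ofReal_integral_eq_lintegral_ofReal
        (f := fun y : Fin m → ℝ => H k (i.insertNth z y) + Bk k (i.insertNth z y))
        ((hz3 k).1.add (hz3 k).2)
        (Eventually.of_forall fun y => add_nonneg (hH0 k _) (hB0 k _))).symm
    rw [h2, ← ENNReal.ofReal_mul hC0.le]
    exact ENNReal.ofReal_le_ofReal h1
  -- F5
  have F5 : ∀ᵐ z ∂(volume.restrict (Icc p q)),
      1 ≤ liminf (fun k => ENNReal.ofReal C * S k z) atTop := by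
    have h1 : ∀ᵐ z : ℝ, ∀ᵐ y : Fin m → ℝ, (i.insertNth z y : Fin (m + 1) → ℝ) ∈ W →
        Tendsto (fun k => ∫ t in W, rhok (m + 1) k ((i.insertNth z y : Fin (m + 1) → ℝ) - t))
          atTop (𝓝 1) := by
      exact Measure.ae_ae_of_ae_prod (p := fun pr : ℝ × (Fin m → ℝ) => e.symm pr ∈ W →
        Tendsto (fun k => ∫ t in W, rhok (m + 1) k (e.symm pr - t)) atTop (𝓝 1))
        (hmp.quasiMeasurePreserving.ae F1)
    filter_upwards [hz, ae_restrict_of_ae h1, ae_restrict_of_ae F4] with z hz0 hz1 hz4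
    have h2 : ∃ y : Fin m → ℝ, (i.insertNth z y : Fin (m + 1) → ℝ) ∈ W ∧
        Tendsto (fun k => ∫ t in W, rhok (m + 1) k ((i.insertNth z y : Fin (m + 1) → ℝ) - t))
          atTop (𝓝 1) := by
      by_contra hcon
      push Not at hcon
      apply hz0
      refine measure_mono_null ?_ (ae_iff.1 hz1)
      intro y hy
      exact fun hh => hcon y hy (hh hy)
    obtain ⟨y, hyW, hy⟩ := h2
    have h3 : Tendsto (fun k => ENNReal.ofReal
        (∫ t in W, rhok (m + 1) k ((i.insertNth z y : Fin (m + 1) → ℝ) - t))) atTop (𝓝 1) := by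
      have := ENNReal.tendsto_ofReal hy
      rwa [ENNReal.ofReal_one] at this
    rw [← h3.liminf_eq]
    exact liminf_le_liminf (Eventually.of_forall fun k => (F2 k _).trans (hz4 k y))
  -- F6
  have F6 : ∀ k, ∫⁻ z, S k z = ENNReal.ofReal ((∫ x, gH x) + ∫ x, gB x) := by
    intro k
    have h1 : ∫⁻ z, S k z = ∫⁻ y, ENNReal.ofReal (H k y + Bk k y) := by
      rw [← hmp.lintegral_comp (hmeasP k)]
      exact (lintegral_prod (μ := (volume : Measure ℝ)) (ν := (volume : Measure (Fin m → ℝ)))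
        (fun pr => ENNReal.ofReal (H k (e.symm pr) + Bk k (e.symm pr)))
        ((hmeasP k).comp e.symm.measurable).aemeasurable).symm
    have h2 := ofReal_integral_eq_lintegral_ofReal (f := fun y => H k y + Bk k y)
      ((hHi k).add (hBi k)) (Eventually.of_forall fun y => add_nonneg (hH0 k _) (hB0 k _))
    rw [h1, ← h2, integral_add (hHi k) (hBi k), hHint, hBint]
  -- conclusion
  calc ENNReal.ofReal (q - p) = ∫⁻ z in Icc p q, 1 := by
        rw [setLIntegral_one, Real.volume_Icc]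
    _ ≤ ∫⁻ z in Icc p q, liminf (fun k => ENNReal.ofReal C * S k z) atTop :=
        lintegral_mono_ae F5
    _ ≤ liminf (fun k => ∫⁻ z in Icc p q, ENNReal.ofReal C * S k z) atTop :=
        lintegral_liminf_le fun k => (hSmeas k).const_mul _
    _ ≤ liminf (fun _ : ℕ => ENNReal.ofReal (C * ((∫ x, gH x) + ∫ x, gB x))) atTop := by
        refine liminf_le_liminf (Eventually.of_forall fun k => ?_)
        refine (setLIntegral_le_lintegral _ _).trans (le_of_eq ?_)
        rw [lintegral_const_mul _ (hSmeas k), F6, ← ENNReal.ofReal_mul hC0.le]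
    _ = _ := by rw [liminf_const]

/-- a function which is not almost constant crosses a gap -/
theorem exists_gap {α : Type*} [MeasurableSpace α] {μ : Measure α} (hμ : μ ≠ 0) {u : α → ℝ}
    {c : ℝ} (hc : 0 < c) (hcon : ∀ v, ¬ ∀ᵐ x ∂μ, |u x - v| ≤ c) :
    ∃ p q, c / 4 ≤ q - p ∧ μ {x | u x < p} ≠ 0 ∧ μ {x | q < u x} ≠ 0 := by
  have h1 : ∃ k : ℤ, μ {x | (k : ℝ) * c ≤ u x ∧ u x < ((k : ℝ) + 1) * c} ≠ 0 := by
    by_contra hk
    push Not at hk
    apply hμ
    rw [← Measure.measure_univ_eq_zero]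
    refine measure_mono_null ?_ (measure_iUnion_null hk)
    intro x _
    rw [mem_iUnion]
    refine ⟨⌊u x / c⌋, ?_, ?_⟩
    · have := Int.floor_le (u x / c)
      rwa [le_div_iff₀ hc] at this
    · have := Int.lt_floor_add_one (u x / c)
      rwa [div_lt_iff₀ hc] at this
  obtain ⟨k, hk⟩ := h1
  have h2 := hcon (((k : ℝ) + 1 / 2) * c)
  rw [ae_iff] at h2
  by_cases hA : μ {x | ((k : ℝ) + 1 / 2) * c + c < u x} = 0
  · refine ⟨((k : ℝ) + 1 / 2) * c - c, (k : ℝ) * c - c / 4, by linarith, ?_, ?_⟩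
    · intro hB
      apply h2
      refine measure_mono_null ?_ (measure_union_null hA hB)
      intro x hx
      have hx' : ¬ |u x - ((k : ℝ) + 1 / 2) * c| ≤ c := hx
      rw [abs_le, not_and_or, not_le, not_le] at hx'
      rcases hx' with h | h
      · right
        show u x < ((k : ℝ) + 1 / 2) * c - c
        linarith
      · left
        show ((k : ℝ) + 1 / 2) * c + c < u x
        linarith
    · intro hB
      apply hk
      refine measure_mono_null ?_ hB
      intro x hx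
      show (k : ℝ) * c - c / 4 < u x
      have := hx.1
      linarith
  · refine ⟨((k : ℝ) + 1) * c, ((k : ℝ) + 1 / 2) * c + c, by linarith, ?_, hA⟩
    intro hB
    apply hk
    exact measure_mono_null (fun x hx => hx.2) hB

theorem FD.exists_eps {U : Set (Fin (m + 1) → ℝ)} {f : (Fin (m + 1) → ℝ) → (Fin (m + 1) → ℝ)}
    {Df : (Fin (m + 1) → ℝ) → Matrix (Fin (m + 1)) (Fin (m + 1)) ℝ}
    {w : (Fin (m + 1) → ℝ) → ℝ} {l C₀ : ℝ}
    (h : FD (m + 1) U f Df w l C₀) (x₀ : Fin (m + 1) → ℝ) {C c : ℝ} (hc : 0 < c) :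
    ∃ ε : ℝ, 0 < ε ∧ C * ((∫ x in ball x₀ ε, (Df x).det) + ε) < c := by
  have h1 : Tendsto (fun k : ℕ => ∫ x in ball x₀ (1 / ((k : ℝ) + 1)), (Df x).det) atTop
      (𝓝 (∫ x in ⋂ k : ℕ, ball x₀ (1 / ((k : ℝ) + 1)), (Df x).det)) := by
    apply tendsto_setIntegral_of_antitone
    · exact fun k => measurableSet_ball
    · intro a b hab
      apply ball_subset_ball
      apply one_div_le_one_div_of_le (by positivity)
      have : (a : ℝ) ≤ b := by exact_mod_cast hab
      linarith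
    · exact ⟨0, h.int_det.integrableOn⟩
  have h2 : ∫ x in ⋂ k : ℕ, ball x₀ (1 / ((k : ℝ) + 1)), (Df x).det = 0 := by
    apply setIntegral_measure_zero
    refine measure_mono_null ?_ (measure_singleton x₀)
    intro x hx
    rw [mem_iInter] at hx
    rw [mem_singleton_iff, ← dist_le_zero]
    exact ge_of_tendsto tendsto_one_div_add_atTop_nhds_zero_nat
      (Eventually.of_forall fun k => (mem_ball.1 (hx k)).le)
  rw [h2] at h1
  have h3 : Tendsto (fun k : ℕ => C * ((∫ x in ball x₀ (1 / ((k : ℝ) + 1)), (Df x).det) +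
      1 / ((k : ℝ) + 1))) atTop (𝓝 (C * (0 + 0))) :=
    (h1.add tendsto_one_div_add_atTop_nhds_zero_nat).const_mul C
  rw [add_zero, mul_zero] at h3
  obtain ⟨k, hk⟩ := (h3.eventually (gt_mem_nhds hc)).exists
  exact ⟨1 / ((k : ℝ) + 1), by positivity, hk⟩

/-- Small oscillation, assuming the image set lemma and the chain rule lemma. -/
theorem FD.small_osc_of {n : ℕ} (hn : 2 ≤ n) {U : Set (Fin n → ℝ)}
    {f : (Fin n → ℝ) → (Fin n → ℝ)} {Df : (Fin n → ℝ) → Matrix (Fin n) (Fin n) ℝ}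
    {w : (Fin n → ℝ) → ℝ} {l C₀ : ℝ} (h : FD n U f Df w l C₀) (hI : IBP n U f Df)
    (himg : ∀ B : Set (Fin n → ℝ), MeasurableSet B → B ⊆ U →
      ∃ W : Set (Fin n → ℝ), MeasurableSet W ∧
      (∀ G : (Fin n → ℝ) → ℝ≥0∞, Measurable G →
        ∫⁻ y in W, G y ≤ ∫⁻ x in B, ENNReal.ofReal (Df x).det * G (f x)) ∧
      (∀ Z : Set (Fin n → ℝ), MeasurableSet Z → volume (Z ∩ W) = 0 →
        ∀ᵐ x ∂(volume.restrict B), f x ∈ Z → (Df x).det = 0))
    (hnull : ∀ (i : Fin n) (x₀ : Fin n → ℝ) (r : ℝ), 0 < r → ball x₀ r ⊆ U →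
      ∀ Z : Set ℝ, MeasurableSet Z →
      (∀ᵐ x ∂(volume.restrict (ball x₀ r)), f x i ∈ Z → ∀ j, Df x i j = 0) →
      ∀ p q : ℝ, volume (ball x₀ r ∩ {x | f x i < p}) ≠ 0 →
        volume (ball x₀ r ∩ {x | q < f x i}) ≠ 0 → volume (Z ∩ Icc p q) = 0)
    {x₀ : Fin n → ℝ} (hx : x₀ ∈ U) (i : Fin n) {c : ℝ} (hc : 0 < c) :
    ∃ r > 0, ∃ v : ℝ, ∀ᵐ x ∂(volume.restrict (ball x₀ r)), |f x i - v| ≤ c := by
  obtain ⟨m, rfl⟩ : ∃ m, n = m + 1 := ⟨n - 1, by omega⟩
  by_contra hcon
  have hcon' : ∀ r > 0, ∀ v : ℝ, ¬ ∀ᵐ x ∂(volume.restrict (ball x₀ r)), |f x i - v| ≤ c := by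
    intro r hr v hv
    exact hcon ⟨r, hr, v, hv⟩
  obtain ⟨C, hC0, hC⟩ := morrey_slice m (((m + 1 : ℕ) : ℝ) ^ (m + 1) * |C₀|)
  obtain ⟨ε, hε, hεc⟩ := h.exists_eps x₀ (C := C) (show 0 < c / 4 by positivity)
  obtain ⟨η, r, hη, hη01, hηs, hηU, hηε, hr, hrU, hη1, hηi, hηle⟩ := h.exists_cutoff hn hx hε
  simp only [Nat.add_sub_cancel] at hηi hηle
  obtain ⟨W, hW, hWi, hWii⟩ := himg (ball x₀ r) measurableSet_ball hrU
  -- the gap
  have hμ : volume.restrict (ball x₀ r) ≠ 0 := by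
    rw [Ne, Measure.restrict_eq_zero]
    exact (measure_ball_pos volume x₀ hr).ne'
  obtain ⟨p, q, hpq, hp, hq⟩ := exists_gap hμ hc (hcon' r hr)
  have hfi := h.meas_f i
  have hm1 : MeasurableSet {x | f x i < p} := hfi measurableSet_Iio
  have hm2 : MeasurableSet {x | q < f x i} := hfi measurableSet_Ioi
  rw [Measure.restrict_apply hm1, inter_comm] at hp
  rw [Measure.restrict_apply hm2, inter_comm] at hq
  -- the exceptional slices
  set e := MeasurableEquiv.piFinSuccAbove (fun _ : Fin (m + 1) => ℝ) i with he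
  have hmp : MeasurePreserving (e.symm) (volume.prod volume) volume :=
    (volume_preserving_piFinSuccAbove (fun _ : Fin (m + 1) => ℝ) i).symm
  set Z : Set ℝ := {z | volume {y : Fin m → ℝ | (i.insertNth z y : Fin (m + 1) → ℝ) ∈ W} = 0}
    with hZ
  have hWe : MeasurableSet (e.symm ⁻¹' W) := e.symm.measurable hW
  have hZm : MeasurableSet Z := by
    have h1 : Measurable fun z : ℝ => (volume : Measure (Fin m → ℝ))
        (Prod.mk z ⁻¹' (e.symm ⁻¹' W)) := measurable_measure_prodMk_left hWe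
    exact h1 (measurableSet_singleton 0)
  set Z' : Set (Fin (m + 1) → ℝ) := {x | x i ∈ Z} with hZ'
  have hZ'm : MeasurableSet Z' := measurable_pi_apply i hZm
  have hZW : volume (Z' ∩ W) = 0 := by
    rw [← hmp.measure_preimage (hZ'm.inter hW).nullMeasurableSet,
      Measure.measure_prod_null (e.symm.measurable (hZ'm.inter hW))]
    refine Eventually.of_forall fun z => ?_
    by_cases hz : z ∈ Z
    · refine measure_mono_null ?_ hz
      intro y hy
      exact hy.2
    · have : Prod.mk z ⁻¹' (e.symm ⁻¹' (Z' ∩ W)) = ∅ := by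
        ext y
        simp only [mem_preimage, mem_empty_iff_false, iff_false]
        intro hy
        apply hz
        have h1 : (i.insertNth z y : Fin (m + 1) → ℝ) i ∈ Z := hy.1
        rwa [Fin.insertNth_apply_same] at h1
      show (volume : Measure (Fin m → ℝ)) (Prod.mk z ⁻¹' (e.symm ⁻¹' (Z' ∩ W))) = 0
      rw [this, measure_empty]
  have hgrad : ∀ᵐ x ∂(volume.restrict (ball x₀ r)), f x i ∈ Z → ∀ j, Df x i j = 0 := by
    filter_upwards [hWii Z' hZ'm hZW] with x hx hxZ j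
    rw [h.fin_dist x (hx hxZ)]
    rfl
  have hZ0 := hnull i x₀ r hr hrU Z hZm hgrad p q hp hq
  have hz : ∀ᵐ z ∂(volume.restrict (Icc p q)),
      volume {y : Fin m → ℝ | (i.insertNth z y : Fin (m + 1) → ℝ) ∈ W} ≠ 0 := by
    rw [ae_iff]
    simp only [not_not]
    rw [Measure.restrict_apply hZm]
    exact hZ0
  have hkey := h.key hI hC0 hC hη hη01 hηs hηU hηi hη1 hW hWi measurableSet_ball i hz
  have hJ0 := h.det_nonneg
  have hnn1 : 0 ≤ ∫ x, η x ^ (m + 1) * (Df x).det := by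
    apply integral_nonneg
    intro x
    have := (hη01 x).1
    have := hJ0 x
    positivity
  have hnn2 : 0 ≤ ∫ x, w x ^ m * (∑ j, |pd j η x|) ^ (m + 1) := by
    apply integral_nonneg
    intro x
    have := h.w_nonneg x
    have : 0 ≤ ∑ j, |pd j η x| := Finset.sum_nonneg fun _ _ => abs_nonneg _
    positivity
  rw [ENNReal.ofReal_le_ofReal_iff (by positivity)] at hkey
  have hH : ∫ x, η x ^ (m + 1) * (Df x).det ≤ ∫ x in ball x₀ ε, (Df x).det := by
    rw [← integral_indicator measurableSet_ball]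
    apply integral_mono (h.gH_integrable hη.continuous hη01 _)
      (h.int_det.indicator measurableSet_ball)
    intro x
    by_cases hxε : x ∈ ball x₀ ε
    · rw [indicator_of_mem hxε]
      have h1 : η x ^ (m + 1) ≤ 1 := pow_le_one₀ (hη01 x).1 (hη01 x).2
      have := hJ0 x
      show η x ^ (m + 1) * (Df x).det ≤ (Df x).det
      nlinarith
    · rw [indicator_of_notMem hxε]
      have h1 : η x = 0 := by
        by_contra hne
        exact hxε (hηε (subset_tsupport _ hne))
      show η x ^ (m + 1) * (Df x).det ≤ 0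
      rw [h1, zero_pow (by omega), zero_mul]
  have hfin : C * ((∫ x, η x ^ (m + 1) * (Df x).det) +
      ∫ x, w x ^ m * (∑ j, |pd j η x|) ^ (m + 1)) ≤
      C * ((∫ x in ball x₀ ε, (Df x).det) + ε) := by gcongr
  linarith

end Pool.Agent.MP8995
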