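import Mathlib
import Pool.Agent.Lib.MP_8995c5_an.Osc
import Pool.Agent.Lib.MP_8995c5_an.Chain
import Pool.Agent.Lib.MP_8995c5_an.Image

set_option autoImplicit false

open MeasureTheory Metric Set Filter Topology
open scoped ENNReal NNReal

namespace Pool.Agent.MP8995

variable {n : ℕ}

/-- T3.5 small oscillation. -/
theorem FD.small_osc (hn : 2 ≤ n) {U : Set (Fin n → ℝ)}
    {f : (Fin n → ℝ) → (Fin n → ℝ)} {Df : (Fin n → ℝ) → Matrix (Fin n) (Fin n) ℝ}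
    {w : (Fin n → ℝ) → ℝ} {l C₀ : ℝ} (h : FD n U f Df w l C₀) (hI : IBP n U f Df)
    {x₀ : Fin n → ℝ} (hx : x₀ ∈ U) (i : Fin n) {c : ℝ} (hc : 0 < c) :
    ∃ r > 0, ∃ v : ℝ, ∀ᵐ x ∂(volume.restrict (ball x₀ r)), |f x i - v| ≤ c :=
  h.small_osc_of hn hI
    (fun _ hB hBU => exists_image_set h.toSob h.det_nonneg hB hBU)
    (fun i _ _ hr hball _ hZ hz _ _ hp hq =>
      null_of_grad_zero h.toSob i hr hball hZ hz hp hq) hx i hc

end Pool.Agent.MP8995
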