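import Mathlib
import Pool.Agent.Lib.MP_8995c5_an.SmallOsc
import Pool.Agent.Lib.MP_8995c5_an.ContRep

set_option autoImplicit false

open MeasureTheory Metric Set Filter Topology
open scoped ENNReal NNReal

namespace Pool.Agent.MP8995

variable {n : ℕ}

/-! Reduction of the continuity theorem to the integration by parts identity. -/

/-- the weight of a matrix: the power `1/(n-1)` of its inner distortion -/
noncomputable def wt (n : ℕ) (M : Matrix (Fin n) (Fin n) ℝ) : ℝ :=
  (if M.det = 0 then (1 : ℝ) else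
    ‖Matrix.toEuclideanCLM (𝕜 := ℝ) M.adjugate‖ ^ n / M.det ^ (n - 1)) ^ ((1 : ℝ) / ((n : ℝ) - 1))

theorem abs_entry_le_norm (M : Matrix (Fin n) (Fin n) ℝ) (i j : Fin n) :
    |M i j| ≤ ‖Matrix.toEuclideanCLM (𝕜 := ℝ) M‖ := by
  have h1 := (Matrix.toEuclideanCLM (𝕜 := ℝ) M).le_opNorm (EuclideanSpace.single j (1 : ℝ))
  rw [show ‖EuclideanSpace.single j (1 : ℝ)‖ = 1 by simp, mul_one] at h1
  have h2 : M i j = ((Matrix.toEuclideanCLM (𝕜 := ℝ) M) (EuclideanSpace.single j (1 : ℝ))).ofLp i := by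
    rw [Matrix.ofLp_toEuclideanCLM]
    simp
  rw [h2, ← Real.norm_eq_abs]
  exact (PiLp.norm_apply_le _ i).trans h1

theorem msum_le_norm (M : Matrix (Fin n) (Fin n) ℝ) :
    msum M ≤ (n : ℝ) * n * ‖Matrix.toEuclideanCLM (𝕜 := ℝ) M‖ := by
  unfold msum
  calc ∑ i, ∑ j, |M i j| ≤ ∑ _i : Fin n, ∑ _j : Fin n, ‖Matrix.toEuclideanCLM (𝕜 := ℝ) M‖ :=
        Finset.sum_le_sum fun i _ => Finset.sum_le_sum fun j _ => abs_entry_le_norm M i j
    _ = _ := by simp; ring

theorem continuous_norm_CLM :
    Continuous fun M : Matrix (Fin n) (Fin n) ℝ => ‖Matrix.toEuclideanCLM (𝕜 := ℝ) M‖ := by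
  have h1 : Continuous ((Matrix.toEuclideanCLM (𝕜 := ℝ) (n := Fin n)).toAlgEquiv.toLinearMap) :=
    LinearMap.continuous_of_finiteDimensional _
  exact h1.norm

theorem measurable_det_of {D : (Fin n → ℝ) → Matrix (Fin n) (Fin n) ℝ}
    (hD : ∀ i j, Measurable fun x => D x i j) : Measurable fun x => (D x).det := by
  simp only [Matrix.det_apply]
  refine Finset.measurable_sum _ fun σ _ => ?_
  have : Measurable fun x => ∏ i, D x (σ i) i := Finset.measurable_prod _ fun i _ => hD _ _
  exact this.const_smul (Equiv.Perm.sign σ : ℤˣ)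

theorem measurable_wt {D : (Fin n → ℝ) → Matrix (Fin n) (Fin n) ℝ}
    (hD : ∀ i j, Measurable fun x => D x i j) : Measurable fun x => wt n (D x) := by
  have hdet := measurable_det_of hD
  have hadj : Measurable fun x => (fun i j => (D x).adjugate i j : Fin n → Fin n → ℝ) := by
    rw [measurable_pi_iff]
    intro i
    rw [measurable_pi_iff]
    intro j
    exact meas_adj_entry hD i j
  have hnorm : Measurable fun x => ‖Matrix.toEuclideanCLM (𝕜 := ℝ) (D x).adjugate‖ := by
    have h1 : Continuous fun M : Fin n → Fin n → ℝ =>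
        ‖Matrix.toEuclideanCLM (𝕜 := ℝ) (Matrix.of M)‖ :=
      continuous_norm_CLM
    exact h1.measurable.comp hadj
  unfold wt
  refine Measurable.pow_const ?_ _
  refine Measurable.ite (hdet (measurableSet_singleton 0)) measurable_const ?_
  exact (hnorm.pow_const _).div (hdet.pow_const _)

theorem wt_nonneg {M : Matrix (Fin n) (Fin n) ℝ} (hM : 0 ≤ M.det) : 0 ≤ wt n M := by
  unfold wt
  apply Real.rpow_nonneg
  split_ifs
  · exact zero_le_one
  · positivity

theorem wt_adj_bound (hn : 2 ≤ n) {M : Matrix (Fin n) (Fin n) ℝ} (hM : 0 ≤ M.det)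
    (hM0 : M.det = 0 → M = 0) :
    msum M.adjugate ^ n ≤ ((n : ℝ) * n) ^ n * (wt n M * M.det) ^ (n - 1) := by
  by_cases h0 : M.det = 0
  · have h1 : M = 0 := hM0 h0
    have : Nontrivial (Fin n) := Fin.nontrivial_iff_two_le.2 hn
    have h2 : msum M.adjugate = 0 := by
      rw [h1, Matrix.adjugate_zero]
      simp [msum]
    rw [h2, h0, mul_zero, zero_pow (by omega), zero_pow (by omega), mul_zero]
  · have hpos : 0 < M.det := lt_of_le_of_ne hM (Ne.symm h0)
    have hn1 : ((n - 1 : ℕ) : ℝ) = (n : ℝ) - 1 := by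
      rw [Nat.cast_sub (by omega)]
      simp
    have hn2 : (n : ℝ) - 1 ≠ 0 := by
      have : (2 : ℝ) ≤ n := by exact_mod_cast hn
      linarith
    have hw : wt n M ^ (n - 1) =
        ‖Matrix.toEuclideanCLM (𝕜 := ℝ) M.adjugate‖ ^ n / M.det ^ (n - 1) := by
      unfold wt
      rw [if_neg h0, ← Real.rpow_natCast _ (n - 1), ← Real.rpow_mul (by positivity), hn1,
        one_div, inv_mul_cancel₀ hn2, Real.rpow_one]
    rw [mul_pow (wt n M), hw, div_mul_cancel₀ _ (by positivity), ← mul_pow]
    apply pow_le_pow_left₀ (msum_nn _)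
    exact msum_le_norm _

/-- Localisation: a finite distortion map in the sense of the problem gives, on every small ball,
a (modified) finite distortion map in the sense of `FD`. -/
theorem exists_FD (hn : 2 ≤ n) {Ω : Set (Fin n → ℝ)}
    {f : (Fin n → ℝ) → (Fin n → ℝ)} {Df : (Fin n → ℝ) → Matrix (Fin n) (Fin n) ℝ}
    (hf : ∀ i, LocallyIntegrableOn (fun x => f x i) Ω volume)
    (hDf : ∀ i j, LocallyIntegrableOn (fun x => Df x i j) Ω volume)
    (hweak : ∀ φ : (Fin n → ℝ) → ℝ, ContDiff ℝ (⊤ : ℕ∞) φ → HasCompactSupport φ →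
      tsupport φ ⊆ Ω → ∀ i j, ∫ x, f x i * fderiv ℝ φ x (Pi.single j (1 : ℝ) : Fin n → ℝ)
        = - ∫ x, Df x i j * φ x)
    (hdet : LocallyIntegrableOn (fun x => (Df x).det) Ω volume)
    (hfin : ∀ᵐ x ∂(volume.restrict Ω), 0 ≤ (Df x).det ∧ ((Df x).det = 0 → Df x = 0))
    {l : ℝ} (hl : 0 < l) (hexp : LocallyIntegrableOn (fun x => Real.exp (l * wt n (Df x))) Ω volume)
    {U : Set (Fin n → ℝ)} (hU : IsOpen U) (hUb : Bornology.IsBounded U) (hUΩ : closure U ⊆ Ω) :
    ∃ (F : (Fin n → ℝ) → (Fin n → ℝ)) (DF : (Fin n → ℝ) → Matrix (Fin n) (Fin n) ℝ)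
      (w : (Fin n → ℝ) → ℝ), FD n U F DF w l (((n : ℝ) * n) ^ n) ∧
      ∀ᵐ x ∂(volume.restrict U), F x = f x := by
  have hK : IsCompact (closure U) := hUb.isCompact_closure
  have hUm : MeasurableSet U := hU.measurableSet
  have hUsub : U ⊆ Ω := subset_closure.trans hUΩ
  have hfU : ∀ i, IntegrableOn (fun x => f x i) U volume := fun i =>
    ((hf i).integrableOn_compact_subset hUΩ hK).mono_set subset_closure
  have hDfU : ∀ i j, IntegrableOn (fun x => Df x i j) U volume := fun i j =>
    ((hDf i j).integrableOn_compact_subset hUΩ hK).mono_set subset_closure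
  have hdetU : IntegrableOn (fun x => (Df x).det) U volume :=
    (hdet.integrableOn_compact_subset hUΩ hK).mono_set subset_closure
  have hexpU : IntegrableOn (fun x => Real.exp (l * wt n (Df x))) U volume :=
    (hexp.integrableOn_compact_subset hUΩ hK).mono_set subset_closure
  have hfinU : ∀ᵐ x ∂(volume.restrict U), 0 ≤ (Df x).det ∧ ((Df x).det = 0 → Df x = 0) :=
    ae_restrict_of_ae_restrict_of_subset hUsub hfin
  -- measurable representatives
  have hfs : ∀ i, AEStronglyMeasurable (fun x => f x i) (volume.restrict U) :=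
    fun i => (hfU i).aestronglyMeasurable
  have hDs : ∀ i j, AEStronglyMeasurable (fun x => Df x i j) (volume.restrict U) :=
    fun i j => (hDfU i j).aestronglyMeasurable
  set F₀ : Fin n → (Fin n → ℝ) → ℝ := fun i => (hfs i).mk _ with hF₀
  set A : Fin n → Fin n → (Fin n → ℝ) → ℝ := fun i j => (hDs i j).mk _ with hA
  have hF₀m : ∀ i, Measurable (F₀ i) := fun i => (hfs i).stronglyMeasurable_mk.measurable
  have hAm : ∀ i j, Measurable (A i j) := fun i j => (hDs i j).stronglyMeasurable_mk.measurable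
  have hF₀e : ∀ᵐ x ∂(volume.restrict U), ∀ i, f x i = F₀ i x :=
    ae_all_iff.2 fun i => (hfs i).ae_eq_mk
  have hAe : ∀ᵐ x ∂(volume.restrict U), ∀ i j, Df x i j = A i j x :=
    ae_all_iff.2 fun i => ae_all_iff.2 fun j => (hDs i j).ae_eq_mk
  set M : (Fin n → ℝ) → Matrix (Fin n) (Fin n) ℝ := fun x => Matrix.of fun i j => A i j x with hM
  have hMm : ∀ i j, Measurable fun x => M x i j := fun i j => hAm i j
  have hMdet : Measurable fun x => (M x).det := measurable_det_of hMm
  set G : Set (Fin n → ℝ) := {x | 0 ≤ (M x).det ∧ ((M x).det = 0 → M x = 0)} with hG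
  have hGm : MeasurableSet G := by
    have h1 : G = {x | 0 ≤ (M x).det} ∩ ({x | (M x).det = 0}ᶜ ∪ ⋂ i, ⋂ j, {x | M x i j = 0}) := by
      ext x
      simp only [hG, mem_inter_iff, mem_union, mem_compl_iff, mem_iInter]
      constructor
      · rintro ⟨ha, hb⟩
        refine ⟨ha, ?_⟩
        by_cases h0 : (M x).det = 0
        · right
          intro i j
          show M x i j = 0
          rw [hb h0]
          rfl
        · left
          exact h0
      · rintro ⟨ha, hb⟩
        refine ⟨ha, fun h0 => ?_⟩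
        rcases hb with hb | hb
        · exact absurd h0 hb
        · ext i j
          exact hb i j
    rw [h1]
    refine (measurableSet_le measurable_const hMdet).inter (MeasurableSet.union ?_ ?_)
    · exact (hMdet (measurableSet_singleton 0)).compl
    · exact MeasurableSet.iInter fun i => MeasurableSet.iInter fun j =>
        hMm i j (measurableSet_singleton 0)
  classical
  set F : (Fin n → ℝ) → (Fin n → ℝ) := fun x i => U.indicator (F₀ i) x with hF
  set DF : (Fin n → ℝ) → Matrix (Fin n) (Fin n) ℝ := fun x => if x ∈ U ∩ G then M x else 0 with hDF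
  have hDFij : ∀ i j, (fun x => DF x i j) = (U ∩ G).indicator (A i j) := by
    intro i j
    funext x
    simp only [hDF]
    by_cases hx : x ∈ U ∩ G
    · rw [if_pos hx, indicator_of_mem hx]
      rfl
    · rw [if_neg hx, indicator_of_notMem hx]
      rfl
  have hDFm : ∀ i j, Measurable fun x => DF x i j := by
    intro i j
    rw [hDFij]
    exact (hAm i j).indicator (hUm.inter hGm)
  have hDFe : ∀ᵐ x ∂(volume.restrict U), DF x = Df x := by
    filter_upwards [hAe, hfinU, ae_restrict_mem hUm] with x h1 h2 h3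
    have hMx : M x = Df x := by
      ext i j
      exact (h1 i j).symm
    have hxG : x ∈ G := by
      show 0 ≤ (M x).det ∧ ((M x).det = 0 → M x = 0)
      rw [hMx]
      exact h2
    simp only [hDF]
    rw [if_pos ⟨h3, hxG⟩, hMx]
  have hFe : ∀ᵐ x ∂(volume.restrict U), F x = f x := by
    filter_upwards [hF₀e, ae_restrict_mem hUm] with x h1 h2
    funext i
    simp only [hF]
    rw [indicator_of_mem h2, h1 i]
  have hn0 : Nonempty (Fin n) := ⟨⟨0, by omega⟩⟩
  have hDFnn : ∀ x, 0 ≤ (DF x).det ∧ ((DF x).det = 0 → DF x = 0) := by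
    intro x
    simp only [hDF]
    by_cases hx : x ∈ U ∩ G
    · rw [if_pos hx]
      exact hx.2
    · rw [if_neg hx]
      exact ⟨by rw [Matrix.det_zero], fun _ => rfl⟩
  have hDFoff : ∀ x, x ∉ U → DF x = 0 := by
    intro x hx
    simp only [hDF]
    rw [if_neg (fun h => hx h.1)]
  refine ⟨F, DF, fun x => wt n (DF x), ?_, hFe⟩
  refine
    { isOpen := hU
      bdd := hUb
      meas_f := fun i => (hF₀m i).indicator hUm
      meas_Df := hDFm
      int_f := ?_
      int_Df := ?_
      weak := ?_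
      meas_w := measurable_wt hDFm
      w_nonneg := fun x => wt_nonneg (hDFnn x).1
      l_pos := hl
      exp_int := ?_
      int_det := ?_
      det_nonneg := fun x => (hDFnn x).1
      fin_dist := fun x => (hDFnn x).2
      zero_off := hDFoff
      adj_bound := fun x => wt_adj_bound hn (hDFnn x).1 (hDFnn x).2 }
  · intro i
    rw [show (fun x => F x i) = U.indicator (F₀ i) from rfl, integrable_indicator_iff hUm]
    exact (hfU i).congr (hfs i).ae_eq_mk
  · intro i j
    have h1 : (fun x => DF x i j) = U.indicator (fun x => DF x i j) := by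
      funext x
      by_cases hx : x ∈ U
      · rw [indicator_of_mem hx]
      · rw [indicator_of_notMem hx, hDFoff x hx]
        rfl
    rw [h1, integrable_indicator_iff hUm]
    refine (hDfU i j).congr ?_
    filter_upwards [hDFe] with x hx
    rw [hx]
  · intro φ hφ hφs hφU i j
    have h1 := hweak φ hφ hφs (hφU.trans hUsub) i j
    have hz1 : ∀ x, x ∉ U → φ x = 0 := by
      intro x hx
      by_contra hne
      exact hx (hφU (subset_tsupport _ hne))
    have hz2 : ∀ x, x ∉ U → pd j φ x = 0 := by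
      intro x hx
      unfold pd
      have : fderiv ℝ φ x = 0 := by
        by_contra hne
        exact hx (hφU (support_fderiv_subset ℝ hne))
      rw [this]
      rfl
    have h2 : ∫ x, F x i * pd j φ x =
        ∫ x, f x i * fderiv ℝ φ x (Pi.single j (1 : ℝ) : Fin n → ℝ) := by
      rw [← setIntegral_eq_integral_of_forall_compl_eq_zero (s := U)
        (fun x hx => by rw [hz2 x hx, mul_zero]),
        ← setIntegral_eq_integral_of_forall_compl_eq_zero (s := U)
        (f := fun x => f x i * fderiv ℝ φ x (Pi.single j (1 : ℝ) : Fin n → ℝ))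
        (fun x hx => by
          have := hz2 x hx
          unfold pd at this
          rw [this, mul_zero])]
      apply integral_congr_ae
      filter_upwards [hFe] with x hx
      rw [hx]
      rfl
    have h3 : ∫ x, DF x i j * φ x = ∫ x, Df x i j * φ x := by
      rw [← setIntegral_eq_integral_of_forall_compl_eq_zero (s := U)
        (fun x hx => by rw [hz1 x hx, mul_zero]),
        ← setIntegral_eq_integral_of_forall_compl_eq_zero (s := U)
        (f := fun x => Df x i j * φ x)
        (fun x hx => by rw [hz1 x hx, mul_zero])]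
      apply integral_congr_ae
      filter_upwards [hDFe] with x hx
      rw [hx]
    rw [h2, h3]
    exact h1
  · refine hexpU.congr ?_
    filter_upwards [hDFe] with x hx
    rw [hx]
  · have h1 : (fun x => (DF x).det) = U.indicator (fun x => (DF x).det) := by
      funext x
      by_cases hx : x ∈ U
      · rw [indicator_of_mem hx]
      · rw [indicator_of_notMem hx, hDFoff x hx, Matrix.det_zero]
    rw [h1, integrable_indicator_iff hUm]
    refine hdetU.congr ?_
    filter_upwards [hDFe] with x hx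
    rw [hx]

/-- The continuity theorem, from the integration by parts identity. -/
theorem main_of_ibp
    (hibp : ∀ (n : ℕ), 2 ≤ n → ∀ (U : Set (Fin n → ℝ))
      (f : (Fin n → ℝ) → (Fin n → ℝ)) (Df : (Fin n → ℝ) → Matrix (Fin n) (Fin n) ℝ),
      Sob n U f Df → (∀ i j, Integrable fun x => |Df x i j| ^ (n - 1)) →
      (Integrable fun x => (Df x).det) →
      (∀ δ > 0, ∀ t₀ : ℝ, ∃ t : ℝ, t₀ ≤ t ∧ 1 ≤ t ∧
        t ^ ((1 : ℝ) / (n - 1)) *
          ∫ x in {x | t < msum (Df x).adjugate}, msum (Df x).adjugate ≤ δ) →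
      IBP n U f Df) :
  ∀ (n : ℕ), 2 ≤ n → ∀ (Ω : Set (Fin n → ℝ)), IsOpen Ω →
  ∀ (f : (Fin n → ℝ) → (Fin n → ℝ)) (Df : (Fin n → ℝ) → Matrix (Fin n) (Fin n) ℝ),
    (∀ i, MeasureTheory.LocallyIntegrableOn (fun x => f x i) Ω MeasureTheory.volume) →
    (∀ i j, MeasureTheory.LocallyIntegrableOn (fun x => Df x i j) Ω MeasureTheory.volume) →
    (∀ φ : (Fin n → ℝ) → ℝ, ContDiff ℝ (⊤ : ℕ∞) φ → HasCompactSupport φ → tsupport φ ⊆ Ω →
      ∀ i j, ∫ x, f x i * fderiv ℝ φ x (Pi.single j (1 : ℝ) : Fin n → ℝ)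
        = - ∫ x, Df x i j * φ x) →
    MeasureTheory.LocallyIntegrableOn (fun x => (Df x).det) Ω MeasureTheory.volume →
    (∀ᵐ x ∂(MeasureTheory.volume.restrict Ω),
        0 ≤ (Df x).det ∧ ((Df x).det = 0 → Df x = 0)) →
    (∃ l : ℝ, 0 < l ∧ MeasureTheory.LocallyIntegrableOn
        (fun x => Real.exp (l * (if (Df x).det = 0 then (1 : ℝ) else
          ‖Matrix.toEuclideanCLM (𝕜 := ℝ) (Df x).adjugate‖ ^ n / (Df x).det ^ (n - 1))
            ^ ((1 : ℝ) / ((n : ℝ) - 1))))
        Ω MeasureTheory.volume) →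
    ∃ g : (Fin n → ℝ) → (Fin n → ℝ), ContinuousOn g Ω ∧
      f =ᵐ[MeasureTheory.volume.restrict Ω] g := by
  intro n hn Ω hΩ f Df hf hDf hweak hdet hfin ⟨l, hl, hexp⟩
  apply exists_cont_rep hΩ.measurableSet
  intro x₀ hx₀ i c hc
  obtain ⟨ρ, hρ, hρΩ⟩ := Metric.nhds_basis_closedBall.mem_iff.1 (hΩ.mem_nhds hx₀)
  have hcl : closure (ball x₀ ρ) ⊆ Ω := closure_ball_subset_closedBall.trans hρΩ
  obtain ⟨F, DF, w, hFD, hFe⟩ := exists_FD hn hf hDf hweak hdet hfin hl hexp
    (isOpen_ball (x := x₀) (ε := ρ)) isBounded_ball hcl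
  have hI : IBP n (ball x₀ ρ) F DF :=
    hibp n hn _ F DF hFD.toSob (hFD.integrable_pow hn) hFD.int_det (hFD.log_condition hn)
  obtain ⟨r, hr, v, hv⟩ := hFD.small_osc hn hI (mem_ball_self hρ) i hc
  refine ⟨min r ρ, lt_min hr hρ, v, ?_⟩
  have h1 : ∀ᵐ x ∂(volume.restrict (ball x₀ (min r ρ))), |F x i - v| ≤ c :=
    ae_restrict_of_ae_restrict_of_subset (ball_subset_ball (min_le_left _ _)) hv
  have h2 : ∀ᵐ x ∂(volume.restrict (ball x₀ (min r ρ))), F x = f x :=
    ae_restrict_of_ae_restrict_of_subset (ball_subset_ball (min_le_right _ _)) hFe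
  filter_upwards [h1, h2] with x hx1 hx2
  rw [← hx2]
  exact hx1

end Pool.Agent.MP8995
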